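import Mathlib
import Pool.Agent.Lib.MP_fb225e_nt.Zd.Main
import Pool.Agent.Lib.MP_fb225e_nt.Fam.LocalFactor

/-!
MP_fb225e_nt, project TW (zero density for all quadratic twists together): definitions shared by
the modules.
-/

namespace Pool.Agent.MPfb225e.Tw

open NumberField IsDedekindDomain

universe u

/-- The quadratic twist of `W` by `d`: the curve `y² = x³ + d b₂ x² + 8 d² b₄ x + 16 d³ b₆`. -/
def twist {F : Type*} [CommRing F] (W : WeierstrassCurve F) (d : F) : WeierstrassCurve F :=
  ⟨0, d * W.b₂, 0, 8 * d ^ 2 * W.b₄, 16 * d ^ 3 * W.b₆⟩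

/-- The real character `n ↦ (a/n)` for odd `n`, and `0` for even `n`. -/
def psi (a : ℤ) (n : ℕ) : ℤ := if Odd n then jacobiSym a n else 0

open Classical in
/-- The numbers `x_v = a_v / √(Nv)` at the places of good reduction which are not above 2 or 3,
and `0` at the other places. -/
noncomputable def xg {K : Type u} [Field K] [NumberField K] (W : WeierstrassCurve K)
    (v : HeightOneSpectrum (𝓞 K)) : ℝ :=
  if ((W.baseChange (v.adicCompletion K)).minimal (v.adicCompletionIntegers K)).HasGoodReduction
    (v.adicCompletionIntegers K) then Zfr.xK W v else 0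

open Classical in
/-- The sums of the numbers `xg W v` over the places of norm `m`, for `m` prime. -/
noncomputable def yg {K : Type u} [Field K] [NumberField K] (W : WeierstrassCurve K)
    (m : ℕ) : ℝ :=
  if m.Prime then ∑' v : {v : HeightOneSpectrum (𝓞 K) // Fam.N v = m}, xg W v.1 else 0

end Pool.Agent.MPfb225e.Tw
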