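import Mathlib
import Pool.Agent.Lib.MP_fb225e_nt.Tw.Defs

/-!
MP_fb225e_nt, project TW, module Algebra: identities for the quadratic twist, and the number of
points of a twist over a finite field.
-/

namespace Pool.Agent.MPfb225e.Tw

open WeierstrassCurve

theorem twist_Δ {F : Type*} [CommRing F] (W : WeierstrassCurve F) (d : F) :
    (twist W d).Δ = 2 ^ 12 * d ^ 6 * W.Δ := by
  simp only [twist, WeierstrassCurve.Δ, WeierstrassCurve.b₂, WeierstrassCurve.b₄,
    WeierstrassCurve.b₆, WeierstrassCurve.b₈]
  ring

theorem twist_map {F F' : Type*} [CommRing F] [CommRing F'] (φ : F →+* F')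
    (W : WeierstrassCurve F) (d : F) : (twist W d).map φ = twist (W.map φ) (φ d) := by
  ext <;> simp [twist, map_ofNat]

theorem twist_smul {F : Type*} [CommRing F] (C : VariableChange F)
    (W : WeierstrassCurve F) (d : F) :
    (⟨C.u, 4 * d * C.r, 0, 0⟩ : VariableChange F) • twist W d = twist (C • W) d := by
  ext
  · simp [twist, variableChange_a₁]
  · simp only [twist, variableChange_a₂, variableChange_b₂]
    ring
  · simp [twist, variableChange_a₃]
  · simp only [twist, variableChange_a₄, variableChange_b₄]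
    ring
  · simp only [twist, variableChange_a₆, variableChange_b₆]
    ring

theorem twist_twist {F : Type*} [Field F] (h2 : (2 : F) ≠ 0) (W : WeierstrassCurve F) {d : F}
    (hd : d ≠ 0) : ∃ C' : VariableChange F, C' • W = twist (twist W d) d := by
  have h4 : (4 : F) ≠ 0 := by
    have : (4 : F) = 2 * 2 := by norm_num
    rw [this]
    exact mul_ne_zero h2 h2
  have h4d : 4 * d ≠ 0 := mul_ne_zero h4 hd
  set C₁ : VariableChange F := ⟨Units.mk0 (4 * d) h4d, 0, 0, 0⟩ with hC₁
  set C₂ : VariableChange F := ⟨1, 0, -W.a₁ / 2, -W.a₃ / 2⟩ with hC₂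
  refine ⟨C₁⁻¹ * C₂, ?_⟩
  rw [mul_smul, inv_smul_eq_iff]
  ext
  · simp [twist, variableChange_a₁, hC₁, hC₂]
    field_simp
    ring
  · simp [twist, variableChange_a₂, hC₁, hC₂, WeierstrassCurve.b₂]
    field_simp
    ring
  · simp [twist, variableChange_a₃, hC₁, hC₂]
    field_simp
    ring
  · simp [twist, variableChange_a₄, hC₁, hC₂, WeierstrassCurve.b₂, WeierstrassCurve.b₄]
    field_simp
    ring
  · simp [twist, variableChange_a₆, hC₁, hC₂, WeierstrassCurve.b₂, WeierstrassCurve.b₄,
      WeierstrassCurve.b₆]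
    field_simp
    ring

/-! ### Point counts over finite fields -/

section count

variable {k : Type*} [Field k] [Fintype k] [DecidableEq k]

omit [Fintype k] [DecidableEq k] in
theorem ringChar_ne (h2 : (2 : k) ≠ 0) : ringChar k ≠ 2 := by
  intro h
  have := ringChar.Nat.cast_ringChar (R := k)
  rw [h] at this
  exact h2 (by exact_mod_cast this)

/-- The right-hand side of the equation after completing the square. -/
def rhs (W : WeierstrassCurve k) (x : k) : k := 4 * x ^ 3 + W.b₂ * x ^ 2 + 2 * W.b₄ * x + W.b₆

theorem affCard_eq (h2 : (2 : k) ≠ 0) (W : WeierstrassCurve k) :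
    (Fam.affCard W : ℤ) = Fintype.card k + ∑ x : k, quadraticChar k (rhs W x) := by
  have e : {xy : k × k // W.toAffine.Equation xy.1 xy.2} ≃
      (Σ x : k, {z : k // z ^ 2 = rhs W x}) :=
    { toFun := fun p => ⟨p.1.1, 2 * p.1.2 + W.a₁ * p.1.1 + W.a₃, by
        have h := (Affine.equation_iff _ _).1 p.2
        simp only [rhs, WeierstrassCurve.b₂, WeierstrassCurve.b₄, WeierstrassCurve.b₆]
        linear_combination 4 * h⟩
      invFun := fun p => ⟨(p.1, (p.2.1 - W.a₁ * p.1 - W.a₃) / 2), by
        have h := p.2.2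
        simp only [rhs, WeierstrassCurve.b₂, WeierstrassCurve.b₄, WeierstrassCurve.b₆] at h
        rw [Affine.equation_iff]
        field_simp
        linear_combination h⟩
      left_inv := fun p => by
        ext
        · rfl
        · simp only
          field_simp
          ring
      right_inv := fun p => by
        obtain ⟨x, z, hz⟩ := p
        simp only [Sigma.mk.injEq, true_and]
        refine heq_of_eq (Subtype.ext ?_)
        simp only
        field_simp
        ring }
  unfold Fam.affCard
  rw [Nat.card_congr e, Nat.card_sigma]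
  push_cast
  have h1 : ∀ x : k, (Nat.card {z : k // z ^ 2 = rhs W x} : ℤ) = quadraticChar k (rhs W x) + 1 := by
    intro x
    rw [← quadraticChar_card_sqrts (ringChar_ne h2) (rhs W x), Nat.card_eq_fintype_card,
      Set.toFinset_card]
    rfl
  rw [Finset.sum_congr rfl fun x _ => h1 x, Finset.sum_add_distrib, Finset.sum_const,
    Finset.card_univ, nsmul_eq_mul, mul_one, add_comm]

/-- The traces of `W` and of its twist differ by the quadratic character of `d`. -/
theorem card_twist' (h2 : (2 : k) ≠ 0) (W : WeierstrassCurve k) {d : k} (hd : d ≠ 0) :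
    (Nat.card k : ℤ) - Fam.affCard (twist W d) =
      quadraticChar k d * ((Nat.card k : ℤ) - Fam.affCard W) := by
  have h4 : (4 : k) ≠ 0 := by
    have : (4 : k) = 2 * 2 := by norm_num
    rw [this]
    exact mul_ne_zero h2 h2
  have h4d : 4 * d ≠ 0 := mul_ne_zero h4 hd
  have h8 : (8 * d : k) ≠ 0 := by
    have : (8 * d : k) = 2 * (4 * d) := by ring
    rw [this]
    exact mul_ne_zero h2 h4d
  rw [affCard_eq h2, affCard_eq h2, Nat.card_eq_fintype_card]
  have e : ∑ x : k, quadraticChar k (rhs (twist W d) x) =
      ∑ x : k, quadraticChar k (rhs (twist W d) (4 * d * x)) :=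
    (Equiv.sum_comp (Equiv.mulLeft₀ (4 * d) h4d)
      (fun x => quadraticChar k (rhs (twist W d) x))).symm
  have h1 : ∀ x : k, quadraticChar k (rhs (twist W d) (4 * d * x)) =
      quadraticChar k d * quadraticChar k (rhs W x) := by
    intro x
    have h3 : rhs (twist W d) (4 * d * x) = (8 * d) ^ 2 * (d * rhs W x) := by
      simp only [rhs, twist, WeierstrassCurve.b₂, WeierstrassCurve.b₄, WeierstrassCurve.b₆]
      ring
    rw [h3, map_mul, map_mul, quadraticChar_sq_one' h8, one_mul]
  rw [e, Finset.sum_congr rfl fun x _ => h1 x, ← Finset.mul_sum]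
  ring

end count

theorem card_twist {k : Type*} [Field k] [Fintype k] [DecidableEq k] (h2 : (2 : k) ≠ 0)
    (W : WeierstrassCurve k) {d : k} (hd : d ≠ 0) :
    (Nat.card k : ℤ) - (Fam.affCard (twist W d) : ℤ) =
      quadraticChar k d * ((Nat.card k : ℤ) - (Fam.affCard W : ℤ)) :=
  card_twist' h2 W hd

end Pool.Agent.MPfb225e.Tw
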