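import Mathlib
import Pool.Agent.Lib.MP_fb225e_nt.Tw.Algebra

/-!
MP_fb225e_nt, project TW, module Good: the coefficients of a quadratic twist at the places of good
reduction.
-/

namespace Pool.Agent.MPfb225e.Tw

open WeierstrassCurve IsDedekindDomain IsLocalRing NumberField HeightOneSpectrum
open IsDiscreteValuationRing
open Fam (affCard)

universe u

section dvr

variable (R : Type u) [CommRing R] [IsDomain R] [IsDiscreteValuationRing R] {F : Type u}
  [Field F] [Algebra R F] [IsFractionRing R F]

/-- `W` has a model over `R` whose discriminant is a unit. -/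
def GoodModel (W : WeierstrassCurve F) : Prop :=
  ∃ (V : WeierstrassCurve R) (C : VariableChange F), C • W = V.map (algebraMap R F) ∧ IsUnit V.Δ

variable {R}

omit [IsDomain R] [IsDiscreteValuationRing R] [IsFractionRing R F] in
theorem goodModel_smul {W : WeierstrassCurve F} (h : GoodModel R W) (D : VariableChange F) :
    GoodModel R (D • W) := by
  obtain ⟨V, C, h1, h2⟩ := h
  refine ⟨V, C * D⁻¹, ?_, h2⟩
  rw [mul_smul, inv_smul_smul, h1]

omit [IsDomain R] [IsDiscreteValuationRing R] [IsFractionRing R F] in
theorem goodModel_iff_smul {W : WeierstrassCurve F} (D : VariableChange F) :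
    GoodModel R (D • W) ↔ GoodModel R W := by
  refine ⟨fun h => ?_, fun h => goodModel_smul h D⟩
  have := goodModel_smul h D⁻¹
  rwa [inv_smul_smul] at this

omit [IsDomain R] [IsDiscreteValuationRing R] [IsFractionRing R F] in
theorem model_tw {W : WeierstrassCurve F} {V : WeierstrassCurve R} {C : VariableChange F}
    (h : C • W = V.map (algebraMap R F)) (d : R) :
    (⟨C.u, 4 * algebraMap R F d * C.r, 0, 0⟩ : VariableChange F) • twist W (algebraMap R F d) =
      (twist V d).map (algebraMap R F) := by
  rw [twist_smul, h, twist_map]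

omit [IsDomain R] [IsDiscreteValuationRing R] in
theorem unit_tw_Δ (h2 : IsUnit (2 : R)) {V : WeierstrassCurve R} (hV : IsUnit V.Δ) {d : R}
    (hd : IsUnit d) : IsUnit (twist V d).Δ := by
  rw [twist_Δ]
  exact ((h2.pow 12).mul (hd.pow 6)).mul hV

omit [IsDomain R] [IsDiscreteValuationRing R] [IsFractionRing R F] in
theorem goodModel_tw (h2 : IsUnit (2 : R)) {W : WeierstrassCurve F} (h : GoodModel R W) {d : R}
    (hd : IsUnit d) : GoodModel R (twist W (algebraMap R F d)) := by
  obtain ⟨V, C, h1, h3⟩ := h
  exact ⟨twist V d, _, model_tw h1 d, unit_tw_Δ h2 h3 hd⟩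

theorem goodModel_tw_iff (h2 : IsUnit (2 : R)) (W : WeierstrassCurve F) {d : R}
    (hd : IsUnit d) : GoodModel R (twist W (algebraMap R F d)) ↔ GoodModel R W := by
  refine ⟨fun h => ?_, fun h => goodModel_tw h2 h hd⟩
  have h3 := goodModel_tw h2 h hd
  have hF2 : (2 : F) ≠ 0 := by
    have := h2.map (algebraMap R F)
    rw [map_ofNat] at this
    exact this.ne_zero
  obtain ⟨C, hC⟩ := twist_twist hF2 W (hd.map (algebraMap R F)).ne_zero
  rw [← hC] at h3
  exact (goodModel_iff_smul C).1 h3

theorem good_iff (h2 : IsUnit (2 : R)) (h3 : IsUnit (3 : R)) (W : WeierstrassCurve F) :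
    (W.minimal R).HasGoodReduction R ↔ GoodModel R W := by
  constructor
  · intro h
    refine ⟨integralModel R (W.minimal R), (W.exists_isMinimal R).choose, ?_, ?_⟩
    · exact (baseChange_integralModel_eq R (W.minimal R)).symm
    · have h1 := h.goodReduction
      rw [← integralModel_Δ_eq R (W.minimal R)] at h1
      by_contra hu
      have h4 : (integralModel R (W.minimal R)).Δ ∈
          (IsDiscreteValuationRing.maximalIdeal R).asIdeal := hu
      have h5 := (valuation_lt_one_iff_mem (K := F) _ _).2 h4
      rw [h1] at h5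
      exact lt_irrefl _ h5
  · rintro ⟨V, C, h1, h4⟩
    exact (Fam.good_of_integral R W V C h1 h4 h2 h3).1

/-- The linear coefficients of the local polynomials of a curve and of its twist. -/
theorem coeff_tw [Fintype (ResidueField R)]
    [DecidableEq (ResidueField R)] (h2 : IsUnit (2 : R))
    (h3 : IsUnit (3 : R)) {W W' : WeierstrassCurve F} (h : GoodModel R W) {d : R} (hd : IsUnit d)
    (D : VariableChange F) (hD : D • W' = twist W (algebraMap R F d)) :
    (W'.localPolynomial R).coeff 1 =
      quadraticChar (ResidueField R) (residue R d) * (W.localPolynomial R).coeff 1 := by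
  obtain ⟨V, C, h1, h4⟩ := h
  have hk2 : (2 : ResidueField R) ≠ 0 := by
    have := (residue_ne_zero_iff_isUnit (2 : R)).2 h2
    rwa [map_ofNat] at this
  have hkd : residue R d ≠ 0 := (residue_ne_zero_iff_isUnit d).2 hd
  have h5 := model_tw h1 d
  rw [← hD, ← mul_smul] at h5
  rw [Fam.coeff_localPolynomial R _ (twist V d) _ h5 (unit_tw_Δ h2 h4 hd) h2 h3,
    Fam.coeff_localPolynomial R W V C h1 h4 h2 h3, twist_map, card_twist hk2 _ hkd]
  ring

end dvr

/-- The quadratic character of a finite field of prime order. -/
theorem quadraticChar_equiv {k : Type*} [Field k] [Fintype k] [DecidableEq k] {p : ℕ}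
    [Fact p.Prime] (e : k ≃+* ZMod p) (a : k) :
    quadraticChar k a = quadraticChar (ZMod p) (e a) := by
  have h0 : e a = 0 ↔ a = 0 := e.map_eq_zero_iff
  have h1 : IsSquare (e a) ↔ IsSquare a := by
    constructor
    · rintro ⟨b, hb⟩
      refine ⟨e.symm b, ?_⟩
      apply e.injective
      rw [hb, map_mul, e.apply_symm_apply]
    · rintro ⟨b, hb⟩
      exact ⟨e b, by rw [hb, map_mul]⟩
  simp only [quadraticChar_apply, quadraticCharFun, h0, h1]

/-- TW: the coefficients of the twist. -/
theorem xg_twist {K : Type u} [Field K] [NumberField K] (W V : WeierstrassCurve K) (d : ℤ)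
    (C : VariableChange K) (hV : C • V = twist W (d : K)) (v : HeightOneSpectrum (𝓞 K)) {p : ℕ}
    (hp : p.Prime) (hv : Fam.N v = p) (h3 : 3 < p) (hpd : ¬ (p : ℤ) ∣ d) :
    xg V v = (psi d p : ℝ) * xg W v := by
  classical
  have hfact : Fact p.Prime := ⟨hp⟩
  set R := v.adicCompletionIntegers K with hR
  set F := v.adicCompletion K with hF
  set k := ResidueField R with hk
  have hcard : Nat.card k = p := by
    rw [← hv]
    exact Curve.qv_eq v
  have := Fintype.ofFinite k
  have hcard' : Fintype.card k = Fintype.card (ZMod p) := by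
    rw [ZMod.card, ← hcard, Nat.card_eq_fintype_card]
  let e : k ≃+* ZMod p := FiniteField.ringEquivOfCardEq hcard'
  have hint : ∀ z : ℤ, (z : ZMod p) ≠ 0 → (z : k) ≠ 0 := by
    intro z hz h
    apply hz
    have := congrArg e h
    rw [map_intCast, map_zero] at this
    exact this
  have hunit : ∀ z : ℤ, (z : ZMod p) ≠ 0 → IsUnit (z : R) := by
    intro z hz
    rw [← residue_ne_zero_iff_isUnit, map_intCast]
    exact hint z hz
  obtain ⟨n2, n3⟩ := Fam.small_ne_zero h3
  have u2 : IsUnit (2 : R) := by
    have := hunit 2 (by exact_mod_cast n2)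
    exact_mod_cast this
  have u3 : IsUnit (3 : R) := by
    have := hunit 3 (by exact_mod_cast n3)
    exact_mod_cast this
  have k2 : (2 : k) ≠ 0 := by
    have := hint 2 (by exact_mod_cast n2)
    exact_mod_cast this
  have k3 : (3 : k) ≠ 0 := by
    have := hint 3 (by exact_mod_cast n3)
    exact_mod_cast this
  have hd : (d : ZMod p) ≠ 0 := fun h => hpd ((ZMod.intCast_zmod_eq_zero_iff_dvd d p).1 h)
  have ud : IsUnit (d : R) := hunit d hd
  have hexc : v ∉ Curve.exc K := by
    intro h
    rcases h with h | h
    · exact k2 h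
    · exact k3 h
  -- the relation over the completion
  have hVF : (C.map (algebraMap K F)) • (V.baseChange F) =
      twist (W.baseChange F) (algebraMap R F (d : R)) := by
    have e1 : (twist W (d : K)).map (algebraMap K F) =
        twist (W.baseChange F) (algebraMap R F (d : R)) := by
      rw [twist_map, map_intCast, map_intCast]
      rfl
    rw [← e1, ← hV, ← map_variableChange]
    rfl
  have hgood : (((V.baseChange F).minimal R).HasGoodReduction R) ↔
      (((W.baseChange F).minimal R).HasGoodReduction R) := by
    rw [good_iff u2 u3, good_iff u2 u3, ← goodModel_tw_iff u2 (W.baseChange F) ud, ← hVF,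
      goodModel_iff_smul]
  have hchar : quadraticChar k (residue R (d : R)) = psi d p := by
    have hodd : Odd p := hp.odd_of_ne_two (by omega)
    rw [quadraticChar_equiv e, map_intCast, map_intCast]
    unfold psi
    rw [if_pos hodd, ← jacobiSym.legendreSym.to_jacobiSym]
    rfl
  unfold xg
  by_cases hg : (((W.baseChange F).minimal R).HasGoodReduction R)
  · rw [if_pos hg, if_pos (hgood.2 hg)]
    unfold Zfr.xK
    rw [if_neg hexc, if_neg hexc,
      coeff_tw u2 u3 ((good_iff u2 u3 _).1 hg) ud _ hVF, hchar]
    push_cast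
    ring
  · rw [if_neg hg, if_neg fun h => hg (hgood.1 h), mul_zero]

end Pool.Agent.MPfb225e.Tw
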