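import Mathlib
import Pool.Agent.Lib.MP_fb225e_nt.Tw.Good
import Pool.Agent.Lib.MP_fb225e_nt.Zfr.PlacesBias

/-!
MP_fb225e_nt, project TW, module Compare: the numbers `x_v` of a twist and of the curve, for all
places; densities of places and of primes.
-/

set_option linter.all false

namespace Pool.Agent.MPfb225e.Tw

open Filter Topology
open NumberField IsDedekindDomain WeierstrassCurve

universe u

/-- The relation between `x_v` of the curve and of the twist at the good places. -/
theorem cmp_good (E : WeierstrassCurve ℚ) (W₀ : WeierstrassCurve ℤ) (C₀ : VariableChange ℚ)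
    (hC₀ : C₀ • E = W₀.map (Int.castRingHom ℚ)) {K : Type u} [Field K] [NumberField K]
    (V : WeierstrassCurve K) (d : ℤ) (C : VariableChange K)
    (hV : C • V = twist (E.baseChange K) (d : K)) (v : HeightOneSpectrum (𝓞 K)) {p : ℕ}
    (hp : p.Prime) (hv : Fam.N v = p) (h3 : 3 < p) (hpd : ¬ (p : ℤ) ∣ d)
    (hΔ : ((W₀.Δ : ℤ) : ZMod p) ≠ 0) :
    Zfr.xK V v = (psi d (Fam.N v) : ℝ) * Zfr.xK (E.baseChange K) v := by
  classical
  have hfact : Fact p.Prime := ⟨hp⟩
  have hmain := xg_twist (E.baseChange K) V d C hV v hp hv h3 hpd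
  set W : WeierstrassCurve K := E.baseChange K with hW
  set R := v.adicCompletionIntegers K with hR
  set F := v.adicCompletion K with hF
  set k := IsLocalRing.ResidueField R with hk
  have hcard : Nat.card k = p := by
    rw [← hv]
    exact Curve.qv_eq v
  have := Fintype.ofFinite k
  have hcard' : Fintype.card k = Fintype.card (ZMod p) := by
    rw [ZMod.card, ← hcard, Nat.card_eq_fintype_card]
  let e : k ≃+* ZMod p := FiniteField.ringEquivOfCardEq hcard'
  have hint : ∀ z : ℤ, (z : ZMod p) ≠ 0 → (z : k) ≠ 0 := by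
    intro z hz h
    apply hz
    have := congrArg e h
    rw [map_intCast, map_zero] at this
    exact this
  have hunit : ∀ z : ℤ, (z : ZMod p) ≠ 0 → IsUnit (z : R) := by
    intro z hz
    rw [← IsLocalRing.residue_ne_zero_iff_isUnit, map_intCast]
    exact hint z hz
  obtain ⟨n2, n3⟩ := Fam.small_ne_zero h3
  have u2 : IsUnit (2 : R) := by
    have := hunit 2 (by exact_mod_cast n2)
    exact_mod_cast this
  have u3 : IsUnit (3 : R) := by
    have := hunit 3 (by exact_mod_cast n3)
    exact_mod_cast this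
  have hd : (d : ZMod p) ≠ 0 := fun h => hpd ((ZMod.intCast_zmod_eq_zero_iff_dvd d p).1 h)
  have ud : IsUnit (d : R) := hunit d hd
  -- the relation over the completion
  have hVF : (C.map (algebraMap K F)) • (V.baseChange F) =
      twist (W.baseChange F) (algebraMap R F (d : R)) := by
    have e1 : (twist W (d : K)).map (algebraMap K F) =
        twist (W.baseChange F) (algebraMap R F (d : R)) := by
      rw [twist_map, map_intCast, map_intCast]
      rfl
    rw [← e1, ← hV, ← map_variableChange]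
    rfl
  have hgood : (((V.baseChange F).minimal R).HasGoodReduction R) ↔
      (((W.baseChange F).minimal R).HasGoodReduction R) := by
    rw [good_iff u2 u3, good_iff u2 u3, ← goodModel_tw_iff u2 (W.baseChange F) ud, ← hVF,
      goodModel_iff_smul]
  -- the curve has good reduction
  have hg : ((W.baseChange F).minimal R).HasGoodReduction R := by
    set V₀ : WeierstrassCurve R := W₀.map (Int.castRingHom R) with hVdef
    set φ : ℚ →+* F := (algebraMap K F).comp (algebraMap ℚ K) with hφ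
    have hV₀ : (C₀.map φ) • (W.baseChange F) = V₀.map (algebraMap R F) := by
      have e1 : W.baseChange F = E.map φ := by
        rw [hW, WeierstrassCurve.baseChange, WeierstrassCurve.baseChange,
          WeierstrassCurve.map_map]
      rw [e1, map_variableChange, hC₀, hVdef, WeierstrassCurve.map_map,
        WeierstrassCurve.map_map]
      congr 1
      exact Subsingleton.elim _ _
    have hVΔ : IsUnit V₀.Δ := by
      rw [hVdef, map_Δ]
      exact hunit _ hΔ
    exact (Fam.good_of_integral R (W.baseChange F) V₀ (C₀.map φ) hV₀ hVΔ u2 u3).1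
  unfold xg at hmain
  rw [if_pos hg, if_pos (hgood.2 hg)] at hmain
  rw [hv]
  exact hmain

theorem cmp_sum_log (d : ℤ) (hd : d ≠ 0) :
    ∑ p ∈ d.natAbs.primeFactors, Real.log (p : ℝ) ≤ Real.log |(d : ℝ)| := by
  have h0 : d.natAbs ≠ 0 := Int.natAbs_ne_zero.2 hd
  have h1 : (∏ p ∈ d.natAbs.primeFactors, p) ≤ d.natAbs :=
    Nat.le_of_dvd (Nat.pos_of_ne_zero h0) (Nat.prod_primeFactors_dvd _)
  have h2 : |(d : ℝ)| = (d.natAbs : ℝ) := by
    rw [Nat.cast_natAbs, Int.cast_abs]
  rw [h2, ← Real.log_prod (fun p hp => by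
    have := (Nat.prime_of_mem_primeFactors hp).pos
    positivity)]
  apply Real.log_le_log
  · refine Finset.prod_pos fun p hp => ?_
    have := (Nat.prime_of_mem_primeFactors hp).pos
    exact_mod_cast this
  · have h3 : ((∏ p ∈ d.natAbs.primeFactors, p : ℕ) : ℝ) ≤ (d.natAbs : ℝ) := by exact_mod_cast h1
    rw [Nat.cast_prod] at h3
    exact h3

/-- The places at which the relation between `x_v` of the curve and of the twist fails. -/
theorem compare (E : WeierstrassCurve ℚ) [E.IsElliptic] (n : ℕ) : ∃ C : ℝ, 0 < C ∧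
    ∀ (K : Type u) [Field K] [NumberField K], Module.finrank ℚ K = n →
    ∀ (V : WeierstrassCurve K) (d : ℤ) (C' : VariableChange K), d ≠ 0 →
    C' • V = twist (E.baseChange K) (d : K) → ∀ ε : ℝ, 0 < ε →
    ∑' v : HeightOneSpectrum (𝓞 K),
      {v | Zfr.xK V v ≠ (psi d (Fam.N v) : ℝ) * Zfr.xK (E.baseChange K) v}.indicator
        (fun v => Real.log (nrm v) * nrm v ^ (-(1 + ε))) v ≤ C + n * Real.log |(d : ℝ)| := by
  classical
  obtain ⟨W₀, C₀, hC₀⟩ := Fam.exists_int_model E
  have hΔ := Fam.disc_ne_zero E hC₀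
  set B : ℕ := max 3 W₀.Δ.natAbs with hB
  -- the bounds in terms of the smallest prime factor
  set F1 : ℕ → ℝ := fun m => 4 * (m : ℝ) ^ (-(3 / 2 : ℝ)) with hF1
  set F2 : ℕ → ℝ := fun m => if m ≤ B then 1 else 0 with hF2
  have hs1 : Summable F1 := (Real.summable_nat_rpow.2 (by norm_num)).mul_left _
  have hs2 : Summable F2 := by
    refine summable_of_ne_finset_zero (s := Finset.range (B + 1)) fun m hm => ?_
    rw [hF2]
    simp only
    rw [if_neg]
    intro h
    exact hm (Finset.mem_range.2 (by omega))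
  have h10 : ∀ m, 0 ≤ F1 m := fun m => by rw [hF1]; positivity
  have h20 : ∀ m, 0 ≤ F2 m := fun m => by rw [hF2]; simp only; split_ifs <;> norm_num
  have h1t : 0 ≤ ∑' m, F1 m := tsum_nonneg h10
  have h2t : 0 ≤ ∑' m, F2 m := tsum_nonneg h20
  refine ⟨n * (∑' m, F1 m + ∑' m, F2 m) + 1, by positivity, ?_⟩
  intro K _ _ hn V d C' hd hV ε hε
  set S : Set (HeightOneSpectrum (𝓞 K)) :=
    {v | Zfr.xK V v ≠ (psi d (Fam.N v) : ℝ) * Zfr.xK (E.baseChange K) v} with hS
  set F3 : ℕ → ℝ := fun m => if m ∈ d.natAbs.primeFactors then Real.log m else 0 with hF3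
  have hterm0 : ∀ m : ℕ, 0 ≤ Real.log m * (m : ℝ) ^ (-(1 + ε)) := by
    intro m
    exact mul_nonneg (Real.log_natCast_nonneg m) (by positivity)
  have h30 : ∀ m, 0 ≤ F3 m := fun m => by
    rw [hF3]; simp only; split_ifs
    · exact Real.log_natCast_nonneg m
    · exact le_rfl
  have hs3' : ∀ m ∉ d.natAbs.primeFactors, F3 m = 0 := fun m hm => if_neg hm
  have hs3 : Summable F3 := summable_of_ne_finset_zero (s := d.natAbs.primeFactors) hs3'
  have hF3g : ∑' m, F3 m ≤ Real.log |(d : ℝ)| := by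
    rw [tsum_eq_sum hs3']
    refine le_trans (le_of_eq ?_) (cmp_sum_log d hd)
    exact Finset.sum_congr rfl fun p hp => if_pos hp
  -- the pointwise bound
  have hpt : ∀ v : HeightOneSpectrum (𝓞 K), S.indicator
        (fun v => Real.log (nrm v) * nrm v ^ (-(1 + ε))) v ≤
      F1 (Fam.N v).minFac + F2 (Fam.N v).minFac + F3 (Fam.N v).minFac := by
    intro v
    have hN1 := Fam.one_lt_N v
    have hN1' : (1 : ℝ) ≤ (Fam.N v : ℝ) := by exact_mod_cast hN1.le
    have h1 := h10 (Fam.N v).minFac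
    have h2 := h20 (Fam.N v).minFac
    have h3 := h30 (Fam.N v).minFac
    by_cases hy : v ∈ S
    swap
    · rw [Set.indicator_of_notMem (by exact hy)]
      linarith
    rw [Set.indicator_of_mem (by exact hy), Fam.nrm_eq_N]
    by_cases hp : (Fam.N v).Prime
    · have hmf : (Fam.N v).minFac = Fam.N v := hp.minFac_eq
      rw [hmf] at h1 h2 h3 ⊢
      have h5 := Zfr.pb_term_le hN1' hε
      by_cases hlt : Fam.N v ≤ B
      · have h4 : F2 (Fam.N v) = 1 := by rw [hF2]; simp only; rw [if_pos hlt]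
        have h6 : Real.log (Fam.N v : ℝ) / (Fam.N v : ℝ) ≤ 1 := by
          rw [div_le_one (by linarith)]
          have := Real.log_le_sub_one_of_pos (show (0 : ℝ) < (Fam.N v : ℝ) by linarith)
          linarith
        linarith
      · rw [not_le] at hlt
        have h3' : 3 < Fam.N v := lt_of_le_of_lt (le_max_left _ _) hlt
        have h4 : W₀.Δ.natAbs < Fam.N v := lt_of_le_of_lt (le_max_right _ _) hlt
        have h5' : ((W₀.Δ : ℤ) : ZMod (Fam.N v)) ≠ 0 := by
          intro h
          rw [ZMod.intCast_zmod_eq_zero_iff_dvd] at h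
          have h6 := Int.natAbs_dvd_natAbs.2 h
          rw [Int.natAbs_natCast] at h6
          have := Nat.le_of_dvd (Nat.pos_of_ne_zero (Int.natAbs_ne_zero.2 hΔ)) h6
          omega
        have hdv : ((Fam.N v : ℕ) : ℤ) ∣ d := by
          by_contra hnd
          exact hy (cmp_good E W₀ C₀ hC₀ V d C' hV v hp rfl h3' hnd h5')
        have hmem : Fam.N v ∈ d.natAbs.primeFactors := by
          rw [Nat.mem_primeFactors]
          exact ⟨hp, Int.natCast_dvd.1 hdv, Int.natAbs_ne_zero.2 hd⟩
        have h12 : F3 (Fam.N v) = Real.log (Fam.N v : ℝ) := if_pos hmem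
        have h13 : Real.log (Fam.N v : ℝ) / (Fam.N v : ℝ) ≤ Real.log (Fam.N v : ℝ) :=
          div_le_self (Real.log_nonneg hN1') hN1'
        linarith
    · have h4 := Fam.sq_minFac_le v hp
      have hm0 : 0 < (Fam.N v).minFac := Nat.minFac_pos _
      have h5 := Zfr.pb_term_le hN1' hε
      have h6 := Zfr.pb_log_div_le hN1'
      have h7 : (Fam.N v : ℝ) ^ (-(3 / 4 : ℝ)) ≤ (((Fam.N v).minFac : ℝ) ^ 2) ^ (-(3 / 4 : ℝ)) := by
        apply Real.rpow_le_rpow_of_nonpos
        · positivity
        · exact_mod_cast h4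
        · norm_num
      have h8 : (((Fam.N v).minFac : ℝ) ^ 2) ^ (-(3 / 4 : ℝ)) =
          ((Fam.N v).minFac : ℝ) ^ (-(3 / 2 : ℝ)) := by
        rw [← Real.rpow_natCast, ← Real.rpow_mul (by positivity)]
        norm_num
      rw [h8] at h7
      have h9 : F1 (Fam.N v).minFac = 4 * ((Fam.N v).minFac : ℝ) ^ (-(3 / 2 : ℝ)) := rfl
      linarith
  -- sum over finite sets
  have hn' : Module.finrank ℤ (𝓞 K) = n := by rw [RingOfIntegers.rank, hn]
  have hld : 0 ≤ Real.log |(d : ℝ)| := le_trans (tsum_nonneg h30) hF3g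
  refine Real.tsum_le_of_sum_le (fun v => ?_) fun U => ?_
  · rw [Set.indicator_apply]
    split_ifs
    · rw [Fam.nrm_eq_N]
      exact hterm0 _
    · exact le_rfl
  set G : ℕ → ℝ := fun m => F1 m + F2 m + F3 m with hG
  have hG0 : ∀ m, 0 ≤ G m := fun m => by
    have h1 := h10 m
    have h2 := h20 m
    have h3 := h30 m
    rw [hG]; simp only; linarith
  have hGs : Summable G := (hs1.add hs2).add hs3
  calc ∑ v ∈ U, S.indicator (fun v => Real.log (nrm v) * nrm v ^ (-(1 + ε))) v
      ≤ ∑ v ∈ U, G (Fam.N v).minFac := Finset.sum_le_sum fun v _ => hpt v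
    _ = ∑ p ∈ U.image (fun v => (Fam.N v).minFac),
        ((U.filter fun v => (Fam.N v).minFac = p).card : ℝ) * G p := by
        rw [Finset.sum_comp (fun p : ℕ => G p) fun v => (Fam.N v).minFac]
        simp only [nsmul_eq_mul]
    _ ≤ ∑ p ∈ U.image (fun v => (Fam.N v).minFac), (n : ℝ) * G p := by
        refine Finset.sum_le_sum fun p hp => ?_
        obtain ⟨v, -, rfl⟩ := Finset.mem_image.1 hp
        refine mul_le_mul_of_nonneg_right ?_ (hG0 _)
        have h1 := Fam.one_lt_N v
        rw [← hn']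
        exact_mod_cast Fam.card_above_le (Nat.minFac_prime (by omega)) _
          fun w hw => (Finset.mem_filter.1 hw).2
    _ ≤ ∑' p, (n : ℝ) * G p := (hGs.mul_left _).sum_le_tsum _
        fun p _ => mul_nonneg (by positivity) (hG0 p)
    _ = n * (∑' m, F1 m + ∑' m, F2 m) + n * ∑' m, F3 m := by
        rw [tsum_mul_left, hG]
        rw [(hs1.add hs2).tsum_add hs3, hs1.tsum_add hs2]
        ring
    _ ≤ n * (∑' m, F1 m + ∑' m, F2 m) + 1 + n * Real.log |(d : ℝ)| := by
        have := mul_le_mul_of_nonneg_left hF3g (Nat.cast_nonneg n)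
        linarith

/-- Densities of places and of primes. -/
theorem bias_places_set (E : WeierstrassCurve ℚ) [E.IsElliptic] (n : ℕ) : ∃ C : ℝ,
    ∀ (K : Type u) [Field K] [NumberField K], Module.finrank ℚ K = n → ∀ (Y : Set ℝ) (ε : ℝ),
    0 < ε →
    ∑' v : HeightOneSpectrum (𝓞 K), {v | Zfr.xK (E.baseChange K) v ∈ Y}.indicator
        (fun v => Real.log (nrm v) * nrm v ^ (-(1 + ε))) v ≤
      n * ∑' p : Nat.Primes, {p : Nat.Primes | Fam.lam E p ∈ Y}.indicator
        (fun p : Nat.Primes => Real.log p * (p : ℝ) ^ (-(1 + ε))) p + C := by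
  classical
  obtain ⟨W₀, C₀, hC₀⟩ := Fam.exists_int_model E
  have hΔ := Fam.disc_ne_zero E hC₀
  set B : ℕ := max 3 W₀.Δ.natAbs with hB
  -- the bounds in terms of the smallest prime factor
  set F1 : ℕ → ℝ := fun m => 4 * (m : ℝ) ^ (-(3 / 2 : ℝ)) with hF1
  set F2 : ℕ → ℝ := fun m => if m ≤ B then 1 else 0 with hF2
  have hs1 : Summable F1 := (Real.summable_nat_rpow.2 (by norm_num)).mul_left _
  have hs2 : Summable F2 := by
    refine summable_of_ne_finset_zero (s := Finset.range (B + 1)) fun m hm => ?_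
    rw [hF2]
    simp only
    rw [if_neg]
    intro h
    exact hm (Finset.mem_range.2 (by omega))
  have h10 : ∀ m, 0 ≤ F1 m := fun m => by rw [hF1]; positivity
  have h20 : ∀ m, 0 ≤ F2 m := fun m => by rw [hF2]; simp only; split_ifs <;> norm_num
  refine ⟨n * (∑' m, F1 m + ∑' m, F2 m), ?_⟩
  intro K _ _ hn Y ε hε
  set g : Nat.Primes → ℝ := {p : Nat.Primes | Fam.lam E p ∈ Y}.indicator
        (fun p : Nat.Primes => Real.log p * (p : ℝ) ^ (-(1 + ε))) with hg
  set F3 : ℕ → ℝ := fun m => if m.Prime ∧ Fam.lam E m ∈ Y then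
    Real.log m * (m : ℝ) ^ (-(1 + ε)) else 0 with hF3
  have hterm0 : ∀ m : ℕ, 0 ≤ Real.log m * (m : ℝ) ^ (-(1 + ε)) := by
    intro m
    exact mul_nonneg (Real.log_natCast_nonneg m) (by positivity)
  have h30 : ∀ m, 0 ≤ F3 m := fun m => by
    rw [hF3]; simp only; split_ifs
    · exact hterm0 m
    · exact le_rfl
  have hs3 : Summable F3 := by
    refine Summable.of_nonneg_of_le h30 (fun m => ?_) (Zfr.pb_summable hε)
    rw [hF3]; simp only; split_ifs
    · exact le_rfl
    · exact hterm0 m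
  have hF3g : ∑' m, F3 m = ∑' p, g p := by
    have hsup : Function.support F3 ⊆ {m : ℕ | m.Prime} := by
      intro m hm
      by_contra h
      rw [Set.mem_ofPred_eq] at h
      apply hm
      rw [hF3]
      simp [h]
    rw [← tsum_subtype_eq_of_support_subset hsup]
    refine tsum_congr fun p => ?_
    have hp : (p : ℕ).Prime := p.2
    by_cases hy : Fam.lam E (p : ℕ) ∈ Y
    · have e1 : F3 (p : ℕ) = Real.log (p : ℕ) * ((p : ℕ) : ℝ) ^ (-(1 + ε)) := if_pos ⟨hp, hy⟩
      have e2 : g ⟨(p : ℕ), hp⟩ = Real.log (p : ℕ) * ((p : ℕ) : ℝ) ^ (-(1 + ε)) :=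
        Set.indicator_of_mem (s := {p : Nat.Primes | Fam.lam E p ∈ Y}) hy _
      exact e1.trans e2.symm
    · have e1 : F3 (p : ℕ) = 0 := if_neg fun h => hy h.2
      have e2 : g ⟨(p : ℕ), hp⟩ = 0 :=
        Set.indicator_of_notMem (s := {p : Nat.Primes | Fam.lam E p ∈ Y}) hy _
      exact e1.trans e2.symm
  -- the pointwise bound
  have hpt : ∀ v : HeightOneSpectrum (𝓞 K), {v | Zfr.xK (E.baseChange K) v ∈ Y}.indicator
        (fun v => Real.log (nrm v) * nrm v ^ (-(1 + ε))) v ≤
      F1 (Fam.N v).minFac + F2 (Fam.N v).minFac + F3 (Fam.N v).minFac := by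
    intro v
    have hN1 := Fam.one_lt_N v
    have hN1' : (1 : ℝ) ≤ (Fam.N v : ℝ) := by exact_mod_cast hN1.le
    have h1 := h10 (Fam.N v).minFac
    have h2 := h20 (Fam.N v).minFac
    have h3 := h30 (Fam.N v).minFac
    by_cases hy : Zfr.xK (E.baseChange K) v ∈ Y
    swap
    · rw [Set.indicator_of_notMem (by exact hy)]
      linarith
    rw [Set.indicator_of_mem (by exact hy), Fam.nrm_eq_N]
    by_cases hp : (Fam.N v).Prime
    · have hmf : (Fam.N v).minFac = Fam.N v := hp.minFac_eq
      rw [hmf] at h1 h2 h3 ⊢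
      by_cases hlt : Fam.N v ≤ B
      · have h4 : F2 (Fam.N v) = 1 := by rw [hF2]; simp only; rw [if_pos hlt]
        have h5 := Zfr.pb_term_le hN1' hε
        have h6 : Real.log (Fam.N v : ℝ) / (Fam.N v : ℝ) ≤ 1 := by
          rw [div_le_one (by linarith)]
          have := Real.log_le_sub_one_of_pos (show (0 : ℝ) < (Fam.N v : ℝ) by linarith)
          linarith
        linarith
      · rw [not_le] at hlt
        have h3' : 3 < Fam.N v := lt_of_le_of_lt (le_max_left _ _) hlt
        have h4 : W₀.Δ.natAbs < Fam.N v := lt_of_le_of_lt (le_max_right _ _) hlt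
        have h5 : ((W₀.Δ : ℤ) : ZMod (Fam.N v)) ≠ 0 := by
          intro h
          rw [ZMod.intCast_zmod_eq_zero_iff_dvd] at h
          have h6 := Int.natAbs_dvd_natAbs.2 h
          rw [Int.natAbs_natCast] at h6
          have := Nat.le_of_dvd (Nat.pos_of_ne_zero (Int.natAbs_ne_zero.2 hΔ)) h6
          omega
        obtain ⟨h7, h8⟩ := Fam.coeff_eq_yy E W₀ C₀ hC₀ v rfl hp h3' h5
        have h9 := Fam.lam_eq_yy E W₀ C₀ hC₀ hp h3' h5
        have h11 : Zfr.xK (E.baseChange K) v = Fam.lam E (Fam.N v) := by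
          unfold Zfr.xK
          rw [if_neg h7, h8, h9]
        have h12 : F3 (Fam.N v) = Real.log (Fam.N v : ℝ) * (Fam.N v : ℝ) ^ (-(1 + ε)) := by
          rw [hF3]; simp only; rw [if_pos ⟨hp, h11 ▸ hy⟩]
        linarith
    · have h4 := Fam.sq_minFac_le v hp
      have hm0 : 0 < (Fam.N v).minFac := Nat.minFac_pos _
      have h5 := Zfr.pb_term_le hN1' hε
      have h6 := Zfr.pb_log_div_le hN1'
      have h7 : (Fam.N v : ℝ) ^ (-(3 / 4 : ℝ)) ≤ (((Fam.N v).minFac : ℝ) ^ 2) ^ (-(3 / 4 : ℝ)) := by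
        apply Real.rpow_le_rpow_of_nonpos
        · positivity
        · exact_mod_cast h4
        · norm_num
      have h8 : (((Fam.N v).minFac : ℝ) ^ 2) ^ (-(3 / 4 : ℝ)) =
          ((Fam.N v).minFac : ℝ) ^ (-(3 / 2 : ℝ)) := by
        rw [← Real.rpow_natCast, ← Real.rpow_mul (by positivity)]
        norm_num
      rw [h8] at h7
      have h9 : F1 (Fam.N v).minFac = 4 * ((Fam.N v).minFac : ℝ) ^ (-(3 / 2 : ℝ)) := rfl
      linarith
  -- sum over finite sets
  have hn' : Module.finrank ℤ (𝓞 K) = n := by rw [RingOfIntegers.rank, hn]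
  have hgtsum : 0 ≤ ∑' p, g p := by rw [← hF3g]; exact tsum_nonneg h30
  have h1t : 0 ≤ ∑' m, F1 m := tsum_nonneg h10
  have h2t : 0 ≤ ∑' m, F2 m := tsum_nonneg h20
  refine Real.tsum_le_of_sum_le (fun v => ?_) fun V => ?_
  · rw [Set.indicator_apply]
    split_ifs
    · rw [Fam.nrm_eq_N]
      exact hterm0 _
    · exact le_rfl
  set G : ℕ → ℝ := fun m => F1 m + F2 m + F3 m with hG
  have hG0 : ∀ m, 0 ≤ G m := fun m => by
    have h1 := h10 m
    have h2 := h20 m
    have h3 := h30 m
    rw [hG]; simp only; linarith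
  have hGs : Summable G := (hs1.add hs2).add hs3
  calc ∑ v ∈ V, {v | Zfr.xK (E.baseChange K) v ∈ Y}.indicator
        (fun v => Real.log (nrm v) * nrm v ^ (-(1 + ε))) v
      ≤ ∑ v ∈ V, G (Fam.N v).minFac := Finset.sum_le_sum fun v _ => hpt v
    _ = ∑ p ∈ V.image (fun v => (Fam.N v).minFac),
        ((V.filter fun v => (Fam.N v).minFac = p).card : ℝ) * G p := by
        rw [Finset.sum_comp (fun p : ℕ => G p) fun v => (Fam.N v).minFac]
        simp only [nsmul_eq_mul]
    _ ≤ ∑ p ∈ V.image (fun v => (Fam.N v).minFac), (n : ℝ) * G p := by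
        refine Finset.sum_le_sum fun p hp => ?_
        obtain ⟨v, -, rfl⟩ := Finset.mem_image.1 hp
        refine mul_le_mul_of_nonneg_right ?_ (hG0 _)
        have h1 := Fam.one_lt_N v
        rw [← hn']
        exact_mod_cast Fam.card_above_le (Nat.minFac_prime (by omega)) _
          fun w hw => (Finset.mem_filter.1 hw).2
    _ ≤ ∑' p, (n : ℝ) * G p := (hGs.mul_left _).sum_le_tsum _
        fun p _ => mul_nonneg (by positivity) (hG0 p)
    _ = n * ∑' p, g p + n * (∑' m, F1 m + ∑' m, F2 m) := by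
        rw [tsum_mul_left, hG]
        rw [(hs1.add hs2).tsum_add hs3, hs1.tsum_add hs2, hF3g]
        ring

end Pool.Agent.MPfb225e.Tw
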