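import Mathlib
import Pool.Agent.Lib.MP_fb225e_nt.Tw.Defs

/-!
MP_fb225e_nt, project TW, module RealChar: the real characters `psi a`, sums over intervals.
-/

namespace Pool.Agent.MPfb225e.Tw

open NumberTheorySymbols

theorem psi_mul_left (a b : ℤ) (n : ℕ) : psi (a * b) n = psi a n * psi b n := by
  unfold psi
  split_ifs with h
  · exact jacobiSym.mul_left a b n
  · simp

theorem psi_mul_right (a : ℤ) (m n : ℕ) : psi a (m * n) = psi a m * psi a n := by
  unfold psi
  by_cases hm : Odd m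
  · by_cases hn : Odd n
    · have i1 : NeZero m := ⟨fun h => by simp [h] at hm⟩
      have i2 : NeZero n := ⟨fun h => by simp [h] at hn⟩
      rw [if_pos (hm.mul hn), if_pos hm, if_pos hn, jacobiSym.mul_right]
    · rw [if_neg (by rw [Nat.odd_mul]; tauto), if_neg hn, mul_zero]
  · rw [if_neg (by rw [Nat.odd_mul]; tauto), if_neg hm, zero_mul]

theorem abs_psi_le (a : ℤ) (n : ℕ) : |psi a n| ≤ 1 := by
  unfold psi
  split_ifs with h
  · rcases jacobiSym.trichotomy a n with h | h | h <;> simp [h]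
  · simp

/-- `m` is a square modulo `b` when `b = 1` modulo `8` and modulo `m`. -/
private theorem rch_one {b m : ℕ} (hm : m ≠ 0) (h8 : b % 8 = 1) (hb : b ≡ 1 [MOD m]) :
    J((m : ℤ) | b) = 1 := by
  have hbo : Odd b := Nat.odd_iff.2 (by omega)
  obtain ⟨k, m', hm', rfl⟩ := Nat.exists_eq_two_pow_mul_odd hm
  have h2 : J((2 : ℤ) | b) = 1 := by
    rw [jacobiSym.at_two hbo, ZMod.χ₈_nat_eq_if_mod_eight]
    simp [h8, show ¬ b % 2 = 0 by omega]
  have h3 : J((m' : ℤ) | b) = 1 := by
    rw [jacobiSym.quadratic_reciprocity_one_mod_four' hm' (by omega)]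
    have h4 : b ≡ 1 [MOD m'] := hb.of_dvd (Dvd.intro_left _ rfl)
    have h5 : ((b : ℤ)) % (m' : ℤ) = 1 % (m' : ℤ) := by
      have := h4
      unfold Nat.ModEq at this
      exact_mod_cast congrArg (fun x : ℕ => (x : ℤ)) this
    rw [jacobiSym.mod_left' h5, jacobiSym.one_left]
  push_cast
  rw [jacobiSym.mul_left, jacobiSym.pow_left, h2, h3]
  simp

/-- A class coprime to `a` on which the character is `-1`. -/
private theorem rch_exists {a g a0 : ℤ} (ha : a = g ^ 2 * a0) (h0 : a ≠ 0)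
    (hsq : Squarefree a0) (h1 : a0 ≠ 1) :
    ∃ b : ℕ, Odd b ∧ b.Coprime a.natAbs ∧ J(a | b) = -1 := by
  have hg : g ≠ 0 := by rintro rfl; simp at ha; exact h0 ha
  have ha0 : a0 ≠ 0 := by rintro rfl; simp at ha; exact h0 ha
  have hN : a.natAbs ≠ 0 := by simpa using h0
  have hA : a0.natAbs ≠ 0 := by simpa using ha0
  have hdv : a0.natAbs ∣ a.natAbs := by
    rw [ha, Int.natAbs_mul]; exact Dvd.intro_left _ rfl
  have hgd : g.natAbs ∣ a.natAbs := by
    rw [ha, Int.natAbs_mul, Int.natAbs_pow, pow_two, mul_assoc]; exact Dvd.intro _ rfl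
  -- it is enough to look at a0
  suffices h : ∃ b : ℕ, Odd b ∧ b.Coprime a.natAbs ∧ J(a0 | b) = -1 by
    obtain ⟨b, hb, hc, hj⟩ := h
    refine ⟨b, hb, hc, ?_⟩
    have hgb : g.gcd b = 1 := by
      have : Nat.Coprime g.natAbs b := (Nat.Coprime.coprime_dvd_right hgd hc).symm
      simpa [Int.gcd] using this
    rw [ha, jacobiSym.mul_left, jacobiSym.sq_one' hgb, hj]
    simp
  have hsqn : Squarefree a0.natAbs := Int.squarefree_natAbs.2 hsq
  by_cases hr : ∃ r : ℕ, r.Prime ∧ r ≠ 2 ∧ r ∣ a0.natAbs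
  · obtain ⟨r, hrp, hr2, hrd⟩ := hr
    have i1 : Fact r.Prime := ⟨hrp⟩
    set M := a.natAbs / r ^ a.natAbs.factorization r with hMdef
    have hMc : Nat.Coprime r M := Nat.coprime_ordCompl hrp hN
    have hMN : r ^ a.natAbs.factorization r * M = a.natAbs := Nat.ordProj_mul_ordCompl_eq_self _ _
    have hM0 : M ≠ 0 := by
      intro h; rw [h, mul_zero] at hMN; exact hN hMN.symm
    obtain ⟨c, hc⟩ := FiniteField.exists_nonsquare (F := ZMod r) (by
      rw [ZMod.ringChar_zmod_n]; exact hr2)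
    have hcop : Nat.Coprime (8 * M) r := by
      apply Nat.Coprime.mul_left _ hMc.symm
      have : Nat.Coprime 2 r := (Nat.coprime_primes Nat.prime_two hrp).2 (Ne.symm hr2)
      exact Nat.Coprime.pow_left 3 this
    obtain ⟨b, hb1, hb2⟩ := Nat.chineseRemainder hcop 1 c.val
    have h8 : b % 8 = 1 := hb1.of_mul_right M
    have hbM : b ≡ 1 [MOD M] := hb1.of_mul_left 8
    have hbc : ((b : ℕ) : ZMod r) = c := by
      have := (ZMod.natCast_eq_natCast_iff b c.val r).2 hb2
      rw [this, ZMod.natCast_zmod_val]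
    have hbr : Nat.Coprime b r := by
      rw [Nat.coprime_comm, hrp.coprime_iff_not_dvd]
      intro h
      have : ((b : ℕ) : ZMod r) = 0 := (ZMod.natCast_eq_zero_iff b r).2 h
      rw [hbc] at this
      exact hc (this ▸ IsSquare.zero)
    have hbM' : Nat.Coprime b M := by
      have := hbM.gcd_eq
      rw [Nat.coprime_iff_gcd_eq_one, this]; simp
    refine ⟨b, Nat.odd_iff.2 (by omega), ?_, ?_⟩
    · rw [← hMN]; exact Nat.Coprime.mul_right (Nat.Coprime.pow_right _ hbr) hbM'
    obtain ⟨m, hm⟩ := hrd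
    have hm0 : m ≠ 0 := by rintro rfl; simp at hm; exact ha0 hm
    have hmr : Nat.Coprime r m := by
      rw [hm] at hsqn
      exact Nat.coprime_of_squarefree_mul hsqn
    have hmM : m ∣ M := by
      have h5 : m ∣ r ^ a.natAbs.factorization r * M := by
        rw [hMN]; exact (Dvd.intro_left r hm.symm).trans hdv
      exact Nat.Coprime.dvd_of_dvd_mul_left (Nat.Coprime.pow_right _ hmr.symm) h5
    have hJm : J((m : ℤ) | b) = 1 := rch_one hm0 h8 (hbM.of_dvd hmM)
    have hJr : J((r : ℤ) | b) = -1 := by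
      rw [jacobiSym.quadratic_reciprocity_one_mod_four' (hrp.odd_of_ne_two hr2) (by omega),
        ← jacobiSym.legendreSym.to_jacobiSym, legendreSym.eq_neg_one_iff]
      simpa [hbc] using hc
    have hbo : Odd b := Nat.odd_iff.2 (by omega)
    have hm1 : J((-1 : ℤ) | b) = 1 := by
      rw [jacobiSym.at_neg_one hbo, ZMod.χ₄_nat_one_mod_four (by omega)]
    have hprod : J((a0.natAbs : ℤ) | b) = -1 := by
      rw [hm]; push_cast; rw [jacobiSym.mul_left, hJr, hJm]; simp
    rcases Int.natAbs_eq a0 with h | h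
    · rw [h]; exact hprod
    · rw [h, neg_eq_neg_one_mul, jacobiSym.mul_left, hm1, hprod]; simp
  · push Not at hr
    obtain ⟨k, m', hm', hk⟩ := Nat.exists_eq_two_pow_mul_odd hA
    have hm1 : m' = 1 := by
      by_contra h
      obtain ⟨r, hrp, hrd⟩ := Nat.exists_prime_and_dvd h
      have : r ≠ 2 := by
        rintro rfl
        exact (Nat.not_even_iff_odd.2 hm') (even_iff_two_dvd.2 hrd)
      exact hr r hrp this (hk ▸ (hrd.mul_left _))
    have hk1 : k ≤ 1 := by
      by_contra h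
      have : 2 * 2 ∣ a0.natAbs := by
        rw [hk]
        exact (pow_dvd_pow 2 (show 2 ≤ k by omega)).mul_right _
      have := hsqn 2 this
      simp at this
    have hcases : a0 = -1 ∨ a0 = 2 ∨ a0 = -2 := by
      rw [hm1, mul_one] at hk
      interval_cases k
      · rcases Int.natAbs_eq a0 with h | h
        · rw [hk] at h; simp at h; exact absurd h h1
        · rw [hk] at h; left; simpa using h
      · rcases Int.natAbs_eq a0 with h | h
        · rw [hk] at h; right; left; simpa using h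
        · rw [hk] at h; right; right; simpa using h
    obtain ⟨j, M, hM, hj⟩ := Nat.exists_eq_two_pow_mul_odd hN
    have hcop : Nat.Coprime 8 M := by
      have : Nat.Coprime 2 M := (Nat.coprime_two_left).2 hM
      exact Nat.Coprime.pow_left 3 this
    have key : ∀ t : ℕ, t % 2 = 1 → t < 8 →
        ∃ b : ℕ, b % 8 = t ∧ b.Coprime a.natAbs := by
      intro t ht ht8
      obtain ⟨b, hb1, hb2⟩ := Nat.chineseRemainder hcop t 1
      have h8 : b % 8 = t := by
        have := hb1
        unfold Nat.ModEq at this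
        rw [this, Nat.mod_eq_of_lt ht8]
      refine ⟨b, h8, ?_⟩
      rw [hj]
      apply Nat.Coprime.mul_right
      · exact Nat.Coprime.pow_right _ (Nat.coprime_two_right.2 (Nat.odd_iff.2 (by omega)))
      · rw [Nat.coprime_iff_gcd_eq_one, hb2.gcd_eq]; simp
    rcases hcases with h | h | h
    · obtain ⟨b, hb, hc⟩ := key 3 rfl (by norm_num)
      have hbo : Odd b := Nat.odd_iff.2 (by omega)
      refine ⟨b, hbo, hc, ?_⟩
      rw [h, jacobiSym.at_neg_one hbo, ZMod.χ₄_nat_three_mod_four (by omega)]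
    · obtain ⟨b, hb, hc⟩ := key 5 rfl (by norm_num)
      have hbo : Odd b := Nat.odd_iff.2 (by omega)
      refine ⟨b, hbo, hc, ?_⟩
      rw [h, jacobiSym.at_two hbo, ZMod.χ₈_nat_eq_if_mod_eight]
      simp [hb, show ¬ b % 2 = 0 by omega]
    · obtain ⟨b, hb, hc⟩ := key 5 rfl (by norm_num)
      have hbo : Odd b := Nat.odd_iff.2 (by omega)
      refine ⟨b, hbo, hc, ?_⟩
      rw [h, jacobiSym.at_neg_two hbo, ZMod.χ₈'_nat_eq_if_mod_eight]
      simp [hb, show ¬ b % 2 = 0 by omega]

private theorem rch_split {d d' : ℤ} (hd : Squarefree d) (hd' : Squarefree d') (hne : d ≠ d') :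
    ∃ g a0 : ℤ, d * d' = g ^ 2 * a0 ∧ Squarefree a0 ∧ a0 ≠ 1 := by
  have hgp : 0 < Int.gcd d d' := Int.gcd_pos_of_ne_zero_left _ hd.ne_zero
  obtain ⟨m, n, hmn, h1, h2⟩ := Int.exists_gcd_one hgp
  refine ⟨(Int.gcd d d' : ℤ), m * n, ?_, ?_, ?_⟩
  · calc d * d' = (m * (Int.gcd d d' : ℤ)) * (n * (Int.gcd d d' : ℤ)) := by rw [← h1, ← h2]
      _ = _ := by ring
  · rw [squarefree_mul_iff]
    refine ⟨(Int.isCoprime_iff_gcd_eq_one.2 hmn).isRelPrime, ?_, ?_⟩
    · exact hd.squarefree_of_dvd (Dvd.intro _ h1.symm)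
    · exact hd'.squarefree_of_dvd (Dvd.intro _ h2.symm)
  · intro h
    apply hne
    rcases Int.mul_eq_one_iff_eq_one_or_neg_one.1 h with ⟨ha, hb⟩ | ⟨ha, hb⟩
    · exact (h1.trans (by rw [ha, hb])).trans h2.symm
    · exact (h1.trans (by rw [ha, hb])).trans h2.symm

private theorem rch_period {f : ℕ → ℤ} {q b : ℕ} (hq : 0 < q) (hf : Function.Periodic f q)
    (hb : b.Coprime q) (hneg : ∀ n, f (b * n) = - f n) :
    ∑ i ∈ Finset.range q, f i = 0 := by
  obtain ⟨m, rfl⟩ : ∃ m, q = m + 1 := ⟨q - 1, by omega⟩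
  have h1 : ∑ i ∈ Finset.range (m + 1), f i = ∑ x : ZMod (m + 1), f x.val :=
    (Fin.sum_univ_eq_sum_range f (m + 1)).symm
  have h2 : ∑ x : ZMod (m + 1), f x.val
      = ∑ x : ZMod (m + 1), f ((ZMod.unitOfCoprime b hb : ZMod (m + 1)) * x).val :=
    (Equiv.sum_comp (Units.mulLeft (ZMod.unitOfCoprime b hb)) (fun x => f x.val)).symm
  have h3 : ∀ x : ZMod (m + 1),
      f ((ZMod.unitOfCoprime b hb : ZMod (m + 1)) * x).val = - f x.val := by
    intro x
    rw [ZMod.coe_unitOfCoprime, ZMod.val_mul, hf.map_mod_nat, ZMod.val_natCast,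
      ← hf.map_mod_nat, Nat.mod_mul_mod, hf.map_mod_nat, hneg]
  have h4 : ∑ x : ZMod (m + 1), f x.val = - ∑ x : ZMod (m + 1), f x.val := by
    conv_lhs => rw [h2]
    rw [← Finset.sum_neg_distrib]
    exact Finset.sum_congr rfl fun x _ => h3 x
  rw [h1]
  omega

private theorem rch_shift {f : ℕ → ℤ} {q : ℕ} (hf : Function.Periodic f q) (s : ℕ) :
    ∑ i ∈ Finset.range q, f (s + i) = ∑ i ∈ Finset.range q, f i := by
  induction s with
  | zero => simp
  | succ s ih =>
    rw [← ih]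
    have h1 := Finset.sum_range_succ (fun i => f (s + i)) q
    have h2 := Finset.sum_range_succ' (fun i => f (s + i)) q
    have h3 : f (s + q) = f s := hf s
    have h4 : ∑ i ∈ Finset.range q, f (s + 1 + i) = ∑ i ∈ Finset.range q, f (s + (i + 1)) :=
      Finset.sum_congr rfl fun i _ => by rw [add_assoc, add_comm 1 i]
    rw [h4]
    simp only [add_zero] at h2
    omega

private theorem rch_blocks {f : ℕ → ℤ} {q : ℕ} (hf : Function.Periodic f q)
    (h0 : ∑ i ∈ Finset.range q, f i = 0) (s k : ℕ) :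
    ∑ i ∈ Finset.range (q * k), f (s + i) = 0 := by
  induction k with
  | zero => simp
  | succ k ih =>
    rw [Nat.mul_succ, Finset.sum_range_add, ih, zero_add]
    have := rch_shift hf (s + q * k)
    rw [h0] at this
    rw [← this]
    exact Finset.sum_congr rfl fun i _ => by rw [add_assoc]

theorem sum_psi_le {d d' : ℤ} (hd : Squarefree d) (hd' : Squarefree d') (hne : d ≠ d')
    (A B : ℕ) :
    |∑ n ∈ Finset.Ioc A B, (psi (d * d') n : ℝ)| ≤ 4 * (|(d : ℝ)| * |(d' : ℝ)|) := by
  obtain ⟨g, a0, ha, hsq, h1⟩ := rch_split hd hd' hne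
  have h0 : d * d' ≠ 0 := mul_ne_zero hd.ne_zero hd'.ne_zero
  obtain ⟨b, hbo, hbc, hbj⟩ := rch_exists ha h0 hsq h1
  set a := d * d' with hadef
  set q := 4 * a.natAbs with hqdef
  have hN : 0 < a.natAbs := Int.natAbs_pos.2 h0
  have hq : 0 < q := by omega
  have hper : Function.Periodic (psi a) q := by
    intro n
    have hpar : Odd (n + q) ↔ Odd n := by
      rw [Nat.odd_iff, Nat.odd_iff]; omega
    unfold psi
    by_cases hn : Odd n
    · rw [if_pos hn, if_pos (hpar.2 hn), jacobiSym.mod_right a (hpar.2 hn),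
        jacobiSym.mod_right a hn, ← hqdef, Nat.add_mod_right]
    · rw [if_neg hn, if_neg (fun h => hn (hpar.1 h))]
  have hbq : b.Coprime q := by
    apply Nat.Coprime.mul_right _ hbc
    exact Nat.Coprime.pow_right 2 (Nat.coprime_two_right.2 hbo)
  have hneg : ∀ n, psi a (b * n) = - psi a n := by
    intro n
    rw [psi_mul_right]
    have : psi a b = -1 := by unfold psi; rw [if_pos hbo, hbj]
    rw [this]; ring
  have hz := rch_period hq hper hbq hneg
  have hmain : |∑ n ∈ Finset.Ioc A B, psi a n| ≤ (q : ℤ) := by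
    rcases le_total B A with hBA | hAB
    · rw [Finset.Ioc_eq_empty (by omega)]
      simp
    · have e1 : ∑ n ∈ Finset.Ioc A B, psi a n
          = ∑ i ∈ Finset.range (B - A), psi a (A + 1 + i) := by
        have : Finset.Ioc A B = Finset.Ico (A + 1) (B + 1) := by
          ext x; simp only [Finset.mem_Ioc, Finset.mem_Ico]; omega
        rw [this, Finset.sum_Ico_eq_sum_range]
        congr 2; omega
      have e2 : B - A = q * ((B - A) / q) + (B - A) % q := (Nat.div_add_mod _ _).symm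
      rw [e1, e2, Finset.sum_range_add, rch_blocks hper hz, zero_add]
      calc |∑ x ∈ Finset.range ((B - A) % q), psi a (A + 1 + (q * ((B - A) / q) + x))|
          ≤ ∑ x ∈ Finset.range ((B - A) % q),
              |psi a (A + 1 + (q * ((B - A) / q) + x))| := Finset.abs_sum_le_sum_abs _ _
        _ ≤ ∑ x ∈ Finset.range ((B - A) % q), 1 := Finset.sum_le_sum fun x _ => abs_psi_le _ _
        _ = (((B - A) % q : ℕ) : ℤ) := by simp
        _ ≤ (q : ℤ) := by exact_mod_cast (Nat.mod_lt _ hq).le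
  have hcast : ((∑ n ∈ Finset.Ioc A B, psi a n : ℤ) : ℝ)
      = ∑ n ∈ Finset.Ioc A B, (psi a n : ℝ) := by push_cast; rfl
  rw [← hcast, ← Int.cast_abs]
  have hq2 : ((q : ℤ) : ℝ) = 4 * (|(d : ℝ)| * |(d' : ℝ)|) := by
    rw [hqdef]
    push_cast
    rw [← abs_mul, ← Int.cast_mul, ← hadef]
  rw [← hq2]
  exact_mod_cast hmain

end Pool.Agent.MPfb225e.Tw
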