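import Mathlib
import Pool.Agent.Lib.MP_fb225e_nt.Tw.Compare
import Pool.Agent.Lib.MP_fb225e_nt.Tw.RealChar
import Pool.Agent.Lib.MP_fb225e_nt.Szf.Curve
import Pool.Agent.Lib.MP_fb225e_nt.Szf.TwoSided

/-!
MP_fb225e_nt, project TW, part T4: mean values for the twists, uniform in the twist.
-/

namespace Pool.Agent.MPfb225e.Tw

open Filter Topology Complex
open NumberField IsDedekindDomain WeierstrassCurve

universe u

theorem abs_psi_le' (a : ℤ) (n : ℕ) : |(psi a n : ℝ)| ≤ 1 := by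
  exact_mod_cast abs_psi_le a n

/-- Mean values over the places of `K` and over the rational primes, for a twist. -/
theorem places_primes (E : WeierstrassCurve ℚ) [E.IsElliptic] (n : ℕ) : ∃ D : ℝ, 0 < D ∧
    ∀ (K : Type u) [Field K] [NumberField K], Module.finrank ℚ K = n →
    ∀ (V : WeierstrassCurve K) (d : ℤ) (C' : VariableChange K), d ≠ 0 →
    C' • V = twist (E.baseChange K) (d : K) → ∀ ε : ℝ, 0 < ε →
    |(∑' v : HeightOneSpectrum (𝓞 K), Real.log (nrm v) * nrm v ^ (-(1 + ε)) * Zfr.xK V v) -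
      ∑' p, Szf.lp ε p * (Fam.homCount K p * ((psi d p : ℝ) * Fam.lam E p))| ≤
      D * (1 + Real.log |(d : ℝ)|) := by
  classical
  obtain ⟨C₁, hC₁, hcomp⟩ := compare.{u} E n
  obtain ⟨B, C, hC2, hlam, -, hbase⟩ := Szf.lam_data.{u} E
  obtain ⟨D, hD⟩ := Szf.compare'.{u} n B C (by linarith)
  refine ⟨|D| + 4 * C₁ + 4 * n + 1, by positivity, ?_⟩
  intro K _ _ hn V d C' hd hV ε hε
  have h1 := hcomp K hn V d C' hd hV ε hε
  have h2 := hD K hn (fun v => (psi d (Fam.N v) : ℝ) * Zfr.xK (E.baseChange K) v)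
    (fun p => (psi d p : ℝ) * Fam.lam E p)
    (fun v => by
      rw [abs_mul]
      have h3 := abs_psi_le' d (Fam.N v)
      have h4 := Zfr.abs_xK_le (E.baseChange K) v
      have h5 := abs_nonneg (Zfr.xK (E.baseChange K) v)
      have h6 := abs_nonneg (psi d (Fam.N v) : ℝ)
      nlinarith)
    (fun p hp => by
      rw [abs_mul]
      have h3 := abs_psi_le' d p
      have h4 := hlam p hp
      have h5 := abs_nonneg (Fam.lam E p)
      have h6 := abs_nonneg (psi d p : ℝ)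
      nlinarith)
    (fun v hp hB => by simp only [hbase K v hp hB]) ε hε
  set A : Set (HeightOneSpectrum (𝓞 K)) :=
    {v | Zfr.xK V v ≠ (psi d (Fam.N v) : ℝ) * Zfr.xK (E.baseChange K) v} with hA
  set w : HeightOneSpectrum (𝓞 K) → ℝ := fun v => Real.log (nrm v) * nrm v ^ (-(1 + ε)) with hw
  have hw0 : ∀ v, 0 ≤ w v := fun v => Zfr.lw_nonneg ε v
  have hws : Summable w := Zfr.summable_lw ε hε
  have hbd : ∀ f : HeightOneSpectrum (𝓞 K) → ℝ, (∀ v, |f v| ≤ 2) → Summable fun v => w v * f v := by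
    intro f hf
    refine Summable.of_norm_bounded (hws.mul_right 2) fun v => ?_
    rw [Real.norm_eq_abs, abs_mul, abs_of_nonneg (hw0 v)]
    exact mul_le_mul_of_nonneg_left (hf v) (hw0 v)
  have hx1 := Zfr.abs_xK_le V
  have hx2 : ∀ v, |(psi d (Fam.N v) : ℝ) * Zfr.xK (E.baseChange K) v| ≤ 2 := fun v => by
    rw [abs_mul]
    have h3 := abs_psi_le' d (Fam.N v)
    have h4 := Zfr.abs_xK_le (E.baseChange K) v
    have h5 := abs_nonneg (Zfr.xK (E.baseChange K) v)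
    have h6 := abs_nonneg (psi d (Fam.N v) : ℝ)
    nlinarith
  have hs1 := hbd _ hx1
  have hs2 := hbd _ hx2
  have h3 : |(∑' v, w v * Zfr.xK V v) -
      ∑' v, w v * ((psi d (Fam.N v) : ℝ) * Zfr.xK (E.baseChange K) v)| ≤
      4 * ∑' v, A.indicator w v := by
    rw [← hs1.tsum_sub hs2, ← tsum_mul_left, ← Real.norm_eq_abs]
    refine tsum_of_norm_bounded ((hws.indicator A).mul_left 4).hasSum fun v => ?_
    rw [Real.norm_eq_abs]
    by_cases hv : v ∈ A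
    · rw [Set.indicator_of_mem hv, ← mul_sub, abs_mul, abs_of_nonneg (hw0 v), mul_comm]
      refine mul_le_mul_of_nonneg_right ?_ (hw0 v)
      refine (abs_sub _ _).trans ?_
      linarith [hx1 v, hx2 v]
    · rw [Set.indicator_of_notMem hv, mul_zero]
      rw [hA, Set.mem_ofPred_eq, not_not] at hv
      rw [hv, sub_self, abs_zero]
  have hlog : 0 ≤ Real.log |(d : ℝ)| := by
    refine Real.log_nonneg ?_
    have : (1 : ℤ) ≤ |d| := Int.one_le_abs hd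
    exact_mod_cast this
  have h4 : |(∑' v, w v * Zfr.xK V v) -
      ∑' p, Szf.lp ε p * (Fam.homCount K p * ((psi d p : ℝ) * Fam.lam E p))| ≤
      4 * (C₁ + n * Real.log |(d : ℝ)|) + D := by
    refine (abs_sub_le _ (∑' v, w v * ((psi d (Fam.N v) : ℝ) * Zfr.xK (E.baseChange K) v)) _).trans ?_
    refine add_le_add (h3.trans ?_) h2
    linarith
  refine h4.trans ?_
  have h5 := le_abs_self D
  have h6 : (0 : ℝ) ≤ n := Nat.cast_nonneg n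
  have h7 : 0 ≤ |D| * Real.log |(d : ℝ)| := by positivity
  have h8 : 0 ≤ C₁ * Real.log |(d : ℝ)| := by positivity
  nlinarith

/-- The error term at the scale. -/
theorem scale_log {θ δ M ε D : ℝ} {d : ℤ} (hθ : 0 < θ) (hδ : 0 < δ) (hδ1 : δ ≤ 1 / 2)
    (hM : 2 ≤ M) (hD : 0 < D) (hd : d ≠ 0) (hdM : |(d : ℝ)| ≤ M)
    (hε : ε = θ * δ / Zfr.Lg M 0 δ) : ε * (D * (1 + Real.log |(d : ℝ)|)) ≤ θ * D := by
  have hL2 := Zfr.two_le_Lg hδ hδ1 (le_refl (0 : ℝ)) hM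
  have hLM := Zfr.log_M_le hδ hδ1 (le_refl (0 : ℝ)) hM
  set L := Zfr.Lg M 0 δ with hL
  have hL0 : 0 < L := by linarith
  have hd0 : (0 : ℝ) < |(d : ℝ)| := abs_pos.2 (by exact_mod_cast hd)
  have h1 : Real.log |(d : ℝ)| ≤ L := (Real.log_le_log hd0 hdM).trans hLM
  have hε0 : 0 < ε := by rw [hε]; positivity
  have h2 : ε * (1 + Real.log |(d : ℝ)|) ≤ θ := by
    calc ε * (1 + Real.log |(d : ℝ)|) ≤ ε * (2 * L) :=
          mul_le_mul_of_nonneg_left (by linarith) hε0.le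
      _ = 2 * (θ * δ) := by rw [hε]; field_simp
      _ ≤ θ := by nlinarith
  calc ε * (D * (1 + Real.log |(d : ℝ)|)) = D * (ε * (1 + Real.log |(d : ℝ)|)) := by ring
    _ ≤ D * θ := mul_le_mul_of_nonneg_left h2 hD.le
    _ = θ * D := mul_comm _ _

/-- A zero near `3/2`, in terms of the places. -/
theorem zero_places_c (n : ℕ) (κ' : ℝ) (hκ' : 0 < κ') (hκ1 : κ' ≤ 1) : ∃ θ₀ : ℝ, 0 < θ₀ ∧
    ∀ θ : ℝ, 0 < θ → θ ≤ θ₀ → ∀ (K : Type u) [Field K] [NumberField K] (W : WeierstrassCurve K),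
    Module.finrank ℚ K = n → ∀ (F : ℂ → ℂ), Differentiable ℂ F →
    (∀ s : ℂ, 3 / 2 < s.re → F s = W.LSeries s) → ∀ (δ M : ℝ), 0 < δ → δ ≤ 1 / 2 → 2 ≤ M →
    (∀ s : ℂ, 3 / 2 - δ ≤ s.re → |s.im| ≤ 1 → ‖F s‖ ≤ M) → Szf.Cnt K δ M →
    ∀ ε : ℝ, ε = θ * δ / Zfr.Lg M 0 δ → ∀ ρ : ℂ, F ρ = 0 → 3 / 2 - κ' * ε ≤ ρ.re →
    |ρ.im| ≤ κ' * ε →
    ∑' v : HeightOneSpectrum (𝓞 K), ε * (Real.log (nrm v) * nrm v ^ (-(1 + ε))) * Zfr.xK W v ≤
      -1 + 3 * κ' := by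
  obtain ⟨θ₀, hθ₀, h⟩ := Zfr.one_sided_curve'.{u} n 0 1 κ' hκ' hκ1
  refine ⟨θ₀, hθ₀, ?_⟩
  intro θ hθ hθ0 K _ _ W hd F hF hFL δ M hδ hδ1 hM hFM ⟨κ, hcount⟩ ε hε ρ hρ0 hρ hρi
  obtain ⟨hε0, -⟩ := Szf.scale hθ hδ hδ1 hM hε
  obtain ⟨F₁, hF₁, hfac⟩ := Zfr.split_one hF hρ0
  have h1 := h K W hd F hF hFL κ δ 0 M θ hδ hδ1 le_rfl hM hθ hθ0 (fun s hs hs' => hFM s hs (by
    simpa using hs')) hcount (fun _ => ρ) F₁ hF₁ (fun z => by
      rw [hfac z, Fin.prod_univ_one]) ε hε (fun _ => hρ) 0 (by simp)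
  have e : (∑' v : HeightOneSpectrum (𝓞 K), ε * (Real.log (nrm v) * nrm v ^ (-(1 + ε))) *
      Zfr.xK W v * Real.cos (0 * Real.log (nrm v))) =
      ∑' v : HeightOneSpectrum (𝓞 K), ε * (Real.log (nrm v) * nrm v ^ (-(1 + ε))) * Zfr.xK W v := by
    refine tsum_congr fun v => ?_
    rw [zero_mul, Real.cos_zero, mul_one]
  rw [e, Fin.sum_univ_one] at h1
  have hg : 1 - κ' ≤ Zfr.gk ε (0 - ρ.im) := by
    unfold Zfr.gk
    rw [le_div_iff₀ (by positivity)]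
    have h2 : ((0 - ρ.im) / ε) ^ 2 ≤ κ' ^ 2 := by
      rw [← sq_abs, abs_div, abs_of_pos hε0, zero_sub, abs_neg]
      refine pow_le_pow_left₀ (by positivity) ?_ 2
      rw [div_le_iff₀ hε0]
      exact hρi
    have h3 : κ' ^ 2 ≤ κ' := by nlinarith
    have h4 : (1 - κ') * (1 + ((0 - ρ.im) / ε) ^ 2) ≤ (1 - κ') * (1 + κ') :=
      mul_le_mul_of_nonneg_left (by linarith) (by linarith)
    nlinarith
  have h5 : (1 - κ') * (1 - κ') ≤ (1 - κ') * Zfr.gk ε (0 - ρ.im) :=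
    mul_le_mul_of_nonneg_left hg (by linarith)
  nlinarith

theorem tsum_mul_eps {K : Type u} [Field K] [NumberField K] (W : WeierstrassCurve K) (ε : ℝ) :
    (∑' v : HeightOneSpectrum (𝓞 K), ε * (Real.log (nrm v) * nrm v ^ (-(1 + ε))) * Zfr.xK W v) =
      ε * ∑' v : HeightOneSpectrum (𝓞 K), Real.log (nrm v) * nrm v ^ (-(1 + ε)) * Zfr.xK W v := by
  rw [← tsum_mul_left]
  exact tsum_congr fun v => by ring

/-- A zero near `3/2` of the L-function of a twist, in terms of the rational primes. -/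
theorem zero_primes_tw (E : WeierstrassCurve ℚ) [E.IsElliptic] (n : ℕ) (κ' : ℝ) (hκ' : 0 < κ')
    (hκ1 : κ' ≤ 1) : ∃ θ₀ : ℝ, 0 < θ₀ ∧
    ∀ θ : ℝ, 0 < θ → θ ≤ θ₀ → ∀ (K : Type u) [Field K] [NumberField K],
    Module.finrank ℚ K = n → ∀ (V : WeierstrassCurve K) (d : ℤ) (C' : VariableChange K), d ≠ 0 →
    C' • V = twist (E.baseChange K) (d : K) → ∀ (F : ℂ → ℂ), Differentiable ℂ F →
    (∀ s : ℂ, 3 / 2 < s.re → F s = V.LSeries s) → ∀ (δ M : ℝ), 0 < δ → δ ≤ 1 / 2 → 2 ≤ M →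
    |(d : ℝ)| ≤ M → (∀ s : ℂ, 3 / 2 - δ ≤ s.re → |s.im| ≤ 1 → ‖F s‖ ≤ M) → Szf.Cnt K δ M →
    ∀ ε : ℝ, ε = θ * δ / Zfr.Lg M 0 δ → ∀ ρ : ℂ, F ρ = 0 → 3 / 2 - κ' * ε ≤ ρ.re →
    |ρ.im| ≤ κ' * ε →
    ε * ∑' p, Szf.lp ε p * (Fam.homCount K p * ((psi d p : ℝ) * Fam.lam E p)) ≤ -1 + 4 * κ' := by
  obtain ⟨θ₁, hθ₁, h⟩ := zero_places_c.{u} n κ' hκ' hκ1
  obtain ⟨D, hD, hpp⟩ := places_primes.{u} E n
  refine ⟨min θ₁ (κ' / D), by positivity, ?_⟩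
  intro θ hθ hθ0 K _ _ hn V d C' hd hV F hF hFL δ M hδ hδ1 hM hdM hFM hcnt ε hε ρ hρ0 hρ hρi
  have h1 : θ ≤ θ₁ := hθ0.trans (min_le_left _ _)
  have h2 : θ ≤ κ' / D := hθ0.trans (min_le_right _ _)
  rw [le_div_iff₀ hD] at h2
  obtain ⟨hε0, -⟩ := Szf.scale hθ hδ hδ1 hM hε
  have h5 := h θ hθ h1 K V hn F hF hFL δ M hδ hδ1 hM hFM hcnt ε hε ρ hρ0 hρ hρi
  have h6 := hpp K hn V d C' hd hV ε hε0
  have h7 := scale_log hθ hδ hδ1 hM hD hd hdM hε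
  rw [tsum_mul_eps] at h5
  have h8 := mul_le_mul_of_nonneg_left (abs_le.1 h6).1 hε0.le
  nlinarith

/-- No zero near `3/2`: the mean value is small, in terms of the rational primes. -/
theorem small_primes_tw (E : WeierstrassCurve ℚ) [E.IsElliptic] (n : ℕ) (c₁ κ' : ℝ)
    (hc₁ : 0 < c₁) (hκ' : 0 < κ') : ∃ θ₀ : ℝ, 0 < θ₀ ∧
    ∀ θ : ℝ, 0 < θ → θ ≤ θ₀ → ∀ (K : Type u) [Field K] [NumberField K],
    Module.finrank ℚ K = n → ∀ (V : WeierstrassCurve K) (d : ℤ) (C' : VariableChange K), d ≠ 0 →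
    C' • V = twist (E.baseChange K) (d : K) → ∀ (F : ℂ → ℂ), Differentiable ℂ F →
    (∀ s : ℂ, 3 / 2 < s.re → F s = V.LSeries s) → ∀ (δ M : ℝ), 0 < δ → δ ≤ 1 / 2 → 2 ≤ M →
    |(d : ℝ)| ≤ M → (∀ s : ℂ, 3 / 2 - δ ≤ s.re → |s.im| ≤ 1 → ‖F s‖ ≤ M) → Szf.Cnt K δ M →
    (∀ z : ℂ, ‖z - 3 / 2‖ < c₁ * δ / Zfr.Lg M 0 δ → F z ≠ 0) →
    ∀ ε : ℝ, ε = θ * δ / Zfr.Lg M 0 δ →
    |ε * ∑' p, Szf.lp ε p * (Fam.homCount K p * ((psi d p : ℝ) * Fam.lam E p))| ≤ κ' := by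
  obtain ⟨θ₁, hθ₁, h⟩ := Szf.curve_two_sided.{u} n 0 c₁ (κ' / 2) hc₁ (by positivity)
  obtain ⟨D, hD, hpp⟩ := places_primes.{u} E n
  refine ⟨min θ₁ (κ' / 2 / D), by positivity, ?_⟩
  intro θ hθ hθ0 K _ _ hn V d C' hd hV F hF hFL δ M hδ hδ1 hM hdM hFM hcnt hnz ε hε
  obtain ⟨κ, hcount⟩ := hcnt
  have h1 : θ ≤ θ₁ := hθ0.trans (min_le_left _ _)
  have h2 : θ ≤ κ' / 2 / D := hθ0.trans (min_le_right _ _)
  rw [le_div_iff₀ hD] at h2
  obtain ⟨hε0, -⟩ := Szf.scale hθ hδ hδ1 hM hε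
  have h5 := h θ hθ h1 K V hn F hF hFL κ δ M hδ hδ1 hM hFM hcount Fin.elim0 F hF
    (fun z => by simp) (fun j => j.elim0) hnz ε hε
  have h6 := hpp K hn V d C' hd hV ε hε0
  have h7 := scale_log hθ hδ hδ1 hM hD hd hdM hε
  rw [tsum_mul_eps] at h5
  simp only [Finset.univ_eq_empty, Finset.sum_empty, add_zero] at h5
  obtain ⟨h8, h9⟩ := abs_le.1 h6
  have h10 := mul_le_mul_of_nonneg_left h8 hε0.le
  have h11 := mul_le_mul_of_nonneg_left h9 hε0.le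
  rw [abs_le] at h5 ⊢
  constructor <;> nlinarith [h5.1, h5.2]

end Pool.Agent.MPfb225e.Tw
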