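import Mathlib
import Pool.Agent.Lib.MP_fb225e_nt.Tw.SzMean

/-!
MP_fb225e_nt, project TW: the count of the ideals of the integers.
-/

namespace Pool.Agent.MPfb225e.Tw

open Filter Topology Complex
open NumberField IsDedekindDomain WeierstrassCurve

theorem ideal_rat (J : Ideal (𝓞 ℚ)) : J = Ideal.span {((Ideal.absNorm J : ℕ) : 𝓞 ℚ)} := by
  have hp : IsPrincipalIdealRing (𝓞 ℚ) :=
    IsPrincipalIdealRing.of_surjective (Rat.ringOfIntegersEquiv.symm : ℤ →+* 𝓞 ℚ)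
      Rat.ringOfIntegersEquiv.symm.surjective
  obtain ⟨a, ha⟩ := (IsPrincipalIdealRing.principal J).principal
  have ha' : J = Ideal.span {a} := ha
  obtain ⟨z, hz⟩ : ∃ z : ℤ, ((z : ℤ) : 𝓞 ℚ) = a :=
    ⟨Rat.ringOfIntegersEquiv a, by
      have h1 := map_intCast Rat.ringOfIntegersEquiv.symm (Rat.ringOfIntegersEquiv a)
      rw [Int.cast_id, RingEquiv.symm_apply_apply] at h1
      exact h1.symm⟩
  have h1 : J = Ideal.span {((z.natAbs : ℕ) : 𝓞 ℚ)} := by
    rw [ha', ← hz, Ideal.span_singleton_eq_span_singleton]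
    rcases Int.natAbs_eq z with h | h
    · have e : ((z.natAbs : ℕ) : 𝓞 ℚ) = ((z : ℤ) : 𝓞 ℚ) := by
        rw [← Int.cast_natCast, ← h]
      rw [e]
    · have e : ((z.natAbs : ℕ) : 𝓞 ℚ) = -((z : ℤ) : 𝓞 ℚ) := by
        rw [← Int.cast_natCast, ← Int.cast_neg]
        congr 1
        omega
      rw [e]
      exact (Associated.refl _).neg_right
  have h2 : Ideal.absNorm J = z.natAbs := by
    conv_lhs => rw [h1]
    rw [Ideal.absNorm_span_natCast, RingOfIntegers.rank, Module.finrank_self, pow_one]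
  rw [h2]
  exact h1

/-- The ideals of the integers. -/
theorem cnt_rat {δ M : ℝ} (hδ1 : δ ≤ 1 / 2) (hM : 2 ≤ M) : Szf.Cnt ℚ δ M := by
  refine ⟨1, fun x hx => ?_⟩
  have h1 : Nat.card {J : Ideal (𝓞 ℚ) // J ≠ ⊥ ∧ (Ideal.absNorm J : ℝ) ≤ x} = ⌊x⌋₊ := by
    have e : Nat.card {J : Ideal (𝓞 ℚ) // J ≠ ⊥ ∧ (Ideal.absNorm J : ℝ) ≤ x} =
        Nat.card (Finset.Icc 1 ⌊x⌋₊) := by
      refine Nat.card_eq_of_bijective (fun J => ⟨Ideal.absNorm J.1, ?_⟩) ⟨?_, ?_⟩
      · rw [Finset.mem_Icc]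
        refine ⟨?_, Nat.le_floor J.2.2⟩
        rw [Nat.one_le_iff_ne_zero, Ne, Ideal.absNorm_eq_zero_iff]
        exact J.2.1
      · intro J J' h
        have h2 : Ideal.absNorm J.1 = Ideal.absNorm J'.1 := congrArg Subtype.val h
        apply Subtype.ext
        rw [ideal_rat J.1, ideal_rat J'.1, h2]
      · rintro ⟨k, hk⟩
        rw [Finset.mem_Icc] at hk
        have h3 : Ideal.absNorm (Ideal.span {((k : ℕ) : 𝓞 ℚ)}) = k := by
          rw [Ideal.absNorm_span_natCast, RingOfIntegers.rank, Module.finrank_self, pow_one]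
        refine ⟨⟨Ideal.span {((k : ℕ) : 𝓞 ℚ)}, ?_, ?_⟩, ?_⟩
        · intro h
          rw [h, Ideal.absNorm_bot] at h3
          omega
        · rw [h3]
          exact (Nat.le_floor_iff (by linarith)).1 hk.2
        · exact Subtype.ext h3
    rw [e, Nat.card_eq_fintype_card, Fintype.card_coe, Nat.card_Icc]
    omega
  rw [h1, one_mul]
  have h2 : (⌊x⌋₊ : ℝ) ≤ x := Nat.floor_le (by linarith)
  have h3 : x < ⌊x⌋₊ + 1 := Nat.lt_floor_add_one x
  have h4 : (1 : ℝ) ≤ x ^ (1 - δ) := Real.one_le_rpow hx (by linarith)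
  rw [abs_le]
  constructor <;> nlinarith

end Pool.Agent.MPfb225e.Tw
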