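import Mathlib
import Pool.Agent.Lib.MP_fb225e_nt.Tw.SzMean
import Pool.Agent.Lib.MP_fb225e_nt.Tw.RatCount
import Pool.Agent.Lib.MP_fb225e_nt.Tw.Algebra
import Pool.Agent.Lib.MP_fb225e_nt.Szf.Main

/-!
MP_fb225e_nt, project TW, part T4: no Siegel zeros, uniformly in all quadratic twists.
-/

namespace Pool.Agent.MPfb225e.Tw

open Filter Topology Complex
open NumberField IsDedekindDomain WeierstrassCurve

universe u

section pointwise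

theorem dz_neg (y : ℝ) : Szf.dz (-y) = Szf.dz y := by
  have key : ∀ y : ℝ, Szf.dz (-y) ≤ Szf.dz y := by
    intro y
    have h := Szf.dz_le (-y) (round y)
    refine h.trans (le_of_eq ?_)
    unfold Szf.dz
    rw [sq_abs]
    ring
  refine le_antisymm (key y) ?_
  have := key (-y)
  rwa [neg_neg] at this

theorem psi_three (a : ℤ) (k : ℕ) :
    (psi a k : ℝ) = 0 ∨ (psi a k : ℝ) = 1 ∨ (psi a k : ℝ) = -1 := by
  have h := abs_psi_le a k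
  rw [abs_le] at h
  obtain ⟨h1, h2⟩ := h
  have h3 : psi a k = 0 ∨ psi a k = 1 ∨ psi a k = -1 := by omega
  rcases h3 with h3 | h3 | h3
  · exact Or.inl (by rw [h3]; norm_num)
  · exact Or.inr (Or.inl (by rw [h3]; norm_num))
  · exact Or.inr (Or.inr (by rw [h3]; norm_num))

/-- The terms of the spread of a twist are at most those of the curve. -/
theorem spread_le (a : ℤ) (k : ℕ) (u x : ℝ) (dd : ℝ → ℝ) (hd0 : ∀ x, 0 ≤ dd x)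
    (hd : ∀ x (k : ℤ), dd x ≤ (k + u * x) ^ 2) (heven : ∀ x, dd (-x) = dd x) :
    (u * ((psi a k : ℝ) * x)) ^ 2 - dd ((psi a k : ℝ) * x) ≤ (u * x) ^ 2 - dd x := by
  rcases psi_three a k with h | h | h <;> rw [h]
  · have h1 := hd x 0
    have h2 := hd0 (0 * x)
    rw [Int.cast_zero, zero_add] at h1
    nlinarith
  · rw [one_mul]
  · rw [neg_one_mul, heven]
    have : (u * -x) ^ 2 = (u * x) ^ 2 := by ring
    rw [this]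

end pointwise

section zero

/-- If the numbers `m x_p` are not concentrated near the integers then no twist over `ℚ` has a zero
near the edge. -/
theorem no_zero_tw (E : WeierstrassCurve ℚ) [E.IsElliptic] (m : ℕ) (η : ℝ) (hη : 0 < η)
    (hev : ∀ᶠ ε : ℝ in 𝓝[>] 0, ε * ∑' p, Szf.lp ε p *
      ((m * Fam.lam E p) ^ 2 - Szf.dz (m * Fam.lam E p)) ≤ (m : ℝ) ^ 2 - η) :
    ∃ c₀ : ℝ, 0 < c₀ ∧ ∀ (d : ℤ) (E' : WeierstrassCurve ℚ) (C' : VariableChange ℚ), d ≠ 0 →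
      C' • E' = twist E (d : ℚ) → ∀ F₀ : ℂ → ℂ, Differentiable ℂ F₀ →
      (∀ s : ℂ, 3 / 2 < s.re → F₀ s = E'.LSeries s) → ∀ δ M : ℝ, 0 < δ → δ ≤ 1 / 2 → 2 ≤ M →
      |(d : ℝ)| ≤ M → (∀ s : ℂ, 3 / 2 - δ ≤ s.re → |s.im| ≤ 1 → ‖F₀ s‖ ≤ M) →
      ∀ z : ℂ, ‖z - 3 / 2‖ < c₀ * δ / Zfr.Lg M 0 δ → F₀ z ≠ 0 := by
  classical
  set κ : ℝ := min (η / (2 * (9 * (m : ℝ) ^ 2 + 1))) 1 with hκ
  have hκ0 : 0 < κ := by positivity
  have hκ1 : κ ≤ 1 := min_le_right _ _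
  have hκ2 : 9 * (m : ℝ) ^ 2 * κ < η := by
    have h1 : κ ≤ η / (2 * (9 * (m : ℝ) ^ 2 + 1)) := min_le_left _ _
    rw [le_div_iff₀ (by positivity)] at h1
    nlinarith
  obtain ⟨θ₁, hθ₁, hz⟩ := zero_primes_tw.{0} E 1 κ hκ0 hκ1
  have hev2 := (Szf.rat_one κ hκ0).and hev
  rw [eventually_nhdsWithin_iff, Metric.eventually_nhds_iff] at hev2
  obtain ⟨r, hr, hev2⟩ := hev2
  set θ : ℝ := min θ₁ (r / 2) with hθ
  have hθ0 : 0 < θ := by positivity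
  refine ⟨κ * θ, by positivity, ?_⟩
  intro d E' C' hd hE' F₀ hF₀ hFL₀ δ M hδ hδ1 hM hdM hFM z hz0 h0
  set ε : ℝ := θ * δ / Zfr.Lg M 0 δ with hε
  obtain ⟨hε0, hεθ⟩ := Szf.scale hθ0 hδ hδ1 hM hε
  have hεr : dist ε 0 < r := by
    rw [Real.dist_eq, sub_zero, abs_of_pos hε0]
    have := min_le_right θ₁ (r / 2)
    linarith
  obtain ⟨he1, he2⟩ := hev2 hεr hε0
  have hcε : κ * θ * δ / Zfr.Lg M 0 δ = κ * ε := by rw [hε]; ring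
  rw [hcε] at hz0
  have hre : |z.re - 3 / 2| ≤ κ * ε := by
    have h1 := Complex.abs_re_le_norm (z - 3 / 2)
    have h2 : (z - 3 / 2).re = z.re - 3 / 2 := by simp
    rw [h2] at h1
    linarith
  have him : |z.im| ≤ κ * ε := by
    have h1 := Complex.abs_im_le_norm (z - 3 / 2)
    have h2 : (z - 3 / 2).im = z.im := by simp
    rw [h2] at h1
    linarith
  have h1 := hz θ hθ0 (min_le_left _ _) ℚ (Module.finrank_self ℚ) E' d C' hd (by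
    rw [Szf.baseChange_rat]; exact hE') F₀ hF₀ hFL₀ δ M hδ hδ1 hM hdM hFM (cnt_rat hδ1 hM) ε hε z h0
    (by linarith [(abs_le.1 hre).1]) him
  have e : (∑' p : Nat.Primes, Szf.lp ε p *
      (Fam.homCount ℚ p * ((psi d p : ℝ) * Fam.lam E p))) =
      ∑' p : Nat.Primes, Szf.lp ε p * ((psi d p : ℝ) * Fam.lam E p) := by
    refine tsum_congr fun p => ?_
    rw [Fam.homCount_rat, Nat.cast_one, one_mul]
  rw [e] at h1
  -- the contradiction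
  obtain ⟨B, C, hC2, hlam, -, -⟩ := Szf.lam_data.{0} E
  have hC0 : 0 ≤ C := by linarith
  have hy : ∀ p : Nat.Primes, |(psi d p : ℝ) * Fam.lam E p| ≤ C := fun p => by
    rw [abs_mul]
    have h3 := abs_psi_le' d p
    have h4 := hlam p p.2
    have h5 := abs_nonneg (Fam.lam E p)
    have h6 := abs_nonneg (psi d p : ℝ)
    nlinarith
  have hs1 : Summable fun p : Nat.Primes => Szf.lp ε p * ((psi d p : ℝ) * Fam.lam E p) :=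
    Szf.summable_lp_mul hε0 hy
  have hsq : ∀ y : ℝ, |y| ≤ C → |(m * y) ^ 2 - Szf.dz (m * y)| ≤ ((m : ℝ) * C) ^ 2 := by
    intro y hyC
    have e1 := Szf.dz_le (m * y) 0
    rw [Int.cast_zero, zero_add] at e1
    have e2 := Szf.dz_nonneg (m * y)
    have e3 : (m * y) ^ 2 ≤ ((m : ℝ) * C) ^ 2 := by
      rw [← sq_abs, abs_mul, abs_of_nonneg (Nat.cast_nonneg m)]
      exact pow_le_pow_left₀ (by positivity)
        (mul_le_mul_of_nonneg_left hyC (Nat.cast_nonneg m)) 2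
    rw [abs_of_nonneg (by linarith)]
    linarith
  have hs2 : Summable fun p : Nat.Primes => Szf.lp ε p *
      ((m * ((psi d p : ℝ) * Fam.lam E p)) ^ 2 - Szf.dz (m * ((psi d p : ℝ) * Fam.lam E p))) :=
    Szf.summable_lp_mul hε0 fun p => hsq _ (hy p)
  have hs3 : Summable fun p : Nat.Primes => Szf.lp ε p *
      ((m * Fam.lam E p) ^ 2 - Szf.dz (m * Fam.lam E p)) :=
    Szf.summable_lp_mul hε0 fun p => hsq _ (hlam p p.2)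
  have hle : (∑' p : Nat.Primes, Szf.lp ε p *
      ((m * ((psi d p : ℝ) * Fam.lam E p)) ^ 2 - Szf.dz (m * ((psi d p : ℝ) * Fam.lam E p)))) ≤
      ∑' p : Nat.Primes, Szf.lp ε p * ((m * Fam.lam E p) ^ 2 - Szf.dz (m * Fam.lam E p)) := by
    refine hs2.tsum_le_tsum (fun p => mul_le_mul_of_nonneg_left ?_ (Szf.lp_nonneg ε p)) hs3
    exact spread_le d p m (Fam.lam E p) (fun x => Szf.dz (m * x)) (fun _ => Szf.dz_nonneg _)
      (fun x k => Szf.dz_le _ k) (fun x => by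
        have : (m : ℝ) * -x = -(m * x) := by ring
        rw [this, dz_neg])
  have hpos : 0 ≤ ∑' p : Nat.Primes, Szf.lp ε p * ((m * ((psi d p : ℝ) * Fam.lam E p) + m) ^ 2 -
      Szf.dz (m * ((psi d p : ℝ) * Fam.lam E p))) := by
    refine tsum_nonneg fun p => mul_nonneg (Szf.lp_nonneg ε p) ?_
    have e1 := Szf.dz_le (m * ((psi d p : ℝ) * Fam.lam E p)) m
    have e2 : ((m : ℤ) : ℝ) + m * ((psi d p : ℝ) * Fam.lam E p) =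
      m * ((psi d p : ℝ) * Fam.lam E p) + m := by push_cast; ring
    rw [e2] at e1
    linarith
  have hsum : (∑' p : Nat.Primes, Szf.lp ε p * ((m * ((psi d p : ℝ) * Fam.lam E p) + m) ^ 2 -
      Szf.dz (m * ((psi d p : ℝ) * Fam.lam E p)))) =
      (∑' p : Nat.Primes, Szf.lp ε p * ((m * ((psi d p : ℝ) * Fam.lam E p)) ^ 2 -
        Szf.dz (m * ((psi d p : ℝ) * Fam.lam E p)))) +
      (2 * (m : ℝ) ^ 2 * (∑' p : Nat.Primes, Szf.lp ε p * ((psi d p : ℝ) * Fam.lam E p)) +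
        (m : ℝ) ^ 2 * ∑' p, Szf.lp ε p) := by
    rw [← tsum_mul_left, ← tsum_mul_left,
      ← (hs1.mul_left _).tsum_add ((Szf.summable_lp hε0).mul_left _),
      ← hs2.tsum_add ((hs1.mul_left _).add ((Szf.summable_lp hε0).mul_left _))]
    exact tsum_congr fun p => by ring
  rw [hsum] at hpos
  have h6 := mul_nonneg hε0.le hpos
  rw [mul_add, mul_add] at h6
  have h7 : (m : ℝ) ^ 2 * (ε * ∑' p : Nat.Primes, Szf.lp ε p * ((psi d p : ℝ) * Fam.lam E p)) ≤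
      (m : ℝ) ^ 2 * (-1 + 4 * κ) := mul_le_mul_of_nonneg_left h1 (by positivity)
  have h8 : (m : ℝ) ^ 2 * (ε * ∑' p, Szf.lp ε p) ≤ (m : ℝ) ^ 2 * (1 + κ) :=
    mul_le_mul_of_nonneg_left he1 (by positivity)
  have h9 := mul_le_mul_of_nonneg_left hle hε0.le
  nlinarith

end zero

section main

/-- The twist over a number field. -/
theorem twist_baseChange (E E' : WeierstrassCurve ℚ) (d : ℤ) (C' : VariableChange ℚ)
    (h : C' • E' = twist E (d : ℚ)) (K : Type u) [Field K] [NumberField K] :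
    (C'.map (algebraMap ℚ K)) • (E'.baseChange K) = twist (E.baseChange K) (d : K) := by
  unfold WeierstrassCurve.baseChange
  rw [map_variableChange, h, twist_map, map_intCast]

/-- The main theorem for all twists, in the form of a contradiction, for given `u`, `dd`. -/
theorem main_core_tw (E : WeierstrassCurve ℚ) [E.IsElliptic] (n m G : ℕ) (u Q ρ c₀ : ℝ)
    (dd : ℝ → ℝ) (hu : 0 ≤ u) (hρ : 0 < ρ) (hc₀ : 0 < c₀) (hd0 : ∀ x, 0 ≤ dd x)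
    (hd : ∀ x (k : ℤ), dd x ≤ (k + u * x) ^ 2) (heven : ∀ x, dd (-x) = dd x)
    (hQ : ∀ᶠ ε : ℝ in 𝓝[>] 0,
      ε * ∑' p, Szf.lp ε p * ((u * Fam.lam E p) ^ 2 - dd (Fam.lam E p)) ≤ Q)
    (hfin : (G : ℝ) - 2 * u * m + Q ≤ -ρ) :
    ∃ c : ℝ, 0 < c ∧ ∀ (d : ℤ) (E' : WeierstrassCurve ℚ) (C' : VariableChange ℚ), d ≠ 0 →
      C' • E' = twist E (d : ℚ) → ∀ F₀ : ℂ → ℂ, Differentiable ℂ F₀ →
      (∀ s : ℂ, 3 / 2 < s.re → F₀ s = E'.LSeries s) →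
      ∀ (K : Fin m → Type u) [∀ i, Field (K i)] [∀ i, NumberField (K i)],
      (∀ i, Module.finrank ℚ (K i) ≤ n) → ∑ i, ∑ j, Fam.gam (K i) (K j) ≤ m ^ 2 + G →
      ∀ F : Fin m → ℂ → ℂ, (∀ i, Differentiable ℂ (F i)) →
      (∀ i, ∀ s : ℂ, 3 / 2 < s.re → F i s = (E'.baseChange (K i)).LSeries s) →
      ∀ δ M : ℝ, 0 < δ → δ ≤ 1 / 2 → 2 ≤ M → |(d : ℝ)| ≤ M →
      (∀ i, (|NumberField.discr (K i)| : ℝ) ≤ M) →
      (∀ s : ℂ, 3 / 2 - δ ≤ s.re → |s.im| ≤ 1 → ‖F₀ s‖ ≤ M) →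
      (∀ i, ∀ s : ℂ, 3 / 2 - δ ≤ s.re → |s.im| ≤ 1 → ‖F i s‖ ≤ M) →
      (∀ i, Szf.Cnt (K i) δ M) → (∀ i j I, Szf.Cnt (Fam.Fac (K i) (K j) I) δ M) →
      (∀ z : ℂ, ‖z - 3 / 2‖ < c₀ * δ / Zfr.Lg M 0 δ → F₀ z ≠ 0) →
      ∃ i, ∀ β : ℝ, 3 / 2 - c * δ / Zfr.Lg M 0 δ < β → F i β ≠ 0 := by
  classical
  set κ : ℝ := min (ρ / (2 * (1 + 3 * (m : ℝ) ^ 2 + 4 * u * m))) 1 with hκ
  have hden : 0 < 1 + 3 * (m : ℝ) ^ 2 + 4 * u * m := by positivity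
  have hκ0 : 0 < κ := by positivity
  have hκ1 : κ ≤ 1 := min_le_right _ _
  have hκ2 : κ * (1 + 3 * (m : ℝ) ^ 2 + 4 * u * m) ≤ ρ / 2 := by
    have h : κ ≤ ρ / (2 * (1 + 3 * (m : ℝ) ^ 2 + 4 * u * m)) := min_le_left _ _
    rw [le_div_iff₀ (by positivity)] at h
    linarith
  -- the larger scale
  obtain ⟨θA, hθA, hA⟩ := Szf.exists_uniform (fun d => Szf.many_places.{u} d) n
  obtain ⟨θB, hθB, hB⟩ := Szf.exists_uniform (fun d => Szf.lower_primes.{u} d κ hκ0) n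
  set θ₂ : ℝ := min θA θB with hθ₂
  have hθ₂0 : 0 < θ₂ := by positivity
  have hA2 := hA θ₂ hθ₂0 (min_le_left _ _)
  have hB2 := hB θ₂ hθ₂0 (min_le_right _ _)
  -- the smaller scale
  obtain ⟨θC, hθC, hC⟩ := Szf.exists_uniform (P := fun d θ => d ≤ n →
    ∀ (K : Type u) [Field K] [NumberField K], Module.finrank ℚ K = d →
    ∀ δ M : ℝ, 0 < δ → δ ≤ 1 / 2 → 2 ≤ M → Szf.Cnt K δ M →
    ∀ ε₁ : ℝ, ε₁ = θ₂ * δ / Zfr.Lg M 0 δ →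
    2 / 5 ≤ ∑' v : HeightOneSpectrum (𝓞 K), ε₁ * (Real.log (nrm v) * nrm v ^ (-(1 + ε₁))) →
    ∀ ε : ℝ, ε = θ * δ / Zfr.Lg M 0 δ → 1 - κ ≤ ε * ∑' p, Szf.lp ε p * Fam.homCount K p)
    (fun d => by
      by_cases hdn : d ≤ n
      · obtain ⟨θ₀, h1, h2⟩ := hB2 d hdn
        exact ⟨θ₀, h1, fun θ h3 h4 _ => h2 θ h3 h4⟩
      · exact ⟨1, one_pos, fun θ _ _ h => absurd h hdn⟩) n
  obtain ⟨θD, hθD, hDm⟩ := Szf.mul_upper.{u} n (κ / ((m : ℝ) ^ 2 + 1)) (by positivity)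
  obtain ⟨θE, hθE, hE⟩ := Szf.exists_uniform (fun d => zero_primes_tw.{u} E d (κ / 4)
    (by positivity) (by linarith)) n
  obtain ⟨θF, hθF, hF0⟩ := small_primes_tw.{0} E 1 c₀ κ hc₀ hκ0
  -- everything over the rationals
  have hev := (Szf.rat_one κ hκ0).and hQ
  rw [eventually_nhdsWithin_iff, Metric.eventually_nhds_iff] at hev
  obtain ⟨r, hr, hev⟩ := hev
  set θ : ℝ := min (min (min θC θD) (min θE θ₂)) (min θF (r / 2)) with hθdef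
  have hθ0 : 0 < θ := by positivity
  have hθC' : θ ≤ θC := ((min_le_left _ _).trans (min_le_left _ _)).trans (min_le_left _ _)
  have hθD' : θ ≤ θD := ((min_le_left _ _).trans (min_le_left _ _)).trans (min_le_right _ _)
  have hθE' : θ ≤ θE := ((min_le_left _ _).trans (min_le_right _ _)).trans (min_le_left _ _)
  have hθ₂' : θ ≤ θ₂ := ((min_le_left _ _).trans (min_le_right _ _)).trans (min_le_right _ _)
  have hθF' : θ ≤ θF := (min_le_right _ _).trans (min_le_left _ _)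
  have hθr : θ ≤ r / 2 := (min_le_right _ _).trans (min_le_right _ _)
  refine ⟨min (κ / 4) (1 / 20) * θ, by positivity, ?_⟩
  intro d E' C' hdz hE' F₀ hF₀ hFL₀ K _ _ hdeg hgam F hF hFL δ M hδ hδ1 hM hdM hdisc hFM₀ hFM hcnt
    hcnt2 hnz
  by_contra hcon
  push Not at hcon
  choose β hβ hβ0 using hcon
  have hL2 := Zfr.two_le_Lg hδ hδ1 (le_refl (0 : ℝ)) hM
  set Λ := Zfr.Lg M 0 δ with hΛ
  have hΛ0 : 0 < Λ := by linarith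
  set ε : ℝ := θ * δ / Λ with hε
  set ε₁ : ℝ := θ₂ * δ / Λ with hε₁
  obtain ⟨hε0, hεθ⟩ := Szf.scale hθ0 hδ hδ1 hM hε
  obtain ⟨hε₁0, -⟩ := Szf.scale hθ₂0 hδ hδ1 hM hε₁
  have hεε : ε ≤ ε₁ := by
    rw [hε, hε₁]
    exact div_le_div_of_nonneg_right (mul_le_mul_of_nonneg_right hθ₂' hδ.le) hΛ0.le
  have hcε : min (κ / 4) (1 / 20) * θ * δ / Λ = min (κ / 4) (1 / 20) * ε := by
    rw [hε]; ring
  have hβ1 : ∀ i, 3 / 2 - κ / 4 * ε ≤ β i := by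
    intro i
    have h1 := hβ i
    rw [hcε] at h1
    have h2 : min (κ / 4) (1 / 20) * ε ≤ κ / 4 * ε :=
      mul_le_mul_of_nonneg_right (min_le_left _ _) hε0.le
    linarith
  have hβ2 : ∀ i, 3 / 2 - 1 / 20 * ε₁ ≤ β i := by
    intro i
    have h1 := hβ i
    rw [hcε] at h1
    have h2 : min (κ / 4) (1 / 20) * ε ≤ 1 / 20 * ε₁ :=
      mul_le_mul (min_le_right _ _) hεε hε0.le (by norm_num)
    linarith
  have hεr : dist ε 0 < r := by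
    rw [Real.dist_eq, sub_zero, abs_of_pos hε0]
    linarith
  obtain ⟨he1, he3⟩ := hev hεr hε0
  have e0 : ∀ f : Nat.Primes → ℝ, (∑' p : Nat.Primes, Szf.lp ε p * (Fam.homCount ℚ p * f p)) =
      ∑' p : Nat.Primes, Szf.lp ε p * f p := by
    intro f
    refine tsum_congr fun p => ?_
    rw [Fam.homCount_rat, Nat.cast_one, one_mul]
  have he2 : -κ ≤ ε * ∑' p : Nat.Primes, Szf.lp ε p * ((psi d p : ℝ) * Fam.lam E p) := by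
    have h1 := hF0 θ hθ0 hθF' ℚ (Module.finrank_self ℚ) E' d C' hdz (by
      rw [Szf.baseChange_rat]; exact hE') F₀ hF₀ hFL₀ δ M hδ hδ1 hM hdM hFM₀ (cnt_rat hδ1 hM) hnz
      ε hε
    rw [e0 (fun p => (psi d p : ℝ) * Fam.lam E p)] at h1
    exact (abs_le.1 h1).1
  have e1 : ∀ i, 1 - κ ≤ ε * ∑' p, Szf.lp ε p * Fam.homCount (K i) p := by
    intro i
    refine hC θ hθ0 hθC' _ (hdeg i) (hdeg i) (K i) rfl δ M hδ hδ1 hM (hcnt i) ε₁ hε₁ ?_ ε hε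
    exact hA2 _ (hdeg i) (K i) (E'.baseChange (K i)) rfl (F i) (hF i) (hFL i) δ M hδ hδ1 hM
      (hFM i) (hcnt i) ε₁ hε₁ (β i) (hβ0 i) (hβ2 i)
  have e2 : ∀ i, ε * ∑' p : Nat.Primes, Szf.lp ε p *
      (Fam.homCount (K i) p * ((psi d p : ℝ) * Fam.lam E p)) ≤ -1 + κ := by
    intro i
    have h := hE θ hθ0 hθE' _ (hdeg i) (K i) rfl (E'.baseChange (K i)) d _ hdz
      (twist_baseChange E E' d C' hE' (K i)) (F i) (hF i) (hFL i) δ M hδ hδ1 hM hdM (hFM i)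
      (hcnt i) ε hε (β i) (hβ0 i) (by rw [Complex.ofReal_re]; exact hβ1 i)
      (by rw [Complex.ofReal_im, abs_zero]; positivity)
    linarith
  have e3 : ∀ i j, ε * ∑' p : Nat.Primes, Szf.lp ε p *
      ((Fam.homCount (K i) p : ℝ) * Fam.homCount (K j) p) ≤
      Fam.gam (K i) (K j) + κ / ((m : ℝ) ^ 2 + 1) := fun i j =>
    hDm θ hθ0 hθD' (K i) (K j) (hdeg i) (hdeg j) δ M hδ hδ1 hM (hdisc j) (hcnt2 i j) ε hε
  -- rewriting with the weight `ε lp`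
  have hw : ∀ f : Nat.Primes → ℝ, (∑' p, ε * Szf.lp ε p * f p) = ε * ∑' p, Szf.lp ε p * f p := by
    intro f
    rw [← tsum_mul_left]
    exact tsum_congr fun p => by ring
  obtain ⟨B, C, hC2, hlam, -, -⟩ := Szf.lam_data.{0} E
  have hy : ∀ p : Nat.Primes, |(psi d p : ℝ) * Fam.lam E p| ≤ C := fun p => by
    rw [abs_mul]
    have h3 := abs_psi_le' d p
    have h4 := hlam p p.2
    have h5 := abs_nonneg (Fam.lam E p)
    have h6 := abs_nonneg (psi d p : ℝ)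
    nlinarith
  have hsq : ∀ y : ℝ, |y| ≤ C → |(u * y) ^ 2 - dd y| ≤ (u * C) ^ 2 := by
    intro y hyC
    have e1 := hd y 0
    rw [Int.cast_zero, zero_add] at e1
    have e2 := hd0 y
    have e3 : (u * y) ^ 2 ≤ (u * C) ^ 2 := by
      rw [← sq_abs, abs_mul, abs_of_nonneg hu]
      exact pow_le_pow_left₀ (by positivity) (mul_le_mul_of_nonneg_left hyC hu) 2
    rw [abs_of_nonneg (by linarith)]
    linarith
  have he4 : ε * ∑' p : Nat.Primes, Szf.lp ε p * ((u * ((psi d p : ℝ) * Fam.lam E p)) ^ 2 -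
      dd ((psi d p : ℝ) * Fam.lam E p)) ≤ Q := by
    refine le_trans (mul_le_mul_of_nonneg_left ?_ hε0.le) he3
    exact (Szf.summable_lp_mul hε0 fun p => hsq _ (hy p)).tsum_le_tsum
      (fun p => mul_le_mul_of_nonneg_left (spread_le d p u _ dd hd0 hd heven)
        (Szf.lp_nonneg ε p)) (Szf.summable_lp_mul hε0 fun p => hsq _ (hlam p p.2))
  have key := Szf.core (m := m) (fun p => ε * Szf.lp ε p)
    (fun p : Nat.Primes => (psi d p : ℝ) * Fam.lam E p)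
    (fun p : Nat.Primes => dd ((psi d p : ℝ) * Fam.lam E p))
    (fun i (p : Nat.Primes) => Fam.homCount (K i) p) n C κ G
    u Q (fun p => mul_nonneg hε0.le (Szf.lp_nonneg ε p)) ((Szf.summable_lp hε0).mul_left ε)
    hy (fun i p => (Szf.homCount_le' (K i) p).trans (by exact_mod_cast hdeg i)) hu
    (fun p => hd0 _) (fun p k => hd _ k) (by rw [tsum_mul_left]; exact he1)
    (fun i => by rw [hw]; exact e1 i) (by
      have h1 : (∑ i, ∑ j, ∑' p : Nat.Primes, ε * Szf.lp ε p *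
          ((Fam.homCount (K i) p : ℝ) * Fam.homCount (K j) p)) ≤
          ∑ i : Fin m, ∑ j : Fin m, ((Fam.gam (K i) (K j) : ℝ) + κ / ((m : ℝ) ^ 2 + 1)) :=
        Finset.sum_le_sum fun i _ => Finset.sum_le_sum fun j _ => by rw [hw]; exact e3 i j
      refine h1.trans ?_
      have h2 : (∑ i : Fin m, ∑ j : Fin m, ((Fam.gam (K i) (K j) : ℝ) + κ / ((m : ℝ) ^ 2 + 1))) =
          ((∑ i, ∑ j, Fam.gam (K i) (K j) : ℕ) : ℝ) + (m : ℝ) ^ 2 * (κ / ((m : ℝ) ^ 2 + 1)) := by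
        simp only [Finset.sum_add_distrib, Finset.sum_const, Finset.card_univ, Fintype.card_fin,
          nsmul_eq_mul]
        push_cast
        ring
      rw [h2]
      have h3 : ((∑ i, ∑ j, Fam.gam (K i) (K j) : ℕ) : ℝ) ≤ (m : ℝ) ^ 2 + G := by
        exact_mod_cast hgam
      have h4 : (m : ℝ) ^ 2 * (κ / ((m : ℝ) ^ 2 + 1)) ≤ κ := by
        rw [mul_div_assoc', div_le_iff₀ (by positivity)]
        nlinarith
      linarith)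
    (fun i => by rw [hw]; exact e2 i) (by rw [hw]; exact he2) (by rw [hw]; exact he4)
  linarith

/-- **Main theorem.** -/
theorem siegel_tw (E : WeierstrassCurve ℚ) [E.IsElliptic] (n m G : ℕ) (c₀ : ℝ) (hc₀ : 0 < c₀) :
    ∃ c : ℝ, 0 < c ∧ ∀ (d : ℤ) (E' : WeierstrassCurve ℚ) (C' : VariableChange ℚ), d ≠ 0 →
      C' • E' = twist E (d : ℚ) → ∀ F₀ : ℂ → ℂ, Differentiable ℂ F₀ →
      (∀ s : ℂ, 3 / 2 < s.re → F₀ s = E'.LSeries s) →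
      ∀ (K : Fin m → Type u) [∀ i, Field (K i)] [∀ i, NumberField (K i)],
      (∀ i, Module.finrank ℚ (K i) ≤ n) → ∑ i, ∑ j, Fam.gam (K i) (K j) ≤ m ^ 2 + G →
      ∀ F : Fin m → ℂ → ℂ, (∀ i, Differentiable ℂ (F i)) →
      (∀ i, ∀ s : ℂ, 3 / 2 < s.re → F i s = (E'.baseChange (K i)).LSeries s) →
      ∀ δ M : ℝ, 0 < δ → δ ≤ 1 / 2 → 2 ≤ M → |(d : ℝ)| ≤ M →
      (∀ i, (|NumberField.discr (K i)| : ℝ) ≤ M) →
      (∀ s : ℂ, 3 / 2 - δ ≤ s.re → |s.im| ≤ 1 → ‖F₀ s‖ ≤ M) →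
      (∀ i, ∀ s : ℂ, 3 / 2 - δ ≤ s.re → |s.im| ≤ 1 → ‖F i s‖ ≤ M) →
      (∀ i, Szf.Cnt (K i) δ M) → (∀ i j I, Szf.Cnt (Fam.Fac (K i) (K j) I) δ M) →
      ((∀ z : ℂ, ‖z - 3 / 2‖ < c₀ * δ / Zfr.Lg M 0 δ → F₀ z ≠ 0) ∧ 4 * G < m ^ 2) ∨
      (G ≤ m ^ 2 ∧ ∃ η : ℝ, 0 < η ∧ ∀ᶠ ε : ℝ in 𝓝[>] 0,
        ε * ∑' p, Szf.lp ε p * ((m * Fam.lam E p) ^ 2 - Szf.dz (m * Fam.lam E p)) ≤
          (m : ℝ) ^ 2 - η) →
      ∃ i, ∀ β : ℝ, 3 / 2 - c * δ / Zfr.Lg M 0 δ < β → F i β ≠ 0 := by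
  -- the two cases
  have h1 : 4 * G < m ^ 2 → ∃ c : ℝ, 0 < c ∧ ∀ (d : ℤ) (E' : WeierstrassCurve ℚ)
      (C' : VariableChange ℚ), d ≠ 0 →
      C' • E' = twist E (d : ℚ) → ∀ F₀ : ℂ → ℂ, Differentiable ℂ F₀ →
      (∀ s : ℂ, 3 / 2 < s.re → F₀ s = E'.LSeries s) →
      ∀ (K : Fin m → Type u) [∀ i, Field (K i)] [∀ i, NumberField (K i)],
      (∀ i, Module.finrank ℚ (K i) ≤ n) → ∑ i, ∑ j, Fam.gam (K i) (K j) ≤ m ^ 2 + G →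
      ∀ F : Fin m → ℂ → ℂ, (∀ i, Differentiable ℂ (F i)) →
      (∀ i, ∀ s : ℂ, 3 / 2 < s.re → F i s = (E'.baseChange (K i)).LSeries s) →
      ∀ δ M : ℝ, 0 < δ → δ ≤ 1 / 2 → 2 ≤ M → |(d : ℝ)| ≤ M →
      (∀ i, (|NumberField.discr (K i)| : ℝ) ≤ M) →
      (∀ s : ℂ, 3 / 2 - δ ≤ s.re → |s.im| ≤ 1 → ‖F₀ s‖ ≤ M) →
      (∀ i, ∀ s : ℂ, 3 / 2 - δ ≤ s.re → |s.im| ≤ 1 → ‖F i s‖ ≤ M) →
      (∀ i, Szf.Cnt (K i) δ M) → (∀ i j I, Szf.Cnt (Fam.Fac (K i) (K j) I) δ M) →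
      (∀ z : ℂ, ‖z - 3 / 2‖ < c₀ * δ / Zfr.Lg M 0 δ → F₀ z ≠ 0) →
      ∃ i, ∀ β : ℝ, 3 / 2 - c * δ / Zfr.Lg M 0 δ < β → F i β ≠ 0 := by
    intro hG
    have hG' : (4 : ℝ) * G + 1 ≤ (m : ℝ) ^ 2 := by exact_mod_cast hG
    refine main_core_tw E n m G (m / 4) ((m : ℝ) ^ 2 / 4 + 1 / 8) (1 / 8) c₀ (fun _ => 0)
      (by positivity) (by norm_num) hc₀ (fun _ => le_rfl) (fun _ _ => sq_nonneg _) (fun _ => rfl)
      ?_ ?_
    · have h1 := Szf.mean_sq E (2 / ((m : ℝ) ^ 2 + 1)) (by positivity)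
      filter_upwards [h1, self_mem_nhdsWithin] with ε h2 h3
      have h3 : (0 : ℝ) < ε := h3
      have e : (∑' p, Szf.lp ε p * (((m : ℝ) / 4 * Fam.lam E p) ^ 2 - 0)) =
          (m : ℝ) ^ 2 / 16 * ∑' p, Szf.lp ε p * Fam.lam E p ^ 2 := by
        rw [← tsum_mul_left]
        exact tsum_congr fun p => by ring
      rw [e]
      calc ε * ((m : ℝ) ^ 2 / 16 * ∑' p, Szf.lp ε p * Fam.lam E p ^ 2)
          = (m : ℝ) ^ 2 / 16 * (ε * ∑' p, Szf.lp ε p * Fam.lam E p ^ 2) := by ring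
        _ ≤ (m : ℝ) ^ 2 / 16 * (4 + 2 / ((m : ℝ) ^ 2 + 1)) :=
            mul_le_mul_of_nonneg_left h2 (by positivity)
        _ = (m : ℝ) ^ 2 / 4 + 1 / 8 * ((m : ℝ) ^ 2 / ((m : ℝ) ^ 2 + 1)) := by field_simp; ring
        _ ≤ (m : ℝ) ^ 2 / 4 + 1 / 8 := by
            have : (m : ℝ) ^ 2 / ((m : ℝ) ^ 2 + 1) ≤ 1 := by
              rw [div_le_one (by positivity)]; linarith
            linarith
    · have : (G : ℝ) - 2 * (m / 4) * m + ((m : ℝ) ^ 2 / 4 + 1 / 8) =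
          G - (m : ℝ) ^ 2 / 4 + 1 / 8 := by ring
      rw [this]
      linarith
  have h2 : (G ≤ m ^ 2 ∧ ∃ η : ℝ, 0 < η ∧ ∀ᶠ ε : ℝ in 𝓝[>] 0,
        ε * ∑' p, Szf.lp ε p * ((m * Fam.lam E p) ^ 2 - Szf.dz (m * Fam.lam E p)) ≤
          (m : ℝ) ^ 2 - η) → ∃ c : ℝ, 0 < c ∧ ∀ (d : ℤ) (E' : WeierstrassCurve ℚ)
      (C' : VariableChange ℚ), d ≠ 0 →
      C' • E' = twist E (d : ℚ) → ∀ F₀ : ℂ → ℂ, Differentiable ℂ F₀ →
      (∀ s : ℂ, 3 / 2 < s.re → F₀ s = E'.LSeries s) →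
      ∀ (K : Fin m → Type u) [∀ i, Field (K i)] [∀ i, NumberField (K i)],
      (∀ i, Module.finrank ℚ (K i) ≤ n) → ∑ i, ∑ j, Fam.gam (K i) (K j) ≤ m ^ 2 + G →
      ∀ F : Fin m → ℂ → ℂ, (∀ i, Differentiable ℂ (F i)) →
      (∀ i, ∀ s : ℂ, 3 / 2 < s.re → F i s = (E'.baseChange (K i)).LSeries s) →
      ∀ δ M : ℝ, 0 < δ → δ ≤ 1 / 2 → 2 ≤ M → |(d : ℝ)| ≤ M →
      (∀ i, (|NumberField.discr (K i)| : ℝ) ≤ M) →
      (∀ s : ℂ, 3 / 2 - δ ≤ s.re → |s.im| ≤ 1 → ‖F₀ s‖ ≤ M) →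
      (∀ i, ∀ s : ℂ, 3 / 2 - δ ≤ s.re → |s.im| ≤ 1 → ‖F i s‖ ≤ M) →
      (∀ i, Szf.Cnt (K i) δ M) → (∀ i j I, Szf.Cnt (Fam.Fac (K i) (K j) I) δ M) →
      ∃ i, ∀ β : ℝ, 3 / 2 - c * δ / Zfr.Lg M 0 δ < β → F i β ≠ 0 := by
    rintro ⟨hG, η, hη, hev⟩
    have hG' : (G : ℝ) ≤ (m : ℝ) ^ 2 := by exact_mod_cast hG
    obtain ⟨c₁, hc₁, hnz⟩ := no_zero_tw E m η hη hev
    obtain ⟨c, hc, hmain⟩ := main_core_tw.{u} E n m G m ((m : ℝ) ^ 2 - η) η c₁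
      (fun x => Szf.dz (m * x)) (by positivity) hη hc₁ (fun _ => Szf.dz_nonneg _)
      (fun x k => Szf.dz_le _ k) (fun x => by
        have : (m : ℝ) * -x = -(m * x) := by ring
        rw [this, dz_neg]) hev (by nlinarith)
    refine ⟨c, hc, ?_⟩
    intro d E' C' hd hE' F₀ hF₀ hFL₀ K _ _ hdeg hgam F hF hFL δ M hδ hδ1 hM hdM hdisc hFM₀ hFM
      hcnt hcnt2
    exact hmain d E' C' hd hE' F₀ hF₀ hFL₀ K hdeg hgam F hF hFL δ M hδ hδ1 hM hdM hdisc hFM₀ hFM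
      hcnt hcnt2 (hnz d E' C' hd hE' F₀ hF₀ hFL₀ δ M hδ hδ1 hM hdM hFM₀)
  -- the constant
  obtain ⟨c₁, hc₁, h3⟩ : ∃ c : ℝ, 0 < c ∧ (4 * G < m ^ 2 → ∀ (d : ℤ) (E' : WeierstrassCurve ℚ)
      (C' : VariableChange ℚ), d ≠ 0 →
      C' • E' = twist E (d : ℚ) → ∀ F₀ : ℂ → ℂ, Differentiable ℂ F₀ →
      (∀ s : ℂ, 3 / 2 < s.re → F₀ s = E'.LSeries s) →
      ∀ (K : Fin m → Type u) [∀ i, Field (K i)] [∀ i, NumberField (K i)],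
      (∀ i, Module.finrank ℚ (K i) ≤ n) → ∑ i, ∑ j, Fam.gam (K i) (K j) ≤ m ^ 2 + G →
      ∀ F : Fin m → ℂ → ℂ, (∀ i, Differentiable ℂ (F i)) →
      (∀ i, ∀ s : ℂ, 3 / 2 < s.re → F i s = (E'.baseChange (K i)).LSeries s) →
      ∀ δ M : ℝ, 0 < δ → δ ≤ 1 / 2 → 2 ≤ M → |(d : ℝ)| ≤ M →
      (∀ i, (|NumberField.discr (K i)| : ℝ) ≤ M) →
      (∀ s : ℂ, 3 / 2 - δ ≤ s.re → |s.im| ≤ 1 → ‖F₀ s‖ ≤ M) →
      (∀ i, ∀ s : ℂ, 3 / 2 - δ ≤ s.re → |s.im| ≤ 1 → ‖F i s‖ ≤ M) →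
      (∀ i, Szf.Cnt (K i) δ M) → (∀ i j I, Szf.Cnt (Fam.Fac (K i) (K j) I) δ M) →
      (∀ z : ℂ, ‖z - 3 / 2‖ < c₀ * δ / Zfr.Lg M 0 δ → F₀ z ≠ 0) →
      ∃ i, ∀ β : ℝ, 3 / 2 - c * δ / Zfr.Lg M 0 δ < β → F i β ≠ 0) := by
    by_cases hG : 4 * G < m ^ 2
    · obtain ⟨c, hc, h⟩ := h1 hG
      exact ⟨c, hc, fun _ => h⟩
    · exact ⟨1, one_pos, fun h => absurd h hG⟩
  obtain ⟨c₂, hc₂, h4⟩ : ∃ c : ℝ, 0 < c ∧ ((G ≤ m ^ 2 ∧ ∃ η : ℝ, 0 < η ∧ ∀ᶠ ε : ℝ in 𝓝[>] 0,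
        ε * ∑' p, Szf.lp ε p * ((m * Fam.lam E p) ^ 2 - Szf.dz (m * Fam.lam E p)) ≤
          (m : ℝ) ^ 2 - η) → ∀ (d : ℤ) (E' : WeierstrassCurve ℚ)
      (C' : VariableChange ℚ), d ≠ 0 →
      C' • E' = twist E (d : ℚ) → ∀ F₀ : ℂ → ℂ, Differentiable ℂ F₀ →
      (∀ s : ℂ, 3 / 2 < s.re → F₀ s = E'.LSeries s) →
      ∀ (K : Fin m → Type u) [∀ i, Field (K i)] [∀ i, NumberField (K i)],
      (∀ i, Module.finrank ℚ (K i) ≤ n) → ∑ i, ∑ j, Fam.gam (K i) (K j) ≤ m ^ 2 + G →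
      ∀ F : Fin m → ℂ → ℂ, (∀ i, Differentiable ℂ (F i)) →
      (∀ i, ∀ s : ℂ, 3 / 2 < s.re → F i s = (E'.baseChange (K i)).LSeries s) →
      ∀ δ M : ℝ, 0 < δ → δ ≤ 1 / 2 → 2 ≤ M → |(d : ℝ)| ≤ M →
      (∀ i, (|NumberField.discr (K i)| : ℝ) ≤ M) →
      (∀ s : ℂ, 3 / 2 - δ ≤ s.re → |s.im| ≤ 1 → ‖F₀ s‖ ≤ M) →
      (∀ i, ∀ s : ℂ, 3 / 2 - δ ≤ s.re → |s.im| ≤ 1 → ‖F i s‖ ≤ M) →
      (∀ i, Szf.Cnt (K i) δ M) → (∀ i j I, Szf.Cnt (Fam.Fac (K i) (K j) I) δ M) →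
      ∃ i, ∀ β : ℝ, 3 / 2 - c * δ / Zfr.Lg M 0 δ < β → F i β ≠ 0) := by
    by_cases hG : G ≤ m ^ 2 ∧ ∃ η : ℝ, 0 < η ∧ ∀ᶠ ε : ℝ in 𝓝[>] 0,
        ε * ∑' p, Szf.lp ε p * ((m * Fam.lam E p) ^ 2 - Szf.dz (m * Fam.lam E p)) ≤
          (m : ℝ) ^ 2 - η
    · obtain ⟨c, hc, h⟩ := h2 hG
      exact ⟨c, hc, fun _ => h⟩
    · exact ⟨1, one_pos, fun h => absurd h hG⟩
  refine ⟨min c₁ c₂, by positivity, ?_⟩
  intro d E' C' hd hE' F₀ hF₀ hFL₀ K _ _ hdeg hgam F hF hFL δ M hδ hδ1 hM hdM hdisc hFM₀ hFM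
    hcnt hcnt2 hyp
  have hL2 := Zfr.two_le_Lg hδ hδ1 (le_refl (0 : ℝ)) hM
  have hmono : ∀ c' : ℝ, min c₁ c₂ ≤ c' → min c₁ c₂ * δ / Zfr.Lg M 0 δ ≤ c' * δ / Zfr.Lg M 0 δ :=
    fun c' hc' => div_le_div_of_nonneg_right (mul_le_mul_of_nonneg_right hc' hδ.le) (by linarith)
  rcases hyp with ⟨hnz, hG⟩ | hG
  · obtain ⟨i, hi⟩ := h3 hG d E' C' hd hE' F₀ hF₀ hFL₀ K hdeg hgam F hF hFL δ M hδ hδ1 hM hdM
      hdisc hFM₀ hFM hcnt hcnt2 hnz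
    exact ⟨i, fun β hβ => hi β (by have := hmono c₁ (min_le_left _ _); linarith)⟩
  · obtain ⟨i, hi⟩ := h4 hG d E' C' hd hE' F₀ hF₀ hFL₀ K hdeg hgam F hF hFL δ M hδ hδ1 hM hdM
      hdisc hFM₀ hFM hcnt hcnt2
    exact ⟨i, fun β hβ => hi β (by have := hmono c₂ (min_le_right _ _); linarith)⟩

end main

end Pool.Agent.MPfb225e.Tw
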