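import Mathlib
import Pool.Agent.Lib.MP_fb225e_nt.Tw.Compare
import Pool.Agent.Lib.MP_fb225e_nt.Tw.RealChar
import Pool.Agent.Lib.MP_fb225e_nt.Zfr.Main
import Pool.Agent.Lib.MP_fb225e_nt.Szf.Fields

/-!
MP_fb225e_nt, project TW, module ExcTwist: the exceptional zero of a quadratic twist over a number
field and the mean value over the primes, uniformly in the field and in the twist.
-/

namespace Pool.Agent.MPfb225e.Tw

open Filter Topology Complex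
open NumberField IsDedekindDomain WeierstrassCurve

universe u

/-- If there is no pair of zeros with opposite imaginary parts then there is at most one zero. -/
theorem one_of_no_pair {K : Type u} [Field K] [NumberField K] (W : WeierstrassCurve K) {F : ℂ → ℂ}
    (hF : Differentiable ℂ F) (hFL : ∀ s : ℂ, 3 / 2 < s.re → F s = W.LSeries s) (σ T : ℝ)
    (hT : 0 ≤ T)
    (nopair : ∀ (ρ : Fin 2 → ℂ) (h : ℂ → ℂ), Differentiable ℂ h →
      (∀ z, F z = (∏ j, (z - ρ j)) * h z) → (∀ j, σ < (ρ j).re) → (ρ 1).im = -(ρ 0).im →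
      |(ρ 0).im| ≤ T → False) :
    ∃ β : ℝ, ∀ ρ : ℂ, σ < ρ.re → |ρ.im| ≤ T → F ρ = 0 →
      ρ = β ∧ analyticOrderNatAt F ρ = 1 := by
  -- every zero is real
  have hreal : ∀ ρ : ℂ, σ < ρ.re → |ρ.im| ≤ T → F ρ = 0 → ρ.im = 0 := by
    intro ρ hρ hρT h0
    by_contra him
    have h1 : F ((starRingEnd ℂ) ρ) = 0 := by
      rw [Zfr.conj_symm K W F hF hFL, h0, map_zero]
    obtain ⟨F₁, hF₁, hfac₁⟩ := Zfr.split_one hF h0
    have hne : (starRingEnd ℂ) ρ - ρ ≠ 0 := by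
      intro h
      have := congrArg Complex.im h
      simp at this
      apply him
      linarith
    have h2 : F₁ ((starRingEnd ℂ) ρ) = 0 := by
      rw [hfac₁] at h1
      exact (mul_eq_zero.1 h1).resolve_left hne
    obtain ⟨F₂, hF₂, hfac₂⟩ := Zfr.split_one hF₁ h2
    refine nopair ![ρ, (starRingEnd ℂ) ρ] F₂ hF₂ ?_ ?_ ?_ ?_
    · intro z
      rw [hfac₁, hfac₂, Fin.prod_univ_two]
      simp only [Matrix.cons_val_zero, Matrix.cons_val_one]
      ring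
    · intro j
      fin_cases j
      · exact hρ
      · simpa using hρ
    · simp
    · exact hρT
  -- at most one zero
  have hone : ∀ S : Finset ℂ, (∀ ρ ∈ S, σ < ρ.re ∧ |ρ.im| ≤ T ∧ F ρ = 0) →
      ∑ ρ ∈ S, analyticOrderNatAt F ρ ≤ 1 := by
    intro S hS
    by_contra hcon
    push Not at hcon
    obtain ⟨ρ, h, hh, hρS, hfac⟩ := Zfr.split_zeros F hF (Zfr.exists_ne _ hFL) 2 S (by omega)
    have him : ∀ j, (ρ j).im = 0 := fun j => by
      obtain ⟨h1, h2, h3⟩ := hS _ (hρS j)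
      exact hreal _ h1 h2 h3
    refine nopair ρ h hh hfac (fun j => (hS _ (hρS j)).1) ?_ ?_
    · rw [him 0, him 1, neg_zero]
    · rw [him 0, abs_zero]; exact hT
  have hord : ∀ ρ : ℂ, F ρ = 0 → 1 ≤ analyticOrderNatAt F ρ := by
    intro ρ h0
    have htop : analyticOrderAt F ρ ≠ ⊤ := by
      intro ht
      obtain ⟨z, hz⟩ := Zfr.exists_ne _ hFL
      apply hz
      have hA : AnalyticOnNhd ℂ F Set.univ := fun w _ => hF.analyticAt w
      have := hA.eqOn_zero_of_preconnected_of_eventuallyEq_zero isPreconnected_univ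
        (Set.mem_univ ρ) (analyticOrderAt_eq_top.1 ht)
      exact this (Set.mem_univ z)
    have h1 : analyticOrderAt F ρ ≠ 0 := by
      intro h
      exact ((hF.analyticAt ρ).analyticOrderAt_eq_zero.1 h) h0
    have h2 := Nat.cast_analyticOrderNatAt htop
    by_contra hcon
    have h3 : analyticOrderNatAt F ρ = 0 := by omega
    rw [h3] at h2
    exact h1 h2.symm
  by_cases hex : ∃ ρ : ℂ, σ < ρ.re ∧ |ρ.im| ≤ T ∧ F ρ = 0
  · obtain ⟨ρ₀, h1, h2, h3⟩ := hex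
    refine ⟨ρ₀.re, fun ρ hρ hρT h0 => ?_⟩
    have hρ₀ : ρ₀ = (ρ₀.re : ℂ) := by
      apply Complex.ext
      · simp
      · simp [hreal ρ₀ h1 h2 h3]
    rw [← hρ₀]
    constructor
    · by_contra hne
      have h4 := hone {ρ, ρ₀} (by
        intro z hz
        rw [Finset.mem_insert, Finset.mem_singleton] at hz
        rcases hz with rfl | rfl
        · exact ⟨hρ, hρT, h0⟩
        · exact ⟨h1, h2, h3⟩)
      rw [Finset.sum_pair hne] at h4
      have := hord ρ h0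
      have := hord ρ₀ h3
      omega
    · have h4 := hone {ρ} (by
        intro z hz
        rw [Finset.mem_singleton] at hz
        rw [hz]
        exact ⟨hρ, hρT, h0⟩)
      rw [Finset.sum_singleton] at h4
      have := hord ρ h0
      omega
  · push Not at hex
    exact ⟨0, fun ρ hρ hρT h0 => absurd h0 (hex ρ hρ hρT)⟩

section weights

variable {K : Type u} [Field K] [NumberField K]

/-- the weight of a place -/
noncomputable def wte (ε : ℝ) (v : HeightOneSpectrum (𝓞 K)) : ℝ :=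
  ε * (Real.log (nrm v) * nrm v ^ (-(1 + ε)))

theorem wte_nonneg {ε : ℝ} (hε : 0 < ε) (v : HeightOneSpectrum (𝓞 K)) : 0 ≤ wte ε v :=
  Zfr.W_nonneg hε v

theorem summable_wte {ε : ℝ} (hε : 0 < ε) :
    Summable fun v : HeightOneSpectrum (𝓞 K) => wte ε v := Zfr.summable_W hε

theorem tsum_ind_wte (ε : ℝ) (A : Set (HeightOneSpectrum (𝓞 K))) :
    ∑' v, A.indicator (fun v => wte ε v) v =
      ε * ∑' v, A.indicator (fun v => Real.log (nrm v) * nrm v ^ (-(1 + ε))) v := by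
  rw [← tsum_mul_left]
  refine tsum_congr fun v => ?_
  by_cases hv : v ∈ A
  · rw [Set.indicator_of_mem hv, Set.indicator_of_mem hv]; rfl
  · rw [Set.indicator_of_notMem hv, Set.indicator_of_notMem hv, mul_zero]

end weights

theorem psi_three (a : ℤ) (m : ℕ) :
    (psi a m : ℝ) = 0 ∨ (psi a m : ℝ) = 1 ∨ (psi a m : ℝ) = -1 := by
  have h := abs_psi_le a m
  rw [abs_le] at h
  obtain ⟨h1, h2⟩ := h
  have h3 : psi a m = 0 ∨ psi a m = 1 ∨ psi a m = -1 := by omega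
  rcases h3 with h3 | h3 | h3
  · exact Or.inl (by rw [h3]; norm_num)
  · exact Or.inr (Or.inl (by rw [h3]; norm_num))
  · exact Or.inr (Or.inr (by rw [h3]; norm_num))

/-- The mean values of `x_v` for a twist and for the curve. -/
theorem compare_mean (E : WeierstrassCurve ℚ) [E.IsElliptic] (n : ℕ) : ∃ C : ℝ, 0 < C ∧
    ∀ (K : Type u) [Field K] [NumberField K], Module.finrank ℚ K = n →
    ∀ (V : WeierstrassCurve K) (d : ℤ), d ≠ 0 →
    (∃ C' : VariableChange K, C' • V = twist (E.baseChange K) (d : K)) → ∀ ε : ℝ, 0 < ε →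
    |(∑' v : HeightOneSpectrum (𝓞 K), wte ε v * Zfr.xK V v) -
      ∑' v : HeightOneSpectrum (𝓞 K), wte ε v *
        ((psi d (Fam.N v) : ℝ) * Zfr.xK (E.baseChange K) v)| ≤
      4 * (ε * (C + n * Real.log |(d : ℝ)|)) := by
  classical
  obtain ⟨C, hC, h⟩ := compare.{u} E n
  refine ⟨C, hC, ?_⟩
  intro K _ _ hn V d hd ⟨C', hC'⟩ ε hε
  have h1 := h K hn V d C' hd hC' ε hε
  set A : Set (HeightOneSpectrum (𝓞 K)) :=
    {v | Zfr.xK V v ≠ (psi d (Fam.N v) : ℝ) * Zfr.xK (E.baseChange K) v} with hA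
  have hs : Summable fun v : HeightOneSpectrum (𝓞 K) => wte ε v := summable_wte hε
  have hsA := hs.indicator A
  have h2 : ∑' v, A.indicator (fun v => wte ε v) v ≤ ε * (C + n * Real.log |(d : ℝ)|) := by
    rw [tsum_ind_wte]
    exact mul_le_mul_of_nonneg_left h1 hε.le
  have hpx : ∀ v, |(psi d (Fam.N v) : ℝ) * Zfr.xK (E.baseChange K) v| ≤ 2 := by
    intro v
    rw [abs_mul]
    have h3 : |(psi d (Fam.N v) : ℝ)| ≤ 1 := by exact_mod_cast abs_psi_le d (Fam.N v)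
    have h4 := Zfr.abs_xK_le (E.baseChange K) v
    have h5 := abs_nonneg (Zfr.xK (E.baseChange K) v)
    have h6 := abs_nonneg (psi d (Fam.N v) : ℝ)
    nlinarith
  have hsx : Summable fun v : HeightOneSpectrum (𝓞 K) => wte ε v * Zfr.xK V v := by
    refine Summable.of_norm_bounded (hs.mul_right 2) fun v => ?_
    rw [Real.norm_eq_abs, abs_mul, abs_of_nonneg (wte_nonneg hε v)]
    exact mul_le_mul_of_nonneg_left (Zfr.abs_xK_le _ v) (wte_nonneg hε v)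
  have hspx : Summable fun v : HeightOneSpectrum (𝓞 K) => wte ε v *
      ((psi d (Fam.N v) : ℝ) * Zfr.xK (E.baseChange K) v) := by
    refine Summable.of_norm_bounded (hs.mul_right 2) fun v => ?_
    rw [Real.norm_eq_abs, abs_mul, abs_of_nonneg (wte_nonneg hε v)]
    exact mul_le_mul_of_nonneg_left (hpx v) (wte_nonneg hε v)
  rw [← hsx.tsum_sub hspx, ← Real.norm_eq_abs]
  have h3 := tsum_of_norm_bounded (hsA.mul_left 4).hasSum
    (f := fun v => wte ε v * Zfr.xK V v - wte ε v *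
      ((psi d (Fam.N v) : ℝ) * Zfr.xK (E.baseChange K) v)) (fun v => by
      have hw := wte_nonneg hε v
      by_cases hv : v ∈ A
      · rw [Set.indicator_of_mem hv, Real.norm_eq_abs, ← mul_sub, abs_mul, abs_of_nonneg hw]
        have h4 : |Zfr.xK V v - (psi d (Fam.N v) : ℝ) * Zfr.xK (E.baseChange K) v| ≤ 4 := by
          refine (abs_sub _ _).trans ?_
          linarith [hpx v, Zfr.abs_xK_le V v]
        nlinarith
      · rw [Set.indicator_of_notMem hv]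
        rw [hA, Set.mem_ofPred_eq, not_not] at hv
        rw [← hv, sub_self, norm_zero, mul_zero])
  refine h3.trans ?_
  rw [tsum_mul_left]
  linarith

/-- At most one zero near the edge for a twist. -/
theorem single_tw (E : WeierstrassCurve ℚ) [E.IsElliptic] (n : ℕ) (η : ℝ) (hη : 0 < η)
    (hη1 : η ≤ 1)
    (hbias : ∀ᶠ ε : ℝ in 𝓝[>] 0, ε * ∑' p : Nat.Primes,
      {p : Nat.Primes | 2 - η < |Fam.lam E p|}.indicator
        (fun p : Nat.Primes => Real.log p * (p : ℝ) ^ (-(1 + ε))) p ≤ η / (16 * n)) :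
    ∃ c : ℝ, 0 < c ∧ ∃ N : ℕ, ∀ (K : Type u) [Field K] [NumberField K], Module.finrank ℚ K = n →
    ∀ (V : WeierstrassCurve K) (d : ℤ), d ≠ 0 →
    (∃ C' : VariableChange K, C' • V = twist (E.baseChange K) (d : K)) →
    ∀ (F : ℂ → ℂ), Differentiable ℂ F → (∀ s : ℂ, 3 / 2 < s.re → F s = V.LSeries s) →
    ∀ (κ δ T M : ℝ), 0 < δ → δ ≤ 1 / 2 → 0 ≤ T → 2 ≤ M → |(d : ℝ)| ≤ M →
    (∀ s : ℂ, 3 / 2 - δ ≤ s.re → |s.im| ≤ N * (T + 1) → ‖F s‖ ≤ M) →
    (∀ x : ℝ, 1 ≤ x →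
      |(Nat.card {J : Ideal (𝓞 K) // J ≠ ⊥ ∧ (Ideal.absNorm J : ℝ) ≤ x} : ℝ) - κ * x| ≤
        M * x ^ (1 - δ)) →
    ∃ β : ℝ, ∀ ρ : ℂ, 3 / 2 - c * δ / Zfr.Lg M T δ < ρ.re → |ρ.im| ≤ T → F ρ = 0 →
      ρ = β ∧ analyticOrderNatAt F ρ = 1 := by
  classical
  obtain ⟨κ₁, θ₁, N, hκ₁, hθ₁, hcore⟩ := Zfr.pair_core.{u} n η hη hη1
  obtain ⟨C₁, hC₁, hcomp⟩ := compare.{u} E n
  obtain ⟨C₂, hC₂⟩ := bias_places_set.{u} E n
  rw [eventually_nhdsWithin_iff, Metric.eventually_nhds_iff] at hbias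
  obtain ⟨ε₀, hε₀, hbias⟩ := hbias
  set C' : ℝ := C₁ + |C₂| + n + 1 with hC'
  have hC'0 : 0 < C' := by positivity
  set θ : ℝ := min θ₁ (min (ε₀ / 2) (η / 60 / C')) with hθ
  have hθ0 : 0 < θ := by positivity
  have hθa : θ ≤ θ₁ := min_le_left _ _
  have hθe : θ ≤ ε₀ / 2 := (min_le_right _ _).trans (min_le_left _ _)
  have hθf : θ * C' ≤ η / 60 := by
    have : θ ≤ η / 60 / C' := (min_le_right _ _).trans (min_le_right _ _)
    rwa [le_div_iff₀ hC'0] at this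
  refine ⟨κ₁ * θ, by positivity, N, ?_⟩
  intro K _ _ hn V d hd ⟨Cd, hCd⟩ F hF hFL κ δ T M hδ hδ1 hT hM hdM hFM hcount
  have hL2 := Zfr.two_le_Lg hδ hδ1 hT hM
  have hLM := Zfr.log_M_le hδ hδ1 hT hM
  set Lg := Zfr.Lg M T δ with hLg
  have hLpos : 0 < Lg := by linarith
  set ε : ℝ := θ * δ / Lg with hε
  have hε0 : 0 < ε := by positivity
  have hεθ : ε ≤ θ := by
    rw [hε, div_le_iff₀ hLpos]
    nlinarith
  have hεL : ε * Lg ≤ θ := by
    rw [hε, div_mul_cancel₀ _ hLpos.ne']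
    nlinarith
  -- the prime sum
  set P := ∑' p : Nat.Primes, {p : Nat.Primes | 2 - η < |Fam.lam E p|}.indicator
      (fun p : Nat.Primes => Real.log p * (p : ℝ) ^ (-(1 + ε))) p with hP
  have hP1 : ε * P ≤ η / (16 * n) :=
    hbias (y := ε) (by rw [Real.dist_eq, sub_zero, abs_of_pos hε0]; linarith) hε0
  have hPn : ε * (n * P) ≤ η / 16 := by
    rcases Nat.eq_zero_or_pos n with h0 | h0
    · rw [h0]; simp; positivity
    · have hn0 : (0 : ℝ) < n := by exact_mod_cast h0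
      have h6 : n * (ε * P) ≤ n * (η / (16 * n)) := mul_le_mul_of_nonneg_left hP1 hn0.le
      have h7 : n * (η / (16 * n)) = η / 16 := by field_simp
      rw [h7] at h6
      linarith
  -- the places with large `x`
  have hplaces : ∑' v : HeightOneSpectrum (𝓞 K),
      {v | 2 - η < |Zfr.xK (E.baseChange K) v|}.indicator (fun v => wte ε v) v ≤
        η / 16 + ε * C₂ := by
    have h1 : ∑' v : HeightOneSpectrum (𝓞 K),
        {v | 2 - η < |Zfr.xK (E.baseChange K) v|}.indicator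
          (fun v => Real.log (nrm v) * nrm v ^ (-(1 + ε))) v ≤ n * P + C₂ :=
      hC₂ K hn {x : ℝ | 2 - η < |x|} ε hε0
    rw [tsum_ind_wte]
    have h2 := mul_le_mul_of_nonneg_left h1 hε0.le
    refine h2.trans ?_
    rw [mul_add]
    linarith [hPn]
  -- the places where the comparison fails
  have hexc : ∑' v : HeightOneSpectrum (𝓞 K),
      {v | Zfr.xK V v ≠ (psi d (Fam.N v) : ℝ) * Zfr.xK (E.baseChange K) v}.indicator
        (fun v => wte ε v) v ≤ ε * C₁ + θ * n := by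
    have h1 := hcomp K hn V d Cd hd hCd ε hε0
    rw [tsum_ind_wte]
    refine (mul_le_mul_of_nonneg_left h1 hε0.le).trans ?_
    have h2 : Real.log |(d : ℝ)| ≤ Lg := by
      have hd0 : (0 : ℝ) < |(d : ℝ)| := abs_pos.2 (by exact_mod_cast hd)
      exact (Real.log_le_log hd0 hdM).trans hLM
    have h3 : ε * Real.log |(d : ℝ)| ≤ θ := (mul_le_mul_of_nonneg_left h2 hε0.le).trans hεL
    have h4 : ε * (n * Real.log |(d : ℝ)|) ≤ θ * n := by
      have : (0 : ℝ) ≤ n := Nat.cast_nonneg n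
      nlinarith
    rw [mul_add]
    linarith
  have hsmall : ε * C₁ + θ * n + ε * |C₂| ≤ θ * C' := by
    have h1 : ε * C₁ ≤ θ * C₁ := mul_le_mul_of_nonneg_right hεθ hC₁.le
    have h2 : ε * |C₂| ≤ θ * |C₂| := mul_le_mul_of_nonneg_right hεθ (abs_nonneg _)
    rw [hC']
    nlinarith
  have hC₂abs : ε * C₂ ≤ ε * |C₂| := mul_le_mul_of_nonneg_left (le_abs_self _) hε0.le
  refine one_of_no_pair V hF hFL _ T hT ?_
  intro ρ h hh hfac hρ him hT0
  have h1 := hcore K V hn F hF hFL κ δ T M θ hδ hδ1 hT hM hθ0 hθa hFM hcount ρ h hh hfac hρ him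
    hT0 ε hε
  rw [← tsum_ind_wte] at h1
  -- comparison
  set A₁ : Set (HeightOneSpectrum (𝓞 K)) := {v | 2 - η < |Zfr.xK (E.baseChange K) v|} with hA₁
  set A₂ : Set (HeightOneSpectrum (𝓞 K)) :=
    {v | Zfr.xK V v ≠ (psi d (Fam.N v) : ℝ) * Zfr.xK (E.baseChange K) v} with hA₂
  have hs : Summable fun v : HeightOneSpectrum (𝓞 K) => wte ε v := summable_wte hε0
  have hs1 := hs.indicator A₁
  have hs2 := hs.indicator A₂
  have h2 : ∑' v, {v | Zfr.xK V v < -2 + η}.indicator (fun v => wte ε v) v ≤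
      ∑' v, A₁.indicator (fun v => wte ε v) v + ∑' v, A₂.indicator (fun v => wte ε v) v := by
    rw [← hs1.tsum_add hs2]
    refine (hs.indicator _).tsum_le_tsum (fun v => ?_) (hs1.add hs2)
    have hw := wte_nonneg hε0 v
    have hi1 : 0 ≤ A₁.indicator (fun v => wte ε v) v :=
      Set.indicator_nonneg (fun v _ => wte_nonneg hε0 v) v
    have hi2 : 0 ≤ A₂.indicator (fun v => wte ε v) v :=
      Set.indicator_nonneg (fun v _ => wte_nonneg hε0 v) v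
    by_cases hv : v ∈ {v | Zfr.xK V v < -2 + η}
    · rw [Set.indicator_of_mem hv]
      by_cases hv2 : v ∈ A₂
      · rw [Set.indicator_of_mem hv2]
        linarith
      · have hv1 : v ∈ A₁ := by
          rw [hA₂, Set.mem_ofPred_eq, not_not] at hv2
          rw [hA₁, Set.mem_ofPred_eq]
          rw [Set.mem_ofPred_eq, hv2] at hv
          have h3 : |(psi d (Fam.N v) : ℝ) * Zfr.xK (E.baseChange K) v| ≤
              |Zfr.xK (E.baseChange K) v| := by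
            rw [abs_mul]
            have : |(psi d (Fam.N v) : ℝ)| ≤ 1 := by exact_mod_cast abs_psi_le d (Fam.N v)
            exact mul_le_of_le_one_left (abs_nonneg _) this
          have h4 := neg_abs_le ((psi d (Fam.N v) : ℝ) * Zfr.xK (E.baseChange K) v)
          linarith
        rw [Set.indicator_of_mem hv1]
        linarith
    · rw [Set.indicator_of_notMem hv]
      linarith
  linarith

/-- At most one zero near the edge for a twist, uniformly in the degree. -/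
theorem one_zero_tw (E : WeierstrassCurve ℚ) [E.IsElliptic] (n : ℕ) (η : ℝ) (hη : 0 < η)
    (hη1 : η ≤ 1)
    (hbias : ∀ᶠ ε : ℝ in 𝓝[>] 0, ε * ∑' p : Nat.Primes,
      {p : Nat.Primes | 2 - η < |Fam.lam E p|}.indicator
        (fun p : Nat.Primes => Real.log p * (p : ℝ) ^ (-(1 + ε))) p ≤ η / (16 * n)) :
    ∃ c : ℝ, 0 < c ∧ ∃ N : ℕ, ∀ (K : Type u) [Field K] [NumberField K], Module.finrank ℚ K ≤ n →
    ∀ (V : WeierstrassCurve K) (d : ℤ), d ≠ 0 →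
    (∃ C' : VariableChange K, C' • V = twist (E.baseChange K) (d : K)) →
    ∀ (F : ℂ → ℂ), Differentiable ℂ F → (∀ s : ℂ, 3 / 2 < s.re → F s = V.LSeries s) →
    ∀ (δ T M : ℝ), 0 < δ → δ ≤ 1 / 2 → 0 ≤ T → 2 ≤ M → |(d : ℝ)| ≤ M →
    (∀ s : ℂ, 3 / 2 - δ ≤ s.re → |s.im| ≤ N * (T + 1) → ‖F s‖ ≤ M) → Szf.Cnt K δ M →
    ∃ β : ℝ, ∀ ρ : ℂ, 3 / 2 - c * δ / Zfr.Lg M T δ < ρ.re → |ρ.im| ≤ T → F ρ = 0 →
      ρ = β ∧ analyticOrderNatAt F ρ = 1 := by
  have hd : ∀ m : ℕ, ∃ c₀ : ℝ, 0 < c₀ ∧ ∀ c, 0 < c → c ≤ c₀ → (1 ≤ m ∧ m ≤ n → ∃ N : ℕ,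
      ∀ (K : Type u) [Field K] [NumberField K], Module.finrank ℚ K = m →
      ∀ (V : WeierstrassCurve K) (d : ℤ), d ≠ 0 →
      (∃ C' : VariableChange K, C' • V = twist (E.baseChange K) (d : K)) →
      ∀ (F : ℂ → ℂ), Differentiable ℂ F →
      (∀ s : ℂ, 3 / 2 < s.re → F s = V.LSeries s) →
      ∀ (δ T M : ℝ), 0 < δ → δ ≤ 1 / 2 → 0 ≤ T → 2 ≤ M → |(d : ℝ)| ≤ M →
      (∀ s : ℂ, 3 / 2 - δ ≤ s.re → |s.im| ≤ N * (T + 1) → ‖F s‖ ≤ M) → Szf.Cnt K δ M →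
      ∃ β : ℝ, ∀ ρ : ℂ, 3 / 2 - c * δ / Zfr.Lg M T δ < ρ.re → |ρ.im| ≤ T → F ρ = 0 →
        ρ = β ∧ analyticOrderNatAt F ρ = 1) := by
    intro m
    by_cases hdn : 1 ≤ m ∧ m ≤ n
    · have hb : ∀ᶠ ε : ℝ in 𝓝[>] 0, ε * ∑' p : Nat.Primes,
          {p : Nat.Primes | 2 - η < |Fam.lam E p|}.indicator
          (fun p : Nat.Primes => Real.log p * (p : ℝ) ^ (-(1 + ε))) p ≤ η / (16 * m) := by
        filter_upwards [hbias] with ε hε
        refine hε.trans ?_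
        have h1 : (1 : ℝ) ≤ m := by exact_mod_cast hdn.1
        have h2 : (m : ℝ) ≤ n := by exact_mod_cast hdn.2
        exact div_le_div_of_nonneg_left hη.le (by positivity) (by linarith)
      obtain ⟨c₀, hc₀, N, h⟩ := single_tw.{u} E m η hη hη1 hb
      refine ⟨c₀, hc₀, fun c hc hcc _ => ⟨N, ?_⟩⟩
      intro K _ _ hK V d hd hV F hF hFL δ T M hδ hδ1 hT hM hdM hFM ⟨κ, hcount⟩
      obtain ⟨β, hβ⟩ := h K hK V d hd hV F hF hFL κ δ T M hδ hδ1 hT hM hdM hFM hcount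
      refine ⟨β, fun ρ hρ => hβ ρ ?_⟩
      have hL := Zfr.two_le_Lg hδ hδ1 hT hM
      have h1 : c * δ / Zfr.Lg M T δ ≤ c₀ * δ / Zfr.Lg M T δ :=
        div_le_div_of_nonneg_right (mul_le_mul_of_nonneg_right hcc hδ.le) (by linarith)
      linarith
    · exact ⟨1, one_pos, fun _ _ _ h => absurd h hdn⟩
  obtain ⟨c, hc, h⟩ := Szf.exists_uniform hd n
  have h' := h c hc le_rfl
  choose! N hN using fun (m : ℕ) (hm : 1 ≤ m ∧ m ≤ n) => h' m hm.2 hm
  refine ⟨c, hc, ∑ m ∈ Finset.range (n + 1), N m, ?_⟩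
  intro K _ _ hK V d hd0 hV F hF hFL δ T M hδ hδ1 hT hM hdM hFM hcnt
  have hpos : 1 ≤ Module.finrank ℚ K := Module.finrank_pos
  refine hN (Module.finrank ℚ K) ⟨hpos, hK⟩ K rfl V d hd0 hV F hF hFL δ T M hδ hδ1 hT hM hdM
    (fun s hs hs' => hFM s hs (hs'.trans ?_)) hcnt
  refine mul_le_mul_of_nonneg_right ?_ (by linarith)
  exact_mod_cast Finset.single_le_sum (f := fun m => N m) (fun _ _ => Nat.zero_le _)
    (Finset.mem_range.2 (Nat.lt_succ_of_le hK))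

/-- The exceptional zero and the mean value of `x` over the places. -/
theorem exc_zero_tw (E : WeierstrassCurve ℚ) [E.IsElliptic] (n : ℕ) (η : ℝ) (hη : 0 < η)
    (hη1 : η ≤ 1)
    (hbias : ∀ᶠ ε : ℝ in 𝓝[>] 0, ε * ∑' p : Nat.Primes,
      {p : Nat.Primes | 2 - η < |Fam.lam E p|}.indicator
        (fun p : Nat.Primes => Real.log p * (p : ℝ) ^ (-(1 + ε))) p ≤ η / (16 * n)) :
    ∃ c₁ : ℝ, 0 < c₁ ∧ ∃ N : ℕ, 1 ≤ N ∧ ∀ κ' : ℝ, 0 < κ' → ∃ θ₀ : ℝ, 0 < θ₀ ∧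
    ∀ (K : Type u) [Field K] [NumberField K], Module.finrank ℚ K ≤ n →
    ∀ (V : WeierstrassCurve K) (d : ℤ), d ≠ 0 →
    (∃ C' : VariableChange K, C' • V = twist (E.baseChange K) (d : K)) →
    ∀ (F : ℂ → ℂ), Differentiable ℂ F → (∀ s : ℂ, 3 / 2 < s.re → F s = V.LSeries s) →
    ∀ (δ M : ℝ), 0 < δ → δ ≤ 1 / 2 → 2 ≤ M → |(d : ℝ)| ≤ M →
    (∀ s : ℂ, 3 / 2 - δ ≤ s.re → |s.im| ≤ N → ‖F s‖ ≤ M) → Szf.Cnt K δ M →
    ∃ t : ℝ, 0 ≤ t ∧ (∀ β : ℝ, F β = 0 → 3 / 2 - c₁ * δ / Zfr.Lg M 0 δ < β → t = 3 / 2 - β) ∧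
      (t < 1 → F ((3 / 2 - t : ℝ) : ℂ) = 0) ∧
      ∀ θ : ℝ, 0 < θ → θ ≤ θ₀ → ∀ ε : ℝ, ε = θ * δ / Zfr.Lg M 0 δ →
        |(∑' v : HeightOneSpectrum (𝓞 K), ε * (Real.log (nrm v) * nrm v ^ (-(1 + ε))) *
          Zfr.xK V v) + ε / (ε + t)| ≤ κ' := by
  obtain ⟨c, hc, N, hone⟩ := one_zero_tw.{u} E n η hη hη1 hbias
  set c₁ : ℝ := min (c / 2) (1 / 2) with hc₁
  have hc₁0 : 0 < c₁ := by positivity
  have hc₁c : c₁ ≤ c / 2 := min_le_left _ _
  have hc₁h : c₁ ≤ 1 / 2 := min_le_right _ _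
  refine ⟨c₁, hc₁0, 2 * N + 1, by omega, ?_⟩
  intro κ' hκ'
  obtain ⟨θ₀, hθ₀, h0⟩ := Szf.exists_uniform (fun d => Szf.curve_two_sided.{u} d 0 c₁ (κ' / 2)
    hc₁0 (by positivity)) n
  obtain ⟨θ₁, hθ₁, h1⟩ := Szf.exists_uniform (fun d => Szf.curve_two_sided.{u} d 1 c₁ κ' hc₁0
    hκ') n
  refine ⟨min (min θ₀ θ₁) (κ' / 2), by positivity, ?_⟩
  intro K _ _ hK V d hd hV F hF hFL δ M hδ hδ1 hM hdM hFM hcnt
  have hL2 := Zfr.two_le_Lg hδ hδ1 (le_refl (0 : ℝ)) hM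
  have hL1 := Szf.Lg_le hδ hδ1 hM
  have hLT := Zfr.two_le_Lg hδ hδ1 (zero_le_one (α := ℝ)) hM
  set Λ := Zfr.Lg M 0 δ with hΛ
  have hΛ0 : 0 < Λ := by linarith
  obtain ⟨κ, hcount⟩ := hcnt
  have hFM1 : ∀ s : ℂ, 3 / 2 - δ ≤ s.re → |s.im| ≤ 1 → ‖F s‖ ≤ M := fun s hs hs' =>
    hFM s hs (hs'.trans (by push_cast; have : (0 : ℝ) ≤ N := Nat.cast_nonneg N; linarith))
  obtain ⟨β, hβ⟩ := hone K hK V d hd hV F hF hFL δ 1 M hδ hδ1 zero_le_one hM hdM
    (fun s hs hs' => hFM s hs (hs'.trans (by push_cast; linarith))) ⟨κ, hcount⟩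
  have hball : ∀ z : ℂ, ‖z - 3 / 2‖ < c₁ * δ / Λ → F z = 0 →
      z = β ∧ analyticOrderNatAt F z = 1 := by
    intro z hz hz0
    refine hβ z ?_ ?_ hz0
    · have h2 := (Complex.abs_re_le_norm (z - 3 / 2)).trans_lt hz
      rw [Complex.sub_re, abs_lt] at h2
      have e : (3 / 2 : ℂ).re = 3 / 2 := by norm_num
      rw [e] at h2
      have h3 : c₁ * δ / Λ ≤ c * δ / Zfr.Lg M 1 δ := by
        rw [div_le_div_iff₀ hΛ0 (by linarith)]
        have h4 : c₁ * δ ≤ c / 2 * δ := mul_le_mul_of_nonneg_right hc₁c hδ.le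
        calc c₁ * δ * Zfr.Lg M 1 δ ≤ c / 2 * δ * (2 * Λ) :=
              mul_le_mul h4 hL1 (by linarith) (by positivity)
          _ = c * δ * Λ := by ring
      linarith [h2.1]
    · have h2 := (Complex.abs_im_le_norm (z - 3 / 2)).trans_lt hz
      rw [Complex.sub_im] at h2
      have e : (3 / 2 : ℂ).im = 0 := by norm_num
      rw [e, sub_zero] at h2
      have h3 : c₁ * δ / Λ ≤ 1 := by
        rw [div_le_one hΛ0]
        nlinarith
      linarith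
  have hreal : ∀ β' : ℝ, F β' = 0 → 3 / 2 - c₁ * δ / Λ < β' →
      ‖(β' : ℂ) - 3 / 2‖ < c₁ * δ / Λ := by
    intro β' h2 h3
    have h4 := Zfr.re_le_of_zero V hFL h2
    rw [Complex.ofReal_re] at h4
    have e : (β' : ℂ) - 3 / 2 = ((β' - 3 / 2 : ℝ) : ℂ) := by push_cast; ring
    rw [e, Complex.norm_real, Real.norm_eq_abs, abs_of_nonpos (by linarith)]
    linarith
  by_cases hex : ∃ z : ℂ, ‖z - 3 / 2‖ < c₁ * δ / Λ ∧ F z = 0
  · obtain ⟨z, hz, hz0⟩ := hex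
    obtain ⟨hzβ, hord⟩ := hball z hz hz0
    rw [hzβ] at hz hz0 hord
    have hβle := Zfr.re_le_of_zero V hFL hz0
    rw [Complex.ofReal_re] at hβle
    have hβnorm : 3 / 2 - β < c₁ * δ / Λ := by
      have e : (β : ℂ) - 3 / 2 = ((β - 3 / 2 : ℝ) : ℂ) := by push_cast; ring
      rw [e, Complex.norm_real, Real.norm_eq_abs, abs_of_nonpos (by linarith)] at hz
      linarith
    have hβge : 3 / 2 - δ / 4 ≤ β := by
      have h3 : c₁ * δ / Λ ≤ δ / 4 := by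
        rw [div_le_iff₀ hΛ0]
        nlinarith
      linarith
    obtain ⟨h, hh, hfac⟩ := Zfr.split_one hF hz0
    refine ⟨3 / 2 - β, by linarith, ?_, ?_, ?_⟩
    · intro β' h2 h3
      have h4 := (hball β' (hreal β' h2 h3) h2).1
      have h5 : β' = β := by exact_mod_cast h4
      rw [h5]
    · intro _
      have e : (3 / 2 - (3 / 2 - β) : ℝ) = β := by ring
      rw [e]
      exact hz0
    · intro θ hθ hθ0 ε hε
      have key := h1 θ hθ ((hθ0.trans (min_le_left _ _)).trans (min_le_right _ _)) _ hK K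
        V rfl F hF hFL κ δ M hδ hδ1 hM hFM1 hcount (fun _ => β) h hh
        (fun z => by rw [hfac z, Fin.prod_univ_one]) (fun _ => hβge) (fun w hw hw0 => by
          have h4 : F w = 0 := by rw [hfac, hw0, mul_zero]
          obtain ⟨h5, -⟩ := hball w hw h4
          rw [h5] at hw0
          exact Szf.ne_zero_of_simple hfac hh hord hw0) ε hε
      rw [Fin.sum_univ_one] at key
      exact key
  · push Not at hex
    refine ⟨1, zero_le_one, ?_, fun h => absurd h (lt_irrefl _), ?_⟩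
    · intro β' h2 h3
      exact absurd h2 (hex β' (hreal β' h2 h3))
    · intro θ hθ hθ0 ε hε
      obtain ⟨hε0, hεθ⟩ := Szf.scale hθ hδ hδ1 hM hε
      have key := h0 θ hθ ((hθ0.trans (min_le_left _ _)).trans (min_le_left _ _)) _ hK K
        V rfl F hF hFL κ δ M hδ hδ1 hM hFM1 hcount Fin.elim0 F hF
        (fun z => by simp) (fun j => j.elim0) (fun w hw => hex w hw) ε hε
      rw [Finset.univ_eq_empty, Finset.sum_empty, add_zero] at key
      have h2 : ε / (ε + 1) ≤ κ' / 2 := by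
        have h3 : ε / (ε + 1) ≤ ε := by
          rw [div_le_iff₀ (by linarith)]
          nlinarith
        exact h3.trans (hεθ.trans (hθ0.trans (min_le_right _ _)))
      have h3 : 0 ≤ ε / (ε + 1) := by positivity
      refine (abs_add_le _ _).trans ?_
      rw [abs_of_nonneg h3]
      linarith

/-- The mean value of `c x ψ` over the rational primes, for all fields and twists at once. -/
theorem exc_primes_tw (E : WeierstrassCurve ℚ) [E.IsElliptic] (n : ℕ) (η : ℝ) (hη : 0 < η)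
    (hη1 : η ≤ 1)
    (hbias : ∀ᶠ ε : ℝ in 𝓝[>] 0, ε * ∑' p : Nat.Primes,
      {p : Nat.Primes | 2 - η < |Fam.lam E p|}.indicator
        (fun p : Nat.Primes => Real.log p * (p : ℝ) ^ (-(1 + ε))) p ≤ η / (16 * n)) :
    ∃ c₁ : ℝ, 0 < c₁ ∧ ∃ N : ℕ, 1 ≤ N ∧ ∀ κ' : ℝ, 0 < κ' → ∃ θ₀ : ℝ, 0 < θ₀ ∧
    ∀ (K : Type u) [Field K] [NumberField K], Module.finrank ℚ K ≤ n →
    ∀ (V : WeierstrassCurve K) (d : ℤ), d ≠ 0 →
    (∃ C' : VariableChange K, C' • V = twist (E.baseChange K) (d : K)) →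
    ∀ (F : ℂ → ℂ), Differentiable ℂ F → (∀ s : ℂ, 3 / 2 < s.re → F s = V.LSeries s) →
    ∀ (δ M : ℝ), 0 < δ → δ ≤ 1 / 2 → 2 ≤ M → |(d : ℝ)| ≤ M →
    (∀ s : ℂ, 3 / 2 - δ ≤ s.re → |s.im| ≤ N → ‖F s‖ ≤ M) → Szf.Cnt K δ M →
    ∃ t : ℝ, 0 ≤ t ∧ (∀ β : ℝ, F β = 0 → 3 / 2 - c₁ * δ / Zfr.Lg M 0 δ < β → t = 3 / 2 - β) ∧
      (t < 1 → F ((3 / 2 - t : ℝ) : ℂ) = 0) ∧
      ∀ θ : ℝ, 0 < θ → θ ≤ θ₀ → ∀ ε : ℝ, ε = θ * δ / Zfr.Lg M 0 δ →
        |(ε * ∑' p, Szf.lp ε p * (Fam.homCount K p * ((psi d p : ℝ) * Fam.lam E p))) +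
          ε / (ε + t)| ≤ κ' := by
  obtain ⟨c₁, hc₁, N, hN, hmain⟩ := exc_zero_tw.{u} E n η hη hη1 hbias
  refine ⟨c₁, hc₁, N, hN, fun κ' hκ' => ?_⟩
  obtain ⟨θ₁, hθ₁, h1⟩ := hmain (κ' / 3) (by positivity)
  obtain ⟨B, C, hC2, hlam, -, hbase⟩ := Szf.lam_data.{u} E
  have hψ : ∀ (d : ℤ) (m : ℕ), |(psi d m : ℝ)| ≤ 1 := fun d m => by
    exact_mod_cast abs_psi_le d m
  have hmul : ∀ (d : ℤ) (m : ℕ) (x : ℝ), |(psi d m : ℝ) * x| ≤ |x| := fun d m x => by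
    rw [abs_mul]
    exact mul_le_of_le_one_left (abs_nonneg _) (hψ d m)
  have hd : ∀ m : ℕ, ∃ θ₀ : ℝ, 0 < θ₀ ∧ ∀ θ, 0 < θ → θ ≤ θ₀ → ∀ (K : Type u) [Field K]
      [NumberField K], Module.finrank ℚ K = m → ∀ (x : HeightOneSpectrum (𝓞 K) → ℝ) (y : ℕ → ℝ),
      (∀ v, |x v| ≤ C) → (∀ p : ℕ, p.Prime → |y p| ≤ C) →
      (∀ v, (Fam.N v).Prime → B < Fam.N v → x v = y (Fam.N v)) → ∀ ε : ℝ, 0 < ε → ε ≤ θ →
      ε * |(∑' v : HeightOneSpectrum (𝓞 K), Real.log (nrm v) * nrm v ^ (-(1 + ε)) * x v) -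
        ∑' p : Nat.Primes, Real.log p * (p : ℝ) ^ (-(1 + ε)) * (Fam.homCount K p * y p)| ≤
          κ' / 3 := by
    intro m
    obtain ⟨D, hD⟩ := Szf.compare'.{u} m B C (by linarith)
    refine ⟨κ' / 3 / (|D| + 1), by positivity, ?_⟩
    intro θ hθ hθ0 K _ _ hK x y hx hy hxy ε hε hεθ
    have h2 := (hD K hK x y hx hy hxy ε hε).trans (le_abs_self D)
    have h3 : ε * (|D| + 1) ≤ κ' / 3 := by
      rw [le_div_iff₀ (by positivity)] at hθ0
      exact (mul_le_mul_of_nonneg_right hεθ (by positivity)).trans hθ0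
    refine le_trans (mul_le_mul_of_nonneg_left h2 hε.le) (le_trans ?_ h3)
    exact mul_le_mul_of_nonneg_left (by linarith) hε.le
  obtain ⟨θ₂, hθ₂, h2⟩ := Szf.exists_uniform hd n
  have hc : ∀ m : ℕ, ∃ θ₀ : ℝ, 0 < θ₀ ∧ ∀ θ, 0 < θ → θ ≤ θ₀ → ∀ (K : Type u) [Field K]
      [NumberField K], Module.finrank ℚ K = m → ∀ (V : WeierstrassCurve K) (d : ℤ), d ≠ 0 →
      (∃ C' : VariableChange K, C' • V = twist (E.baseChange K) (d : K)) →
      ∀ (δ M : ℝ), 0 < δ → δ ≤ 1 / 2 → 2 ≤ M → |(d : ℝ)| ≤ M →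
      ∀ ε : ℝ, ε = θ * δ / Zfr.Lg M 0 δ →
      |(∑' v : HeightOneSpectrum (𝓞 K), wte ε v * Zfr.xK V v) -
        ∑' v : HeightOneSpectrum (𝓞 K), wte ε v *
          ((psi d (Fam.N v) : ℝ) * Zfr.xK (E.baseChange K) v)| ≤ κ' / 3 := by
    intro m
    obtain ⟨D, hD0, hD⟩ := compare_mean.{u} E m
    refine ⟨κ' / 3 / (4 * (D + m)), by positivity, ?_⟩
    intro θ hθ hθ0 K _ _ hK V d hd0 hV δ M hδ hδ1 hM hdM ε hε
    obtain ⟨hε0, hεθ⟩ := Szf.scale hθ hδ hδ1 hM hε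
    refine (hD K hK V d hd0 hV ε hε0).trans ?_
    have hL2 := Zfr.two_le_Lg hδ hδ1 (le_refl (0 : ℝ)) hM
    have hLM := Zfr.log_M_le hδ hδ1 (le_refl (0 : ℝ)) hM
    have h3 : Real.log |(d : ℝ)| ≤ Zfr.Lg M 0 δ := by
      have hd1 : (0 : ℝ) < |(d : ℝ)| := abs_pos.2 (by exact_mod_cast hd0)
      exact (Real.log_le_log hd1 hdM).trans hLM
    have h4 : ε * Zfr.Lg M 0 δ ≤ θ := by
      rw [hε, div_mul_cancel₀ _ (by linarith : Zfr.Lg M 0 δ ≠ 0)]
      nlinarith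
    have h5 : ε * Real.log |(d : ℝ)| ≤ θ := (mul_le_mul_of_nonneg_left h3 hε0.le).trans h4
    have h6 : ε * (m * Real.log |(d : ℝ)|) ≤ θ * m := by
      have : (0 : ℝ) ≤ m := Nat.cast_nonneg m
      nlinarith
    have h7 : ε * D ≤ θ * D := mul_le_mul_of_nonneg_right hεθ hD0.le
    rw [le_div_iff₀ (by positivity)] at hθ0
    nlinarith
  obtain ⟨θ₃, hθ₃, h3⟩ := Szf.exists_uniform hc n
  refine ⟨min θ₁ (min θ₂ θ₃), by positivity, ?_⟩
  intro K _ _ hK V d hd0 hV F hF hFL δ M hδ hδ1 hM hdM hFM hcnt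
  obtain ⟨t, ht0, ht1, ht2, ht3⟩ := h1 K hK V d hd0 hV F hF hFL δ M hδ hδ1 hM hdM hFM hcnt
  refine ⟨t, ht0, ht1, ht2, ?_⟩
  intro θ hθ hθ0 ε hε
  obtain ⟨hε0, hεθ⟩ := Szf.scale hθ hδ hδ1 hM hε
  have h5 := ht3 θ hθ (hθ0.trans (min_le_left _ _)) ε hε
  have h6 := h2 θ hθ (hθ0.trans ((min_le_right _ _).trans (min_le_left _ _))) _ hK K rfl
    (fun v => (psi d (Fam.N v) : ℝ) * Zfr.xK (E.baseChange K) v)
    (fun m => (psi d m : ℝ) * Fam.lam E m)
    (fun v => ((hmul _ _ _).trans (Zfr.abs_xK_le _ v)).trans hC2)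
    (fun p hp => (hmul _ _ _).trans (hlam p hp))
    (fun v hp hB => by rw [hbase K v hp hB]) ε hε0 hεθ
  have h7 := h3 θ hθ (hθ0.trans ((min_le_right _ _).trans (min_le_right _ _))) _ hK K rfl V d hd0
    hV δ M hδ hδ1 hM hdM ε hε
  have e5 : (∑' v : HeightOneSpectrum (𝓞 K), ε * (Real.log (nrm v) * nrm v ^ (-(1 + ε))) *
      Zfr.xK V v) = ∑' v : HeightOneSpectrum (𝓞 K), wte ε v * Zfr.xK V v := rfl
  have e6 : (∑' v : HeightOneSpectrum (𝓞 K), wte ε v *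
      ((psi d (Fam.N v) : ℝ) * Zfr.xK (E.baseChange K) v)) =
      ε * ∑' v : HeightOneSpectrum (𝓞 K), Real.log (nrm v) * nrm v ^ (-(1 + ε)) *
        ((psi d (Fam.N v) : ℝ) * Zfr.xK (E.baseChange K) v) := by
    rw [← tsum_mul_left]
    refine tsum_congr fun v => ?_
    unfold wte
    ring
  rw [e5] at h5
  rw [e6] at h7
  have e4 : (∑' p : Nat.Primes, Real.log p * (p : ℝ) ^ (-(1 + ε)) *
      (Fam.homCount K p * ((psi d p : ℝ) * Fam.lam E p))) =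
      ∑' p, Szf.lp ε p * (Fam.homCount K p * ((psi d p : ℝ) * Fam.lam E p)) := rfl
  rw [e4] at h6
  set X := ∑' v : HeightOneSpectrum (𝓞 K), wte ε v * Zfr.xK V v with hX
  set X' := ∑' v : HeightOneSpectrum (𝓞 K),
    Real.log (nrm v) * nrm v ^ (-(1 + ε)) *
      ((psi d (Fam.N v) : ℝ) * Zfr.xK (E.baseChange K) v) with hX'
  set Y := ∑' p, Szf.lp ε p * (Fam.homCount K p * ((psi d p : ℝ) * Fam.lam E p)) with hY
  have h8 : |ε * (X' - Y)| ≤ κ' / 3 := by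
    rw [abs_mul, abs_of_pos hε0]
    exact h6
  have e7 : ε * Y + ε / (ε + t) =
      (X + ε / (ε + t)) - ((X - ε * X') + ε * (X' - Y)) := by ring
  rw [e7]
  refine (abs_sub _ _).trans ?_
  have h9 := abs_add_le (X - ε * X') (ε * (X' - Y))
  linarith

end Pool.Agent.MPfb225e.Tw
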