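import Mathlib
import Pool.Agent.Lib.MP_fb225e_nt.Tw.ExcTwist

/-!
MP_fb225e_nt, project TW, module Unif: the exceptional zero of an elliptic curve over a number field
whose `x_v` at the places of degree one are given by a function on the rational primes; everything
is uniform in the curve.
-/

namespace Pool.Agent.MPfb225e.Tw

open Filter Topology Complex
open NumberField IsDedekindDomain WeierstrassCurve

universe u

/-- The numbers `x_v` at the places of norm a prime `p > 3`, `p ∤ Q`, are `y p`. -/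
def Agree (K : Type u) [Field K] [NumberField K] (V : WeierstrassCurve K) (Q : ℤ) (y : ℕ → ℝ) :
    Prop :=
  ∀ v : HeightOneSpectrum (𝓞 K), (Fam.N v).Prime → 3 < Fam.N v → ¬ ((Fam.N v : ℤ) ∣ Q) →
    Zfr.xK V v = y (Fam.N v)

/-- The mass of the primes with `y p < -2 + η`. -/
noncomputable def bs (y : ℕ → ℝ) (η ε : ℝ) : ℝ :=
  ε * ∑' p : Nat.Primes, {p : Nat.Primes | y p < -2 + η}.indicator (fun p => Szf.lp ε p) p

/-- The weight of the places above the primes dividing `Q`. -/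
theorem sum_dvd_places {K : Type u} [Field K] [NumberField K] {Q : ℤ} (hQ : Q ≠ 0) {ε : ℝ}
    (hε : 0 < ε) {n : ℕ} (hn : Module.finrank ℚ K = n) :
    Summable (fun v : HeightOneSpectrum (𝓞 K) =>
      if (Fam.N v).Prime ∧ ((Fam.N v : ℤ) ∣ Q) then Real.log (nrm v) * nrm v ^ (-(1 + ε)) else 0) ∧
    ∑' v : HeightOneSpectrum (𝓞 K),
      (if (Fam.N v).Prime ∧ ((Fam.N v : ℤ) ∣ Q) then Real.log (nrm v) * nrm v ^ (-(1 + ε))
        else 0) ≤ n * Real.log |(Q : ℝ)| := by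
  classical
  obtain ⟨g, hg⟩ : ∃ g : ℕ → ℝ, ∀ m, g m =
      if (m : ℤ) ∣ Q then Real.log m * (m : ℝ) ^ (-(1 + ε)) else 0 := ⟨_, fun _ => rfl⟩
  have hfun : (fun v : HeightOneSpectrum (𝓞 K) =>
      if (Fam.N v).Prime ∧ ((Fam.N v : ℤ) ∣ Q) then Real.log (nrm v) * nrm v ^ (-(1 + ε))
        else 0) = fun v => if (Fam.N v).Prime then g (Fam.N v) else 0 := by
    funext v
    rw [hg]
    by_cases h1 : (Fam.N v).Prime
    · by_cases h2 : (Fam.N v : ℤ) ∣ Q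
      · rw [if_pos ⟨h1, h2⟩, if_pos h1, if_pos h2]
        rfl
      · rw [if_neg (fun h => h2 h.2), if_pos h1, if_neg h2]
    · rw [if_neg (fun h => h1 h.1), if_neg h1]
  have hlw := Zfr.summable_lw (K := K) ε hε
  have hw0 : ∀ v : HeightOneSpectrum (𝓞 K), 0 ≤ Real.log (nrm v) * nrm v ^ (-(1 + ε)) := by
    intro v
    rw [Fam.nrm_eq_N]
    exact mul_nonneg (Real.log_natCast_nonneg _) (by positivity)
  have hs : Summable (fun v : HeightOneSpectrum (𝓞 K) =>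
      if (Fam.N v).Prime ∧ ((Fam.N v : ℤ) ∣ Q) then Real.log (nrm v) * nrm v ^ (-(1 + ε))
        else 0) := by
    refine Summable.of_nonneg_of_le (fun v => ?_) (fun v => ?_) hlw
    · split_ifs
      · exact hw0 v
      · exact le_rfl
    · split_ifs
      · exact le_rfl
      · exact hw0 v
  refine ⟨hs, ?_⟩
  rw [hfun] at hs ⊢
  rw [Szf.pr_fibers g hs]
  have hQ' : Q.natAbs ≠ 0 := Int.natAbs_ne_zero.2 hQ
  obtain ⟨h1, h2⟩ := Szf.sum_dvd_le hQ' hε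
  have h3 : ∀ p : Nat.Primes, g p = if (p : ℕ) ∣ Q.natAbs then Szf.lp ε p else 0 := by
    intro p
    rw [hg]
    by_cases h : ((p : ℕ) : ℤ) ∣ Q
    · rw [if_pos h, if_pos (Int.natCast_dvd.1 h)]
      rfl
    · rw [if_neg h, if_neg (fun h' => h (Int.natCast_dvd.2 h'))]
  have h4 : ∀ p : Nat.Primes, (0 : ℝ) ≤ if (p : ℕ) ∣ Q.natAbs then Szf.lp ε p else 0 := by
    intro p
    split_ifs
    · exact Szf.lp_nonneg ε p
    · exact le_rfl
  have h5 : ∀ p : Nat.Primes, Fam.homCount K p * g p ≤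
      n * (if (p : ℕ) ∣ Q.natAbs then Szf.lp ε p else 0) := by
    intro p
    rw [h3]
    refine mul_le_mul_of_nonneg_right ?_ (h4 p)
    have h6 := Szf.homCount_le' K p
    rw [← hn]
    exact h6
  have h6 : Summable fun p : Nat.Primes => (Fam.homCount K p : ℝ) * g p := by
    refine Summable.of_nonneg_of_le (fun p => ?_) h5 (h1.mul_left _)
    rw [h3]
    exact mul_nonneg (Nat.cast_nonneg _) (h4 p)
  refine (h6.tsum_le_tsum h5 (h1.mul_left _)).trans ?_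
  rw [tsum_mul_left]
  refine mul_le_mul_of_nonneg_left (h2.trans (le_of_eq ?_)) (Nat.cast_nonneg n)
  rw [Nat.cast_natAbs, Int.cast_abs]

/-- From the places of `K` to the rational primes, with bad primes. -/
theorem compare_dvd (n : ℕ) : ∃ D : ℝ, 0 < D ∧ ∀ (K : Type u) [Field K] [NumberField K],
    Module.finrank ℚ K = n → ∀ Q : ℤ, Q ≠ 0 → ∀ (x : HeightOneSpectrum (𝓞 K) → ℝ) (y : ℕ → ℝ),
    (∀ v, |x v| ≤ 2) → (∀ p, |y p| ≤ 2) →
    (∀ v, (Fam.N v).Prime → 3 < Fam.N v → ¬ ((Fam.N v : ℤ) ∣ Q) → x v = y (Fam.N v)) →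
    ∀ ε : ℝ, 0 < ε →
    |(∑' v : HeightOneSpectrum (𝓞 K), Real.log (nrm v) * nrm v ^ (-(1 + ε)) * x v) -
      ∑' p : Nat.Primes, Szf.lp ε p * (Fam.homCount K p * y p)| ≤
      D + 4 * (n * Real.log |(Q : ℝ)|) := by
  classical
  obtain ⟨D, hD⟩ := Szf.compare'.{u} n 3 2 (by norm_num)
  refine ⟨|D| + 1, by positivity, ?_⟩
  intro K _ _ hn Q hQ x y hx hy hxy ε hε
  set x' : HeightOneSpectrum (𝓞 K) → ℝ := fun v =>
    if (Fam.N v).Prime ∧ ((Fam.N v : ℤ) ∣ Q) then y (Fam.N v) else x v with hx'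
  have hx2 : ∀ v, |x' v| ≤ 2 := by
    intro v
    rw [hx']
    simp only
    split_ifs
    · exact hy _
    · exact hx v
  have h1 := hD K hn x' y hx2 (fun p _ => hy p) (fun v hp hB => by
    rw [hx']
    simp only
    by_cases h : (Fam.N v : ℤ) ∣ Q
    · rw [if_pos ⟨hp, h⟩]
    · rw [if_neg (fun h' => h h'.2)]
      exact hxy v hp hB h) ε hε
  obtain ⟨h2, h3⟩ := sum_dvd_places (K := K) hQ hε hn
  have hw0 : ∀ v : HeightOneSpectrum (𝓞 K), 0 ≤ Real.log (nrm v) * nrm v ^ (-(1 + ε)) := by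
    intro v
    rw [Fam.nrm_eq_N]
    exact mul_nonneg (Real.log_natCast_nonneg _) (by positivity)
  have hlw := Zfr.summable_lw (K := K) ε hε
  have hsum : ∀ z : HeightOneSpectrum (𝓞 K) → ℝ, (∀ v, |z v| ≤ 2) → Summable fun v =>
      Real.log (nrm v) * nrm v ^ (-(1 + ε)) * z v := by
    intro z hz
    refine Summable.of_norm_bounded (hlw.mul_right 2) fun v => ?_
    rw [Real.norm_eq_abs, abs_mul, abs_of_nonneg (hw0 v)]
    exact mul_le_mul_of_nonneg_left (hz v) (hw0 v)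
  have h4 : |(∑' v : HeightOneSpectrum (𝓞 K), Real.log (nrm v) * nrm v ^ (-(1 + ε)) * x v) -
      ∑' v : HeightOneSpectrum (𝓞 K), Real.log (nrm v) * nrm v ^ (-(1 + ε)) * x' v| ≤
      4 * (n * Real.log |(Q : ℝ)|) := by
    rw [← (hsum x hx).tsum_sub (hsum x' hx2), ← Real.norm_eq_abs]
    have h5 := tsum_of_norm_bounded (h2.mul_left 4).hasSum
      (f := fun v => Real.log (nrm v) * nrm v ^ (-(1 + ε)) * x v -
        Real.log (nrm v) * nrm v ^ (-(1 + ε)) * x' v) (fun v => by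
        have hw := hw0 v
        by_cases h : (Fam.N v).Prime ∧ ((Fam.N v : ℤ) ∣ Q)
        · rw [if_pos h, Real.norm_eq_abs, ← mul_sub, abs_mul, abs_of_nonneg hw, mul_comm]
          refine mul_le_mul_of_nonneg_right ?_ hw
          refine (abs_sub _ _).trans ?_
          linarith [hx v, hx2 v]
        · have h6 : x' v = x v := by rw [hx']; simp only; rw [if_neg h]
          rw [if_neg h, h6, sub_self, norm_zero, mul_zero])
    refine h5.trans ?_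
    rw [tsum_mul_left]
    linarith
  have e4 : (∑' p : Nat.Primes, Real.log p * (p : ℝ) ^ (-(1 + ε)) *
      (Fam.homCount K p * y p)) = ∑' p : Nat.Primes, Szf.lp ε p * (Fam.homCount K p * y p) := rfl
  rw [e4] at h1
  have h7 := abs_sub_le
    (∑' v : HeightOneSpectrum (𝓞 K), Real.log (nrm v) * nrm v ^ (-(1 + ε)) * x v)
    (∑' v : HeightOneSpectrum (𝓞 K), Real.log (nrm v) * nrm v ^ (-(1 + ε)) * x' v)
    (∑' p : Nat.Primes, Szf.lp ε p * (Fam.homCount K p * y p))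
  have h8 := le_abs_self D
  linarith

/-- Densities of places and of primes, with bad primes. -/
theorem mass_dvd (n : ℕ) : ∃ D : ℝ, 0 < D ∧ ∀ (K : Type u) [Field K] [NumberField K],
    Module.finrank ℚ K = n → ∀ Q : ℤ, Q ≠ 0 → ∀ (x : HeightOneSpectrum (𝓞 K) → ℝ) (y : ℕ → ℝ),
    (∀ v, (Fam.N v).Prime → 3 < Fam.N v → ¬ ((Fam.N v : ℤ) ∣ Q) → x v = y (Fam.N v)) →
    ∀ (Y : Set ℝ) (ε : ℝ), 0 < ε →
    ∑' v : HeightOneSpectrum (𝓞 K), {v | x v ∈ Y}.indicator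
        (fun v => Real.log (nrm v) * nrm v ^ (-(1 + ε))) v ≤
      n * ∑' p : Nat.Primes, {p : Nat.Primes | y p ∈ Y}.indicator (fun p => Szf.lp ε p) p +
        (D + 4 * (n * Real.log |(Q : ℝ)|)) := by
  classical
  obtain ⟨D, hD, h⟩ := compare_dvd.{u} n
  refine ⟨D, hD, ?_⟩
  intro K _ _ hn Q hQ x y hxy Y ε hε
  have h1 := h K hn Q hQ (fun v => if x v ∈ Y then 1 else 0) (fun p => if y p ∈ Y then 1 else 0)
    (fun v => by split_ifs <;> norm_num) (fun p => by split_ifs <;> norm_num)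
    (fun v hp h3 hv => by rw [hxy v hp h3 hv]) ε hε
  have e1 : (∑' v : HeightOneSpectrum (𝓞 K), Real.log (nrm v) * nrm v ^ (-(1 + ε)) *
      (if x v ∈ Y then 1 else 0)) = ∑' v : HeightOneSpectrum (𝓞 K), {v | x v ∈ Y}.indicator
        (fun v => Real.log (nrm v) * nrm v ^ (-(1 + ε))) v := by
    refine tsum_congr fun v => ?_
    by_cases hv : x v ∈ Y
    · rw [if_pos hv, Set.indicator_of_mem (by exact hv), mul_one]
    · rw [if_neg hv, Set.indicator_of_notMem (by exact hv), mul_zero]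
  rw [e1] at h1
  have hs : Summable fun p : Nat.Primes => {p : Nat.Primes | y p ∈ Y}.indicator
      (fun p => Szf.lp ε p) p := (Szf.summable_lp hε).indicator _
  have h2 : (∑' p : Nat.Primes, Szf.lp ε p * (Fam.homCount K p * (if y p ∈ Y then 1 else 0))) ≤
      n * ∑' p : Nat.Primes, {p : Nat.Primes | y p ∈ Y}.indicator (fun p => Szf.lp ε p) p := by
    rw [← tsum_mul_left]
    refine Summable.tsum_le_tsum (fun p => ?_) (Szf.summable_lp_mul hε (C := n) fun p => ?_)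
      (hs.mul_left _)
    · have h3 := Szf.homCount_le' K p
      have h4 : (Fam.homCount K p : ℝ) ≤ n := by rw [← hn]; exact h3
      by_cases hp : y p ∈ Y
      · rw [if_pos hp, Set.indicator_of_mem (by exact hp), mul_one, mul_comm]
        exact mul_le_mul_of_nonneg_right h4 (Szf.lp_nonneg ε p)
      · rw [if_neg hp, Set.indicator_of_notMem (by exact hp), mul_zero, mul_zero, mul_zero]
    · have h3 := Szf.homCount_le' K p
      have h4 : (Fam.homCount K p : ℝ) ≤ n := by rw [← hn]; exact h3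
      split_ifs
      · rw [mul_one, abs_of_nonneg (Nat.cast_nonneg _)]
        exact h4
      · rw [mul_zero, abs_zero]
        exact Nat.cast_nonneg _
  have h3 := (abs_le.1 h1).2
  linarith

/-- At most one zero near the edge, uniformly in the curve. -/
theorem single_u (n : ℕ) (η : ℝ) (hη : 0 < η) (hη1 : η ≤ 1) :
    ∃ c : ℝ, 0 < c ∧ ∃ θ : ℝ, 0 < θ ∧ θ ≤ 1 ∧ ∃ N : ℕ, ∀ (K : Type u) [Field K] [NumberField K],
    Module.finrank ℚ K = n → ∀ (V : WeierstrassCurve K) (Q : ℤ) (y : ℕ → ℝ), Q ≠ 0 →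
    Agree K V Q y → ∀ (F : ℂ → ℂ), Differentiable ℂ F →
    (∀ s : ℂ, 3 / 2 < s.re → F s = V.LSeries s) →
    ∀ (κ δ T M : ℝ), 0 < δ → δ ≤ 1 / 2 → 0 ≤ T → 2 ≤ M → |(Q : ℝ)| ≤ M ^ 2 →
    (∀ s : ℂ, 3 / 2 - δ ≤ s.re → |s.im| ≤ N * (T + 1) → ‖F s‖ ≤ M) →
    (∀ x : ℝ, 1 ≤ x →
      |(Nat.card {J : Ideal (𝓞 K) // J ≠ ⊥ ∧ (Ideal.absNorm J : ℝ) ≤ x} : ℝ) - κ * x| ≤
        M * x ^ (1 - δ)) →
    bs y η (θ * δ / Zfr.Lg M T δ) ≤ η / (16 * n) →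
    ∃ β : ℝ, ∀ ρ : ℂ, 3 / 2 - c * δ / Zfr.Lg M T δ < ρ.re → |ρ.im| ≤ T → F ρ = 0 →
      ρ = β ∧ analyticOrderNatAt F ρ = 1 := by
  classical
  obtain ⟨κ₁, θ₁, N, hκ₁, hθ₁, hcore⟩ := Zfr.pair_core.{u} n η hη hη1
  obtain ⟨D, hD0, hD⟩ := mass_dvd.{u} n
  set C' : ℝ := D + 8 * n with hC'
  have hC'0 : 0 < C' := by positivity
  set θ : ℝ := min (min θ₁ 1) (η / 60 / C') with hθ
  have hθ0 : 0 < θ := by positivity
  have hθa : θ ≤ θ₁ := (min_le_left _ _).trans (min_le_left _ _)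
  have hθb : θ ≤ 1 := (min_le_left _ _).trans (min_le_right _ _)
  have hθf : θ * C' ≤ η / 60 := by
    have : θ ≤ η / 60 / C' := min_le_right _ _
    rwa [le_div_iff₀ hC'0] at this
  refine ⟨κ₁ * θ, by positivity, θ, hθ0, hθb, N, ?_⟩
  intro K _ _ hn V Q y hQ hag F hF hFL κ δ T M hδ hδ1 hT hM hQM hFM hcount hb
  have hL2 := Zfr.two_le_Lg hδ hδ1 hT hM
  have hLM := Zfr.log_M_le hδ hδ1 hT hM
  set Lg := Zfr.Lg M T δ with hLg
  have hLpos : 0 < Lg := by linarith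
  set ε : ℝ := θ * δ / Lg with hε
  have hε0 : 0 < ε := by positivity
  have hεθ : ε ≤ θ := by
    rw [hε, div_le_iff₀ hLpos]
    nlinarith
  have hεL : ε * Lg ≤ θ := by
    rw [hε, div_mul_cancel₀ _ hLpos.ne']
    nlinarith
  have hlogQ : Real.log |(Q : ℝ)| ≤ 2 * Lg := by
    have hQ0 : (0 : ℝ) < |(Q : ℝ)| := abs_pos.2 (by exact_mod_cast hQ)
    have h1 := Real.log_le_log hQ0 hQM
    rw [Real.log_pow] at h1
    push_cast at h1
    linarith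
  have hnr : (0 : ℝ) ≤ n := Nat.cast_nonneg n
  refine one_of_no_pair V hF hFL _ T hT ?_
  intro ρ h hh hfac hρ him hT0
  have h1 := hcore K V hn F hF hFL κ δ T M θ hδ hδ1 hT hM hθ0 hθa hFM hcount ρ h hh hfac hρ him
    hT0 ε hε
  have h2 := hD K hn Q hQ (Zfr.xK V) y hag {z : ℝ | z < -2 + η} ε hε0
  have h3 : ε * ∑' v : HeightOneSpectrum (𝓞 K), {v | Zfr.xK V v < -2 + η}.indicator
      (fun v => Real.log (nrm v) * nrm v ^ (-(1 + ε))) v ≤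
      ε * (n * ∑' p : Nat.Primes, {p : Nat.Primes | y p < -2 + η}.indicator
        (fun p => Szf.lp ε p) p + (D + 4 * (n * Real.log |(Q : ℝ)|))) :=
    mul_le_mul_of_nonneg_left h2 hε0.le
  set P := ∑' p : Nat.Primes, {p : Nat.Primes | y p < -2 + η}.indicator
        (fun p => Szf.lp ε p) p with hP
  have hb' : ε * P ≤ η / (16 * n) := hb
  have hPn : ε * (n * P) ≤ η / 16 := by
    rcases Nat.eq_zero_or_pos n with h0 | h0
    · rw [h0]; simp; positivity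
    · have hn0 : (0 : ℝ) < n := by exact_mod_cast h0
      have h6 : n * (ε * P) ≤ n * (η / (16 * n)) := mul_le_mul_of_nonneg_left hb' hn0.le
      have h7 : n * (η / (16 * n)) = η / 16 := by field_simp
      rw [h7] at h6
      linarith
  have h4 : ε * D ≤ θ * D := mul_le_mul_of_nonneg_right hεθ hD0.le
  have h5 : ε * (4 * (n * Real.log |(Q : ℝ)|)) ≤ θ * (8 * n) := by
    have h6 : ε * Real.log |(Q : ℝ)| ≤ 2 * θ := by
      have := mul_le_mul_of_nonneg_left hlogQ hε0.le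
      linarith
    have h7 : (n : ℝ) * (ε * Real.log |(Q : ℝ)|) ≤ n * (2 * θ) :=
      mul_le_mul_of_nonneg_left h6 hnr
    linarith
  have h6 : θ * C' = θ * D + θ * (8 * n) := by rw [hC']; ring
  linarith

/-- At most one zero near the edge, uniformly in the curve and in the degree. -/
theorem one_zero_u (n : ℕ) (η : ℝ) (hη : 0 < η) (hη1 : η ≤ 1) :
    ∃ c : ℝ, 0 < c ∧ ∃ N : ℕ, ∀ (K : Type u) [Field K] [NumberField K],
    Module.finrank ℚ K ≤ n → ∀ (V : WeierstrassCurve K) (Q : ℤ) (y : ℕ → ℝ), Q ≠ 0 →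
    Agree K V Q y → ∀ (F : ℂ → ℂ), Differentiable ℂ F →
    (∀ s : ℂ, 3 / 2 < s.re → F s = V.LSeries s) →
    ∀ (δ T M : ℝ), 0 < δ → δ ≤ 1 / 2 → 0 ≤ T → 2 ≤ M → |(Q : ℝ)| ≤ M ^ 2 →
    (∀ s : ℂ, 3 / 2 - δ ≤ s.re → |s.im| ≤ N * (T + 1) → ‖F s‖ ≤ M) → Szf.Cnt K δ M →
    (∀ ε : ℝ, c * δ / Zfr.Lg M T δ ≤ ε → ε ≤ δ / Zfr.Lg M T δ → bs y η ε ≤ η / (16 * n)) →
    ∃ β : ℝ, ∀ ρ : ℂ, 3 / 2 - c * δ / Zfr.Lg M T δ < ρ.re → |ρ.im| ≤ T → F ρ = 0 →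
      ρ = β ∧ analyticOrderNatAt F ρ = 1 := by
  have hd : ∀ m : ℕ, ∃ c₀ : ℝ, 0 < c₀ ∧ ∀ c, 0 < c → c ≤ c₀ → (1 ≤ m ∧ m ≤ n → ∃ N : ℕ,
      ∀ (K : Type u) [Field K] [NumberField K], Module.finrank ℚ K = m →
      ∀ (V : WeierstrassCurve K) (Q : ℤ) (y : ℕ → ℝ), Q ≠ 0 →
      Agree K V Q y → ∀ (F : ℂ → ℂ), Differentiable ℂ F →
      (∀ s : ℂ, 3 / 2 < s.re → F s = V.LSeries s) →
      ∀ (δ T M : ℝ), 0 < δ → δ ≤ 1 / 2 → 0 ≤ T → 2 ≤ M → |(Q : ℝ)| ≤ M ^ 2 →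
      (∀ s : ℂ, 3 / 2 - δ ≤ s.re → |s.im| ≤ N * (T + 1) → ‖F s‖ ≤ M) → Szf.Cnt K δ M →
      (∀ ε : ℝ, c * δ / Zfr.Lg M T δ ≤ ε → ε ≤ δ / Zfr.Lg M T δ → bs y η ε ≤ η / (16 * n)) →
      ∃ β : ℝ, ∀ ρ : ℂ, 3 / 2 - c * δ / Zfr.Lg M T δ < ρ.re → |ρ.im| ≤ T → F ρ = 0 →
        ρ = β ∧ analyticOrderNatAt F ρ = 1) := by
    intro m
    by_cases hdn : 1 ≤ m ∧ m ≤ n
    · obtain ⟨c₀, hc₀, θ, hθ0, hθ1, N, h⟩ := single_u.{u} m η hη hη1
      refine ⟨min c₀ θ, by positivity, fun c hc hcc _ => ⟨N, ?_⟩⟩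
      have hcc0 : c ≤ c₀ := hcc.trans (min_le_left _ _)
      have hccθ : c ≤ θ := hcc.trans (min_le_right _ _)
      intro K _ _ hK V Q y hQ hag F hF hFL δ T M hδ hδ1 hT hM hQM hFM ⟨κ, hcount⟩ hb
      have hL := Zfr.two_le_Lg hδ hδ1 hT hM
      have hLpos : 0 < Zfr.Lg M T δ := by linarith
      have hbm : bs y η (θ * δ / Zfr.Lg M T δ) ≤ η / (16 * m) := by
        refine (hb _ ?_ ?_).trans ?_
        · exact div_le_div_of_nonneg_right (mul_le_mul_of_nonneg_right hccθ hδ.le) hLpos.le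
        · exact div_le_div_of_nonneg_right (mul_le_of_le_one_left hδ.le hθ1) hLpos.le
        · have h1 : (1 : ℝ) ≤ m := by exact_mod_cast hdn.1
          have h2 : (m : ℝ) ≤ n := by exact_mod_cast hdn.2
          exact div_le_div_of_nonneg_left hη.le (by positivity) (by linarith)
      obtain ⟨β, hβ⟩ := h K hK V Q y hQ hag F hF hFL κ δ T M hδ hδ1 hT hM hQM hFM hcount hbm
      refine ⟨β, fun ρ hρ => hβ ρ ?_⟩
      have h1 : c * δ / Zfr.Lg M T δ ≤ c₀ * δ / Zfr.Lg M T δ :=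
        div_le_div_of_nonneg_right (mul_le_mul_of_nonneg_right hcc0 hδ.le) hLpos.le
      linarith
    · exact ⟨1, one_pos, fun _ _ _ h => absurd h hdn⟩
  obtain ⟨c, hc, h⟩ := Szf.exists_uniform hd n
  have h' := h c hc le_rfl
  choose! N hN using fun (m : ℕ) (hm : 1 ≤ m ∧ m ≤ n) => h' m hm.2 hm
  refine ⟨c, hc, ∑ m ∈ Finset.range (n + 1), N m, ?_⟩
  intro K _ _ hK V Q y hQ hag F hF hFL δ T M hδ hδ1 hT hM hQM hFM hcnt hb
  have hpos : 1 ≤ Module.finrank ℚ K := Module.finrank_pos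
  refine hN (Module.finrank ℚ K) ⟨hpos, hK⟩ K rfl V Q y hQ hag F hF hFL δ T M hδ hδ1 hT hM hQM
    (fun s hs hs' => hFM s hs (hs'.trans ?_)) hcnt hb
  refine mul_le_mul_of_nonneg_right ?_ (by linarith)
  exact_mod_cast Finset.single_le_sum (f := fun m => N m) (fun _ _ => Nat.zero_le _)
    (Finset.mem_range.2 (Nat.lt_succ_of_le hK))

/-- The exceptional zero and the mean value of `x` over the places. -/
theorem exc_zero_u (n : ℕ) (η : ℝ) (hη : 0 < η) (hη1 : η ≤ 1) :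
    ∃ c₁ : ℝ, 0 < c₁ ∧ ∃ N : ℕ, 1 ≤ N ∧ ∀ κ' : ℝ, 0 < κ' → ∃ θ₀ : ℝ, 0 < θ₀ ∧
    ∀ (K : Type u) [Field K] [NumberField K], Module.finrank ℚ K ≤ n →
    ∀ (V : WeierstrassCurve K) (Q : ℤ) (y : ℕ → ℝ), Q ≠ 0 → Agree K V Q y →
    ∀ (F : ℂ → ℂ), Differentiable ℂ F → (∀ s : ℂ, 3 / 2 < s.re → F s = V.LSeries s) →
    ∀ (δ M : ℝ), 0 < δ → δ ≤ 1 / 2 → 2 ≤ M → |(Q : ℝ)| ≤ M ^ 2 →
    (∀ s : ℂ, 3 / 2 - δ ≤ s.re → |s.im| ≤ N → ‖F s‖ ≤ M) → Szf.Cnt K δ M →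
    (∀ ε : ℝ, c₁ * δ / Zfr.Lg M 0 δ ≤ ε → ε ≤ δ / Zfr.Lg M 0 δ → bs y η ε ≤ η / (16 * n)) →
    ∃ t : ℝ, 0 ≤ t ∧ (∀ β : ℝ, F β = 0 → 3 / 2 - c₁ * δ / Zfr.Lg M 0 δ < β → t = 3 / 2 - β) ∧
      (t < 1 → F ((3 / 2 - t : ℝ) : ℂ) = 0) ∧
      ∀ θ : ℝ, 0 < θ → θ ≤ θ₀ → ∀ ε : ℝ, ε = θ * δ / Zfr.Lg M 0 δ →
        |(∑' v : HeightOneSpectrum (𝓞 K), ε * (Real.log (nrm v) * nrm v ^ (-(1 + ε))) *
          Zfr.xK V v) + ε / (ε + t)| ≤ κ' := by
  obtain ⟨c, hc, N, hone⟩ := one_zero_u.{u} n η hη hη1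
  set c₁ : ℝ := min (c / 2) (1 / 2) with hc₁
  have hc₁0 : 0 < c₁ := by positivity
  have hc₁c : c₁ ≤ c / 2 := min_le_left _ _
  have hc₁h : c₁ ≤ 1 / 2 := min_le_right _ _
  refine ⟨c₁, hc₁0, 2 * N + 1, by omega, ?_⟩
  intro κ' hκ'
  obtain ⟨θ₀, hθ₀, h0⟩ := Szf.exists_uniform (fun d => Szf.curve_two_sided.{u} d 0 c₁ (κ' / 2)
    hc₁0 (by positivity)) n
  obtain ⟨θ₁, hθ₁, h1⟩ := Szf.exists_uniform (fun d => Szf.curve_two_sided.{u} d 1 c₁ κ' hc₁0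
    hκ') n
  refine ⟨min (min θ₀ θ₁) (κ' / 2), by positivity, ?_⟩
  intro K _ _ hK V Q y hQ hag F hF hFL δ M hδ hδ1 hM hQM hFM hcnt hb
  have hL2 := Zfr.two_le_Lg hδ hδ1 (le_refl (0 : ℝ)) hM
  have hL1 := Szf.Lg_le hδ hδ1 hM
  have hLT := Zfr.two_le_Lg hδ hδ1 (zero_le_one (α := ℝ)) hM
  have hL01 : Zfr.Lg M 0 δ ≤ Zfr.Lg M 1 δ := by
    unfold Zfr.Lg
    refine Real.log_le_log (by positivity) ?_
    gcongr
    norm_num
  set Λ := Zfr.Lg M 0 δ with hΛ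
  have hΛ0 : 0 < Λ := by linarith
  obtain ⟨κ, hcount⟩ := hcnt
  have hFM1 : ∀ s : ℂ, 3 / 2 - δ ≤ s.re → |s.im| ≤ 1 → ‖F s‖ ≤ M := fun s hs hs' =>
    hFM s hs (hs'.trans (by push_cast; have : (0 : ℝ) ≤ N := Nat.cast_nonneg N; linarith))
  have hcc : c₁ * δ / Λ ≤ c * δ / Zfr.Lg M 1 δ := by
    rw [div_le_div_iff₀ hΛ0 (by linarith)]
    have h4 : c₁ * δ ≤ c / 2 * δ := mul_le_mul_of_nonneg_right hc₁c hδ.le
    calc c₁ * δ * Zfr.Lg M 1 δ ≤ c / 2 * δ * (2 * Λ) :=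
          mul_le_mul h4 hL1 (by linarith) (by positivity)
      _ = c * δ * Λ := by ring
  obtain ⟨β, hβ⟩ := hone K hK V Q y hQ hag F hF hFL δ 1 M hδ hδ1 zero_le_one hM hQM
    (fun s hs hs' => hFM s hs (hs'.trans (by push_cast; linarith))) ⟨κ, hcount⟩
    (fun ε h1 h2 => hb ε (hcc.trans h1) (h2.trans
      (div_le_div_of_nonneg_left hδ.le hΛ0 hL01)))
  have hball : ∀ z : ℂ, ‖z - 3 / 2‖ < c₁ * δ / Λ → F z = 0 →
      z = β ∧ analyticOrderNatAt F z = 1 := by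
    intro z hz hz0
    refine hβ z ?_ ?_ hz0
    · have h2 := (Complex.abs_re_le_norm (z - 3 / 2)).trans_lt hz
      rw [Complex.sub_re, abs_lt] at h2
      have e : (3 / 2 : ℂ).re = 3 / 2 := by norm_num
      rw [e] at h2
      linarith [h2.1]
    · have h2 := (Complex.abs_im_le_norm (z - 3 / 2)).trans_lt hz
      rw [Complex.sub_im] at h2
      have e : (3 / 2 : ℂ).im = 0 := by norm_num
      rw [e, sub_zero] at h2
      have h3 : c₁ * δ / Λ ≤ 1 := by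
        rw [div_le_one hΛ0]
        nlinarith
      linarith
  have hreal : ∀ β' : ℝ, F β' = 0 → 3 / 2 - c₁ * δ / Λ < β' →
      ‖(β' : ℂ) - 3 / 2‖ < c₁ * δ / Λ := by
    intro β' h2 h3
    have h4 := Zfr.re_le_of_zero V hFL h2
    rw [Complex.ofReal_re] at h4
    have e : (β' : ℂ) - 3 / 2 = ((β' - 3 / 2 : ℝ) : ℂ) := by push_cast; ring
    rw [e, Complex.norm_real, Real.norm_eq_abs, abs_of_nonpos (by linarith)]
    linarith
  by_cases hex : ∃ z : ℂ, ‖z - 3 / 2‖ < c₁ * δ / Λ ∧ F z = 0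
  · obtain ⟨z, hz, hz0⟩ := hex
    obtain ⟨hzβ, hord⟩ := hball z hz hz0
    rw [hzβ] at hz hz0 hord
    have hβle := Zfr.re_le_of_zero V hFL hz0
    rw [Complex.ofReal_re] at hβle
    have hβnorm : 3 / 2 - β < c₁ * δ / Λ := by
      have e : (β : ℂ) - 3 / 2 = ((β - 3 / 2 : ℝ) : ℂ) := by push_cast; ring
      rw [e, Complex.norm_real, Real.norm_eq_abs, abs_of_nonpos (by linarith)] at hz
      linarith
    have hβge : 3 / 2 - δ / 4 ≤ β := by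
      have h3 : c₁ * δ / Λ ≤ δ / 4 := by
        rw [div_le_iff₀ hΛ0]
        nlinarith
      linarith
    obtain ⟨h, hh, hfac⟩ := Zfr.split_one hF hz0
    refine ⟨3 / 2 - β, by linarith, ?_, ?_, ?_⟩
    · intro β' h2 h3
      have h4 := (hball β' (hreal β' h2 h3) h2).1
      have h5 : β' = β := by exact_mod_cast h4
      rw [h5]
    · intro _
      have e : (3 / 2 - (3 / 2 - β) : ℝ) = β := by ring
      rw [e]
      exact hz0
    · intro θ hθ hθ0 ε hε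
      have key := h1 θ hθ ((hθ0.trans (min_le_left _ _)).trans (min_le_right _ _)) _ hK K
        V rfl F hF hFL κ δ M hδ hδ1 hM hFM1 hcount (fun _ => β) h hh
        (fun z => by rw [hfac z, Fin.prod_univ_one]) (fun _ => hβge) (fun w hw hw0 => by
          have h4 : F w = 0 := by rw [hfac, hw0, mul_zero]
          obtain ⟨h5, -⟩ := hball w hw h4
          rw [h5] at hw0
          exact Szf.ne_zero_of_simple hfac hh hord hw0) ε hε
      rw [Fin.sum_univ_one] at key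
      exact key
  · push Not at hex
    refine ⟨1, zero_le_one, ?_, fun h => absurd h (lt_irrefl _), ?_⟩
    · intro β' h2 h3
      exact absurd h2 (hex β' (hreal β' h2 h3))
    · intro θ hθ hθ0 ε hε
      obtain ⟨hε0, hεθ⟩ := Szf.scale hθ hδ hδ1 hM hε
      have key := h0 θ hθ ((hθ0.trans (min_le_left _ _)).trans (min_le_left _ _)) _ hK K
        V rfl F hF hFL κ δ M hδ hδ1 hM hFM1 hcount Fin.elim0 F hF
        (fun z => by simp) (fun j => j.elim0) (fun w hw => hex w hw) ε hε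
      rw [Finset.univ_eq_empty, Finset.sum_empty, add_zero] at key
      have h2 : ε / (ε + 1) ≤ κ' / 2 := by
        have h3 : ε / (ε + 1) ≤ ε := by
          rw [div_le_iff₀ (by linarith)]
          nlinarith
        exact h3.trans (hεθ.trans (hθ0.trans (min_le_right _ _)))
      have h3 : 0 ≤ ε / (ε + 1) := by positivity
      refine (abs_add_le _ _).trans ?_
      rw [abs_of_nonneg h3]
      linarith

/-- The mean value of `c y` over the rational primes, for all fields and curves at once. -/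
theorem exc_primes_u (n : ℕ) (η : ℝ) (hη : 0 < η) (hη1 : η ≤ 1) :
    ∃ c₁ : ℝ, 0 < c₁ ∧ ∃ N : ℕ, 1 ≤ N ∧ ∀ κ' : ℝ, 0 < κ' → ∃ θ₀ : ℝ, 0 < θ₀ ∧
    ∀ (K : Type u) [Field K] [NumberField K], Module.finrank ℚ K ≤ n →
    ∀ (V : WeierstrassCurve K) (Q : ℤ) (y : ℕ → ℝ), Q ≠ 0 → (∀ p, |y p| ≤ 2) → Agree K V Q y →
    ∀ (F : ℂ → ℂ), Differentiable ℂ F → (∀ s : ℂ, 3 / 2 < s.re → F s = V.LSeries s) →
    ∀ (δ M : ℝ), 0 < δ → δ ≤ 1 / 2 → 2 ≤ M → |(Q : ℝ)| ≤ M ^ 2 →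
    (∀ s : ℂ, 3 / 2 - δ ≤ s.re → |s.im| ≤ N → ‖F s‖ ≤ M) → Szf.Cnt K δ M →
    (∀ ε : ℝ, c₁ * δ / Zfr.Lg M 0 δ ≤ ε → ε ≤ δ / Zfr.Lg M 0 δ → bs y η ε ≤ η / (16 * n)) →
    ∃ t : ℝ, 0 ≤ t ∧ (∀ β : ℝ, F β = 0 → 3 / 2 - c₁ * δ / Zfr.Lg M 0 δ < β → t = 3 / 2 - β) ∧
      (t < 1 → F ((3 / 2 - t : ℝ) : ℂ) = 0) ∧
      ∀ θ : ℝ, 0 < θ → θ ≤ θ₀ → ∀ ε : ℝ, ε = θ * δ / Zfr.Lg M 0 δ →
        |(ε * ∑' p : Nat.Primes, Szf.lp ε p * (Fam.homCount K p * y p)) +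
          ε / (ε + t)| ≤ κ' := by
  obtain ⟨c₁, hc₁, N, hN, hmain⟩ := exc_zero_u.{u} n η hη hη1
  refine ⟨c₁, hc₁, N, hN, fun κ' hκ' => ?_⟩
  obtain ⟨θ₁, hθ₁, h1⟩ := hmain (κ' / 2) (by positivity)
  have hc : ∀ m : ℕ, ∃ θ₀ : ℝ, 0 < θ₀ ∧ ∀ θ, 0 < θ → θ ≤ θ₀ → ∀ (K : Type u) [Field K]
      [NumberField K], Module.finrank ℚ K = m → ∀ (V : WeierstrassCurve K) (Q : ℤ) (y : ℕ → ℝ),
      Q ≠ 0 → (∀ p, |y p| ≤ 2) → Agree K V Q y →
      ∀ (δ M : ℝ), 0 < δ → δ ≤ 1 / 2 → 2 ≤ M → |(Q : ℝ)| ≤ M ^ 2 →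
      ∀ ε : ℝ, ε = θ * δ / Zfr.Lg M 0 δ →
      ε * |(∑' v : HeightOneSpectrum (𝓞 K), Real.log (nrm v) * nrm v ^ (-(1 + ε)) *
        Zfr.xK V v) - ∑' p : Nat.Primes, Szf.lp ε p * (Fam.homCount K p * y p)| ≤ κ' / 2 := by
    intro m
    obtain ⟨D, hD0, hD⟩ := compare_dvd.{u} m
    refine ⟨κ' / 2 / (D + 8 * m), by positivity, ?_⟩
    intro θ hθ hθ0 K _ _ hK V Q y hQ hy hag δ M hδ hδ1 hM hQM ε hε
    obtain ⟨hε0, hεθ⟩ := Szf.scale hθ hδ hδ1 hM hε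
    refine (mul_le_mul_of_nonneg_left (hD K hK Q hQ (Zfr.xK V) y (Zfr.abs_xK_le V) hy hag ε hε0)
      hε0.le).trans ?_
    have hL2 := Zfr.two_le_Lg hδ hδ1 (le_refl (0 : ℝ)) hM
    have hLM := Zfr.log_M_le hδ hδ1 (le_refl (0 : ℝ)) hM
    have h3 : Real.log |(Q : ℝ)| ≤ 2 * Zfr.Lg M 0 δ := by
      have hQ0 : (0 : ℝ) < |(Q : ℝ)| := abs_pos.2 (by exact_mod_cast hQ)
      have h1 := Real.log_le_log hQ0 hQM
      rw [Real.log_pow] at h1
      push_cast at h1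
      linarith
    have h4 : ε * Zfr.Lg M 0 δ ≤ θ := by
      rw [hε, div_mul_cancel₀ _ (by linarith : Zfr.Lg M 0 δ ≠ 0)]
      nlinarith
    have h5 : ε * Real.log |(Q : ℝ)| ≤ 2 * θ := by
      have := mul_le_mul_of_nonneg_left h3 hε0.le
      linarith
    have h6 : (m : ℝ) * (ε * Real.log |(Q : ℝ)|) ≤ m * (2 * θ) :=
      mul_le_mul_of_nonneg_left h5 (Nat.cast_nonneg m)
    have h7 : ε * D ≤ θ * D := mul_le_mul_of_nonneg_right hεθ hD0.le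
    rw [le_div_iff₀ (by positivity)] at hθ0
    nlinarith
  obtain ⟨θ₃, hθ₃, h3⟩ := Szf.exists_uniform hc n
  refine ⟨min θ₁ θ₃, by positivity, ?_⟩
  intro K _ _ hK V Q y hQ hy hag F hF hFL δ M hδ hδ1 hM hQM hFM hcnt hb
  obtain ⟨t, ht0, ht1, ht2, ht3⟩ := h1 K hK V Q y hQ hag F hF hFL δ M hδ hδ1 hM hQM hFM hcnt hb
  refine ⟨t, ht0, ht1, ht2, ?_⟩
  intro θ hθ hθ0 ε hε
  obtain ⟨hε0, hεθ⟩ := Szf.scale hθ hδ hδ1 hM hε
  have h5 := ht3 θ hθ (hθ0.trans (min_le_left _ _)) ε hε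
  have h7 := h3 θ hθ (hθ0.trans (min_le_right _ _)) _ hK K rfl V Q y hQ hy hag δ M hδ hδ1 hM hQM
    ε hε
  have e5 : (∑' v : HeightOneSpectrum (𝓞 K), ε * (Real.log (nrm v) * nrm v ^ (-(1 + ε))) *
      Zfr.xK V v) = ε * ∑' v : HeightOneSpectrum (𝓞 K),
        Real.log (nrm v) * nrm v ^ (-(1 + ε)) * Zfr.xK V v := by
    rw [← tsum_mul_left]
    exact tsum_congr fun v => by ring
  rw [e5] at h5
  set X := ∑' v : HeightOneSpectrum (𝓞 K),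
    Real.log (nrm v) * nrm v ^ (-(1 + ε)) * Zfr.xK V v with hX
  set Y := ∑' p : Nat.Primes, Szf.lp ε p * (Fam.homCount K p * y p) with hY
  have e6 : ε * Y + ε / (ε + t) = (ε * X + ε / (ε + t)) - ε * (X - Y) := by ring
  rw [e6]
  refine (abs_sub _ _).trans ?_
  rw [abs_mul, abs_of_pos hε0]
  linarith

end Pool.Agent.MPfb225e.Tw
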