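import Mathlib
import Pool.Agent.Lib.MP_fb225e_nt.Tw.Unif
import Pool.Agent.Lib.MP_fb225e_nt.Tw.SubTwist

/-!
MP_fb225e_nt, project TW, module SubUnif: no exceptional zeros over the subfields of a strongly real
Galois field, uniformly in the elliptic curve over the rationals.
-/

namespace Pool.Agent.MPfb225e.Tw

open Filter Topology Complex
open NumberField IsDedekindDomain IntermediateField WeierstrassCurve

universe u

/-- **All curves over all subfields of a strongly real Galois field.** -/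
theorem subfields_u (n : ℕ) (η η' : ℝ) (hη : 0 < η) (hη1 : η ≤ 1) (hη' : 0 < η') :
    ∃ c : ℝ, 0 < c ∧ ∃ N : ℕ, ∀ (L : Type u) [Field L] [NumberField L] [IsGalois ℚ L],
      Module.finrank ℚ L = n →
      (∀ g : L ≃ₐ[ℚ] L, ∃ u v : L ≃ₐ[ℚ] L, u * u = 1 ∧ v * v = 1 ∧ g = u * v) →
      ∀ (Q : ℤ) (y₀ : ℕ → ℝ), Q ≠ 0 → (∀ p, |y₀ p| ≤ 2) →
      ∀ V : (K : IntermediateField ℚ L) → WeierstrassCurve K,
      (∀ K : IntermediateField ℚ L, Agree K (V K) Q y₀) →
      ∀ F : IntermediateField ℚ L → ℂ → ℂ, (∀ K, Differentiable ℂ (F K)) →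
      (∀ K : IntermediateField ℚ L, ∀ s : ℂ, 3 / 2 < s.re → F K s = (V K).LSeries s) →
      ∀ δ M : ℝ, 0 < δ → δ ≤ 1 / 2 → 2 ≤ M → |(Q : ℝ)| ≤ M ^ 2 →
      (∀ K : IntermediateField ℚ L, (|NumberField.discr K| : ℝ) ≤ M) →
      (∀ K : IntermediateField ℚ L, ∀ s : ℂ, 3 / 2 - δ ≤ s.re → |s.im| ≤ N → ‖F K s‖ ≤ M) →
      (∀ K : IntermediateField ℚ L, Szf.Cnt K δ M) →
      (∀ ε : ℝ, c * δ / Zfr.Lg M 0 δ ≤ ε → ε ≤ δ / Zfr.Lg M 0 δ → bs y₀ η ε ≤ η / (16 * n)) →
      (∀ ε : ℝ, c * δ / Zfr.Lg M 0 δ ≤ ε → ε ≤ δ / Zfr.Lg M 0 δ →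
        ε * ∑' p : Nat.Primes, Szf.lp ε p * ((1 * y₀ p) ^ 2 - Szf.dz (1 * y₀ p)) ≤ 1 - η') →
      ∀ (K : IntermediateField ℚ L) (β : ℝ), 3 / 2 - c * δ / Zfr.Lg M 0 δ < β → F K β ≠ 0 := by
  classical
  by_cases hn0 : n = 0
  · refine ⟨1, one_pos, 0, fun L _ _ _ hL => ?_⟩
    have : 0 < Module.finrank ℚ L := Module.finrank_pos
    omega
  have hn : (1 : ℝ) ≤ n := by exact_mod_cast Nat.one_le_iff_ne_zero.2 hn0
  obtain ⟨κ₀, hκ₀, hgroup⟩ := Szf.approx_class.{u} n
  obtain ⟨c₁, hc₁, N, hN1, hexc⟩ := exc_primes_u.{u} n η hη hη1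
  set κ : ℝ := min (min (κ₀ / (3 * n)) (η' / 64)) (1 / 40) with hκ
  have hκ0 : 0 < κ := by positivity
  have hκa : 3 * κ * n ≤ κ₀ := by
    have : κ ≤ κ₀ / (3 * n) := (min_le_left _ _).trans (min_le_left _ _)
    rw [le_div_iff₀ (by positivity)] at this
    linarith
  have hκb : κ ≤ η' / 64 := (min_le_left _ _).trans (min_le_right _ _)
  have hκc : κ ≤ 1 / 40 := min_le_right _ _
  obtain ⟨θE, hθE, hE⟩ := hexc κ hκ0
  -- the quadratic fields
  obtain ⟨θA, hθA, hA⟩ := Szf.many_places.{u} 2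
  obtain ⟨θB, hθB, hB⟩ := Szf.lower_primes.{u} 2 κ hκ0
  set θ₂ : ℝ := min θA θB with hθ₂
  have hθ₂0 : 0 < θ₂ := by positivity
  obtain ⟨θC, hθC, hC⟩ := hB θ₂ hθ₂0 (min_le_right _ _)
  obtain ⟨θD, hθD, hD⟩ := Szf.one_upper.{u} 2 κ hκ0
  set C : ℝ := 2 with hCdef
  have hC0 : 0 < C := by norm_num
  -- everything over the rationals
  have hev := Szf.rat_one κ hκ0
  rw [eventually_nhdsWithin_iff, Metric.eventually_nhds_iff] at hev
  obtain ⟨r, hr, hev⟩ := hev
  -- the ramified primes
  set θF : ℝ := κ / ((n : ℝ) * C * (2 ^ n : ℕ) + 1) with hθF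
  have hθF0 : 0 < θF := by positivity
  set θ₀ : ℝ := min (min (min θE θC) (min θD θ₂)) (min (min (r / 2) 1) θF) with hθ₀def
  have hθ₀ : 0 < θ₀ := by positivity
  set J : ℕ := 2 ^ n + 1 with hJ
  refine ⟨min c₁ (κ * (θ₀ * κ ^ (2 * J))), by positivity, N, ?_⟩
  intro L _ _ _ hL hreal Q y₀ hQ0 hy₀ V hV F hF hFL δ M hδ hδ1 hM hdM hdisc hFM hcnt hbs hsp
  set y : Nat.Primes → ℝ := fun p => y₀ p with hy
  have hyC : ∀ p, |y p| ≤ C := fun p => hy₀ p
  set G := (L ≃ₐ[ℚ] L) with hG
  have hcardG : Nat.card G = n := by rw [hG, IsGalois.card_aut_eq_finrank ℚ L, hL]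
  have hcardG' : Fintype.card G = n := by rw [← Nat.card_eq_fintype_card, hcardG]
  have hfinS : Fintype (Subgroup G) := Fintype.ofFinite _
  have hfixinj : Function.Injective fun K : IntermediateField ℚ L => K.fixingSubgroup := by
    intro K K' h
    have h1 := congrArg IntermediateField.fixedField h
    simp only at h1
    rwa [IsGalois.fixedField_fixingSubgroup, IsGalois.fixedField_fixingSubgroup] at h1
  have hfinI' : Finite (IntermediateField ℚ L) := Finite.of_injective _ hfixinj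
  have hfinI : Fintype (IntermediateField ℚ L) := Fintype.ofFinite _
  have hcardS : Fintype.card (Subgroup G) ≤ 2 ^ n := by
    have h1 := Fintype.card_le_of_injective (fun H : Subgroup G => (H : Set G))
      SetLike.coe_injective
    rwa [Fintype.card_set, hcardG'] at h1
  have hcardI : Fintype.card (IntermediateField ℚ L) ≤ 2 ^ n :=
    (Fintype.card_le_of_injective _ hfixinj).trans hcardS
  have hdegmul : ∀ K : IntermediateField ℚ L, Module.finrank ℚ K * Module.finrank K L = n :=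
    fun K => by rw [← hL]; exact Module.finrank_mul_finrank ℚ K L
  have hdeg : ∀ K : IntermediateField ℚ L, Module.finrank ℚ K ≤ n := by
    intro K
    exact Nat.le_of_dvd (Nat.pos_of_ne_zero hn0) ⟨_, (hdegmul K).symm⟩
  -- scales
  have hL2 := Zfr.two_le_Lg hδ hδ1 (le_refl (0 : ℝ)) hM
  have hLM := Zfr.log_M_le hδ hδ1 (le_refl (0 : ℝ)) hM
  set Λ := Zfr.Lg M 0 δ with hΛ
  have hΛ0 : 0 < Λ := by linarith
  have hcle : ∀ c : ℝ, min c₁ (κ * (θ₀ * κ ^ (2 * J))) ≤ c →
      min c₁ (κ * (θ₀ * κ ^ (2 * J))) * δ / Λ ≤ c * δ / Λ := fun c hc =>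
    div_le_div_of_nonneg_right (mul_le_mul_of_nonneg_right hc hδ.le) hΛ0.le
  -- the exceptional zeros
  choose t ht0 ht1 ht2 ht3 using fun K : IntermediateField ℚ L =>
    hE K (hdeg K) (V K) Q y₀ hQ0 hy₀ (hV K) (F K) (hF K) (hFL K) δ M hδ hδ1 hM hdM (hFM K) (hcnt K)
      (fun ε h1 h2 => hbs ε ((hcle _ (min_le_left _ _)).trans h1) h2)
  obtain ⟨j, hj, hgood⟩ := Szf.good_scale t hκ0 (by linarith) (ε₀ := θ₀ * δ / Λ) (by positivity) J
    (by rw [hJ]; omega)
  set θ : ℝ := θ₀ * κ ^ (2 * j) with hθ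
  have hθ0 : 0 < θ := by positivity
  have hpow : κ ^ (2 * j) ≤ 1 := pow_le_one₀ hκ0.le (by linarith)
  have hθle : θ ≤ θ₀ := by
    rw [hθ]
    exact mul_le_of_le_one_right hθ₀.le hpow
  set ε : ℝ := θ * δ / Λ with hε
  have hεeq : θ₀ * δ / Λ * κ ^ (2 * j) = ε := by rw [hε, hθ]; ring
  rw [hεeq] at hgood
  obtain ⟨hε0, hεθ⟩ := Szf.scale hθ0 hδ hδ1 hM hε
  have hθE' : θ ≤ θE := hθle.trans (((min_le_left _ _).trans (min_le_left _ _)).trans
    (min_le_left _ _))
  have hθC' : θ ≤ θC := hθle.trans (((min_le_left _ _).trans (min_le_left _ _)).trans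
    (min_le_right _ _))
  have hθD' : θ ≤ θD := hθle.trans (((min_le_left _ _).trans (min_le_right _ _)).trans
    (min_le_left _ _))
  have hθ₂' : θ ≤ θ₂ := hθle.trans (((min_le_left _ _).trans (min_le_right _ _)).trans
    (min_le_right _ _))
  have hθr : θ ≤ r / 2 := hθle.trans (((min_le_right _ _).trans (min_le_left _ _)).trans
    (min_le_left _ _))
  have hθ1 : θ ≤ 1 := hθle.trans (((min_le_right _ _).trans (min_le_left _ _)).trans
    (min_le_right _ _))
  have hθF' : θ ≤ θF := hθle.trans ((min_le_right _ _).trans (min_le_right _ _))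
  have hεr : dist ε 0 < r := by
    rw [Real.dist_eq, sub_zero, abs_of_pos hε0]
    linarith
  have he1 := hev hεr hε0
  have he3 : ε * ∑' p, Szf.lp ε p * ((1 * y p) ^ 2 - Szf.dz (1 * y p)) ≤ 1 - η' := by
    refine hsp ε ?_ ?_
    · refine hcle θ ?_
      refine (min_le_right _ _).trans ?_
      have h4 : κ ^ (2 * J) ≤ κ ^ (2 * j) := pow_le_pow_of_le_one hκ0.le (by linarith) (by omega)
      have h5 : θ₀ * κ ^ (2 * J) ≤ θ := by
        rw [hθ]
        exact mul_le_mul_of_nonneg_left h4 hθ₀.le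
      have h6 : 0 ≤ θ₀ * κ ^ (2 * J) := by positivity
      nlinarith
    · rw [hε]
      exact div_le_div_of_nonneg_right (mul_le_of_le_one_left hδ.le hθ1) hΛ0.le
  -- the indicator of an exceptional zero
  set m : IntermediateField ℚ L → ℕ := fun K => if t K ≤ κ * ε then 1 else 0 with hm
  have hmle : ∀ K, m K ≤ 1 := fun K => by rw [hm]; simp only; split_ifs <;> omega
  have hmcast : ∀ K, (m K : ℝ) = if t K ≤ κ * ε then (1 : ℝ) else 0 := fun K => by
    rw [hm]; simp only; split_ifs <;> simp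
  have hmean : ∀ K : IntermediateField ℚ L,
      |(ε * ∑' p, Szf.lp ε p * (Fam.homCount K p * y p)) + m K| ≤ 2 * κ := by
    intro K
    have h1 := ht3 K θ hθ0 hθE' ε hε
    have h2 := Szf.round_eps hε0 (ht0 K) hκ0 (hgood K)
    rw [← hmcast K] at h2
    have e : (ε * ∑' p, Szf.lp ε p * (Fam.homCount K p * y p)) + m K =
        ((ε * ∑' p, Szf.lp ε p * (Fam.homCount K p * y p)) + ε / (ε + t K)) -
          (ε / (ε + t K) - m K) := by ring
    rw [e]
    refine (abs_sub _ _).trans ?_
    linarith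
  -- the Frobenius elements
  choose fr hfr using fun p : Nat.Primes => Szf.exists_frob L p.2
  set D : IntermediateField ℚ L → ℕ := fun K => (NumberField.discr K).natAbs with hDdef
  have hD0 : ∀ K, D K ≠ 0 := fun K => Int.natAbs_ne_zero.2 (NumberField.discr_ne_zero K)
  set good : Nat.Primes → Prop := fun p => ∀ K, ¬ (p : ℕ) ∣ D K with hgooddef
  set w : G → ℝ := fun σ => -(ε * ∑' p, Szf.lp ε p * (if good p ∧ fr p = σ then y p else 0))
    with hw
  have hlogD : ∀ K, Real.log (D K) ≤ Λ := by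
    intro K
    refine le_trans (Real.log_le_log (by exact_mod_cast Nat.pos_of_ne_zero (hD0 K)) ?_) hLM
    rw [hDdef]
    simp only
    rw [Nat.cast_natAbs]
    exact_mod_cast hdisc K
  have hsw : ∀ σ : G, Summable fun p => Szf.lp ε p * (if good p ∧ fr p = σ then y p else 0) :=
    fun σ => Szf.summable_lp_mul hε0 (C := C) fun p => by
      split_ifs
      · exact hyC p
      · rw [abs_zero]; exact hC0.le
  have hhom : ∀ (K : IntermediateField ℚ L) (p : Nat.Primes), (Fam.homCount K p : ℝ) ≤ n :=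
    fun K p => (Szf.homCount_le' K p).trans (by exact_mod_cast hdeg K)
  have hfrob : ∀ K : IntermediateField ℚ L, |(∑ σ, w σ * Fam.fix K σ) - m K| ≤ 3 * κ := by
    intro K
    have e1 : (∑ σ, w σ * Fam.fix K σ) =
        -(ε * ∑' p, Szf.lp ε p * (if good p then Fam.homCount K p * y p else 0)) := by
      have h1 : ∀ σ : G, w σ * Fam.fix K σ =
          -(ε * ∑' p, (Szf.lp ε p * (if good p ∧ fr p = σ then y p else 0)) *
            Fam.fix K σ) := by
        intro σ
        rw [tsum_mul_right, hw]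
        simp only
        ring
      rw [Finset.sum_congr rfl fun σ _ => h1 σ, Finset.sum_neg_distrib, ← Finset.mul_sum,
        ← Summable.tsum_finsetSum fun σ _ => (hsw σ).mul_right _]
      congr 2
      refine tsum_congr fun p => ?_
      by_cases hp : good p
      · rw [if_pos hp, hfr p K (hp K)]
        rw [Finset.sum_eq_single (fr p)]
        · rw [if_pos ⟨hp, rfl⟩]; ring
        · intro σ _ hσ
          rw [if_neg fun h => hσ h.2.symm, mul_zero, zero_mul]
        · intro h
          exact absurd (Finset.mem_univ _) h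
      · rw [if_neg hp, mul_zero]
        refine Finset.sum_eq_zero fun σ _ => ?_
        rw [if_neg fun h => hp h.1, mul_zero, zero_mul]
    have hs1 : Summable fun p => Szf.lp ε p * (if good p then Fam.homCount K p * y p else 0) :=
      Szf.summable_lp_mul hε0 (C := n * C) fun p => by
        split_ifs
        · rw [abs_mul, abs_of_nonneg (Nat.cast_nonneg _)]
          exact mul_le_mul (hhom K p) (hyC p) (abs_nonneg _) (by positivity)
        · rw [abs_zero]; positivity
    have hs2 : Summable fun p : Nat.Primes => Szf.lp ε p * (Fam.homCount K p * y p) :=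
      Szf.summable_lp_mul hε0 (C := n * C) fun p => by
        rw [abs_mul, abs_of_nonneg (Nat.cast_nonneg _)]
        exact mul_le_mul (hhom K p) (hyC p) (abs_nonneg _) (by positivity)
    have hbad := Szf.sum_bad_le D hD0 hε0 hlogD
      (fun p => Fam.homCount K p * y p -
        (if good p then Fam.homCount K p * y p else 0)) (C := n * C) (by positivity)
      (fun p => by
        split_ifs
        · rw [sub_self, abs_zero]; positivity
        · rw [sub_zero, abs_mul, abs_of_nonneg (Nat.cast_nonneg _)]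
          exact mul_le_mul (hhom K p) (hyC p) (abs_nonneg _) (by positivity))
      (fun p hp => by rw [if_pos (show good p from hp), sub_self])
    have e2 : (∑' p, Szf.lp ε p * (Fam.homCount K p * y p -
        (if good p then Fam.homCount K p * y p else 0))) =
        (∑' p, Szf.lp ε p * (Fam.homCount K p * y p)) -
        ∑' p, Szf.lp ε p * (if good p then Fam.homCount K p * y p else 0) := by
      rw [← hs2.tsum_sub hs1]
      exact tsum_congr fun p => by ring
    rw [e2] at hbad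
    set X := ∑' p, Szf.lp ε p * (Fam.homCount K p * y p) with hX
    set Y := ∑' p, Szf.lp ε p * (if good p then Fam.homCount K p * y p else 0) with hY
    have hbad2 : |ε * (X - Y)| ≤ κ := by
      rw [abs_mul, abs_of_pos hε0]
      have h1 : ε * |X - Y| ≤ ε * (n * C * (Fintype.card (IntermediateField ℚ L) * Λ)) :=
        mul_le_mul_of_nonneg_left hbad hε0.le
      have h2 : ε * (n * C * (Fintype.card (IntermediateField ℚ L) * Λ)) =
          θ * δ * (n * C * Fintype.card (IntermediateField ℚ L)) := by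
        rw [hε]; field_simp
      have h3 : (Fintype.card (IntermediateField ℚ L) : ℝ) ≤ (2 ^ n : ℕ) := by exact_mod_cast hcardI
      have h4 : θ * δ * (n * C * Fintype.card (IntermediateField ℚ L)) ≤
          θ * ((n : ℝ) * C * (2 ^ n : ℕ) + 1) := by
        have h5 : δ * (n * C * Fintype.card (IntermediateField ℚ L)) ≤
            (n : ℝ) * C * (2 ^ n : ℕ) + 1 := by
          have h6 : (n : ℝ) * C * Fintype.card (IntermediateField ℚ L) ≤ n * C * (2 ^ n : ℕ) :=
            mul_le_mul_of_nonneg_left h3 (by positivity)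
          have h7 : 0 ≤ (n : ℝ) * C * Fintype.card (IntermediateField ℚ L) := by positivity
          nlinarith
        calc θ * δ * (n * C * Fintype.card (IntermediateField ℚ L))
            = θ * (δ * (n * C * Fintype.card (IntermediateField ℚ L))) := by ring
          _ ≤ _ := mul_le_mul_of_nonneg_left h5 hθ0.le
      have h5 : θ * ((n : ℝ) * C * (2 ^ n : ℕ) + 1) ≤ κ := by
        have h6 := mul_le_mul_of_nonneg_right hθF' (by positivity :
          (0 : ℝ) ≤ (n : ℝ) * C * (2 ^ n : ℕ) + 1)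
        have h7 : θF * ((n : ℝ) * C * (2 ^ n : ℕ) + 1) = κ := by
          rw [hθF]; field_simp
        linarith
      linarith
    have h1 := hmean K
    rw [e1]
    have e3 : -(ε * Y) - (m K : ℝ) = ε * (X - Y) - (ε * X + m K) := by ring
    rw [e3]
    refine (abs_sub _ _).trans ?_
    linarith
  -- the subgroup
  set mm : Subgroup G → ℕ := fun H => m (IntermediateField.fixedField H) with hmm
  obtain ⟨N₀, hN₀, hcl⟩ := hgroup G hcardG' hreal w mm (fun H => hmle _) (by
    intro H
    have h1 := hfrob (IntermediateField.fixedField H)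
    have h2 : (∑ σ, w σ * (Nat.card {τ : G // τ⁻¹ * σ * τ ∈ H} : ℝ)) =
        Nat.card H * ∑ σ, w σ * Fam.fix (IntermediateField.fixedField H) σ := by
      rw [Finset.mul_sum]
      refine Finset.sum_congr rfl fun σ _ => ?_
      have h3 := Szf.card_mul_fix H σ
      have h4 : (Nat.card {τ : G // τ⁻¹ * σ * τ ∈ H} : ℝ) =
          ∑ τ : L ≃ₐ[ℚ] L, if τ⁻¹ * σ * τ ∈ H then 1 else 0 := by
        rw [Finset.sum_boole, Nat.card_eq_fintype_card, Fintype.card_subtype]
      rw [h4, ← h3]
      ring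
    rw [h2, ← mul_sub, abs_mul, abs_of_nonneg (Nat.cast_nonneg _)]
    have h3 : (Nat.card H : ℝ) ≤ n := by
      have h4 : Nat.card H ≤ Nat.card G := Subgroup.card_le_card_group H
      rw [hcardG] at h4
      exact_mod_cast h4
    calc (Nat.card H : ℝ) * |(∑ σ, w σ * Fam.fix (IntermediateField.fixedField H) σ) - mm H|
        ≤ n * (3 * κ) := mul_le_mul h3 h1 (abs_nonneg _) (by positivity)
      _ ≤ κ₀ := by linarith)
  -- the rationals
  have hbot : ε * ∑' p, Szf.lp ε p * (Fam.homCount (⊥ : IntermediateField ℚ L) p * y p) =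
      ε * ∑' p, Szf.lp ε p * y p := by
    congr 1
    refine tsum_congr fun p => ?_
    have h6 : Fam.homCount (⊥ : IntermediateField ℚ L) p = 1 := Fam.homCount_bot
    rw [h6, Nat.cast_one, one_mul]
  have hm0 : m ⊥ = 0 := by
    by_contra hcon
    have h1 : m ⊥ = 1 := by
      have := hmle ⊥
      omega
    have h2 := hmean ⊥
    rw [h1, Nat.cast_one, hbot, abs_le] at h2
    have h3 := rat_core_tw (κ := 2 * κ) hε0 y hyC (by linarith) (by linarith [h2.2]) he3
    linarith
  have he2 : -(2 * κ) ≤ ε * ∑' p, Szf.lp ε p * y p := by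
    have h2 := hmean ⊥
    rw [hm0, Nat.cast_zero, add_zero, hbot, abs_le] at h2
    exact h2.1
  -- the subgroups of index at most two
  have hsmall : ∀ H : Subgroup G, H.index ≤ 2 → mm H ≠ 1 := by
    intro H hH h1
    have hdegH : Module.finrank ℚ (IntermediateField.fixedField H) = H.index := by
      rw [IntermediateField.finrank_eq_fixingSubgroup_index,
        IntermediateField.fixingSubgroup_fixedField]
    have hind : 0 < H.index := by rw [← hdegH]; exact Module.finrank_pos
    set K₀ := IntermediateField.fixedField H with hK₀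
    have h1' : m K₀ = 1 := h1
    have hmc : (m K₀ : ℝ) = 1 := by rw [h1']; simp
    have hmean0 := hmean K₀
    rw [hmc, abs_le] at hmean0
    rcases Nat.lt_or_ge H.index 2 with h2 | h2
    · have h3 : Module.finrank ℚ K₀ = 1 := by omega
      have h4 : K₀ = ⊥ := IntermediateField.finrank_eq_one_iff.1 h3
      rw [h4] at h1'
      omega
    · have h3 : Module.finrank ℚ K₀ = 2 := by omega
      have htK : t K₀ ≤ κ * ε := by
        by_contra hcon
        have h4 : m K₀ = 0 := by rw [hm]; simp only; rw [if_neg hcon]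
        omega
      have hκε : κ * ε ≤ 1 / 40 * ε := mul_le_mul_of_nonneg_right hκc hε0.le
      have ht1' : t K₀ < 1 := by linarith
      have hz := ht2 K₀ ht1'
      set ε₁ : ℝ := θ₂ * δ / Λ with hε₁
      have hεε₁ : ε ≤ ε₁ := by
        rw [hε, hε₁]
        gcongr
      have hN1' : (1 : ℝ) ≤ N := by exact_mod_cast hN1
      have h25 := hA θ₂ hθ₂0 (min_le_left _ _) K₀
        (V K₀) h3 (F K₀) (hF K₀)
        (hFL K₀) δ M hδ hδ1 hM (fun s h4 h5 => hFM K₀ s h4 (h5.trans hN1')) (hcnt K₀) ε₁ hε₁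
        (3 / 2 - t K₀) hz (by linarith)
      have hlow := hC θ hθ0 hθC' K₀ h3 δ M hδ hδ1 hM (hcnt K₀) ε₁ hε₁ h25 ε hε
      have hupp := hD θ hθ0 hθD' K₀ h3 δ M hδ hδ1 hM (hcnt K₀) ε hε
      have h6 := quad_core_tw (κ := 2 * κ) hε0 y hyC (fun p => Fam.homCount K₀ p)
        (fun p => by
          have h7 := Szf.homCount_le' K₀ p
          have h8 : ((Module.finrank ℚ K₀ : ℕ) : ℝ) = 2 := by rw [h3]; norm_num
          have h9 : (Fam.homCount K₀ p : ℝ) ≤ 2 := h7.trans_eq h8
          exact_mod_cast h9)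
        (by linarith) (by linarith) (by linarith) (by linarith [hmean0.2]) (by linarith) he3
      linarith
  intro K β hβ hzero
  have hβt := ht1 K β hzero (lt_of_le_of_lt ?_ hβ)
  swap
  · have h3 : min c₁ (κ * (θ₀ * κ ^ (2 * J))) * δ / Λ ≤ c₁ * δ / Λ := by
      gcongr
      exact min_le_left _ _
    linarith
  have hmK : m K = 1 := by
    rw [hm]
    simp only
    rw [if_pos]
    have h3 : min c₁ (κ * (θ₀ * κ ^ (2 * J))) * δ / Λ ≤ κ * ε := by
      have h4 : κ ^ (2 * J) ≤ κ ^ (2 * j) := pow_le_pow_of_le_one hκ0.le (by linarith) (by omega)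
      calc min c₁ (κ * (θ₀ * κ ^ (2 * J))) * δ / Λ ≤ (κ * (θ₀ * κ ^ (2 * J))) * δ / Λ := by
            gcongr
            exact min_le_right _ _
        _ ≤ (κ * (θ₀ * κ ^ (2 * j))) * δ / Λ := by gcongr
        _ = κ * ε := by rw [hε, hθ]; ring
    rw [hβt]
    linarith
  have hmmK : mm K.fixingSubgroup = 1 := by
    rw [hmm]
    simp only
    rw [IsGalois.fixedField_fixingSubgroup]
    exact hmK
  rcases hcl with hcl | hcl
  · exact hsmall N₀ hN₀ ((hcl N₀).2 le_rfl)
  · have h4 : mm ⊤ = 0 := by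
      have h5 := hsmall ⊤ (by rw [Subgroup.index_top]; norm_num)
      have h6 : mm ⊤ ≤ 1 := hmle _
      omega
    have h5 : N₀ = ⊤ := top_le_iff.1 ((hcl ⊤).1 h4)
    have h6 := (hcl K.fixingSubgroup).2 (by rw [h5]; exact le_top)
    omega

end Pool.Agent.MPfb225e.Tw
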