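import Mathlib
import Pool.Agent.Lib.MP_fb225e_nt.Tw.RealChar
import Pool.Agent.Lib.MP_fb225e_nt.Zfr.OneSided

/-!
MP_fb225e_nt, project TW, module Char: the sum of a real character over the places of `K`, from a
bound for its sums over the ideals.
-/

namespace Pool.Agent.MPfb225e.Tw

open Filter Topology Complex
open NumberField IsDedekindDomain

universe u

/-! ### Twisting an arithmetic function -/

section twist

open ArithmeticFunction (ofPowerSeries eulerProduct)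
open Curve (qv one_lt_qv northcott_qv)

/-- the twist of an arithmetic function -/
private def Char_tw (χ : ℕ → ℤ) (A : ArithmeticFunction ℤ) : ArithmeticFunction ℤ :=
  ⟨fun n => χ n * A n, by simp⟩

private theorem Char_tw_apply (χ : ℕ → ℤ) (A : ArithmeticFunction ℤ) (n : ℕ) :
    Char_tw χ A n = χ n * A n := rfl

private theorem Char_tw_mul {χ : ℕ → ℤ} (hχ : ∀ m n, χ (m * n) = χ m * χ n)
    (A B : ArithmeticFunction ℤ) : Char_tw χ (A * B) = Char_tw χ A * Char_tw χ B := by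
  ext n
  rw [Char_tw_apply, ArithmeticFunction.mul_apply, ArithmeticFunction.mul_apply, Finset.mul_sum]
  refine Finset.sum_congr rfl fun x hx => ?_
  rw [Nat.mem_divisorsAntidiagonal] at hx
  rw [Char_tw_apply, Char_tw_apply, ← hx.1, hχ]
  ring

private theorem Char_tw_one {χ : ℕ → ℤ} (hχ1 : χ 1 = 1) : Char_tw χ 1 = 1 := by
  ext n
  rcases eq_or_ne n 1 with rfl | h
  · rw [Char_tw_apply, hχ1, one_mul]
  · rw [Char_tw_apply, ArithmeticFunction.one_apply_ne h, mul_zero]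

private theorem Char_tw_prod {ι : Type*} {χ : ℕ → ℤ} (hχ : ∀ m n, χ (m * n) = χ m * χ n)
    (hχ1 : χ 1 = 1) (S : Finset ι) (g : ι → ArithmeticFunction ℤ) :
    Char_tw χ (∏ i ∈ S, g i) = ∏ i ∈ S, Char_tw χ (g i) := by
  classical
  induction S using Finset.induction_on with
  | empty => simpa using Char_tw_one hχ1
  | insert i S hi ih =>
    rw [Finset.prod_insert hi, Finset.prod_insert hi, Char_tw_mul hχ, ih]

private theorem Char_coeff (a : ℤ) (k : ℕ) :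
    PowerSeries.coeff k (Local.lps a 0) = a ^ k := by
  have h := Local.coeff_lps a 0 (a : ℂ) 0 (by simp) (by simp) k
  have h2 : ∑ x ∈ Finset.HasAntidiagonal.antidiagonal k, (a : ℂ) ^ x.1 * (0 : ℂ) ^ x.2 =
      (a : ℂ) ^ k := by
    rw [Finset.sum_eq_single (k, 0)]
    · simp
    · rintro ⟨i, j⟩ hij hne
      rw [Finset.HasAntidiagonal.mem_antidiagonal] at hij
      have hj : j ≠ 0 := by
        rintro rfl
        apply hne
        simp only at hij
        rw [← hij]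
        rfl
      simp [hj]
    · intro h0
      exact absurd (Finset.HasAntidiagonal.mem_antidiagonal.2 (by simp)) h0
  rw [h2] at h
  exact_mod_cast h

private theorem Char_map_pow {χ : ℕ → ℤ} (hχ : ∀ m n, χ (m * n) = χ m * χ n)
    (hχ1 : χ 1 = 1) (q k : ℕ) : χ (q ^ k) = χ q ^ k := by
  induction k with
  | zero => simpa using hχ1
  | succ k ih => rw [pow_succ, hχ, ih, pow_succ]

private theorem Char_tw_ofPowerSeries {χ : ℕ → ℤ} (hχ : ∀ m n, χ (m * n) = χ m * χ n)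
    (hχ1 : χ 1 = 1) {q : ℕ} (hq : 1 < q) :
    Char_tw χ (ofPowerSeries q (Local.lps 1 0)) = ofPowerSeries q (Local.lps (χ q) 0) := by
  ext n
  rw [Char_tw_apply]
  by_cases h : ∃ k, q ^ k = n
  · obtain ⟨k, rfl⟩ := h
    rw [ArithmeticFunction.ofPowerSeries_apply_pow hq,
      ArithmeticFunction.ofPowerSeries_apply_pow hq, Char_coeff, Char_coeff, one_pow, mul_one,
      Char_map_pow hχ hχ1]
  · rw [ArithmeticFunction.ofPowerSeries_apply hq, ArithmeticFunction.ofPowerSeries_apply hq,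
      Function.extend_apply' _ _ _ h, Function.extend_apply' _ _ _ h]
    simp

variable {K : Type u} [Field K] [NumberField K]

private theorem Char_eulerProduct_eq {χ : ℕ → ℤ} (hχ : ∀ m n, χ (m * n) = χ m * χ n)
    (hχ1 : χ 1 = 1) {n : ℕ} (hn : n ≠ 0) :
    eulerProduct (fun v : HeightOneSpectrum (𝓞 K) =>
      ofPowerSeries (qv v) (Local.lps (χ (qv v)) 0)) n =
      χ n * (Nat.card {I : Ideal (𝓞 K) // Ideal.absNorm I = n} : ℤ) := by
  classical
  have h1 := ArithmeticFunction.tendsTo_eulerProduct_ofPowerSeries (qv (K := K))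
    (fun v => Local.lps (χ (qv v)) 0) (fun v => Local.constantCoeff_lps (χ (qv v)) 0) n
  have h2 := ArithmeticFunction.tendsTo_eulerProduct_ofPowerSeries (qv (K := K))
    (fun _ => Local.lps 1 0) (fun _ => Local.constantCoeff_lps 1 0) n
  obtain ⟨S, hS1, hS2⟩ := (h1.and h2).exists
  rw [← Zeta.eulerProduct_eq hn, ← hS1, ← hS2, ← Char_tw_apply, Char_tw_prod hχ hχ1]
  congr 1
  refine Finset.prod_congr rfl fun v _ => ?_
  rw [Char_tw_ofPowerSeries hχ hχ1 (one_lt_qv v)]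

private theorem Char_abs {χ : ℕ → ℤ} (hχb : ∀ n, |χ n| ≤ 1) (n : ℕ) : ‖(χ n : ℂ)‖ ≤ 1 := by
  rw [Complex.norm_intCast]
  exact_mod_cast hχb n

private theorem Char_norm_w {χ : ℕ → ℤ} (hχb : ∀ n, |χ n| ≤ 1) (s : ℂ)
    (v : HeightOneSpectrum (𝓞 K)) :
    ‖(χ (qv v) : ℂ) * (qv v : ℂ) ^ (-s)‖ ≤ (qv v : ℝ) ^ (-s.re) := by
  rw [norm_mul, Zeta.norm_w]
  exact mul_le_of_le_one_left (Real.rpow_nonneg (by positivity) _) (Char_abs hχb _)

private theorem Char_hasProd {χ : ℕ → ℤ} (hχ : ∀ m n, χ (m * n) = χ m * χ n)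
    (hχ1 : χ 1 = 1) (hχb : ∀ n, |χ n| ≤ 1) {s : ℂ} (hs : 1 < s.re) :
    HasProd (fun v : HeightOneSpectrum (𝓞 K) => (1 - (χ (qv v) : ℂ) * (qv v : ℂ) ^ (-s))⁻¹)
      (LSeries (fun n => (((χ n : ℝ) *
        (Nat.card {I : Ideal (𝓞 K) // Ideal.absNorm I = n} : ℝ) : ℝ) : ℂ)) s) := by
  have h := Euler.hasProd_eulerProduct (qv (K := K)) one_lt_qv
    (fun v => Local.lps (χ (qv v)) 0)
    (fun _ => Local.constantCoeff_lps _ 0) (fun _ => 1) (fun _ => zero_le_one) ?_ s (1 / 2)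
    (by norm_num) ?_ ?_ (fun v => (1 - (χ (qv v) : ℂ) * (qv v : ℂ) ^ (-s))⁻¹) ?_
  · have e : LSeries (fun n => ((eulerProduct (fun v : HeightOneSpectrum (𝓞 K) =>
        ofPowerSeries (qv v) (Local.lps (χ (qv v)) 0)) n : ℤ) : ℂ)) s =
        LSeries (fun n => (((χ n : ℝ) *
        (Nat.card {I : Ideal (𝓞 K) // Ideal.absNorm I = n} : ℝ) : ℝ) : ℂ)) s := by
      refine LSeries_congr (fun {n} hn => ?_) s
      rw [Char_eulerProduct_eq hχ hχ1 hn]
      push_cast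
      rfl
    rw [← e]
    exact h
  · intro v k
    exact Local.abs_coeff_lps_le _ 0 (χ (qv v) : ℂ) 0 (by simp) (by simp) (Char_abs hχb _)
      (by simp) k
  · intro v
    rw [one_mul]
    exact Zeta.r_le hs v
  · simp only [one_mul]
    exact Zeta.summable_qv K hs
  · intro v
    have h1 : ‖(χ (qv v) : ℂ) * (qv v : ℂ) ^ (-s)‖ < 1 :=
      lt_of_le_of_lt (Char_norm_w hχb s v) (by linarith [Zeta.r_le hs v])
    have h2 := Local.hasSum_lps (χ (qv v)) 0 (χ (qv v) : ℂ) 0 (by simp) (by simp)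
      ((qv v : ℂ) ^ (-s)) h1 (by simp)
    simpa using h2

private theorem Char_one_sub_ne {χ : ℕ → ℤ} (hχb : ∀ n, |χ n| ≤ 1) {s : ℂ} (hs : 1 < s.re)
    (v : HeightOneSpectrum (𝓞 K)) : 1 - (χ (qv v) : ℂ) * (qv v : ℂ) ^ (-s) ≠ 0 := by
  intro h
  have h1 : ‖(χ (qv v) : ℂ) * (qv v : ℂ) ^ (-s)‖ = 1 := by
    rw [← sub_eq_zero.mp h]; simp
  have h2 := Char_norm_w hχb s v
  linarith [Zeta.r_le hs v]

private theorem Char_summable_log {χ : ℕ → ℤ} (hχb : ∀ n, |χ n| ≤ 1) {s : ℂ} (hs : 1 < s.re) :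
    Summable fun v : HeightOneSpectrum (𝓞 K) =>
      -Real.log ‖1 - (χ (qv v) : ℂ) * (qv v : ℂ) ^ (-s)‖ := by
  refine Summable.of_norm_bounded ((Zeta.summable_qv K hs).mul_left (2 / (1 - 1 / 2)))
    fun v => ?_
  rw [Real.norm_eq_abs, abs_neg]
  refine (Local.abs_log_norm_one_sub_le (ρ := 1 / 2)
    ((Char_norm_w hχb s v).trans (Zeta.r_le hs v)) (by norm_num)).trans ?_
  exact mul_le_mul_of_nonneg_left (Char_norm_w hχb s v) (by norm_num)

private theorem Char_norm_L {χ : ℕ → ℤ} (hχ : ∀ m n, χ (m * n) = χ m * χ n)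
    (hχ1 : χ 1 = 1) (hχb : ∀ n, |χ n| ≤ 1) {s : ℂ} (hs : 1 < s.re) :
    ‖LSeries (fun n => (((χ n : ℝ) *
        (Nat.card {I : Ideal (𝓞 K) // Ideal.absNorm I = n} : ℝ) : ℝ) : ℂ)) s‖ =
      Real.exp (∑' v : HeightOneSpectrum (𝓞 K),
        -Real.log ‖1 - (χ (qv v) : ℂ) * (qv v : ℂ) ^ (-s)‖) := by
  have h1 := (Char_hasProd (K := K) hχ hχ1 hχb hs).norm
  have h2 := (Char_summable_log (K := K) hχb hs).hasSum.rexp
  have h3 : (Real.exp ∘ fun v : HeightOneSpectrum (𝓞 K) =>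
      -Real.log ‖1 - (χ (qv v) : ℂ) * (qv v : ℂ) ^ (-s)‖) =
      fun v => ‖(1 - (χ (qv v) : ℂ) * (qv v : ℂ) ^ (-s))⁻¹‖ := by
    funext v
    simp only [Function.comp_apply]
    rw [Real.exp_neg, Real.exp_log (norm_pos_iff.mpr (Char_one_sub_ne hχb hs v)), norm_inv]
  rw [h3] at h2
  exact h1.unique h2

private theorem Char_log_lower {χ : ℕ → ℤ} (hχ : ∀ m n, χ (m * n) = χ m * χ n)
    (hχ1 : χ 1 = 1) (hχb : ∀ n, |χ n| ≤ 1) {s : ℂ} (hs : 1 < s.re) :
    -(∑' v : HeightOneSpectrum (𝓞 K), nrm v ^ (-s.re)) ≤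
      Real.log ‖LSeries (fun n => (((χ n : ℝ) *
        (Nat.card {I : Ideal (𝓞 K) // Ideal.absNorm I = n} : ℝ) : ℝ) : ℂ)) s‖ := by
  rw [Char_norm_L hχ hχ1 hχb hs, Real.log_exp, ← tsum_neg]
  simp only [Curve.nrm_eq]
  refine (Zeta.summable_qv K hs).neg.tsum_le_tsum (fun v => ?_)
    (Char_summable_log (K := K) hχb hs)
  have h2 : ‖1 - (χ (qv v) : ℂ) * (qv v : ℂ) ^ (-s)‖ ≤ 1 + (qv v : ℝ) ^ (-s.re) := by
    refine (norm_sub_le _ _).trans ?_
    rw [norm_one]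
    linarith [Char_norm_w hχb s v]
  have h3 : 0 < ‖1 - (χ (qv v) : ℂ) * (qv v : ℂ) ^ (-s)‖ :=
    norm_pos_iff.2 (Char_one_sub_ne hχb hs v)
  have h4 := Real.log_le_sub_one_of_pos h3
  linarith

private theorem Char_term {χ : ℕ → ℤ} (hχb : ∀ n, |χ n| ≤ 1) {s : ℂ} (hs : 1 < s.re)
    (v : HeightOneSpectrum (𝓞 K)) :
    ‖-(Real.log (qv v : ℝ)) * ((χ (qv v) : ℂ) * (qv v : ℂ) ^ (-s) /
        (1 - (χ (qv v) : ℂ) * (qv v : ℂ) ^ (-s))).re +
      Real.log (qv v : ℝ) * ((χ (qv v) : ℂ) * (qv v : ℂ) ^ (-s)).re‖ ≤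
      4 * (qv v : ℝ) ^ (-(3 / 2 : ℝ)) := by
  have hq := one_lt_qv v
  have hq0 : (0 : ℝ) < qv v := by exact_mod_cast (by omega : 0 < qv v)
  have hq1 : (1 : ℝ) ≤ qv v := by exact_mod_cast (by omega : 1 ≤ qv v)
  set w : ℂ := (χ (qv v) : ℂ) * (qv v : ℂ) ^ (-s) with hw
  have hw1 : ‖w‖ ≤ (qv v : ℝ) ^ (-s.re) := Char_norm_w hχb s v
  have hw2 : ‖w‖ ≤ 1 / 2 := hw1.trans (Zeta.r_le hs v)
  have hne : 1 - w ≠ 0 := Char_one_sub_ne hχb hs v
  have e1 : -(Real.log (qv v : ℝ)) * (w / (1 - w)).re + Real.log (qv v : ℝ) * w.re =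
      -(Real.log (qv v : ℝ)) * (w ^ 2 / (1 - w)).re := by
    have : w / (1 - w) = w + w ^ 2 / (1 - w) := by
      field_simp
      ring
    rw [this, Complex.add_re]
    ring
  rw [e1, norm_mul, norm_neg, Real.norm_eq_abs, abs_of_nonneg (Real.log_nonneg hq1)]
  have h1 : ‖(w ^ 2 / (1 - w)).re‖ ≤ 2 * (qv v : ℝ) ^ (-(2 : ℝ)) := by
    rw [Real.norm_eq_abs]
    refine (Complex.abs_re_le_norm _).trans ?_
    rw [norm_div, norm_pow]
    have h2 : 1 / 2 ≤ ‖1 - w‖ := by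
      have := norm_sub_norm_le (1 : ℂ) w
      rw [norm_one] at this
      linarith
    have h3 : ‖w‖ ^ 2 ≤ (qv v : ℝ) ^ (-(2 : ℝ)) := by
      refine (pow_le_pow_left₀ (norm_nonneg _) hw1 2).trans ?_
      rw [← Real.rpow_natCast, ← Real.rpow_mul hq0.le]
      refine Real.rpow_le_rpow_of_exponent_le hq1 ?_
      push_cast
      linarith
    rw [div_le_iff₀ (by linarith)]
    have h4 : 0 ≤ (qv v : ℝ) ^ (-(2 : ℝ)) := Real.rpow_nonneg hq0.le _
    nlinarith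
  have h5 := Zfr.ZetaExp_log_le hq0
  calc Real.log (qv v : ℝ) * ‖(w ^ 2 / (1 - w)).re‖
      ≤ (2 * (qv v : ℝ) ^ (1 / 2 : ℝ)) * (2 * (qv v : ℝ) ^ (-(2 : ℝ))) :=
        mul_le_mul h5 h1 (norm_nonneg _) (by positivity)
    _ = 4 * ((qv v : ℝ) ^ (1 / 2 : ℝ) * (qv v : ℝ) ^ (-(2 : ℝ))) := by ring
    _ = 4 * (qv v : ℝ) ^ (-(3 / 2 : ℝ)) := by
        rw [← Real.rpow_add hq0]
        norm_num

/-- the expansion of the logarithmic derivative -/
private theorem Char_deriv_expansion {χ : ℕ → ℤ} (hχ : ∀ m n, χ (m * n) = χ m * χ n)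
    (hχ1 : χ 1 = 1) (hχb : ∀ n, |χ n| ≤ 1) {Z : ℂ → ℂ}
    (hZ : ∀ s : ℂ, 1 < s.re → Z s = LSeries (fun n => (((χ n : ℝ) *
        (Nat.card {I : Ideal (𝓞 K) // Ideal.absNorm I = n} : ℝ) : ℝ) : ℂ)) s)
    (ε : ℝ) (hε : 0 < ε) :
    |(deriv Z ((1 + ε : ℝ) : ℂ) / Z ((1 + ε : ℝ) : ℂ)).re +
      ∑' v : HeightOneSpectrum (𝓞 K),
        Real.log (nrm v) * nrm v ^ (-(1 + ε)) * (χ (Fam.N v) : ℝ)| ≤
      Zfr.bd (Curve.qv (K := K)) ∅ := by
  set s : ℂ := ((1 + ε : ℝ) : ℂ) with hs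
  have hre : s.re = 1 + ε := by simp [hs]
  have hs1 : 1 < s.re := by rw [hre]; linarith
  have h0 := Zfr.hasSum_logDeriv (qv (K := K)) one_lt_qv (fun v => (χ (qv v) : ℂ)) (fun _ => 0)
    (fun _ => 1) (fun _ => Char_abs hχb _) (fun _ => by simp) 1 (1 / 2) (by norm_num)
    (fun v σ hσ => by
      have := Zeta.r_le (K := K) (s := (σ : ℂ)) (by simpa using hσ) v
      simpa using this)
    (fun σ hσ => by simpa using Zeta.summable_qv K hσ) Z
    (fun s hs => by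
      rw [hZ s hs]
      simpa using Char_hasProd (K := K) hχ hχ1 hχb hs) hs1
  have h1 : HasSum (fun v : HeightOneSpectrum (𝓞 K) =>
      -(Real.log (qv v : ℝ)) * ((χ (qv v) : ℂ) * (qv v : ℂ) ^ (-s) /
        (1 - (χ (qv v) : ℂ) * (qv v : ℂ) ^ (-s))).re)
      (deriv Z s / Z s).re := by
    have h := Complex.hasSum_re h0
    have e : (fun v : HeightOneSpectrum (𝓞 K) => (-(Real.log (qv v) : ℂ) *
        ((χ (qv v) : ℂ) * (qv v : ℂ) ^ (-s) / (1 - (χ (qv v) : ℂ) * (qv v : ℂ) ^ (-s)) +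
          0 * (qv v : ℂ) ^ (-s) / (1 - 0 * (qv v : ℂ) ^ (-s)))).re) =
        fun v : HeightOneSpectrum (𝓞 K) =>
          -(Real.log (qv v : ℝ)) * ((χ (qv v) : ℂ) * (qv v : ℂ) ^ (-s) /
            (1 - (χ (qv v) : ℂ) * (qv v : ℂ) ^ (-s))).re := by
      funext v
      rw [zero_mul, zero_div, add_zero, ← Complex.ofReal_neg, Complex.re_ofReal_mul]
    rw [e] at h
    exact h
  have hg : Summable fun v : HeightOneSpectrum (𝓞 K) => 4 * (qv v : ℝ) ^ (-(3 / 2 : ℝ)) :=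
    (Zeta.summable_qv K (by norm_num)).mul_left _
  have hd : Summable fun v : HeightOneSpectrum (𝓞 K) =>
      -(Real.log (qv v : ℝ)) * ((χ (qv v) : ℂ) * (qv v : ℂ) ^ (-s) /
        (1 - (χ (qv v) : ℂ) * (qv v : ℂ) ^ (-s))).re +
      Real.log (qv v : ℝ) * ((χ (qv v) : ℂ) * (qv v : ℂ) ^ (-s)).re :=
    Summable.of_norm_bounded hg fun v => Char_term hχb hs1 v
  have hx : Summable fun v : HeightOneSpectrum (𝓞 K) =>
      Real.log (qv v : ℝ) * ((χ (qv v) : ℂ) * (qv v : ℂ) ^ (-s)).re := by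
    have := hd.sub h1.summable
    refine this.congr fun v => ?_
    ring
  have e2 : ∀ v : HeightOneSpectrum (𝓞 K), Real.log (nrm v) * nrm v ^ (-(1 + ε)) *
      (χ (Fam.N v) : ℝ) =
      Real.log (qv v : ℝ) * ((χ (qv v) : ℂ) * (qv v : ℂ) ^ (-s)).re := by
    intro v
    have hN : Fam.N v = qv v := (Curve.qv_eq v).symm
    have e3 : (qv v : ℂ) ^ (-s) = (((qv v : ℝ) ^ (-(1 + ε)) : ℝ) : ℂ) := by
      rw [Complex.ofReal_cpow (by positivity), hs]
      push_cast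
      rfl
    have e4 : (χ (qv v) : ℂ) * (((qv v : ℝ) ^ (-(1 + ε)) : ℝ) : ℂ) =
        (((χ (qv v) : ℝ) * (qv v : ℝ) ^ (-(1 + ε)) : ℝ) : ℂ) := by push_cast; rfl
    rw [hN, Curve.nrm_eq, e3, e4, Complex.ofReal_re]
    ring
  rw [tsum_congr e2, ← h1.tsum_eq, ← h1.summable.tsum_add hx, Zfr.ZetaExp_bd]
  have hn : Summable fun v : HeightOneSpectrum (𝓞 K) =>
      ‖-(Real.log (qv v : ℝ)) * ((χ (qv v) : ℂ) * (qv v : ℂ) ^ (-s) /
        (1 - (χ (qv v) : ℂ) * (qv v : ℂ) ^ (-s))).re +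
      Real.log (qv v : ℝ) * ((χ (qv v) : ℂ) * (qv v : ℂ) ^ (-s)).re‖ :=
    Summable.of_nonneg_of_le (fun _ => norm_nonneg _) (fun v => Char_term hχb hs1 v) hg
  refine (norm_tsum_le_tsum_norm hn).trans ((hn.tsum_le_tsum (fun v => Char_term hχb hs1 v)
    hg).trans ?_)
  rw [tsum_mul_left]
  refine mul_le_mul_of_nonneg_right (by norm_num) (tsum_nonneg fun v => Real.rpow_nonneg
    (by positivity) _)

end twist

/-! ### The continuation -/

private theorem Char_abstract (a : ℕ → ℝ) (M δ : ℝ) (hδ : 0 < δ) (hM : 1 ≤ M)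
    (hcount : ∀ x : ℝ, 1 ≤ x → |∑ k ∈ Finset.Icc 1 ⌊x⌋₊, a k| ≤ M * x ^ (1 - δ))
    (hsum : ∀ s : ℂ, 1 < s.re → LSeriesSummable (fun n => (a n : ℂ)) s) :
    ∃ Z : ℂ → ℂ, (∀ s : ℂ, 1 - δ < s.re → DifferentiableAt ℂ Z s) ∧
      (∀ s : ℂ, 1 < s.re → Z s = LSeries (fun n => (a n : ℂ)) s) ∧
      ∀ s : ℂ, 1 - 3 / 4 * δ ≤ s.re → ‖Z s‖ ≤ 10 * M * (1 + ‖s‖) ^ 2 / δ := by
  have hM0 : 0 ≤ M := by linarith
  have hcount' : ∀ x : ℝ, 1 ≤ x →
      |∑ k ∈ Finset.Icc 1 ⌊x⌋₊, a k - 0 * x| ≤ M * x ^ (1 - δ) := by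
    intro x hx
    rw [zero_mul, sub_zero]
    exact hcount x hx
  refine ⟨fun s => s * mellin (Zfr.ZK_err a 0) (-s), ?_, ?_, ?_⟩
  · intro s hs
    have hloc : MeasureTheory.LocallyIntegrableOn (Zfr.ZK_err a 0) (Set.Ioi 0) := by
      have hg : MeasureTheory.LocallyIntegrableOn (fun t : ℝ => M * t ^ (1 - δ)) (Set.Ioi 0) := by
        refine ContinuousOn.locallyIntegrableOn ?_ measurableSet_Ioi
        refine continuousOn_const.mul (ContinuousOn.rpow_const continuousOn_id ?_)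
        intro x hx
        exact Or.inl (ne_of_gt hx)
      refine fun x hx => ?_
      obtain ⟨U, hU, hU2⟩ := hg x hx
      refine ⟨U ∩ Set.Ioi 0, Filter.inter_mem hU self_mem_nhdsWithin, ?_⟩
      refine MeasureTheory.Integrable.mono (hU2.mono_set Set.inter_subset_left)
        (Zfr.ZK_err_measurable a 0).aestronglyMeasurable ?_
      have : ∀ᵐ t ∂(MeasureTheory.volume.restrict (U ∩ Set.Ioi (0:ℝ))), t ∈ Set.Ioi (0:ℝ) := by
        have h1 : ∀ᵐ t ∂(MeasureTheory.volume.restrict (Set.Ioi (0:ℝ))), t ∈ Set.Ioi (0:ℝ) :=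
          MeasureTheory.ae_restrict_mem measurableSet_Ioi
        exact MeasureTheory.ae_mono (MeasureTheory.Measure.restrict_mono Set.inter_subset_right
          le_rfl) h1
      filter_upwards [this] with t ht
      rw [Real.norm_of_nonneg (by have := (Set.mem_Ioi.1 ht).le; positivity)]
      exact Zfr.ZK_err_le a 0 M δ hM0 hcount' t (Set.mem_Ioi.1 ht).le
    have htop : Zfr.ZK_err a 0 =O[atTop] fun t : ℝ => t ^ (-(-(1 - δ))) := by
      rw [neg_neg]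
      refine Asymptotics.IsBigO.of_bound M ?_
      filter_upwards [eventually_ge_atTop 0] with t ht
      rw [Real.norm_of_nonneg (by positivity)]
      exact Zfr.ZK_err_le a 0 M δ hM0 hcount' t ht
    have hbot : ∀ c : ℝ, Zfr.ZK_err a 0 =O[𝓝[>] 0] fun t : ℝ => t ^ (-c) := by
      intro c
      refine Asymptotics.IsBigO.of_bound 0 ?_
      have hsmall : ∀ᶠ ε : ℝ in 𝓝[>] 0, ε < 1 := by
        have : ∀ᶠ ε : ℝ in 𝓝 0, ε < 1 := gt_mem_nhds (by norm_num)
        exact this.filter_mono nhdsWithin_le_nhds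
      filter_upwards [hsmall] with ε hε
      simp [Zfr.ZK_err, not_le.2 hε]
    have h1 : DifferentiableAt ℂ (mellin (Zfr.ZK_err a 0)) (-s) :=
      mellin_differentiableAt_of_isBigO_rpow (a := -(1 - δ)) (b := (-s).re - 1) hloc htop
        (by rw [Complex.neg_re]; linarith) (hbot _) (by linarith)
    have h2 : DifferentiableAt ℂ (fun s : ℂ => mellin (Zfr.ZK_err a 0) (-s)) s :=
      h1.comp s differentiableAt_id.neg
    exact differentiableAt_id.mul h2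
  · intro s hs
    have hO : (fun n : ℕ => ∑ k ∈ Finset.Icc 1 n, (a k : ℂ)) =O[atTop]
        fun n : ℕ => (n : ℝ) ^ (1 : ℝ) := by
      refine Asymptotics.IsBigO.of_bound M ?_
      filter_upwards [eventually_ge_atTop 1] with n hn
      have hn' : (1 : ℝ) ≤ n := by exact_mod_cast hn
      have h := hcount n hn'
      rw [Nat.floor_natCast] at h
      rw [Real.rpow_one, Real.norm_of_nonneg (by positivity), ← Complex.ofReal_sum,
        Complex.norm_real, Real.norm_eq_abs]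
      have h2 : (n : ℝ) ^ (1 - δ) ≤ n := by
        have := Real.rpow_le_rpow_of_exponent_le hn' (by linarith : 1 - δ ≤ 1)
        rwa [Real.rpow_one] at this
      exact h.trans (mul_le_mul_of_nonneg_left h2 hM0)
    show s * mellin (Zfr.ZK_err a 0) (-s) = _
    rw [LSeries_eq_mul_integral (fun n => (a n : ℂ)) zero_le_one hs (hsum s hs) hO,
      Zfr.ZK_mellin_eq]
    congr 1
    refine MeasureTheory.setIntegral_congr_fun measurableSet_Ioi fun t ht => ?_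
    have ht1 : (1:ℝ) < t := ht
    simp only [Zfr.ZK_err, if_pos ht1.le, smul_eq_mul]
    rw [show -(s + 1) = -s - 1 by ring]
    push_cast
    ring
  · intro s hs
    have h1 : δ / 4 ≤ δ + s.re - 1 := by linarith
    have h2 := Zfr.ZK_mellin_le a 0 M δ hM0 hcount' s (by linarith)
    have h3 : M / (δ + s.re - 1) ≤ M / (δ / 4) :=
      div_le_div_of_nonneg_left hM0 (by linarith) h1
    have h4 : M / (δ / 4) = 4 * M / δ := by field_simp
    have hn : 0 ≤ ‖s‖ := norm_nonneg s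
    have h9 : ‖mellin (Zfr.ZK_err a 0) (-s)‖ ≤ 4 * M / δ := h2.trans (h3.trans h4.le)
    calc ‖s * mellin (Zfr.ZK_err a 0) (-s)‖
        = ‖s‖ * ‖mellin (Zfr.ZK_err a 0) (-s)‖ := norm_mul _ _
      _ ≤ ‖s‖ * (4 * M / δ) := mul_le_mul_of_nonneg_left h9 hn
      _ = (4 * M * ‖s‖) / δ := by ring
      _ ≤ 10 * M * (1 + ‖s‖) ^ 2 / δ := by
          refine div_le_div_of_nonneg_right ?_ hδ.le
          have h5 : ‖s‖ ≤ (1 + ‖s‖) ^ 2 := by nlinarith
          have h6 : M * ‖s‖ ≤ M * (1 + ‖s‖) ^ 2 := mul_le_mul_of_nonneg_left h5 hM0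
          have h7 : 0 ≤ M * (1 + ‖s‖) ^ 2 := by positivity
          linarith

/-- TW (H3). -/
theorem one_sided_char (n : ℕ) (κ' : ℝ) (hκ' : 0 < κ') : ∃ θ₀ : ℝ, 0 < θ₀ ∧
    ∀ (K : Type u) [Field K] [NumberField K], Module.finrank ℚ K = n →
    ∀ (a : ℤ) (κ δ T M θ : ℝ), 0 < δ → δ ≤ 1 / 2 → 0 ≤ T → 2 ≤ M → 0 < θ → θ ≤ θ₀ →
    (∀ x : ℝ, 1 ≤ x →
      |(Nat.card {J : Ideal (𝓞 K) // J ≠ ⊥ ∧ (Ideal.absNorm J : ℝ) ≤ x} : ℝ) - κ * x| ≤
        M * x ^ (1 - δ)) →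
    (∀ x : ℝ, 1 ≤ x →
      |∑ k ∈ Finset.Icc 1 ⌊x⌋₊, (psi a k : ℝ) *
        (Nat.card {J : Ideal (𝓞 K) // Ideal.absNorm J = k} : ℝ)| ≤ M * x ^ (1 - δ)) →
    ∀ ε : ℝ, ε = θ * δ / Zfr.Lg M T δ →
    ∑' v : HeightOneSpectrum (𝓞 K), ε * (Real.log (nrm v) * nrm v ^ (-(1 + ε))) *
      (psi a (Fam.N v) : ℝ) ≤ κ' := by
  obtain ⟨CA, hCA, hA⟩ := Zfr.local_upper
  obtain ⟨CB, hB⟩ := Zfr.bd_le.{u} n
  set C1 : ℝ := Real.log 32400 with hC1
  have hC1' : 0 ≤ C1 := Real.log_nonneg (by norm_num)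
  set D : ℝ := 4 * CA * (5 + C1 + 1) + |CB| with hD
  have hD0 : 0 < D := by positivity
  refine ⟨min (κ' / D) (1 / 2), by positivity, ?_⟩
  intro K _ _ hn a κ δ T M θ hδ hδ1 hT hM hθ hθ0 hcount hchar ε hε
  have hχ : ∀ m n, psi a (m * n) = psi a m * psi a n := psi_mul_right a
  have hχ1 : psi a 1 = 1 := by simp [psi]
  have hχb : ∀ n, |psi a n| ≤ 1 := abs_psi_le a
  have hbd : Zfr.bd (Curve.qv (K := K)) ∅ ≤ |CB| := (hB K hn).2.trans (le_abs_self _)
  obtain ⟨Z0, -, hZ01, hZ02⟩ := Zfr.exists_Z K κ M δ hδ hδ1 (by linarith) hcount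
  have hsummable : ∀ s : ℂ, 1 < s.re → LSeriesSummable (fun n => (((psi a n : ℝ) *
      (Nat.card {I : Ideal (𝓞 K) // Ideal.absNorm I = n} : ℝ) : ℝ) : ℂ)) s := by
    intro s hs
    refine Summable.of_norm_bounded (Zeta.lseriesSummable K hs).norm fun k => ?_
    refine LSeries.norm_term_le s ?_
    rw [Complex.ofReal_mul, norm_mul]
    have h1 : ‖(((psi a k : ℤ) : ℝ) : ℂ)‖ ≤ 1 := by
      rw [Complex.norm_real, Real.norm_eq_abs]
      exact_mod_cast hχb k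
    have h2 : ‖((Nat.card {I : Ideal (𝓞 K) // Ideal.absNorm I = k} : ℝ) : ℂ)‖ =
        ‖(Nat.card {I : Ideal (𝓞 K) // Ideal.absNorm I = k} : ℂ)‖ := by
      push_cast
      rfl
    rw [h2]
    exact mul_le_of_le_one_left (norm_nonneg _) h1
  obtain ⟨Z, hZd, hZ1, hZ2⟩ := Char_abstract
    (fun k => (psi a k : ℝ) * (Nat.card {I : Ideal (𝓞 K) // Ideal.absNorm I = k} : ℝ)) M δ hδ
    (by linarith) hchar hsummable
  have hL2 := Zfr.two_le_Lg hδ hδ1 hT hM
  have hLM := Zfr.log_M_le hδ hδ1 hT hM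
  have hLδ := Zfr.log_δ_le hδ hδ1 hT hM
  set L := Zfr.Lg M T δ with hL
  have hLpos : 0 < L := by linarith
  have hεpos : 0 < ε := by rw [hε]; positivity
  have hθ1 : θ ≤ 1 / 2 := hθ0.trans (min_le_right _ _)
  have hθ2 : θ ≤ κ' / D := hθ0.trans (min_le_left _ _)
  have hεδ : ε ≤ δ / 4 := by
    rw [hε, div_le_div_iff₀ hLpos (by norm_num)]
    nlinarith
  set r : ℝ := δ / 4 with hr
  have hrpos : 0 < r := by positivity
  set c : ℂ := ((1 + r : ℝ) : ℂ) with hc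
  set s : ℂ := ((1 + ε : ℝ) : ℂ) with hs
  have hcre : c.re = 1 + r := by simp [hc]
  have hsre : s.re = 1 + ε := by simp [hs]
  have hball : ∀ z ∈ Metric.closedBall c (4 * r), 1 - 3 / 4 * δ ≤ z.re ∧ ‖z‖ ≤ 2 := by
    intro z hz
    rw [Metric.mem_closedBall, dist_eq_norm] at hz
    have h1 := (Complex.abs_re_le_norm (z - c)).trans hz
    rw [Complex.sub_re, hcre, abs_le] at h1
    refine ⟨by rw [hr] at h1; linarith [h1.1], ?_⟩
    have h2 : ‖c‖ = 1 + r := by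
      rw [hc, Complex.norm_real, Real.norm_of_nonneg (by linarith)]
    have h3 : ‖z‖ ≤ ‖z - c‖ + ‖c‖ := by
      have := norm_add_le (z - c) c
      rwa [sub_add_cancel] at this
    rw [hr] at h2 hz
    linarith
  set B : ℝ := 90 * M / δ with hBdef
  have hBpos : 0 < B := by positivity
  have hZB : ∀ z ∈ Metric.closedBall c (4 * r), ‖Z z‖ ≤ B := by
    intro z hz
    obtain ⟨h1, h2⟩ := hball z hz
    refine (hZ2 z h1).trans ?_
    rw [hBdef]
    refine div_le_div_of_nonneg_right ?_ hδ.le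
    have h3 : (1 + ‖z‖) ^ 2 ≤ 9 := by
      have h4 := norm_nonneg z
      nlinarith
    nlinarith
  have hne : ∀ z : ℂ, 1 < z.re → Z z ≠ 0 := by
    intro z hz
    rw [hZ1 z hz, ← norm_ne_zero_iff, Char_norm_L hχ hχ1 hχb hz]
    exact Real.exp_ne_zero _
  have hc1 : 1 < c.re := by rw [hcre]; linarith
  have hs1 : 1 < s.re := by rw [hsre]; linarith
  -- lower bound at the centre
  have hlow : -Real.log (360 * M / δ ^ 2) ≤ Real.log ‖Z c‖ := by
    have h1 := Zfr.sum_le_of_Z K hδ hδ1 hM hZ01 hZ02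
    have h2 := Char_log_lower (K := K) hχ hχ1 hχb hc1
    rw [hcre, ← hZ1 c hc1] at h2
    linarith
  set L' : ℝ := 5 * L + C1 with hL'
  have hL'0 : 0 ≤ L' := by positivity
  have hBc : B ≤ Real.exp L' * ‖Z c‖ := by
    have hZc : 0 < ‖Z c‖ := norm_pos_iff.2 (hne c hc1)
    have h1 : Real.log B ≤ L' + Real.log ‖Z c‖ := by
      have h2 : Real.log B = Real.log 90 + Real.log M - Real.log δ := by
        rw [hBdef, Real.log_div (by positivity) (by positivity), Real.log_mul (by positivity)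
          (by positivity)]
      have h4 : Real.log (360 * M / δ ^ 2) = Real.log 360 + Real.log M - 2 * Real.log δ := by
        rw [Real.log_div (by positivity) (by positivity), Real.log_mul (by positivity)
          (by positivity), Real.log_pow]
        push_cast; ring
      have h6 : Real.log 32400 = Real.log 90 + Real.log 360 := by
        rw [show (32400 : ℝ) = 90 * 360 by norm_num, Real.log_mul (by norm_num) (by norm_num)]
      rw [h4] at hlow
      rw [h2, hL', hC1, h6]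
      linarith
    calc B = Real.exp (Real.log B) := (Real.exp_log hBpos).symm
      _ ≤ Real.exp (L' + Real.log ‖Z c‖) := Real.exp_le_exp.2 h1
      _ = Real.exp L' * ‖Z c‖ := by rw [Real.exp_add, Real.exp_log hZc]
  have hsc : ‖s - c‖ ≤ r := by
    have e : s - c = ((ε - r : ℝ) : ℂ) := by rw [hs, hc]; push_cast; ring
    rw [e, Complex.norm_real, Real.norm_eq_abs, abs_le]
    constructor <;> linarith
  have key := hA Z c s r B L' hrpos hL'0 (fun z hz => hZd z (by linarith [(hball z hz).1])) hZB hBc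
    (hne c hc1) (hne s hs1) hsc (fun z _ hz0 => by
      by_contra hcon
      exact hne z (by linarith) hz0)
  have hexp := Char_deriv_expansion (K := K) hχ hχ1 hχb hZ1 ε hεpos
  rw [abs_le] at hexp
  have hexp1 := hexp.2
  have hs' : deriv Z ((1 + ε : ℝ) : ℂ) / Z ((1 + ε : ℝ) : ℂ) = deriv Z s / Z s := rfl
  rw [hs'] at hexp1
  set X := (∑' v : HeightOneSpectrum (𝓞 K),
        Real.log (nrm v) * nrm v ^ (-(1 + ε)) * (psi a (Fam.N v) : ℝ)) with hX
  have hXle : X ≤ CA * (L' + 1) / r + |CB| := by linarith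
  have hsum : (∑' v : HeightOneSpectrum (𝓞 K), ε * (Real.log (nrm v) * nrm v ^ (-(1 + ε))) *
      (psi a (Fam.N v) : ℝ)) = ε * X := by
    rw [hX, ← tsum_mul_left]
    exact tsum_congr fun v => by ring
  rw [hsum]
  have h2 : ε * (CA * (L' + 1) / r + |CB|) ≤ κ' := by
    have h3 : ε * (CA * (L' + 1) / r) ≤ θ * (4 * CA * (5 + C1 + 1)) := by
      have e : ε * (CA * (L' + 1) / r) = θ * (4 * CA * ((L' + 1) / L)) := by
        rw [hε, hr]; field_simp
      rw [e]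
      refine mul_le_mul_of_nonneg_left (mul_le_mul_of_nonneg_left ?_ (by positivity)) hθ.le
      rw [div_le_iff₀ hLpos, hL']
      nlinarith
    have h4 : ε * |CB| ≤ θ * |CB| := by
      refine mul_le_mul_of_nonneg_right ?_ (abs_nonneg _)
      rw [hε, div_le_iff₀ hLpos]
      nlinarith
    have h5 : θ * D ≤ κ' := by
      rw [le_div_iff₀ hD0] at hθ2
      exact hθ2
    rw [mul_add]
    rw [hD, mul_add] at h5
    linarith
  exact (mul_le_mul_of_nonneg_left hXle hεpos.le).trans h2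

end Pool.Agent.MPfb225e.Tw
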