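import Mathlib

/-!
MP_fb225e_nt, project TW, module Landau: two twists with an exceptional zero force a bias.
-/

namespace Pool.Agent.MPfb225e.Tw

universe u

private theorem summable_bdd {ι : Type u} {W f : ι → ℝ} (hW : ∀ i, 0 ≤ W i)
    (hs : Summable W) (hf : ∀ i, |f i| ≤ 2) : Summable fun i => W i * f i := by
  refine Summable.of_norm_bounded (hs.mul_right 2) fun i => ?_
  rw [Real.norm_eq_abs, abs_mul, abs_of_nonneg (hW i)]
  exact mul_le_mul_of_nonneg_left (hf i) (hW i)

/-- TW: two exceptional twists force a bias. -/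
theorem landau_abstract (η : ℝ) (hη : 0 < η) (hη1 : η ≤ 1) : ∃ κ : ℝ, 0 < κ ∧
    ∀ {ι : Type u} (W x a b : ι → ℝ), (∀ i, 0 ≤ W i) → Summable W → (∀ i, |x i| ≤ 2) →
    (∀ i, a i = 0 ∨ a i = 1 ∨ a i = -1) → (∀ i, b i = 0 ∨ b i = 1 ∨ b i = -1) →
    ∑' i, W i ≤ 1 + κ → ∑' i, W i * (a i * b i) ≤ κ →
    ∑' i, W i * (a i * x i) ≤ -1 + κ → ∑' i, W i * (b i * x i) ≤ -1 + κ →
    1 / 4 ≤ ∑' i, {i | 2 - η < |x i|}.indicator W i := by
  refine ⟨η / 100, by positivity, ?_⟩
  intro ι W x a b hW hs hx ha hb h1 h2 h3 h4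
  have sab : Summable fun i => W i * (a i * b i) := summable_bdd hW hs fun i => by
    rcases ha i with h | h | h <;> rcases hb i with h' | h' | h' <;> rw [h, h'] <;> norm_num
  have sax : Summable fun i => W i * (a i * x i) := summable_bdd hW hs fun i => by
    rcases ha i with h | h | h <;> rw [h] <;> simp [hx i]
  have sbx : Summable fun i => W i * (b i * x i) := summable_bdd hW hs fun i => by
    rcases hb i with h | h | h <;> rw [h] <;> simp [hx i]
  have sind : Summable fun i => {i | 2 - η < |x i|}.indicator W i := hs.indicator _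
  have hpt : ∀ i, (-(W i * (a i * x i)) - W i * (b i * x i)) -
      (2 - η) * (W i + W i * (a i * b i)) ≤ 2 * η * {i | 2 - η < |x i|}.indicator W i := by
    intro i
    have key : (-(a i * x i) - b i * x i) - (2 - η) * (1 + a i * b i) ≤
        2 * η * ({i | 2 - η < |x i|}.indicator (fun _ => (1 : ℝ)) i) := by
      have hxi := abs_le.mp (hx i)
      by_cases hc : 2 - η < |x i|
      · rw [Set.indicator_of_mem (show i ∈ {i | 2 - η < |x i|} from hc)]
        rcases ha i with h | h | h <;> rcases hb i with h' | h' | h' <;> rw [h, h'] <;>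
          nlinarith [hxi.1, hxi.2]
      · rw [Set.indicator_of_notMem (show i ∉ {i | 2 - η < |x i|} from hc)]
        have hxj := abs_le.mp (not_lt.mp hc)
        rcases ha i with h | h | h <;> rcases hb i with h' | h' | h' <;> rw [h, h'] <;>
          nlinarith [hxj.1, hxj.2]
    have hk := mul_le_mul_of_nonneg_left key (hW i)
    have e1 : W i * (2 * η * ({i | 2 - η < |x i|}.indicator (fun _ => (1 : ℝ)) i)) =
        2 * η * {i | 2 - η < |x i|}.indicator W i := by
      by_cases hc : i ∈ {i | 2 - η < |x i|}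
      · rw [Set.indicator_of_mem hc, Set.indicator_of_mem hc]
        ring
      · rw [Set.indicator_of_notMem hc, Set.indicator_of_notMem hc]
        ring
    rw [e1] at hk
    refine le_trans (le_of_eq ?_) hk
    ring
  have hsum := Summable.tsum_le_tsum hpt ((sax.neg.sub sbx).sub ((hs.add sab).mul_left (2 - η)))
    (sind.mul_left (2 * η))
  rw [(sax.neg.sub sbx).tsum_sub ((hs.add sab).mul_left (2 - η)), sax.neg.tsum_sub sbx,
    tsum_neg, tsum_mul_left, tsum_mul_left, hs.tsum_add sab] at hsum
  have h5 : (2 - η) * (∑' i, W i + ∑' i, W i * (a i * b i)) ≤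
      (2 - η) * (1 + η / 100 + η / 100) :=
    mul_le_mul_of_nonneg_left (by linarith) (by linarith)
  have h6 : η * (1 / 2) ≤ 2 * η * ∑' i, {i | 2 - η < |x i|}.indicator W i := by
    nlinarith
  have h7 : 0 < 2 * η := by linarith
  by_contra hcon
  push Not at hcon
  have := mul_lt_mul_of_pos_left hcon h7
  linarith

end Pool.Agent.MPfb225e.Tw
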