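import Mathlib
import Pool.Agent.Lib.MP_fb225e_nt.Tw.Char
import Pool.Agent.Lib.MP_fb225e_nt.Tw.Compare
import Pool.Agent.Lib.MP_fb225e_nt.Tw.Landau
import Pool.Agent.Lib.MP_fb225e_nt.Zfr.Main

/-!
MP_fb225e_nt, project TW, module Page: at most one zero near the edge for all quadratic twists
together.
-/

namespace Pool.Agent.MPfb225e.Tw

open Filter Topology Complex
open NumberField IsDedekindDomain WeierstrassCurve

universe u

private theorem psi_cases (a : ℤ) (k : ℕ) :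
    (psi a k : ℝ) = 0 ∨ (psi a k : ℝ) = 1 ∨ (psi a k : ℝ) = -1 := by
  have h := abs_psi_le a k
  rw [abs_le] at h
  have h1 : psi a k = 0 ∨ psi a k = 1 ∨ psi a k = -1 := by omega
  rcases h1 with h1 | h1 | h1
  · left; rw [h1]; norm_num
  · right; left; rw [h1]; norm_num
  · right; right; rw [h1]; norm_num

private theorem abs_psi_real_le (a : ℤ) (k : ℕ) : |(psi a k : ℝ)| ≤ 1 := by
  rcases psi_cases a k with h | h | h <;> rw [h] <;> norm_num

section sums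

variable {K : Type u} [Field K] [NumberField K]

/-- The places where the twist has `x_v < -2 + η`. -/
private theorem sum_low (E V : WeierstrassCurve K) (d : ℤ) {η ε : ℝ} (hη1 : η ≤ 1) (hε : 0 < ε) :
    ∑' v : HeightOneSpectrum (𝓞 K), {v | Zfr.xK V v < -2 + η}.indicator
        (fun v => Real.log (nrm v) * nrm v ^ (-(1 + ε))) v ≤
      ∑' v : HeightOneSpectrum (𝓞 K), {v | 2 - η < |Zfr.xK E v|}.indicator
        (fun v => Real.log (nrm v) * nrm v ^ (-(1 + ε))) v +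
      ∑' v : HeightOneSpectrum (𝓞 K),
        {v | Zfr.xK V v ≠ (psi d (Fam.N v) : ℝ) * Zfr.xK E v}.indicator
        (fun v => Real.log (nrm v) * nrm v ^ (-(1 + ε))) v := by
  classical
  have hs := Zfr.summable_lw (K := K) ε hε
  rw [← Summable.tsum_add (hs.indicator _) (hs.indicator _)]
  refine Summable.tsum_le_tsum (fun v => ?_) (hs.indicator _)
    ((hs.indicator _).add (hs.indicator _))
  have h0 := Zfr.lw_nonneg (K := K) ε v
  by_cases h1 : Zfr.xK V v < -2 + η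
  · rw [Set.indicator_of_mem (show v ∈ {v | Zfr.xK V v < -2 + η} from h1)]
    by_cases h2 : Zfr.xK V v = (psi d (Fam.N v) : ℝ) * Zfr.xK E v
    · have h3 : 2 - η < |Zfr.xK E v| := by
        have h4 : |Zfr.xK V v| ≤ |Zfr.xK E v| := by
          rw [h2, abs_mul]
          have := mul_le_mul_of_nonneg_right (abs_psi_real_le d (Fam.N v)) (abs_nonneg (Zfr.xK E v))
          linarith
        have h5 : 2 - η < |Zfr.xK V v| := by
          rw [abs_of_neg (by linarith)]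
          linarith
        linarith
      rw [Set.indicator_of_mem (show v ∈ {v | 2 - η < |Zfr.xK E v|} from h3)]
      have h6 : 0 ≤ {v | Zfr.xK V v ≠ (psi d (Fam.N v) : ℝ) * Zfr.xK E v}.indicator
          (fun v => Real.log (nrm v) * nrm v ^ (-(1 + ε))) v :=
        Set.indicator_nonneg (fun w _ => Zfr.lw_nonneg ε w) v
      linarith
    · rw [Set.indicator_of_mem
        (show v ∈ {v | Zfr.xK V v ≠ (psi d (Fam.N v) : ℝ) * Zfr.xK E v} from h2)]
      have h6 : 0 ≤ {v | 2 - η < |Zfr.xK E v|}.indicator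
          (fun v => Real.log (nrm v) * nrm v ^ (-(1 + ε))) v :=
        Set.indicator_nonneg (fun w _ => Zfr.lw_nonneg ε w) v
      linarith
  · rw [Set.indicator_of_notMem (show v ∉ {v | Zfr.xK V v < -2 + η} from h1)]
    exact add_nonneg (Set.indicator_nonneg (fun w _ => Zfr.lw_nonneg ε w) v)
      (Set.indicator_nonneg (fun w _ => Zfr.lw_nonneg ε w) v)

/-- The sum over the places with the coefficients of the twist of `E` is close to the one for the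
curve `V`. -/
private theorem sum_twist_le (E V : WeierstrassCurve K) (d : ℤ) {ε : ℝ} (hε : 0 < ε) :
    ∑' v : HeightOneSpectrum (𝓞 K), ε * (Real.log (nrm v) * nrm v ^ (-(1 + ε))) *
        ((psi d (Fam.N v) : ℝ) * Zfr.xK E v) ≤
      ∑' v : HeightOneSpectrum (𝓞 K), ε * (Real.log (nrm v) * nrm v ^ (-(1 + ε))) * Zfr.xK V v +
      4 * (ε * ∑' v : HeightOneSpectrum (𝓞 K),
        {v | Zfr.xK V v ≠ (psi d (Fam.N v) : ℝ) * Zfr.xK E v}.indicator
        (fun v => Real.log (nrm v) * nrm v ^ (-(1 + ε))) v) := by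
  classical
  have hs := Zfr.summable_lw (K := K) ε hε
  have hbd : ∀ x : HeightOneSpectrum (𝓞 K) → ℝ, (∀ v, |x v| ≤ 2) → Summable fun v =>
      ε * (Real.log (nrm v) * nrm v ^ (-(1 + ε))) * x v := by
    intro x hx
    refine Summable.of_norm_bounded ((hs.mul_left ε).mul_right 2) fun v => ?_
    have h0 := mul_nonneg hε.le (Zfr.lw_nonneg (K := K) ε v)
    rw [Real.norm_eq_abs, abs_mul, abs_of_nonneg h0]
    exact mul_le_mul_of_nonneg_left (hx v) h0
  have hx1 : ∀ v, |(psi d (Fam.N v) : ℝ) * Zfr.xK E v| ≤ 2 := by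
    intro v
    rw [abs_mul]
    have h1 := abs_psi_real_le d (Fam.N v)
    have h2 := Zfr.abs_xK_le E v
    nlinarith [abs_nonneg (psi d (Fam.N v) : ℝ), abs_nonneg (Zfr.xK E v)]
  rw [← tsum_mul_left, ← tsum_mul_left,
    ← Summable.tsum_add (hbd _ (Zfr.abs_xK_le V)) (((hs.indicator _).mul_left ε).mul_left 4)]
  refine Summable.tsum_le_tsum (fun v => ?_) (hbd _ hx1)
    ((hbd _ (Zfr.abs_xK_le V)).add (((hs.indicator _).mul_left ε).mul_left 4))
  have h0 := mul_nonneg hε.le (Zfr.lw_nonneg (K := K) ε v)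
  by_cases h2 : Zfr.xK V v = (psi d (Fam.N v) : ℝ) * Zfr.xK E v
  · rw [Set.indicator_of_notMem
      (show v ∉ {v | Zfr.xK V v ≠ (psi d (Fam.N v) : ℝ) * Zfr.xK E v} from fun h => h h2), ← h2]
    linarith
  · rw [Set.indicator_of_mem
      (show v ∈ {v | Zfr.xK V v ≠ (psi d (Fam.N v) : ℝ) * Zfr.xK E v} from h2)]
    have h3 := (abs_le.1 (hx1 v)).2
    have h4 := (abs_le.1 (Zfr.abs_xK_le V v)).1
    nlinarith

end sums

/-- TW: a zero-free region uniform in the twist, with at most one exception for all twists. -/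
theorem at_most_one_twist (E : WeierstrassCurve ℚ) [E.IsElliptic] (n : ℕ) (η : ℝ) (hη : 0 < η)
    (hη1 : η ≤ 1)
    (hbias : ∀ᶠ ε : ℝ in 𝓝[>] 0, ε * ∑' p : Nat.Primes,
      {p : Nat.Primes | 2 - η < |Fam.lam E p|}.indicator
        (fun p : Nat.Primes => Real.log p * (p : ℝ) ^ (-(1 + ε))) p ≤ η / (16 * n)) :
    ∃ c : ℝ, 0 < c ∧ ∃ N : ℕ, ∀ (K : Type u) [Field K] [NumberField K], Module.finrank ℚ K = n →
    ∀ (Ds : Finset ℤ) (V : ℤ → WeierstrassCurve K), (∀ d ∈ Ds, d ≠ 0) →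
    (∀ d ∈ Ds, ∃ C' : VariableChange K, C' • V d = twist (E.baseChange K) (d : K)) →
    ∀ (F : ℤ → ℂ → ℂ), (∀ d ∈ Ds, Differentiable ℂ (F d)) →
    (∀ d ∈ Ds, ∀ s : ℂ, 3 / 2 < s.re → F d s = (V d).LSeries s) →
    ∀ (κ δ T M : ℝ), 0 < δ → δ ≤ 1 / 2 → 0 ≤ T → 2 ≤ M → (∀ d ∈ Ds, |(d : ℝ)| ≤ M) →
    (∀ d ∈ Ds, ∀ s : ℂ, 3 / 2 - δ ≤ s.re → |s.im| ≤ N * (T + 1) → ‖F d s‖ ≤ M) →
    (∀ x : ℝ, 1 ≤ x →
      |(Nat.card {J : Ideal (𝓞 K) // J ≠ ⊥ ∧ (Ideal.absNorm J : ℝ) ≤ x} : ℝ) - κ * x| ≤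
        M * x ^ (1 - δ)) →
    (∀ d ∈ Ds, ∀ d' ∈ Ds, d ≠ d' → ∀ x : ℝ, 1 ≤ x →
      |∑ k ∈ Finset.Icc 1 ⌊x⌋₊, (psi (d * d') k : ℝ) *
        (Nat.card {J : Ideal (𝓞 K) // Ideal.absNorm J = k} : ℝ)| ≤ M * x ^ (1 - δ)) →
    ∃ (d₀ : ℤ) (β : ℝ), ∀ d ∈ Ds, ∀ ρ : ℂ, 3 / 2 - c * δ / Zfr.Lg M T δ < ρ.re → |ρ.im| ≤ T →
      F d ρ = 0 → d = d₀ ∧ ρ = β ∧ analyticOrderNatAt (F d) ρ = 1 := by
  classical
  obtain ⟨κ₁, θ₁, N₁, hκ₁, hθ₁, hcore⟩ := Zfr.pair_core.{u} n η hη hη1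
  obtain ⟨κL, hκL, hland⟩ := landau_abstract.{u} η hη hη1
  obtain ⟨C₁, hC₁, hcomp⟩ := compare.{u} E n
  obtain ⟨C₂, hC₂⟩ := bias_places_set.{u} E n
  obtain ⟨κ', hκ'⟩ : ∃ κ' : ℝ, κ' = min (min κ₁ (κL / 4)) 1 := ⟨_, rfl⟩
  have hκ'0 : 0 < κ' := by rw [hκ']; positivity
  have hκ'1 : κ' ≤ 1 := by rw [hκ']; exact min_le_right _ _
  have hκ'2 : κ' ≤ κ₁ := by rw [hκ']; exact (min_le_left _ _).trans (min_le_left _ _)
  have hκ'3 : κ' ≤ κL / 4 := by rw [hκ']; exact (min_le_left _ _).trans (min_le_right _ _)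
  obtain ⟨θ₂, hθ₂, hzeta⟩ := Zfr.one_sided_zeta'.{u} n 0 κL hκL
  obtain ⟨θ₃, hθ₃, hcurve⟩ := Zfr.one_sided_curve'.{u} n 0 1 κ' hκ'0 hκ'1
  obtain ⟨θ₄, hθ₄, hchar⟩ := one_sided_char.{u} n κL hκL
  rw [eventually_nhdsWithin_iff, Metric.eventually_nhds_iff] at hbias
  obtain ⟨ε₀, hε₀, hbias⟩ := hbias
  obtain ⟨C, hC⟩ : ∃ C : ℝ, C = |C₂| + C₁ + n + 1 := ⟨_, rfl⟩
  have hC0 : 0 < C := by rw [hC]; positivity
  obtain ⟨θ, hθ⟩ : ∃ θ : ℝ, θ = min (min (min θ₁ θ₂) (min θ₃ θ₄))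
      (min (ε₀ / 2) (min (η / 60 / C) (κL / 8 / C))) := ⟨_, rfl⟩
  have hθ0 : 0 < θ := by rw [hθ]; positivity
  have a1 : θ ≤ θ₁ := by
    rw [hθ]; exact (min_le_left _ _).trans ((min_le_left _ _).trans (min_le_left _ _))
  have a2 : θ ≤ θ₂ := by
    rw [hθ]; exact (min_le_left _ _).trans ((min_le_left _ _).trans (min_le_right _ _))
  have a3 : θ ≤ θ₃ := by
    rw [hθ]; exact (min_le_left _ _).trans ((min_le_right _ _).trans (min_le_left _ _))
  have a4 : θ ≤ θ₄ := by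
    rw [hθ]; exact (min_le_left _ _).trans ((min_le_right _ _).trans (min_le_right _ _))
  have a5 : θ ≤ ε₀ / 2 := by rw [hθ]; exact (min_le_right _ _).trans (min_le_left _ _)
  have a6 : θ * C ≤ η / 60 := by
    rw [← le_div_iff₀ hC0, hθ]
    exact (min_le_right _ _).trans ((min_le_right _ _).trans (min_le_left _ _))
  have a7 : θ * C ≤ κL / 8 := by
    rw [← le_div_iff₀ hC0, hθ]
    exact (min_le_right _ _).trans ((min_le_right _ _).trans (min_le_right _ _))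
  refine ⟨κ' * θ, by positivity, N₁ + 1, ?_⟩
  intro K _ _ hn Ds V hD0 hV F hF hFL κ δ T M hδ hδ1 hT hM hDM hFM hcount hcc
  have hL2 := Zfr.two_le_Lg hδ hδ1 hT hM
  have hLM := Zfr.log_M_le hδ hδ1 hT hM
  have hLpos : 0 < Zfr.Lg M T δ := by linarith
  obtain ⟨ε, hε⟩ : ∃ ε : ℝ, ε = θ * δ / Zfr.Lg M T δ := ⟨_, rfl⟩
  have hε0 : 0 < ε := by rw [hε]; positivity
  have hεθ : ε ≤ θ := by
    rw [hε, div_le_iff₀ hLpos]
    nlinarith
  have hεL : ε * Zfr.Lg M T δ ≤ θ := by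
    rw [hε, div_mul_cancel₀ _ hLpos.ne']
    nlinarith
  have hn0 : (0 : ℝ) ≤ n := Nat.cast_nonneg n
  -- the exceptional places
  have hbad : ∀ d ∈ Ds, ε * ∑' v : HeightOneSpectrum (𝓞 K),
      {v | Zfr.xK (V d) v ≠ (psi d (Fam.N v) : ℝ) * Zfr.xK (E.baseChange K) v}.indicator
        (fun v => Real.log (nrm v) * nrm v ^ (-(1 + ε))) v ≤ θ * (C₁ + n) := by
    intro d hd
    obtain ⟨C', hC'⟩ := hV d hd
    have h1 := hcomp K hn (V d) d C' (hD0 d hd) hC' ε hε0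
    have h2 : Real.log |(d : ℝ)| ≤ Zfr.Lg M T δ := by
      have h3 : (1 : ℝ) ≤ |(d : ℝ)| := by
        rw [← Int.cast_abs]
        exact_mod_cast Int.one_le_abs (hD0 d hd)
      exact (Real.log_le_log (by linarith) (hDM d hd)).trans hLM
    have h3 : ε * (C₁ + n * Real.log |(d : ℝ)|) ≤ θ * (C₁ + n) := by
      have h4 : ε * C₁ ≤ θ * C₁ := mul_le_mul_of_nonneg_right hεθ hC₁.le
      have h5 : ε * Real.log |(d : ℝ)| ≤ θ := (mul_le_mul_of_nonneg_left h2 hε0.le).trans hεL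
      have h6 : n * (ε * Real.log |(d : ℝ)|) ≤ n * θ := mul_le_mul_of_nonneg_left h5 hn0
      nlinarith
    exact (mul_le_mul_of_nonneg_left h1 hε0.le).trans h3
  -- the places with large coefficients
  have hbig : ε * ∑' v : HeightOneSpectrum (𝓞 K),
      {v | 2 - η < |Zfr.xK (E.baseChange K) v|}.indicator
        (fun v => Real.log (nrm v) * nrm v ^ (-(1 + ε))) v ≤ η / 16 + θ * |C₂| := by
    have h2 := hC₂ K hn {x | 2 - η < |x|} ε hε0
    have h3 := hbias (y := ε) (by rw [Real.dist_eq, sub_zero, abs_of_pos hε0]; linarith) hε0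
    have e1 : {v : HeightOneSpectrum (𝓞 K) | Zfr.xK (E.baseChange K) v ∈ {x : ℝ | 2 - η < |x|}} =
        {v | 2 - η < |Zfr.xK (E.baseChange K) v|} := rfl
    have e2 : {p : Nat.Primes | Fam.lam E p ∈ {x : ℝ | 2 - η < |x|}} =
        {p : Nat.Primes | 2 - η < |Fam.lam E p|} := rfl
    rw [e1, e2] at h2
    obtain ⟨P, hP⟩ : ∃ P : ℝ, P = ∑' p : Nat.Primes,
        {p : Nat.Primes | 2 - η < |Fam.lam E p|}.indicator
        (fun p : Nat.Primes => Real.log p * (p : ℝ) ^ (-(1 + ε))) p := ⟨_, rfl⟩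
    rw [← hP] at h2 h3
    have h5 : ε * (n * P) ≤ η / 16 := by
      rcases Nat.eq_zero_or_pos n with h0 | h0
      · rw [h0]; simp; positivity
      · have hn1 : (0 : ℝ) < n := by exact_mod_cast h0
        have h6 : n * (ε * P) ≤ n * (η / (16 * n)) := mul_le_mul_of_nonneg_left h3 hn1.le
        have h7 : n * (η / (16 * n)) = η / 16 := by field_simp
        rw [h7] at h6
        linarith
    have h6 : ε * C₂ ≤ θ * |C₂| :=
      (mul_le_mul_of_nonneg_left (le_abs_self C₂) hε0.le).trans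
        (mul_le_mul_of_nonneg_right hεθ (abs_nonneg _))
    have h7 := mul_le_mul_of_nonneg_left h2 hε0.le
    rw [mul_add] at h7
    linarith
  have hT1 : 0 < T + 1 := by linarith
  have hN₁ : (N₁ : ℝ) * (T + 1) ≤ ((N₁ + 1 : ℕ) : ℝ) * (T + 1) :=
    mul_le_mul_of_nonneg_right (by push_cast; linarith) hT1.le
  have hN0 : ((0 : ℕ) + 1 : ℝ) * (T + 1) ≤ ((N₁ + 1 : ℕ) : ℝ) * (T + 1) :=
    mul_le_mul_of_nonneg_right (by push_cast; linarith [Nat.cast_nonneg (α := ℝ) N₁]) hT1.le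
  have hreg : ∀ x : ℝ, 3 / 2 - κ' * θ * δ / Zfr.Lg M T δ < x →
      3 / 2 - κ₁ * θ * δ / Zfr.Lg M T δ < x := by
    intro x hx
    have h1 : κ' * θ * δ / Zfr.Lg M T δ ≤ κ₁ * θ * δ / Zfr.Lg M T δ := by
      refine div_le_div_of_nonneg_right ?_ hLpos.le
      exact mul_le_mul_of_nonneg_right (mul_le_mul_of_nonneg_right hκ'2 hθ0.le) hδ.le
    linarith
  -- no pair of zeros
  have nopair : ∀ d ∈ Ds, ∀ (ρ : Fin 2 → ℂ) (h : ℂ → ℂ), Differentiable ℂ h →
      (∀ z, F d z = (∏ j, (z - ρ j)) * h z) →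
      (∀ j, 3 / 2 - κ' * θ * δ / Zfr.Lg M T δ < (ρ j).re) → (ρ 1).im = -(ρ 0).im →
      |(ρ 0).im| ≤ T → False := by
    intro d hd ρ h hh hfac hρ him hT0
    have h1 := hcore K (V d) hn (F d) (hF d hd) (hFL d hd) κ δ T M θ hδ hδ1 hT hM hθ0 a1
      (fun s hs hs' => hFM d hd s hs (hs'.trans hN₁)) hcount ρ h
      hh hfac (fun j => hreg _ (hρ j)) him hT0 ε hε
    have h2 := sum_low (E.baseChange K) (V d) d hη1 hε0
    have h3 := mul_le_mul_of_nonneg_left h2 hε0.le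
    rw [mul_add] at h3
    have h4 := hbad d hd
    have h5 : θ * |C₂| + θ * (C₁ + n) ≤ η / 60 := by
      have h6 : θ * (|C₂| + C₁ + n + 1) ≤ η / 60 := by rw [← hC]; exact a6
      nlinarith
    linarith
  -- every zero is real
  have hreal : ∀ d ∈ Ds, ∀ ρ : ℂ, 3 / 2 - κ' * θ * δ / Zfr.Lg M T δ < ρ.re → |ρ.im| ≤ T →
      F d ρ = 0 → ρ.im = 0 := by
    intro d hd ρ hρ hρT h0
    by_contra him
    have h1 : F d ((starRingEnd ℂ) ρ) = 0 := by
      rw [Zfr.conj_symm K (V d) (F d) (hF d hd) (hFL d hd), h0, map_zero]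
    obtain ⟨F₁, hF₁, hfac₁⟩ := Zfr.split_one (hF d hd) h0
    have hne : (starRingEnd ℂ) ρ - ρ ≠ 0 := by
      intro h
      have := congrArg Complex.im h
      simp at this
      apply him
      linarith
    have h2 : F₁ ((starRingEnd ℂ) ρ) = 0 := by
      rw [hfac₁] at h1
      exact (mul_eq_zero.1 h1).resolve_left hne
    obtain ⟨F₂, hF₂, hfac₂⟩ := Zfr.split_one hF₁ h2
    refine nopair d hd ![ρ, (starRingEnd ℂ) ρ] F₂ hF₂ ?_ ?_ ?_ ?_
    · intro z
      rw [hfac₁, hfac₂, Fin.prod_univ_two]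
      simp only [Matrix.cons_val_zero, Matrix.cons_val_one]
      ring
    · intro j
      fin_cases j
      · exact hρ
      · simpa using hρ
    · simp
    · exact hρT
  -- at most one zero
  have hone : ∀ d ∈ Ds, ∀ S : Finset ℂ, (∀ ρ ∈ S, 3 / 2 - κ' * θ * δ / Zfr.Lg M T δ < ρ.re ∧
      |ρ.im| ≤ T ∧ F d ρ = 0) → ∑ ρ ∈ S, analyticOrderNatAt (F d) ρ ≤ 1 := by
    intro d hd S hS
    by_contra hcon
    push Not at hcon
    obtain ⟨ρ, h, hh, hρS, hfac⟩ := Zfr.split_zeros (F d) (hF d hd)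
      (Zfr.exists_ne _ (hFL d hd)) 2 S (by omega)
    have him : ∀ j, (ρ j).im = 0 := fun j => by
      obtain ⟨h1, h2, h3⟩ := hS _ (hρS j)
      exact hreal d hd _ h1 h2 h3
    refine nopair d hd ρ h hh hfac (fun j => (hS _ (hρS j)).1) ?_ ?_
    · rw [him 0, him 1, neg_zero]
    · rw [him 0, abs_zero]; exact hT
  have hord : ∀ d ∈ Ds, ∀ ρ : ℂ, F d ρ = 0 → 1 ≤ analyticOrderNatAt (F d) ρ := by
    intro d hd ρ h0
    have htop : analyticOrderAt (F d) ρ ≠ ⊤ := by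
      intro ht
      obtain ⟨z, hz⟩ := Zfr.exists_ne _ (hFL d hd)
      apply hz
      have hA : AnalyticOnNhd ℂ (F d) Set.univ := fun w _ => (hF d hd).analyticAt w
      have := hA.eqOn_zero_of_preconnected_of_eventuallyEq_zero isPreconnected_univ
        (Set.mem_univ ρ) (analyticOrderAt_eq_top.1 ht)
      exact this (Set.mem_univ z)
    have h1 : analyticOrderAt (F d) ρ ≠ 0 := by
      intro h
      exact (((hF d hd).analyticAt ρ).analyticOrderAt_eq_zero.1 h) h0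
    have h2 := Nat.cast_analyticOrderNatAt htop
    by_contra hcon
    have h3 : analyticOrderNatAt (F d) ρ = 0 := by omega
    rw [h3] at h2
    exact h1 h2.symm
  -- the sum for a twist with a zero
  have hsum : ∀ d ∈ Ds, ∀ ρ : ℂ, 3 / 2 - κ' * θ * δ / Zfr.Lg M T δ < ρ.re → |ρ.im| ≤ T →
      F d ρ = 0 → ∑' v : HeightOneSpectrum (𝓞 K),
        ε * (Real.log (nrm v) * nrm v ^ (-(1 + ε))) *
        ((psi d (Fam.N v) : ℝ) * Zfr.xK (E.baseChange K) v) ≤ -1 + κL := by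
    intro d hd ρ hρ hρT h0
    obtain ⟨F₁, hF₁, hfac₁⟩ := Zfr.split_one (hF d hd) h0
    have h1 := hcurve K (V d) hn (F d) (hF d hd) (hFL d hd) κ δ T M θ hδ hδ1 hT hM hθ0 a3
      (fun s hs hs' => hFM d hd s hs (hs'.trans hN0)) hcount (fun _ : Fin 1 => ρ) F₁ hF₁
      (fun z => by rw [hfac₁, Fin.prod_univ_one]) ε hε (fun _ => by
        have e : κ' * ε = κ' * θ * δ / Zfr.Lg M T δ := by rw [hε]; ring
        rw [e]
        exact hρ.le) 0 (by simp)
    have h2 : ∑' v : HeightOneSpectrum (𝓞 K), ε * (Real.log (nrm v) * nrm v ^ (-(1 + ε))) *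
        Zfr.xK (V d) v ≤ -1 + 2 * κ' := by
      have e : ∀ v : HeightOneSpectrum (𝓞 K), ε * (Real.log (nrm v) * nrm v ^ (-(1 + ε))) *
          Zfr.xK (V d) v * Real.cos (0 * Real.log (nrm v)) =
          ε * (Real.log (nrm v) * nrm v ^ (-(1 + ε))) * Zfr.xK (V d) v := by
        intro v
        rw [zero_mul, Real.cos_zero, mul_one]
      rw [tsum_congr e, Fin.sum_univ_one, hreal d hd ρ hρ hρT h0, sub_zero, Zfr.gk_zero] at h1
      linarith
    have h3 := sum_twist_le (E.baseChange K) (V d) d hε0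
    have h4 := hbad d hd
    have h5 : θ * (C₁ + n) ≤ κL / 8 := by
      have h6 : θ * (|C₂| + C₁ + n + 1) ≤ κL / 8 := by rw [← hC]; exact a7
      nlinarith [mul_nonneg hθ0.le (abs_nonneg C₂)]
    linarith
  -- zeros of different twists
  have hdiff : ∀ d ∈ Ds, ∀ d' ∈ Ds, ∀ ρ ρ' : ℂ, 3 / 2 - κ' * θ * δ / Zfr.Lg M T δ < ρ.re →
      |ρ.im| ≤ T → F d ρ = 0 → 3 / 2 - κ' * θ * δ / Zfr.Lg M T δ < ρ'.re → |ρ'.im| ≤ T →
      F d' ρ' = 0 → d = d' := by
    intro d hd d' hd' ρ ρ' h1 h2 h3 h1' h2' h3'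
    by_contra hne
    have hs := Zfr.summable_lw (K := K) ε hε0
    have e1 : ∀ v : HeightOneSpectrum (𝓞 K), ε * (Real.log (nrm v) * nrm v ^ (-(1 + ε))) *
        Real.cos (0 * Real.log (nrm v)) = ε * (Real.log (nrm v) * nrm v ^ (-(1 + ε))) := by
      intro v
      rw [zero_mul, Real.cos_zero, mul_one]
    have hz := hzeta K hn κ δ T M θ hδ hδ1 hT hM hθ0 a2 hcount ε hε 0 (by simp)
    rw [tsum_congr e1, Zfr.gk_zero, add_comm κL 1] at hz
    have hc := hchar K hn (d * d') κ δ T M θ hδ hδ1 hT hM hθ0 a4 hcount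
      (hcc d hd d' hd' hne) ε hε
    have e2 : ∀ v : HeightOneSpectrum (𝓞 K), ε * (Real.log (nrm v) * nrm v ^ (-(1 + ε))) *
        (psi (d * d') (Fam.N v) : ℝ) = ε * (Real.log (nrm v) * nrm v ^ (-(1 + ε))) *
        ((psi d (Fam.N v) : ℝ) * (psi d' (Fam.N v) : ℝ)) := by
      intro v
      rw [psi_mul_left]
      push_cast
      ring
    rw [tsum_congr e2] at hc
    have key := hland (fun v : HeightOneSpectrum (𝓞 K) =>
        ε * (Real.log (nrm v) * nrm v ^ (-(1 + ε)))) (Zfr.xK (E.baseChange K))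
      (fun v => (psi d (Fam.N v) : ℝ)) (fun v => (psi d' (Fam.N v) : ℝ))
      (fun v => mul_nonneg hε0.le (Zfr.lw_nonneg ε v)) (hs.mul_left ε) (Zfr.abs_xK_le _)
      (fun v => psi_cases d _) (fun v => psi_cases d' _) hz hc (hsum d hd ρ h1 h2 h3)
      (hsum d' hd' ρ' h1' h2' h3')
    have e3 : ∀ v : HeightOneSpectrum (𝓞 K),
        {v | 2 - η < |Zfr.xK (E.baseChange K) v|}.indicator
          (fun v => ε * (Real.log (nrm v) * nrm v ^ (-(1 + ε)))) v =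
        ε * {v | 2 - η < |Zfr.xK (E.baseChange K) v|}.indicator
          (fun v => Real.log (nrm v) * nrm v ^ (-(1 + ε))) v := by
      intro v
      by_cases hv : v ∈ {v | 2 - η < |Zfr.xK (E.baseChange K) v|}
      · rw [Set.indicator_of_mem hv, Set.indicator_of_mem hv]
      · rw [Set.indicator_of_notMem hv, Set.indicator_of_notMem hv, mul_zero]
    rw [tsum_congr e3, tsum_mul_left] at key
    have h5 : θ * |C₂| ≤ η / 60 := by
      have h6 : θ * (|C₂| + C₁ + n + 1) ≤ η / 60 := by rw [← hC]; exact a6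
      nlinarith
    linarith
  by_cases hex : ∃ d ∈ Ds, ∃ ρ : ℂ, 3 / 2 - κ' * θ * δ / Zfr.Lg M T δ < ρ.re ∧ |ρ.im| ≤ T ∧
      F d ρ = 0
  · obtain ⟨d₀, hd₀, ρ₀, h1, h2, h3⟩ := hex
    refine ⟨d₀, ρ₀.re, fun d hd ρ hρ hρT h0 => ?_⟩
    have hdd : d = d₀ := hdiff d hd d₀ hd₀ ρ ρ₀ hρ hρT h0 h1 h2 h3
    subst hdd
    refine ⟨rfl, ?_⟩
    have hρ₀ : ρ₀ = (ρ₀.re : ℂ) := by
      apply Complex.ext
      · simp
      · simp [hreal d hd ρ₀ h1 h2 h3]
    rw [← hρ₀]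
    constructor
    · by_contra hne
      have h4 := hone d hd {ρ, ρ₀} (by
        intro z hz
        rw [Finset.mem_insert, Finset.mem_singleton] at hz
        rcases hz with rfl | rfl
        · exact ⟨hρ, hρT, h0⟩
        · exact ⟨h1, h2, h3⟩)
      rw [Finset.sum_pair hne] at h4
      have := hord d hd ρ h0
      have := hord d hd ρ₀ h3
      omega
    · have h4 := hone d hd {ρ} (by
        intro z hz
        rw [Finset.mem_singleton] at hz
        rw [hz]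
        exact ⟨hρ, hρT, h0⟩)
      rw [Finset.sum_singleton] at h4
      have := hord d hd ρ h0
      omega
  · push Not at hex
    exact ⟨0, 0, fun d hd ρ hρ hρT h0 => absurd h0 (hex d hd ρ hρ hρT)⟩

end Pool.Agent.MPfb225e.Tw
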