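import Mathlib
import Pool.Agent.Lib.MP_fb225e_nt.Tw.Defs

/-!
MP_fb225e_nt, project TW, module Expansion: the logarithmic derivative as a sum over the rational
primes with the coefficients `yg W p`.
-/

namespace Pool.Agent.MPfb225e.Tw

open Filter Topology Complex
open NumberField IsDedekindDomain
open scoped Nat

universe u

section bad

/-- The first coefficient of the local polynomial at a place of bad reduction. -/
theorem abs_coeff_bad {R : Type*} [CommRing R] [IsDomain R] [IsDiscreteValuationRing R]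
    {F : Type*} [Field F] [Algebra R F] [IsFractionRing R F] (W : WeierstrassCurve F)
    (h : ¬ (W.minimal R).HasGoodReduction R) : |(W.localPolynomial R).coeff 1| ≤ 1 := by
  classical
  unfold WeierstrassCurve.localPolynomial
  rw [if_neg h]
  split_ifs
  · simp [Polynomial.coeff_one]
  · simp [Polynomial.coeff_one]
  · simp [Polynomial.coeff_one]

variable {K : Type u} [Field K] [NumberField K]

theorem abs_xg_le (W : WeierstrassCurve K) (v : HeightOneSpectrum (𝓞 K)) : |xg W v| ≤ 2 := by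
  unfold xg
  split_ifs
  · exact Zfr.abs_xK_le W v
  · simp

theorem abs_xK_sub_xg_le (W : WeierstrassCurve K) (v : HeightOneSpectrum (𝓞 K)) :
    |Zfr.xK W v - xg W v| ≤ 1 / √(Fam.N v : ℝ) := by
  unfold xg
  split_ifs with h
  · rw [sub_self, abs_zero]; positivity
  · rw [sub_zero]
    unfold Zfr.xK
    split_ifs with h2
    · rw [abs_zero]; positivity
    · have hq : (0 : ℝ) ≤ √(Curve.qv v : ℝ) := Real.sqrt_nonneg _
      rw [abs_div, abs_neg, abs_of_nonneg hq]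
      have e : Curve.qv v = Fam.N v := Curve.qv_eq v
      rw [e]
      refine div_le_div_of_nonneg_right ?_ (Real.sqrt_nonneg _)
      have h3 := abs_coeff_bad (W.baseChange (v.adicCompletion K)) h
      exact_mod_cast h3

theorem sum_fiber_le (f : HeightOneSpectrum (𝓞 K) → ℝ) {m : ℕ} (hm : m.Prime) {B : ℝ}
    (hB : 0 ≤ B) (hf : ∀ v : {v : HeightOneSpectrum (𝓞 K) // Fam.N v = m}, |f v.1| ≤ B) :
    |∑' v : {v : HeightOneSpectrum (𝓞 K) // Fam.N v = m}, f v.1| ≤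
      B * (Module.finrank ℚ K : ℝ) := by
  classical
  have := Fam.finite_fiber (K := K) m
  have := Fintype.ofFinite {v : HeightOneSpectrum (𝓞 K) // Fam.N v = m}
  rw [tsum_fintype]
  refine (Finset.abs_sum_le_sum_abs _ _).trans ?_
  refine (Finset.sum_le_sum (fun v _ => hf v)).trans ?_
  rw [Finset.sum_const, Finset.card_univ, ← Nat.card_eq_fintype_card, Fam.card_fiber hm,
    nsmul_eq_mul, mul_comm]
  have h1 := Fam.homCount_le K hm
  rw [NumberField.RingOfIntegers.rank] at h1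
  have h2 : (Fam.homCount K m : ℝ) ≤ (Module.finrank ℚ K : ℝ) := by exact_mod_cast h1
  exact mul_le_mul_of_nonneg_left h2 hB

end bad

theorem abs_yg_le {K : Type u} [Field K] [NumberField K] (W : WeierstrassCurve K) (m : ℕ) :
    |yg W m| ≤ 2 * (Module.finrank ℚ K : ℝ) := by
  unfold yg
  split_ifs with hm
  · exact sum_fiber_le (xg W) hm (by norm_num) fun v => abs_xg_le W v.1
  · rw [abs_zero]; positivity

theorem abs_y_sub_le {K : Type u} [Field K] [NumberField K] (W : WeierstrassCurve K) {m : ℕ}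
    (hm : m.Prime) :
    |Zd.Z3_y W m - yg W m| ≤ (Module.finrank ℚ K : ℝ) / √(m : ℝ) := by
  classical
  have h1 : Zd.Z3_y W m - yg W m =
      ∑' v : {v : HeightOneSpectrum (𝓞 K) // Fam.N v = m}, (Zfr.xK W v.1 - xg W v.1) := by
    unfold Zd.Z3_y yg
    rw [if_pos hm, if_pos hm]
    have := Fam.finite_fiber (K := K) m
    have := Fintype.ofFinite {v : HeightOneSpectrum (𝓞 K) // Fam.N v = m}
    rw [tsum_fintype, tsum_fintype, tsum_fintype, Finset.sum_sub_distrib]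
  rw [h1]
  have h2 := sum_fiber_le (fun v => Zfr.xK W v - xg W v) hm (B := 1 / √(m : ℝ)) (by positivity)
    fun v => by
      have := abs_xK_sub_xg_le W v.1
      rwa [v.2] at this
  refine h2.trans (le_of_eq ?_)
  ring

/-- The expansion with the coefficients `Zd.Z3_y W p`. -/
theorem prime_expansion_y (n : ℕ) : ∃ C : ℝ, 0 < C ∧ ∀ (K : Type u) [Field K] [NumberField K]
    (W : WeierstrassCurve K), Module.finrank ℚ K = n → ∃ (E : ℂ → ℂ),
    (∀ s : ℂ, 5 / 4 < s.re → DifferentiableAt ℂ E s) ∧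
    (∀ s : ℂ, 11 / 8 ≤ s.re → ‖E s‖ ≤ C) ∧
    ∀ F : ℂ → ℂ, (∀ s : ℂ, 3 / 2 < s.re → F s = W.LSeries s) → ∀ s : ℂ, 3 / 2 < s.re →
      deriv F s / F s = E s -
        ∑' p : Nat.Primes, ((Zd.Z3_y W p * Real.log p : ℝ) : ℂ) * (p : ℂ) ^ (-(s - 1 / 2)) := by
  classical
  obtain ⟨S, hS⟩ : ∃ S : ℝ, S = ∑' m : ℕ, (m : ℝ) ^ (-(5 / 4 : ℝ)) := ⟨_, rfl⟩
  have hS0 : 0 ≤ S := by
    rw [hS]; exact tsum_nonneg fun m => Real.rpow_nonneg (by positivity) _
  refine ⟨224 * (n * S) + 1, by positivity, ?_⟩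
  intro K _ _ W hn
  obtain ⟨a, b, α, β, c, D, hL, hx⟩ := Zfr.exists_data W
  obtain ⟨m, hm⟩ : ∃ m : HeightOneSpectrum (𝓞 K) → ℕ, ∀ v, m v = (Fam.N v).minFac :=
    ⟨_, fun _ => rfl⟩
  have hqN : ∀ v : HeightOneSpectrum (𝓞 K), Curve.qv v = Fam.N v := fun v => Curve.qv_eq v
  have hm1 : ∀ v, 1 ≤ m v := fun v => by rw [hm]; exact Nat.minFac_pos _
  have hpr : ∀ v, (Curve.qv v).Prime → m v = Curve.qv v := fun v hp => by
    rw [hm, ← hqN]; exact hp.minFac_eq
  have hnp : ∀ v, ¬ (Curve.qv v).Prime → m v ^ 2 ≤ Curve.qv v := fun v hp => by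
    rw [hm, hqN]; exact Fam.sq_minFac_le v (by rwa [← hqN])
  have hZ : ∀ v ∈ Curve.exc K, m v ≤ 3 := fun v hv => by
    rw [hm]
    rcases Zfr.BdLe_exc hv with h | h <;> omega
  obtain ⟨u, hu⟩ : ∃ u : HeightOneSpectrum (𝓞 K) → ℝ, ∀ v, u v =
      224 * (m v : ℝ) ^ (-(5 / 4 : ℝ)) := ⟨_, fun _ => rfl⟩
  have hu0 : ∀ v, 0 ≤ u v := fun v => by rw [hu]; positivity
  have hub : ∀ V : Finset (HeightOneSpectrum (𝓞 K)), ∑ v ∈ V, u v ≤ 224 * (n * S) := by
    intro V
    have h1 := Zd.Z3_sum (K := K) V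
    rw [hn, ← hS] at h1
    calc ∑ v ∈ V, u v = 224 * ∑ v ∈ V, ((Fam.N v).minFac : ℝ) ^ (-(5 / 4 : ℝ)) := by
          rw [Finset.mul_sum]
          refine Finset.sum_congr rfl fun v _ => ?_
          rw [hu, hm]
      _ ≤ _ := by linarith
  have husum : Summable u := summable_of_sum_le hu0 hub
  have hut : ∑' v, u v ≤ 224 * (n * S) := Real.tsum_le_of_sum_le hu0 hub
  have hmaj : ∀ s : ℂ, 5 / 4 ≤ s.re → ∀ v,
      ‖Zd.Z3_term (Curve.qv (K := K)) a α β (Curve.exc K) v s‖ ≤ u v := fun s hs v => by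
    rw [hu]
    exact Zd.Z3_maj D m hm1 hpr hnp hZ hs v
  refine ⟨fun s => ∑' v, Zd.Z3_term (Curve.qv (K := K)) a α β (Curve.exc K) v s, ?_, ?_, ?_⟩
  · intro s hs
    have hVo : IsOpen {z : ℂ | 5 / 4 < z.re} := isOpen_lt continuous_const Complex.continuous_re
    have hd := Complex.differentiableOn_tsum_of_summable_norm (U := {z : ℂ | 5 / 4 < z.re})
      (F := fun v s => Zd.Z3_term (Curve.qv (K := K)) a α β (Curve.exc K) v s) husum
      (fun v z hz => (Zd.Z3_diff D (le_of_lt hz) v).differentiableWithinAt) hVo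
      (fun v z hz => hmaj z (le_of_lt hz) v)
    exact hd.differentiableAt (hVo.mem_nhds hs)
  · intro s hs
    have h1 := tsum_of_norm_bounded husum.hasSum (hmaj s (by linarith))
    linarith
  · intro F hF s hs
    have hB := Zfr.hasSum_logDeriv (Curve.qv (K := K)) D.hq α β c D.hα D.hβ (3 / 2) LogExp.rho
      LogExp.rho_lt
      (fun i σ hσ => by
        have h := D.r_le (s := (σ : ℂ)) (by simpa using hσ) i
        simpa using h)
      (fun σ hσ => by
        have h := D.summable_r (s := (σ : ℂ)) (by simpa using hσ)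
        simpa using h)
      (LogExp.L (Curve.qv (K := K)) a b) (fun z hz => D.hasProd hz) hs
    have hFL : F =ᶠ[𝓝 s] LogExp.L (Curve.qv (K := K)) a b := by
      have hVo : IsOpen {z : ℂ | 3 / 2 < z.re} := isOpen_lt continuous_const Complex.continuous_re
      filter_upwards [hVo.mem_nhds hs] with z hz
      rw [hF z hz, hL z]
    rw [hFL.deriv_eq, hFL.eq_of_nhds]
    set f1 : HeightOneSpectrum (𝓞 K) → ℂ := fun i => -(Real.log (Curve.qv i) : ℂ) *
      (α i * (Curve.qv i : ℂ) ^ (-s) / (1 - α i * (Curve.qv i : ℂ) ^ (-s)) +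
      β i * (Curve.qv i : ℂ) ^ (-s) / (1 - β i * (Curve.qv i : ℂ) ^ (-s))) with hf1
    set f2 : HeightOneSpectrum (𝓞 K) → ℂ := fun i => if (Curve.qv i).Prime then
      ((LogExp.xs (Curve.qv (K := K)) a (Curve.exc K) i * Real.log (Curve.qv i) : ℝ) : ℂ) *
        (Curve.qv i : ℂ) ^ (-(s - 1 / 2)) else 0 with hf2
    have hE : (fun v => Zd.Z3_term (Curve.qv (K := K)) a α β (Curve.exc K) v s) =
        fun v => f1 v + f2 v := by
      funext v; rfl
    have hsE : Summable fun v => f1 v + f2 v := by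
      rw [← hE]
      exact Summable.of_norm_bounded husum (hmaj s (by linarith))
    have hs2 : Summable f2 := by
      have h := hsE.sub hB.summable
      refine h.congr fun v => ?_
      rw [hf1]
      simp only
      ring
    have h1 : ∑' v, Zd.Z3_term (Curve.qv (K := K)) a α β (Curve.exc K) v s =
        ∑' v, f1 v + ∑' v, f2 v := by
      rw [hE, hB.summable.tsum_add hs2]
    have h2 : ∑' v, f2 v =
        ∑' p : Nat.Primes, ((Zd.Z3_y W p * Real.log p : ℝ) : ℂ) * (p : ℂ) ^ (-(s - 1 / 2)) := by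
      rw [Zd.Z3_fib f2 hs2]
      refine Zd.Z3_primes _ _ (fun k hk => ?_) (fun k hk => ?_)
      · have h3 : ∀ v : {v : HeightOneSpectrum (𝓞 K) // Fam.N v = k}, f2 v.1 = 0 := by
          intro v
          rw [hf2]
          simp only
          rw [if_neg]
          rw [hqN, v.2]
          exact hk
        rw [tsum_congr h3, tsum_zero]
      · have h3 : ∀ v : {v : HeightOneSpectrum (𝓞 K) // Fam.N v = k}, f2 v.1 =
            (Zfr.xK W v.1 : ℂ) * ((Real.log k : ℂ) * (k : ℂ) ^ (-(s - 1 / 2))) := by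
          intro v
          rw [hf2]
          simp only
          rw [hqN, v.2, if_pos hk, hx]
          push_cast
          ring
        rw [tsum_congr h3, tsum_mul_right]
        have h4 : Zd.Z3_y W k = ∑' v : {v : HeightOneSpectrum (𝓞 K) // Fam.N v = k},
            Zfr.xK W v.1 := by
          unfold Zd.Z3_y
          rw [if_pos hk]
        simp only
        rw [h4, Complex.ofReal_mul, Complex.ofReal_tsum]
        ring
    beta_reduce
    rw [h1, h2, ← hB.tsum_eq]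
    ring

section dirichlet

/-- A term of a Dirichlet series over the primes. -/
theorem norm_term (x : ℝ) (p : Nat.Primes) (s : ℂ) :
    ‖((x * Real.log p : ℝ) : ℂ) * (p : ℂ) ^ (-(s - 1 / 2))‖ =
      |x| * (Real.log p * (p : ℝ) ^ (1 / 2 - s.re)) := by
  have hp : 0 < (p : ℕ) := p.2.pos
  have hp1 : (1 : ℝ) ≤ (p : ℕ) := by exact_mod_cast hp
  rw [norm_mul, Complex.norm_real, Complex.norm_natCast_cpow_of_pos hp, norm_mul, Real.norm_eq_abs,
    Real.norm_of_nonneg (Real.log_nonneg hp1)]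
  have e : (-(s - 1 / 2)).re = 1 / 2 - s.re := by
    simp
  rw [e]
  ring

theorem norm_term_le {x B : ℝ} (p : Nat.Primes) {s : ℂ} (hs : 5 / 4 ≤ s.re)
    (hx : |x| ≤ B / √(p : ℝ)) :
    ‖((x * Real.log p : ℝ) : ℂ) * (p : ℂ) ^ (-(s - 1 / 2))‖ ≤ 8 * B * (p : ℝ) ^ (-(9 / 8 : ℝ)) := by
  have hp : 0 < (p : ℕ) := p.2.pos
  have hp0 : (0 : ℝ) < (p : ℕ) := by exact_mod_cast hp
  have hp1 : (1 : ℝ) ≤ (p : ℕ) := by exact_mod_cast hp
  have hB : 0 ≤ B := by
    have h1 : 0 ≤ B / √(p : ℝ) := (abs_nonneg x).trans hx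
    have h2 : 0 < √(p : ℝ) := Real.sqrt_pos.2 hp0
    by_contra h3
    push Not at h3
    have := div_neg_of_neg_of_pos h3 h2
    linarith
  rw [norm_term]
  have hlog8 : Real.log p ≤ 8 * (p : ℝ) ^ (1 / 8 : ℝ) := by
    have := Real.log_le_rpow_div (x := (p : ℝ)) hp0.le (ε := 1 / 8) (by norm_num)
    linarith
  have h1 : B / √(p : ℝ) = B * (p : ℝ) ^ (-(1 / 2 : ℝ)) := by
    rw [Real.rpow_neg hp0.le, ← Real.sqrt_eq_rpow, div_eq_mul_inv]
  have h2 : (p : ℝ) ^ (1 / 2 - s.re) ≤ (p : ℝ) ^ (-(3 / 4 : ℝ)) :=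
    Real.rpow_le_rpow_of_exponent_le hp1 (by linarith)
  have h3 : Real.log p * (p : ℝ) ^ (1 / 2 - s.re) ≤
      8 * (p : ℝ) ^ (1 / 8 : ℝ) * (p : ℝ) ^ (-(3 / 4 : ℝ)) :=
    mul_le_mul hlog8 h2 (by positivity) (by positivity)
  have h4 := mul_le_mul hx h3 (mul_nonneg (Real.log_nonneg hp1) (by positivity))
    ((abs_nonneg x).trans hx)
  refine h4.trans (le_of_eq ?_)
  have e : (p : ℝ) ^ (-(9 / 8 : ℝ)) =
      (p : ℝ) ^ (-(1 / 2 : ℝ)) * ((p : ℝ) ^ (1 / 8 : ℝ) * (p : ℝ) ^ (-(3 / 4 : ℝ))) := by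
    rw [← Real.rpow_add hp0, ← Real.rpow_add hp0]
    norm_num
  rw [h1, e]
  ring

theorem summable_term {x : ℕ → ℝ} {B : ℝ} (hx : ∀ p, |x p| ≤ B) {s : ℂ} (hs : 3 / 2 < s.re) :
    Summable fun p : Nat.Primes =>
      ((x p * Real.log p : ℝ) : ℂ) * (p : ℂ) ^ (-(s - 1 / 2)) := by
  obtain ⟨ε, hε⟩ : ∃ ε : ℝ, ε = s.re - 3 / 2 := ⟨_, rfl⟩
  have hε0 : 0 < ε := by linarith
  have hB : 0 ≤ B := (abs_nonneg _).trans (hx 0)
  have h1 : Summable fun p : Nat.Primes => (p : ℝ) ^ (-(1 + ε / 2)) :=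
    Nat.Primes.summable_rpow.2 (by linarith)
  refine Summable.of_norm_bounded (h1.mul_left (B * (2 / ε))) fun p => ?_
  have hp : 0 < (p : ℕ) := p.2.pos
  have hp0 : (0 : ℝ) < (p : ℕ) := by exact_mod_cast hp
  have hp1 : (1 : ℝ) ≤ (p : ℕ) := by exact_mod_cast hp
  rw [norm_term]
  have hlog : Real.log p ≤ (p : ℝ) ^ (ε / 2) / (ε / 2) :=
    Real.log_le_rpow_div hp0.le (by linarith)
  have h2 : Real.log p * (p : ℝ) ^ (1 / 2 - s.re) ≤ 2 / ε * (p : ℝ) ^ (-(1 + ε / 2)) := by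
    have e : 2 / ε * (p : ℝ) ^ (-(1 + ε / 2)) =
        (p : ℝ) ^ (ε / 2) / (ε / 2) * (p : ℝ) ^ (1 / 2 - s.re) := by
      have e1 : -(1 + ε / 2) = ε / 2 + (1 / 2 - s.re) := by rw [hε]; ring
      rw [e1, Real.rpow_add hp0]
      field_simp
    rw [e]
    exact mul_le_mul_of_nonneg_right hlog (by positivity)
  calc |x p| * (Real.log p * (p : ℝ) ^ (1 / 2 - s.re))
      ≤ B * (2 / ε * (p : ℝ) ^ (-(1 + ε / 2))) :=
        mul_le_mul (hx p) h2 (mul_nonneg (Real.log_nonneg hp1) (by positivity)) hB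
    _ = _ := by ring

end dirichlet

/-- TW expansion. -/
theorem prime_expansion (n : ℕ) : ∃ C : ℝ, 0 < C ∧ ∀ (K : Type u) [Field K] [NumberField K]
    (W : WeierstrassCurve K), Module.finrank ℚ K = n → ∃ E : ℂ → ℂ,
    (∀ s : ℂ, 5 / 4 < s.re → DifferentiableAt ℂ E s) ∧ (∀ s : ℂ, 11 / 8 ≤ s.re → ‖E s‖ ≤ C) ∧
    ∀ F : ℂ → ℂ, (∀ s : ℂ, 3 / 2 < s.re → F s = W.LSeries s) → ∀ s : ℂ, 3 / 2 < s.re →
      deriv F s / F s = E s -
        ∑' p : Nat.Primes, ((yg W p * Real.log p : ℝ) : ℂ) * (p : ℂ) ^ (-(s - 1 / 2)) := by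
  obtain ⟨C, hC, hmain⟩ := prime_expansion_y.{u} n
  have hsum : Summable fun p : Nat.Primes => (p : ℝ) ^ (-(9 / 8 : ℝ)) :=
    Nat.Primes.summable_rpow.2 (by norm_num)
  obtain ⟨S, hS⟩ : ∃ S : ℝ, S = ∑' p : Nat.Primes, (p : ℝ) ^ (-(9 / 8 : ℝ)) := ⟨_, rfl⟩
  have hS0 : 0 ≤ S := by
    rw [hS]; exact tsum_nonneg fun m => Real.rpow_nonneg (by positivity) _
  refine ⟨C + 8 * n * S, by positivity, ?_⟩
  intro K _ _ W hn
  obtain ⟨E, hE1, hE2, hE3⟩ := hmain K W hn
  obtain ⟨f, hf⟩ : ∃ f : Nat.Primes → ℂ → ℂ, ∀ p s, f p s =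
      (((Zd.Z3_y W p - yg W p) * Real.log p : ℝ) : ℂ) * (p : ℂ) ^ (-(s - 1 / 2)) :=
    ⟨_, fun _ _ => rfl⟩
  have hbd : ∀ s : ℂ, 5 / 4 ≤ s.re → ∀ p, ‖f p s‖ ≤ 8 * n * (p : ℝ) ^ (-(9 / 8 : ℝ)) := by
    intro s hs p
    rw [hf]
    have h1 := abs_y_sub_le W p.2
    rw [hn] at h1
    exact norm_term_le p hs h1
  have hsum' : Summable fun p : Nat.Primes => 8 * n * (p : ℝ) ^ (-(9 / 8 : ℝ)) := hsum.mul_left _
  have hdf : ∀ p s, DifferentiableAt ℂ (f p) s := by
    intro p s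
    have hq0c : ((p : ℕ) : ℂ) ≠ 0 := by exact_mod_cast p.2.ne_zero
    have hc' : DifferentiableAt ℂ (fun z : ℂ => ((p : ℕ) : ℂ) ^ (-(z - 1 / 2))) s :=
      ((differentiableAt_id.sub_const _).fun_neg).const_cpow (Or.inl hq0c)
    have e : f p = fun z => (((Zd.Z3_y W p - yg W p) * Real.log p : ℝ) : ℂ) *
        ((p : ℕ) : ℂ) ^ (-(z - 1 / 2)) := funext fun z => hf p z
    rw [e]
    exact hc'.const_mul _
  refine ⟨fun s => E s - ∑' p, f p s, ?_, ?_, ?_⟩
  · intro s hs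
    have hVo : IsOpen {z : ℂ | 5 / 4 < z.re} := isOpen_lt continuous_const Complex.continuous_re
    have hd := Complex.differentiableOn_tsum_of_summable_norm (U := {z : ℂ | 5 / 4 < z.re})
      (F := fun p s => f p s) hsum'
      (fun p z hz => (hdf p z).differentiableWithinAt) hVo
      (fun p z hz => hbd z (le_of_lt hz) p)
    exact (hE1 s hs).fun_sub (hd.differentiableAt (hVo.mem_nhds hs))
  · intro s hs
    have h1 := tsum_of_norm_bounded hsum'.hasSum (hbd s (by linarith))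
    rw [tsum_mul_left, ← hS] at h1
    exact (norm_sub_le _ _).trans (add_le_add (hE2 s hs) h1)
  · intro F hF s hs
    rw [hE3 F hF s hs]
    have h1 : Summable fun p : Nat.Primes =>
        ((Zd.Z3_y W p * Real.log p : ℝ) : ℂ) * (p : ℂ) ^ (-(s - 1 / 2)) :=
      summable_term (fun p => Zd.Z3_y_le W p) hs
    have h2 : Summable fun p : Nat.Primes =>
        ((yg W p * Real.log p : ℝ) : ℂ) * (p : ℂ) ^ (-(s - 1 / 2)) :=
      summable_term (fun p => abs_yg_le W p) hs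
    have h3 : ∑' p, f p s = ∑' p : Nat.Primes, ((Zd.Z3_y W p * Real.log p : ℝ) : ℂ) *
        (p : ℂ) ^ (-(s - 1 / 2)) - ∑' p : Nat.Primes, ((yg W p * Real.log p : ℝ) : ℂ) *
        (p : ℂ) ^ (-(s - 1 / 2)) := by
      rw [← h1.tsum_sub h2]
      refine tsum_congr fun p => ?_
      rw [hf]
      push_cast
      ring
    beta_reduce
    rw [h3]
    ring

end Pool.Agent.MPfb225e.Tw
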