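import Mathlib
import Pool.Agent.Lib.MP_fb225e_nt.Zd.MeanValue

/-!
MP_fb225e_nt, project TW, module MeanValue: mean values of a family of Dirichlet polynomials, by
duality.
-/

namespace Pool.Agent.MPfb225e.Tw

open Complex MeasureTheory
open scoped ComplexConjugate

/-- The Gaussian window. -/
theorem gauss_integrable (T : ℝ) (hT : 0 < T) (a : ℝ) :
    Integrable (fun x : ℝ => Real.exp (-((x - a) * T) ^ 2 / 2)) := by
  have h := (integrable_exp_neg_mul_sq (b := T ^ 2 / 2) (by positivity)).comp_sub_right a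
  refine h.congr (Filter.Eventually.of_forall fun x => ?_)
  show Real.exp (-(T ^ 2 / 2) * (x - a) ^ 2) = Real.exp (-((x - a) * T) ^ 2 / 2)
  congr 1
  ring

theorem gauss_integral (T : ℝ) (hT : 0 < T) (a : ℝ) :
    ∫ x : ℝ, Real.exp (-((x - a) * T) ^ 2 / 2) = Real.sqrt (2 * Real.pi) / T := by
  have h1 : ∀ x : ℝ, Real.exp (-((x - a) * T) ^ 2 / 2) =
      (fun y : ℝ => Real.exp (-(T ^ 2 / 2) * y ^ 2)) (x - a) := by
    intro x
    show _ = Real.exp (-(T ^ 2 / 2) * (x - a) ^ 2)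
    congr 1
    ring
  simp_rw [h1]
  rw [integral_sub_right_eq_self (fun y : ℝ => Real.exp (-(T ^ 2 / 2) * y ^ 2)) a,
    integral_gaussian]
  have h2 : Real.pi / (T ^ 2 / 2) = (2 * Real.pi) / T ^ 2 := by
    field_simp
  rw [h2, Real.sqrt_div (by positivity), Real.sqrt_sq hT.le]

theorem gauss_mul (T a b x : ℝ) :
    Real.exp (-((x - a) * T) ^ 2 / 2) * Real.exp (-((x - b) * T) ^ 2 / 2) =
      Real.exp (-((a - b) * T) ^ 2 / 4) * Real.exp (-(T ^ 2) * (x - (a + b) / 2) ^ 2) := by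
  rw [← Real.exp_add, ← Real.exp_add]
  congr 1
  ring

theorem gauss_mul_integrable (T : ℝ) (hT : 0 < T) (a b : ℝ) :
    Integrable (fun x : ℝ =>
      Real.exp (-((x - a) * T) ^ 2 / 2) * Real.exp (-((x - b) * T) ^ 2 / 2)) := by
  simp_rw [gauss_mul]
  exact ((integrable_exp_neg_mul_sq (b := T ^ 2) (by positivity)).comp_sub_right
    ((a + b) / 2)).const_mul _

theorem gauss_mul_integral (T : ℝ) (hT : 0 < T) (a b : ℝ) :
    ∫ x : ℝ, Real.exp (-((x - a) * T) ^ 2 / 2) * Real.exp (-((x - b) * T) ^ 2 / 2) =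
      Real.sqrt Real.pi / T * Real.exp (-((a - b) * T) ^ 2 / 4) := by
  simp_rw [gauss_mul]
  rw [integral_const_mul,
    integral_sub_right_eq_self (fun y : ℝ => Real.exp (-(T ^ 2) * y ^ 2)) ((a + b) / 2),
    integral_gaussian, Real.sqrt_div (by positivity), Real.sqrt_sq hT.le]
  ring

/-- The square of a finite sum of real functions with complex coefficients. -/
theorem normSq_sum_expand {ι : Type*} (P : Finset ι) (a : ι → ℂ) (g : ι → ℝ) :
    ((‖∑ i ∈ P, a i * (g i : ℂ)‖ ^ 2 : ℝ) : ℂ) =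
      ∑ i ∈ P, ∑ k ∈ P, (a i * conj (a k)) * ((g i * g k : ℝ) : ℂ) := by
  have h1 : ((‖∑ i ∈ P, a i * (g i : ℂ)‖ ^ 2 : ℝ) : ℂ) =
      (∑ i ∈ P, a i * (g i : ℂ)) * conj (∑ i ∈ P, a i * (g i : ℂ)) := by
    rw [Complex.mul_conj, Complex.normSq_eq_norm_sq]
  rw [h1]
  simp only [map_sum, map_mul, Complex.conj_ofReal]
  rw [Finset.sum_mul_sum]
  refine Finset.sum_congr rfl fun i _ => Finset.sum_congr rfl fun k _ => ?_
  push_cast
  ring

theorem window_integrable {ι : Type*} (P : Finset ι) (lam : ι → ℝ) (a : ι → ℂ) (T : ℝ)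
    (hT : 0 < T) :
    Integrable (fun x : ℝ =>
      ‖∑ i ∈ P, a i * (Real.exp (-((x - lam i) * T) ^ 2 / 2) : ℂ)‖ ^ 2) := by
  have h1 : Integrable (fun x : ℝ =>
      ((‖∑ i ∈ P, a i * (Real.exp (-((x - lam i) * T) ^ 2 / 2) : ℂ)‖ ^ 2 : ℝ) : ℂ)) := by
    simp_rw [normSq_sum_expand]
    refine integrable_finsetSum _ fun i _ => integrable_finsetSum _ fun k _ => ?_
    exact ((gauss_mul_integrable T hT (lam i) (lam k)).ofReal).const_mul _
  exact h1.re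

theorem window_integral {ι : Type*} (P : Finset ι) (lam : ι → ℝ) (a : ι → ℂ) (T : ℝ)
    (hT : 0 < T) :
    ((∫ x : ℝ, ‖∑ i ∈ P, a i * (Real.exp (-((x - lam i) * T) ^ 2 / 2) : ℂ)‖ ^ 2 : ℝ) : ℂ) =
      ∑ i ∈ P, ∑ k ∈ P, (a i * conj (a k)) *
        ((Real.sqrt Real.pi / T * Real.exp (-((lam i - lam k) * T) ^ 2 / 4) : ℝ) : ℂ) := by
  rw [← integral_complex_ofReal]
  simp_rw [normSq_sum_expand]
  rw [integral_finsetSum]
  · refine Finset.sum_congr rfl fun i _ => ?_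
    rw [integral_finsetSum]
    · refine Finset.sum_congr rfl fun k _ => ?_
      rw [integral_const_mul, integral_complex_ofReal, gauss_mul_integral T hT]
    · intro k _
      exact ((gauss_mul_integrable T hT (lam i) (lam k)).ofReal).const_mul _
  · intro i _
    refine integrable_finsetSum _ fun k _ => ?_
    exact ((gauss_mul_integrable T hT (lam i) (lam k)).ofReal).const_mul _

/-- The Gaussian mean of a Dirichlet polynomial, through its Gaussian windows. -/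
theorem gauss_mean {ι : Type*} (P : Finset ι) (lam : ι → ℝ) (a : ι → ℂ) (T : ℝ)
    (hT : 0 < T) :
    Integrable (fun t : ℝ => Real.exp (-((T ^ 2)⁻¹ * t ^ 2)) *
      ‖∑ i ∈ P, a i * cexp (-(t * lam i : ℝ) * I)‖ ^ 2) ∧
    ∫ t : ℝ, Real.exp (-((T ^ 2)⁻¹ * t ^ 2)) *
      ‖∑ i ∈ P, a i * cexp (-(t * lam i : ℝ) * I)‖ ^ 2 =
    T ^ 2 * ∫ x : ℝ, ‖∑ i ∈ P, a i * (Real.exp (-((x - lam i) * T) ^ 2 / 2) : ℂ)‖ ^ 2 := by
  classical
  set S : ℝ → ℂ := fun t => ∑ i ∈ P, a i * cexp (-(t * lam i : ℝ) * I) with hS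
  have hexp : ∀ t : ℝ, ((Real.exp (-((T ^ 2)⁻¹ * t ^ 2)) * ‖S t‖ ^ 2 : ℝ) : ℂ) =
      ∑ i ∈ P, ∑ k ∈ P, (a i * conj (a k)) *
        (cexp (-(t * (lam i - lam k) : ℝ) * I) * cexp (-((T ^ 2)⁻¹ : ℝ) * t ^ 2)) := by
    intro t
    have h1 : ((‖S t‖ ^ 2 : ℝ) : ℂ) = S t * conj (S t) := by
      rw [Complex.mul_conj, Complex.normSq_eq_norm_sq]
    have h2 : ((Real.exp (-((T ^ 2)⁻¹ * t ^ 2)) : ℝ) : ℂ) = cexp (-((T ^ 2)⁻¹ : ℝ) * t ^ 2) := by
      push_cast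
      congr 1
      ring
    rw [Complex.ofReal_mul, h1, h2]
    simp only [hS, map_sum, map_mul]
    rw [Finset.sum_mul_sum, Finset.mul_sum]
    refine Finset.sum_congr rfl fun i _ => ?_
    rw [Finset.mul_sum]
    refine Finset.sum_congr rfl fun k _ => ?_
    rw [← Complex.exp_conj]
    have h3 : cexp (-(t * (lam i - lam k) : ℝ) * I) =
        cexp (-(t * lam i : ℝ) * I) * cexp (conj (-(t * lam k : ℝ) * I)) := by
      rw [← Complex.exp_add]
      congr 1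
      simp only [map_mul, map_neg, Complex.conj_I, Complex.conj_ofReal]
      push_cast
      ring
    rw [h3]
    ring
  have hint : Integrable (fun t : ℝ => Real.exp (-((T ^ 2)⁻¹ * t ^ 2)) * ‖S t‖ ^ 2) := by
    have h1 : Integrable (fun t : ℝ =>
        ((Real.exp (-((T ^ 2)⁻¹ * t ^ 2)) * ‖S t‖ ^ 2 : ℝ) : ℂ)) := by
      simp_rw [hexp]
      refine integrable_finsetSum _ fun i _ => integrable_finsetSum _ fun k _ => ?_
      exact (Zd.integrable_term T hT (lam i - lam k)).const_mul _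
    exact h1.re
  refine ⟨hint, ?_⟩
  have hval : ((∫ t : ℝ, Real.exp (-((T ^ 2)⁻¹ * t ^ 2)) * ‖S t‖ ^ 2 : ℝ) : ℂ) =
      ∑ i ∈ P, ∑ k ∈ P, (a i * conj (a k)) *
        ((Real.sqrt Real.pi * T * Real.exp (-((lam i - lam k) * T) ^ 2 / 4) : ℝ) : ℂ) := by
    rw [← integral_complex_ofReal]
    simp_rw [hexp]
    rw [integral_finsetSum]
    · refine Finset.sum_congr rfl fun i _ => ?_
      rw [integral_finsetSum]
      · refine Finset.sum_congr rfl fun k _ => ?_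
        rw [integral_const_mul, Zd.gauss_fourier T hT]
      · intro k _
        exact (Zd.integrable_term T hT (lam i - lam k)).const_mul _
    · intro i _
      refine integrable_finsetSum _ fun k _ => ?_
      exact (Zd.integrable_term T hT (lam i - lam k)).const_mul _
  have hc : ((∫ t : ℝ, Real.exp (-((T ^ 2)⁻¹ * t ^ 2)) * ‖S t‖ ^ 2 : ℝ) : ℂ) =
      ((T ^ 2 * ∫ x : ℝ,
        ‖∑ i ∈ P, a i * (Real.exp (-((x - lam i) * T) ^ 2 / 2) : ℂ)‖ ^ 2 : ℝ) : ℂ) := by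
    rw [hval, Complex.ofReal_mul, window_integral P lam a T hT, Finset.mul_sum]
    refine Finset.sum_congr rfl fun i _ => ?_
    rw [Finset.mul_sum]
    refine Finset.sum_congr rfl fun k _ => ?_
    have hT0 : (T : ℂ) ≠ 0 := by exact_mod_cast hT.ne'
    push_cast
    field_simp
  exact Complex.ofReal_injective hc

/-- The interval mean is at most `e` times the Gaussian mean. -/
theorem interval_le_gauss {ι : Type*} (P : Finset ι) (lam : ι → ℝ) (a : ι → ℂ) (T : ℝ)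
    (hT : 0 < T) :
    ∫ t : ℝ in (-T)..T, ‖∑ i ∈ P, a i * cexp (-(t * lam i : ℝ) * I)‖ ^ 2 ≤
      Real.exp 1 * (T ^ 2 *
        ∫ x : ℝ, ‖∑ i ∈ P, a i * (Real.exp (-((x - lam i) * T) ^ 2 / 2) : ℂ)‖ ^ 2) := by
  obtain ⟨hint, hval⟩ := gauss_mean P lam a T hT
  rw [← hval]
  set S : ℝ → ℂ := fun t => ∑ i ∈ P, a i * cexp (-(t * lam i : ℝ) * I) with hS
  have hScont : Continuous S := by
    simp only [hS]
    fun_prop
  have hle : (-T) ≤ T := by linarith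
  have h1 : ∫ t : ℝ in (-T)..T, ‖S t‖ ^ 2 ≤
      ∫ t : ℝ in (-T)..T, Real.exp 1 * (Real.exp (-((T ^ 2)⁻¹ * t ^ 2)) * ‖S t‖ ^ 2) := by
    refine intervalIntegral.integral_mono_on hle ?_ ?_ ?_
    · exact (by fun_prop : Continuous fun t => ‖S t‖ ^ 2).intervalIntegrable _ _
    · exact (by fun_prop : Continuous fun t : ℝ =>
        Real.exp 1 * (Real.exp (-((T ^ 2)⁻¹ * t ^ 2)) * ‖S t‖ ^ 2)).intervalIntegrable _ _
    · intro t ht
      have ht2 : t ^ 2 ≤ T ^ 2 := by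
        apply sq_le_sq'
        · exact ht.1
        · exact ht.2
      have h5 : 1 ≤ Real.exp 1 * Real.exp (-((T ^ 2)⁻¹ * t ^ 2)) := by
        rw [← Real.exp_add]
        apply Real.one_le_exp
        have : (T ^ 2)⁻¹ * t ^ 2 ≤ 1 := by
          rw [inv_mul_le_iff₀ (by positivity)]
          linarith
        linarith
      calc ‖S t‖ ^ 2 = 1 * ‖S t‖ ^ 2 := by ring
        _ ≤ (Real.exp 1 * Real.exp (-((T ^ 2)⁻¹ * t ^ 2))) * ‖S t‖ ^ 2 :=
          mul_le_mul_of_nonneg_right h5 (by positivity)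
        _ = Real.exp 1 * (Real.exp (-((T ^ 2)⁻¹ * t ^ 2)) * ‖S t‖ ^ 2) := by ring
  have h2 : ∫ t : ℝ in (-T)..T, Real.exp 1 * (Real.exp (-((T ^ 2)⁻¹ * t ^ 2)) * ‖S t‖ ^ 2) ≤
      ∫ t : ℝ, Real.exp 1 * (Real.exp (-((T ^ 2)⁻¹ * t ^ 2)) * ‖S t‖ ^ 2) := by
    rw [intervalIntegral.integral_of_le hle]
    refine setIntegral_le_integral (hint.const_mul _) ?_
    exact Filter.Eventually.of_forall fun t => by positivity
  refine h1.trans (h2.trans_eq ?_)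
  rw [integral_const_mul]

/-- Duality at one point. -/
theorem dual_point {ι κ : Type*} (P : Finset ι) (Ds : Finset κ) (w j g : ι → ℝ)
    (c : ι → ℂ) (χ : κ → ι → ℝ) (B : ℝ) (hB0 : 0 ≤ B) (hw : ∀ i, 0 ≤ w i)
    (hg : ∀ i, 0 ≤ g i) (hc : ∀ i ∈ P, ‖c i‖ ≤ w i * j i)
    (hB : ∀ b : κ → ℂ, ∑ i ∈ P, w i * g i * ‖∑ d ∈ Ds, b d * (χ d i : ℂ)‖ ^ 2 ≤
      B * ∑ d ∈ Ds, ‖b d‖ ^ 2) :
    ∑ d ∈ Ds, ‖∑ i ∈ P, c i * (χ d i : ℂ) * (g i : ℂ)‖ ^ 2 ≤
      B * ∑ i ∈ P, w i * j i ^ 2 * g i := by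
  classical
  set s : κ → ℂ := fun d => ∑ i ∈ P, c i * (χ d i : ℂ) * (g i : ℂ) with hs
  set X : ℝ := ∑ d ∈ Ds, ‖s d‖ ^ 2 with hX
  set A : ℝ := ∑ i ∈ P, w i * j i ^ 2 * g i with hA
  have hX0 : 0 ≤ X := Finset.sum_nonneg fun d _ => by positivity
  have hA0 : 0 ≤ A := Finset.sum_nonneg fun i _ =>
    mul_nonneg (mul_nonneg (hw i) (sq_nonneg _)) (hg i)
  have hb := hB (fun d => conj (s d))
  simp only [RCLike.norm_conj] at hb
  -- the identity
  have hid : ((X : ℝ) : ℂ) = ∑ i ∈ P, c i * (g i : ℂ) * ∑ d ∈ Ds, conj (s d) * (χ d i : ℂ) := by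
    have e1 : ((X : ℝ) : ℂ) = ∑ d ∈ Ds, conj (s d) * s d := by
      rw [hX]
      push_cast
      refine Finset.sum_congr rfl fun d _ => ?_
      rw [mul_comm, Complex.mul_conj, Complex.normSq_eq_norm_sq]
      push_cast
      rfl
    rw [e1]
    have e2 : ∀ d ∈ Ds, conj (s d) * s d =
        ∑ i ∈ P, c i * (g i : ℂ) * (conj (s d) * (χ d i : ℂ)) := by
      intro d _
      have : conj (s d) * s d = conj (s d) * ∑ i ∈ P, c i * (χ d i : ℂ) * (g i : ℂ) := rfl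
      rw [this, Finset.mul_sum]
      refine Finset.sum_congr rfl fun i _ => ?_
      ring
    rw [Finset.sum_congr rfl e2, Finset.sum_comm]
    refine Finset.sum_congr rfl fun i _ => ?_
    rw [Finset.mul_sum]
  set u : ι → ℝ := fun i => ‖∑ d ∈ Ds, conj (s d) * (χ d i : ℂ)‖ with hu
  have h1 : X ≤ ∑ i ∈ P, (w i * g i) * (j i * u i) := by
    have e1 : X = ‖((X : ℝ) : ℂ)‖ := by
      rw [Complex.norm_real, Real.norm_eq_abs, abs_of_nonneg hX0]
    rw [e1, hid]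
    refine (norm_sum_le _ _).trans (Finset.sum_le_sum fun i hi => ?_)
    rw [norm_mul, norm_mul, Complex.norm_real, Real.norm_eq_abs, abs_of_nonneg (hg i)]
    calc ‖c i‖ * g i * ‖∑ d ∈ Ds, conj (s d) * (χ d i : ℂ)‖
        ≤ (w i * j i) * g i * ‖∑ d ∈ Ds, conj (s d) * (χ d i : ℂ)‖ :=
          mul_le_mul_of_nonneg_right (mul_le_mul_of_nonneg_right (hc i hi) (hg i))
            (norm_nonneg _)
      _ = (w i * g i) * (j i * u i) := by simp only [hu]; ring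
  have hwg : ∀ i, 0 ≤ w i * g i := fun i => mul_nonneg (hw i) (hg i)
  -- Cauchy–Schwarz
  have h2 : (∑ i ∈ P, (w i * g i) * (j i * u i)) ^ 2 ≤
      A * ∑ i ∈ P, w i * g i * u i ^ 2 := by
    have h3 := Finset.sum_mul_sq_le_sq_mul_sq P (fun i => Real.sqrt (w i * g i) * j i)
      (fun i => Real.sqrt (w i * g i) * u i)
    have e1 : ∀ i ∈ P, (w i * g i) * (j i * u i) =
        Real.sqrt (w i * g i) * j i * (Real.sqrt (w i * g i) * u i) := by
      intro i _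
      have := Real.mul_self_sqrt (hwg i)
      calc (w i * g i) * (j i * u i)
          = (Real.sqrt (w i * g i) * Real.sqrt (w i * g i)) * (j i * u i) := by rw [this]
        _ = _ := by ring
    have e2 : ∀ i ∈ P, (Real.sqrt (w i * g i) * j i) ^ 2 = w i * j i ^ 2 * g i := by
      intro i _
      rw [mul_pow, Real.sq_sqrt (hwg i)]
      ring
    have e3 : ∀ i ∈ P, (Real.sqrt (w i * g i) * u i) ^ 2 = w i * g i * u i ^ 2 := by
      intro i _
      rw [mul_pow, Real.sq_sqrt (hwg i)]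
    rw [Finset.sum_congr rfl e1]
    rw [Finset.sum_congr rfl e2, Finset.sum_congr rfl e3] at h3
    exact h3
  have h4 : X ^ 2 ≤ A * (B * X) := by
    have h5 : X ^ 2 ≤ (∑ i ∈ P, (w i * g i) * (j i * u i)) ^ 2 :=
      pow_le_pow_left₀ hX0 h1 2
    exact h5.trans (h2.trans (mul_le_mul_of_nonneg_left hb hA0))
  rcases hX0.eq_or_lt with h0 | h0
  · rw [← h0]
    exact mul_nonneg hB0 hA0
  · have h6 : X * X ≤ (B * A) * X := by nlinarith
    exact le_of_mul_le_mul_right h6 h0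

theorem exp_mul_sqrt_two_pi_le : Real.exp 1 * Real.sqrt (2 * Real.pi) ≤ 8 := by
  have h1 : Real.exp 1 < 2.7182818286 := Real.exp_one_lt_d9
  have h2 : Real.sqrt (2 * Real.pi) ≤ 2.6 := by
    rw [Real.sqrt_le_left (by norm_num)]
    have := Real.pi_lt_d2
    norm_num
    linarith
  have h3 : 0 ≤ Real.sqrt (2 * Real.pi) := Real.sqrt_nonneg _
  nlinarith [Real.exp_pos 1]

/-- TW family mean value. -/
theorem family_mean_value {ι κ : Type*} (P : Finset ι) (Ds : Finset κ) (lam w j : ι → ℝ)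
    (c : ι → ℂ) (χ : κ → ι → ℝ) (T B : ℝ) (hT : 0 < T) (hB0 : 0 ≤ B) (hw : ∀ i, 0 ≤ w i)
    (hj : ∀ i, 0 ≤ j i) (hc : ∀ i ∈ P, ‖c i‖ ≤ w i * j i)
    (hB : ∀ (x : ℝ) (b : κ → ℂ), ∑ i ∈ P, w i * Real.exp (-((x - lam i) * T) ^ 2 / 2) *
      ‖∑ d ∈ Ds, b d * (χ d i : ℂ)‖ ^ 2 ≤ B * ∑ d ∈ Ds, ‖b d‖ ^ 2) :
    ∑ d ∈ Ds, ∫ t : ℝ in (-T)..T,
        ‖∑ i ∈ P, c i * (χ d i : ℂ) * cexp (-(t * lam i : ℝ) * I)‖ ^ 2 ≤
      8 * T * B * ∑ i ∈ P, w i * j i ^ 2 := by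
  have h1 : ∑ d ∈ Ds, ∫ t : ℝ in (-T)..T,
        ‖∑ i ∈ P, c i * (χ d i : ℂ) * cexp (-(t * lam i : ℝ) * I)‖ ^ 2 ≤
      ∑ d ∈ Ds, Real.exp 1 * (T ^ 2 * ∫ x : ℝ,
        ‖∑ i ∈ P, c i * (χ d i : ℂ) *
          (Real.exp (-((x - lam i) * T) ^ 2 / 2) : ℂ)‖ ^ 2) :=
    Finset.sum_le_sum fun d _ => interval_le_gauss P lam (fun i => c i * (χ d i : ℂ)) T hT
  have hI : ∀ d : κ, Integrable (fun x : ℝ => ‖∑ i ∈ P, c i * (χ d i : ℂ) *
      (Real.exp (-((x - lam i) * T) ^ 2 / 2) : ℂ)‖ ^ 2) := fun d =>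
    window_integrable P lam (fun i => c i * (χ d i : ℂ)) T hT
  have h2 : ∑ d ∈ Ds, Real.exp 1 * (T ^ 2 * ∫ x : ℝ,
        ‖∑ i ∈ P, c i * (χ d i : ℂ) *
          (Real.exp (-((x - lam i) * T) ^ 2 / 2) : ℂ)‖ ^ 2) =
      Real.exp 1 * (T ^ 2 * ∫ x : ℝ, ∑ d ∈ Ds,
        ‖∑ i ∈ P, c i * (χ d i : ℂ) *
          (Real.exp (-((x - lam i) * T) ^ 2 / 2) : ℂ)‖ ^ 2) := by
    rw [integral_finsetSum _ fun d _ => hI d, ← Finset.mul_sum, ← Finset.mul_sum]
  have hJ : Integrable (fun x : ℝ =>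
      B * ∑ i ∈ P, w i * j i ^ 2 * Real.exp (-((x - lam i) * T) ^ 2 / 2)) :=
    (integrable_finsetSum _ fun i _ => (gauss_integrable T hT (lam i)).const_mul _).const_mul _
  have h3 : ∫ x : ℝ, ∑ d ∈ Ds, ‖∑ i ∈ P, c i * (χ d i : ℂ) *
        (Real.exp (-((x - lam i) * T) ^ 2 / 2) : ℂ)‖ ^ 2 ≤
      ∫ x : ℝ, B * ∑ i ∈ P, w i * j i ^ 2 * Real.exp (-((x - lam i) * T) ^ 2 / 2) := by
    refine integral_mono (integrable_finsetSum _ fun d _ => hI d) hJ fun x => ?_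
    have h := dual_point P Ds w j (fun i => Real.exp (-((x - lam i) * T) ^ 2 / 2)) c χ B hB0 hw
      (fun i => (Real.exp_pos _).le) hc (fun b => hB x b)
    exact h
  have h4 : ∫ x : ℝ, B * ∑ i ∈ P, w i * j i ^ 2 * Real.exp (-((x - lam i) * T) ^ 2 / 2) =
      B * ((∑ i ∈ P, w i * j i ^ 2) * (Real.sqrt (2 * Real.pi) / T)) := by
    rw [integral_const_mul, integral_finsetSum _ fun i _ =>
      (gauss_integrable T hT (lam i)).const_mul _, Finset.sum_mul]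
    congr 1
    refine Finset.sum_congr rfl fun i _ => ?_
    rw [integral_const_mul, gauss_integral T hT]
  have hsum0 : 0 ≤ ∑ i ∈ P, w i * j i ^ 2 :=
    Finset.sum_nonneg fun i _ => mul_nonneg (hw i) (sq_nonneg _)
  calc ∑ d ∈ Ds, ∫ t : ℝ in (-T)..T,
        ‖∑ i ∈ P, c i * (χ d i : ℂ) * cexp (-(t * lam i : ℝ) * I)‖ ^ 2
      ≤ Real.exp 1 * (T ^ 2 * ∫ x : ℝ, ∑ d ∈ Ds,
        ‖∑ i ∈ P, c i * (χ d i : ℂ) *
          (Real.exp (-((x - lam i) * T) ^ 2 / 2) : ℂ)‖ ^ 2) := h1.trans_eq h2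
    _ ≤ Real.exp 1 * (T ^ 2 * (B * ((∑ i ∈ P, w i * j i ^ 2) *
        (Real.sqrt (2 * Real.pi) / T)))) := by
          rw [← h4]
          exact mul_le_mul_of_nonneg_left (mul_le_mul_of_nonneg_left h3 (by positivity))
            (Real.exp_pos 1).le
    _ = (Real.exp 1 * Real.sqrt (2 * Real.pi)) * (T * (B * ∑ i ∈ P, w i * j i ^ 2)) := by
          field_simp
    _ ≤ 8 * (T * (B * ∑ i ∈ P, w i * j i ^ 2)) :=
          mul_le_mul_of_nonneg_right exp_mul_sqrt_two_pi_le (by positivity)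
    _ = 8 * T * B * ∑ i ∈ P, w i * j i ^ 2 := by ring

end Pool.Agent.MPfb225e.Tw
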