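import Mathlib
import Pool.Agent.Lib.MP_fb225e_nt.Zd.Window

/-!
MP_fb225e_nt, project TW, module Gauss: from windows to Gaussian weights.
-/

namespace Pool.Agent.MPfb225e.Tw

/-- TW Gaussian window. -/
theorem gauss_weighted : ∃ C₁ : ℝ, 0 < C₁ ∧ ∀ (T U B x : ℝ) (h : Nat.Primes → ℝ), 1 ≤ T →
    0 ≤ B → (∀ p, 0 ≤ h p) →
    (∀ u : ℝ, U - 1 ≤ u → ∀ P : Finset Nat.Primes,
      (∀ p ∈ P, u < Real.log p ∧ Real.log p ≤ u + 2 / T) → ∑ p ∈ P, Real.log p / p * h p ≤ B) →
    ∀ P : Finset Nat.Primes, (∀ p ∈ P, U < Real.log p) →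
    ∑ p ∈ P, Real.log p / p * Real.exp (-((x - Real.log p) * T) ^ 2 / 2) * h p ≤ C₁ * B := by
  have hS0 : 0 ≤ ∑' i : ℤ, Real.exp (-|(i : ℝ)| / 2) := tsum_nonneg fun i => (Real.exp_pos _).le
  refine ⟨Real.exp (3 / 4) * (∑' i : ℤ, Real.exp (-|(i : ℝ)| / 2) + 1), by positivity, ?_⟩
  intro T U B x h hT hB hh hw P hP
  have hT0 : 0 < T := by linarith
  have hiT : 1 / T ≤ 1 := by
    rw [div_le_iff₀ hT0]
    linarith
  have hiT0 : 0 < 1 / T := by positivity
  obtain ⟨idx, hidx⟩ : ∃ idx : Nat.Primes → ℤ, ∀ p, idx p = ⌊(Real.log p - x) * T⌋ :=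
    ⟨_, fun _ => rfl⟩
  rw [← Finset.sum_fiberwise_of_maps_to (s := P) (t := P.image idx) (g := idx)
    (fun p hp => Finset.mem_image_of_mem _ hp)]
  have hin : ∀ i ∈ P.image idx, ∑ p ∈ P.filter (fun p => idx p = i),
      Real.log p / p * Real.exp (-((x - Real.log p) * T) ^ 2 / 2) * h p ≤
      B * Real.exp (3 / 4) * Real.exp (-|(i : ℝ)| / 2) := by
    intro i _
    have h1 : ∀ p ∈ P.filter (fun p => idx p = i),
        Real.log p / p * Real.exp (-((x - Real.log p) * T) ^ 2 / 2) * h p ≤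
        Real.log p / p * h p * (Real.exp (3 / 4) * Real.exp (-|(i : ℝ)| / 2)) := by
      intro p hp
      have hp2 := (Finset.mem_filter.1 hp).2
      have h2 := Zd.z7_weight ((Real.log p - x) * T)
      rw [← hidx p, hp2] at h2
      have h0 : Real.exp (-((x - Real.log p) * T) ^ 2 / 2) ≤
          Real.exp (-((Real.log p - x) * T) ^ 2 / 4) := by
        apply Real.exp_le_exp.2
        have e : ((x - Real.log p) * T) ^ 2 = ((Real.log p - x) * T) ^ 2 := by ring
        rw [e]
        have := sq_nonneg ((Real.log p - x) * T)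
        linarith
      have hp1 : (1 : ℝ) ≤ ((p : ℕ) : ℝ) := by exact_mod_cast p.2.pos
      have h3 : 0 ≤ Real.log p / p * h p :=
        mul_nonneg (div_nonneg (Real.log_nonneg hp1) (by linarith)) (hh p)
      calc Real.log p / p * Real.exp (-((x - Real.log p) * T) ^ 2 / 2) * h p =
            Real.log p / p * h p * Real.exp (-((x - Real.log p) * T) ^ 2 / 2) := by ring
        _ ≤ _ := mul_le_mul_of_nonneg_left (h0.trans h2) h3
    refine (Finset.sum_le_sum h1).trans ?_
    rw [← Finset.sum_mul]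
    have h3 : ∑ p ∈ P.filter (fun p => idx p = i), Real.log p / p * h p ≤ B := by
      obtain ⟨v, hv⟩ : ∃ v : ℝ, v = max (x + i / T) U := ⟨_, rfl⟩
      have hvU : U ≤ v := hv ▸ le_max_right _ _
      have hvx : x + i / T ≤ v := hv ▸ le_max_left _ _
      apply hw (v - 1 / T) (by linarith)
      intro p hp
      obtain ⟨hp1, hp2⟩ := Finset.mem_filter.1 hp
      rw [hidx p] at hp2
      have h4 := Int.floor_le ((Real.log p - x) * T)
      have h5 := Int.lt_floor_add_one ((Real.log p - x) * T)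
      rw [hp2] at h4 h5
      have h6 : x + i / T ≤ Real.log p := by
        have : (i : ℝ) / T ≤ Real.log p - x := (div_le_iff₀ hT0).2 h4
        linarith
      have h7 : Real.log p < x + i / T + 1 / T := by
        have : Real.log p - x < ((i : ℝ) + 1) / T := (lt_div_iff₀ hT0).2 h5
        rw [add_div] at this
        linarith
      have h8 := hP p hp1
      have h9 : v ≤ Real.log p := hv ▸ max_le h6 h8.le
      have h10 : (2 : ℝ) / T = 1 / T + 1 / T := by ring
      constructor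
      · linarith
      · rw [h10]
        linarith
    calc (∑ p ∈ P.filter (fun p => idx p = i), Real.log p / p * h p) *
          (Real.exp (3 / 4) * Real.exp (-|(i : ℝ)| / 2)) ≤
          B * (Real.exp (3 / 4) * Real.exp (-|(i : ℝ)| / 2)) :=
          mul_le_mul_of_nonneg_right h3 (by positivity)
      _ = B * Real.exp (3 / 4) * Real.exp (-|(i : ℝ)| / 2) := by ring
  refine (Finset.sum_le_sum hin).trans ?_
  rw [← Finset.mul_sum]
  have h11 : ∑ i ∈ P.image idx, Real.exp (-|(i : ℝ)| / 2) ≤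
      ∑' i : ℤ, Real.exp (-|(i : ℝ)| / 2) :=
    Zd.z7_summable.sum_le_tsum _ fun i _ => (Real.exp_pos _).le
  calc B * Real.exp (3 / 4) * ∑ i ∈ P.image idx, Real.exp (-|(i : ℝ)| / 2) ≤
        B * Real.exp (3 / 4) * (∑' i : ℤ, Real.exp (-|(i : ℝ)| / 2) + 1) :=
        mul_le_mul_of_nonneg_left (by linarith) (by positivity)
    _ = Real.exp (3 / 4) * (∑' i : ℤ, Real.exp (-|(i : ℝ)| / 2) + 1) * B := by ring

end Pool.Agent.MPfb225e.Tw
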