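import Mathlib
import Pool.Agent.Lib.MP_fb225e_nt.Zd.Trunc

/-!
MP_fb225e_nt, project TW, module Trunc: truncation of the prime sums, uniformly in the coefficients.
-/

namespace Pool.Agent.MPfb225e.Tw

open Filter Topology Complex
open scoped Nat

/-- TW truncation, uniform in the coefficients. -/
theorem trunc (n : ℕ) (A : ℝ) (hA : 1 ≤ A) : ∃ κ₁ : ℝ, 0 < κ₁ ∧ ∀ η : ℝ, 0 < η → 3 * η ≤ 1 →
    ∀ m : ℕ, 1 ≤ m → ∃ P : Finset Nat.Primes, (∀ p ∈ P, κ₁ * m / η < Real.log p) ∧
    ∀ y : ℕ → ℝ, (∀ p, |y p| ≤ 2 * n) → ∀ q : ℕ, m ≤ q → q + 1 ≤ 2 * m → ∀ t : ℝ,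
      ‖Zd.psum y η t q‖ ≤
        ‖∑ p ∈ P, (Zd.bq y η q p : ℂ) * cexp (-(t * Real.log p : ℝ) * I)‖ +
          1 / 4 * A⁻¹ ^ m * ((3 * η)⁻¹) ^ (q + 1) := by
  classical
  obtain ⟨C₈, hC₈, hlp⟩ := Zd.sum_lp
  have hA0 : 0 < A := by linarith
  set H : ℝ := 48 * n * C₈ + 1 with hH
  have hH1 : 1 ≤ H := by
    have : 0 ≤ 48 * n * C₈ := by positivity
    linarith
  refine ⟨1 / (9 * A * H), by positivity, ?_⟩
  intro η hη hη3 m hm
  set κ₁ : ℝ := 1 / (9 * A * H) with hκ₁
  have hκ₁0 : 0 < κ₁ := by positivity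
  have hκ3 : 3 * κ₁ ≤ 1 := by
    rw [hκ₁]
    have : 9 ≤ 9 * A * H := by nlinarith
    rw [mul_one_div, div_le_one (by positivity)]
    linarith
  set U : ℝ := κ₁ * m / η with hU
  have hU0 : 0 ≤ U := by positivity
  have h3η : 1 ≤ (3 * η)⁻¹ := (one_le_inv₀ (by positivity)).2 hη3
  -- the majorant
  set bm : Nat.Primes → ℝ := fun p =>
    2 * n * (∑ q ∈ Finset.range (2 * m), ((η / 2)⁻¹) ^ q) * Szf.lp (η / 2) p with hbm
  have hbm0 : ∀ p, 0 ≤ bm p := fun p => mul_nonneg
    (mul_nonneg (by positivity) (Finset.sum_nonneg fun q _ => by positivity)) (Szf.lp_nonneg _ p)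
  have hbms : Summable bm := (Szf.summable_lp (by positivity)).mul_left _
  set τ : ℝ := 1 / 8 * A⁻¹ ^ m with hτ
  have hτ0 : 0 < τ := by positivity
  obtain ⟨P₀, hP₀⟩ : ∃ P₀ : Finset Nat.Primes, |(∑ p ∈ P₀, bm p) - ∑' p, bm p| < τ := by
    have h1 := Metric.tendsto_nhds.1 hbms.hasSum τ hτ0
    obtain ⟨P₀, h2⟩ := h1.exists
    exact ⟨P₀, by rwa [Real.dist_eq] at h2⟩
  set P : Finset Nat.Primes := P₀.filter fun p => U < Real.log p with hP
  refine ⟨P, fun p hp => (Finset.mem_filter.1 hp).2, ?_⟩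
  intro y hy q hq1 hq2 t
  have hble : ∀ q, q + 1 ≤ 2 * m → ∀ p, |Zd.bq y η q p| ≤ bm p := by
    intro q hq p
    refine (Zd.abs_bq_le' hy hη q p).trans ?_
    rw [hbm]
    refine mul_le_mul_of_nonneg_right (mul_le_mul_of_nonneg_left ?_ (by positivity))
      (Szf.lp_nonneg _ p)
    exact Finset.single_le_sum (f := fun q => ((η / 2)⁻¹) ^ q) (fun q _ => by positivity)
      (Finset.mem_range.2 (by omega))
  set f : Nat.Primes → ℂ := fun p => (Zd.bq y η q p : ℂ) * cexp (-(t * Real.log p : ℝ) * I) with hf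
  have hfn : ∀ p, ‖f p‖ = |Zd.bq y η q p| := fun p => by
    rw [hf]
    simp only
    rw [norm_mul, Zd.norm_exp_I, mul_one, Complex.norm_real, Real.norm_eq_abs]
  have hfs : Summable f := by
    refine Summable.of_norm_bounded hbms fun p => ?_
    rw [hfn]
    exact hble q hq2 p
  have hind : Summable fun p => if p ∈ P then f p else 0 :=
    summable_of_ne_finset_zero (s := P) fun p hp => by rw [if_neg hp]
  have e1 : Zd.psum y η t q - ∑ p ∈ P, f p = ∑' p, (f p - if p ∈ P then f p else 0) := by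
    rw [Zd.psum_eq, hfs.tsum_sub hind]
    congr 1
    rw [tsum_eq_sum (s := P) fun p hp => by rw [if_neg hp]]
    exact Finset.sum_congr rfl fun p hp => by rw [if_pos hp]
  set g : Nat.Primes → ℝ := fun p => if p ∈ P₀ then 0 else bm p with hg
  have hgs : Summable g := Summable.of_nonneg_of_le (fun p => by
    rw [hg]; simp only; split_ifs; exacts [le_rfl, hbm0 p]) (fun p => by
    rw [hg]; simp only; split_ifs; exacts [hbm0 p, le_rfl]) hbms
  have hgt : ∑' p, g p ≤ τ := by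
    have hi : Summable fun p => if p ∈ P₀ then bm p else 0 :=
      summable_of_ne_finset_zero (s := P₀) fun p hp => by rw [if_neg hp]
    have h1 : ∑' p, bm p = (∑' p, if p ∈ P₀ then bm p else 0) + ∑' p, g p := by
      rw [← hi.tsum_add hgs]
      refine tsum_congr fun p => ?_
      rw [hg]
      simp only
      split_ifs <;> simp
    have h2 : (∑' p, if p ∈ P₀ then bm p else 0) = ∑ p ∈ P₀, bm p := by
      rw [tsum_eq_sum (s := P₀) fun p hp => by rw [if_neg hp]]
      exact Finset.sum_congr rfl fun p hp => by rw [if_pos hp]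
    rw [h2] at h1
    rw [abs_lt] at hP₀
    linarith [hP₀.1]
  have hpt : ∀ p, ‖f p - if p ∈ P then f p else 0‖ ≤
      2 * n * (U ^ q / q !) * Szf.lp η p + g p := by
    intro p
    have h0 : 0 ≤ 2 * n * (U ^ q / q !) * Szf.lp η p :=
      mul_nonneg (by positivity) (Szf.lp_nonneg η p)
    have hg0 : 0 ≤ g p := by rw [hg]; simp only; split_ifs; exacts [le_rfl, hbm0 p]
    split_ifs with hp
    · rw [sub_self, norm_zero]
      linarith
    · rw [sub_zero, hfn]
      by_cases hp0 : p ∈ P₀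
      · have hlog : Real.log p ≤ U := by
          by_contra hcon
          exact hp (Finset.mem_filter.2 ⟨hp0, not_le.1 hcon⟩)
        have h1 : Real.log p ^ q / q ! ≤ U ^ q / q ! :=
          div_le_div_of_nonneg_right (pow_le_pow_left₀ (Real.log_natCast_nonneg _) hlog q)
            (by positivity)
        have h2 := Zd.abs_bq_le hy (η := η) q p
        have h3 : 2 * n * Szf.lp η p * (Real.log p ^ q / q !) ≤
            2 * n * Szf.lp η p * (U ^ q / q !) :=
          mul_le_mul_of_nonneg_left h1 (mul_nonneg (by positivity) (Szf.lp_nonneg η p))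
        have h4 : 2 * n * Szf.lp η p * (U ^ q / q !) = 2 * n * (U ^ q / q !) * Szf.lp η p := by ring
        linarith
      · have h1 : g p = bm p := by rw [hg]; simp only; rw [if_neg hp0]
        rw [h1]
        linarith [hble q hq2 p]
  have hs3 : Summable fun p => 2 * n * (U ^ q / q !) * Szf.lp η p + g p :=
    ((Szf.summable_lp hη).mul_left _).add hgs
  have h1 := tsum_of_norm_bounded hs3.hasSum hpt
  rw [← e1, ((Szf.summable_lp hη).mul_left _).tsum_add hgs, tsum_mul_left] at h1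
  -- the small primes
  have hsmall : 2 * n * (U ^ q / q !) * ∑' p, Szf.lp η p ≤
      1 / 8 * A⁻¹ ^ m * ((3 * η)⁻¹) ^ (q + 1) := by
    have h2 : U ^ q / q ! ≤ κ₁ ^ q * Real.exp m * (η⁻¹) ^ q := by
      have h3 := Real.pow_div_factorial_le_exp (m : ℝ) (Nat.cast_nonneg _) q
      have h4 : U ^ q / q ! = κ₁ ^ q * ((m : ℝ) ^ q / q !) * (η⁻¹) ^ q := by
        rw [hU, div_pow, mul_pow, inv_pow]
        field_simp
      rw [h4]
      refine mul_le_mul_of_nonneg_right (mul_le_mul_of_nonneg_left h3 (by positivity))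
        (by positivity)
    have h5 := hlp η hη (by linarith)
    have h6 : 2 * n * (U ^ q / q !) * ∑' p, Szf.lp η p ≤
        2 * n * (κ₁ ^ q * Real.exp m * (η⁻¹) ^ q) * (C₈ / η) :=
      mul_le_mul (mul_le_mul_of_nonneg_left h2 (by positivity)) h5
        (tsum_nonneg fun p => Szf.lp_nonneg η p) (by positivity)
    refine h6.trans ?_
    have h7 : ((3 * η)⁻¹) ^ (q + 1) = (3⁻¹ : ℝ) ^ (q + 1) * (η⁻¹) ^ q * η⁻¹ := by
      rw [mul_inv, mul_pow, pow_succ (η⁻¹)]
      ring
    have h8 : (3 * κ₁) ^ q ≤ (3 * κ₁) ^ m := pow_le_pow_of_le_one (by positivity) hκ3 hq1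
    have h9 : (3 * κ₁) ^ m * Real.exp m * A ^ m ≤ 1 / H := by
      have e : Real.exp m = Real.exp 1 ^ m := by rw [← Real.exp_nat_mul, mul_one]
      rw [e, ← mul_pow, ← mul_pow]
      have h10 : 3 * κ₁ * Real.exp 1 * A ≤ 1 / H := by
        rw [hκ₁]
        have h11 : 3 * (1 / (9 * A * H)) * Real.exp 1 * A = (Real.exp 1 / 3) * (1 / H) := by
          field_simp
          ring
        rw [h11]
        have := Real.exp_one_lt_d9
        have h12 : 0 < 1 / H := by positivity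
        nlinarith
      have h13 : (1 / H) ^ m ≤ (1 / H) ^ 1 :=
        pow_le_pow_of_le_one (by positivity) (by rw [div_le_one (by positivity)]; exact hH1) hm
      rw [pow_one] at h13
      exact (pow_le_pow_left₀ (by positivity) h10 m).trans h13
    have h14 : 48 * n * C₈ * (1 / H) ≤ 1 := by
      rw [mul_one_div, div_le_one (by positivity)]
      linarith
    have h15 : 2 * n * (κ₁ ^ q * Real.exp m * (η⁻¹) ^ q) * (C₈ / η) =
        (48 * n * C₈ * ((3 * κ₁) ^ q * Real.exp m * A ^ m)) *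
          (1 / 8 * A⁻¹ ^ m * ((3 * η)⁻¹) ^ (q + 1)) := by
      rw [h7, mul_pow, inv_pow, inv_pow, inv_pow, pow_succ (3 : ℝ)]
      field_simp
      ring
    rw [h15]
    have h16 : 48 * n * C₈ * ((3 * κ₁) ^ q * Real.exp m * A ^ m) ≤ 1 := by
      calc 48 * n * C₈ * ((3 * κ₁) ^ q * Real.exp m * A ^ m)
          ≤ 48 * n * C₈ * ((3 * κ₁) ^ m * Real.exp m * A ^ m) := by
            refine mul_le_mul_of_nonneg_left ?_ (by positivity)
            gcongr
        _ ≤ 48 * n * C₈ * (1 / H) := mul_le_mul_of_nonneg_left h9 (by positivity)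
        _ ≤ 1 := h14
    calc _ ≤ 1 * (1 / 8 * A⁻¹ ^ m * ((3 * η)⁻¹) ^ (q + 1)) :=
          mul_le_mul_of_nonneg_right h16 (by positivity)
      _ = _ := one_mul _
  have hτ' : τ ≤ 1 / 8 * A⁻¹ ^ m * ((3 * η)⁻¹) ^ (q + 1) := by
    rw [hτ]
    exact le_mul_of_one_le_right (by positivity) (one_le_pow₀ h3η)
  have h17 : ‖Zd.psum y η t q‖ ≤ ‖∑ p ∈ P, f p‖ + ‖Zd.psum y η t q - ∑ p ∈ P, f p‖ := by
    have := norm_add_le (∑ p ∈ P, f p) (Zd.psum y η t q - ∑ p ∈ P, f p)
    rwa [add_sub_cancel] at this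
  linarith

end Pool.Agent.MPfb225e.Tw
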