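import Mathlib
import Pool.Agent.Lib.MP_fb225e_nt.Tw.RealChar
import Pool.Agent.Lib.MP_fb225e_nt.Zd.BrunTitchmarsh

/-!
MP_fb225e_nt, project TW, module Sieve: the sifted dual large sieve for real characters on primes
in a short logarithmic window.
-/

namespace Pool.Agent.MPfb225e.Tw

/-- expansion of the square of a divisor sum -/
private theorem sv_expand (w : ℕ → ℝ) (R a b : ℕ) (g : ℕ → ℝ) :
    ∑ k ∈ Finset.Ioc a b, (∑ d ∈ Finset.range (R + 1), if d ∣ k then w d else 0) ^ 2 * g k =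
      ∑ d ∈ Finset.range (R + 1), ∑ e ∈ Finset.range (R + 1),
        w d * w e * ∑ k ∈ (Finset.Ioc a b).filter (fun k => Nat.lcm d e ∣ k), g k := by
  calc ∑ k ∈ Finset.Ioc a b, (∑ d ∈ Finset.range (R + 1), if d ∣ k then w d else 0) ^ 2 * g k
      = ∑ k ∈ Finset.Ioc a b, ∑ d ∈ Finset.range (R + 1), ∑ e ∈ Finset.range (R + 1),
          (if Nat.lcm d e ∣ k then w d * w e * g k else 0) := by
        apply Finset.sum_congr rfl
        intro k _
        rw [sq, Finset.sum_mul_sum, Finset.sum_mul]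
        apply Finset.sum_congr rfl
        intro d _
        rw [Finset.sum_mul]
        apply Finset.sum_congr rfl
        intro e _
        by_cases hd : d ∣ k
        · by_cases he : e ∣ k
          · rw [if_pos hd, if_pos he, if_pos (Nat.lcm_dvd hd he)]
          · rw [if_neg he, if_neg (fun h => he ((Nat.dvd_lcm_right d e).trans h)),
              mul_zero, zero_mul]
        · rw [if_neg hd, if_neg (fun h => hd ((Nat.dvd_lcm_left d e).trans h)), zero_mul,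
            zero_mul]
    _ = ∑ d ∈ Finset.range (R + 1), ∑ k ∈ Finset.Ioc a b, ∑ e ∈ Finset.range (R + 1),
          (if Nat.lcm d e ∣ k then w d * w e * g k else 0) := Finset.sum_comm
    _ = _ := by
        apply Finset.sum_congr rfl
        intro d _
        rw [Finset.sum_comm]
        apply Finset.sum_congr rfl
        intro e _
        rw [← Finset.sum_filter, Finset.mul_sum]

/-- the sum of a real character over the multiples of `l` in an interval -/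
private theorem sv_dvd (c : ℤ) (a b l : ℕ) (hl : 0 < l) :
    ∑ k ∈ (Finset.Ioc a b).filter (fun k => l ∣ k), (psi c k : ℝ) =
      (psi c l : ℝ) * ∑ m ∈ Finset.Ioc (a / l) (b / l), (psi c m : ℝ) := by
  rw [Finset.mul_sum]
  refine Finset.sum_nbij' (fun k => k / l) (fun m => l * m) ?_ ?_ ?_ ?_ ?_
  · intro k hk
    rw [Finset.mem_filter, Finset.mem_Ioc] at hk
    obtain ⟨⟨h1, h2⟩, m, rfl⟩ := hk
    rw [Nat.mul_div_cancel_left m hl, Finset.mem_Ioc]
    exact ⟨(Nat.div_lt_iff_lt_mul hl).2 (by rwa [mul_comm]), (Nat.le_div_iff_mul_le hl).2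
      (by rwa [mul_comm])⟩
  · intro m hm
    rw [Finset.mem_Ioc] at hm
    rw [Finset.mem_filter, Finset.mem_Ioc]
    have h1 := (Nat.div_lt_iff_lt_mul hl).1 hm.1
    have h2 := (Nat.le_div_iff_mul_le hl).1 hm.2
    exact ⟨⟨by rwa [mul_comm], by rwa [mul_comm]⟩, Dvd.intro m rfl⟩
  · intro k hk
    rw [Finset.mem_filter] at hk
    exact Nat.mul_div_cancel' hk.2
  · intro m _
    exact Nat.mul_div_cancel_left m hl
  · intro k hk
    rw [Finset.mem_filter] at hk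
    obtain ⟨_, m, rfl⟩ := hk
    rw [Nat.mul_div_cancel_left m hl, psi_mul_right]
    push_cast
    ring

/-- the off-diagonal terms -/
private theorem sv_off {d d' : ℤ} (hd : Squarefree d) (hd' : Squarefree d') (hne : d ≠ d') {D : ℝ}
    (hdD : |(d : ℝ)| ≤ D) (hdD' : |(d' : ℝ)| ≤ D) (w : ℕ → ℝ) (hw0 : w 0 = 0)
    (hwb : ∀ k, |w k| ≤ 1) (R a b : ℕ) :
    |∑ k ∈ Finset.Ioc a b, (∑ e ∈ Finset.range (R + 1), if e ∣ k then w e else 0) ^ 2 *
      (psi (d * d') k : ℝ)| ≤ (R + 1) ^ 2 * (4 * D ^ 2) := by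
  have hD0 : 0 ≤ D := (abs_nonneg _).trans hdD
  rw [sv_expand]
  refine (Finset.abs_sum_le_sum_abs _ _).trans ?_
  have h : ∀ e ∈ Finset.range (R + 1), |∑ f ∈ Finset.range (R + 1), w e * w f *
      ∑ k ∈ (Finset.Ioc a b).filter (fun k => Nat.lcm e f ∣ k), (psi (d * d') k : ℝ)| ≤
      (R + 1) * (4 * D ^ 2) := by
    intro e _
    refine (Finset.abs_sum_le_sum_abs _ _).trans ?_
    have h1 : ∀ f ∈ Finset.range (R + 1), |w e * w f *
        ∑ k ∈ (Finset.Ioc a b).filter (fun k => Nat.lcm e f ∣ k), (psi (d * d') k : ℝ)| ≤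
        4 * D ^ 2 := by
      intro f _
      rcases Nat.eq_zero_or_pos e with he | he
      · rw [he, hw0, zero_mul, zero_mul, abs_zero]
        positivity
      rcases Nat.eq_zero_or_pos f with hf | hf
      · rw [hf, hw0, mul_zero, zero_mul, abs_zero]
        positivity
      rw [sv_dvd _ _ _ _ (Nat.lcm_pos he hf), abs_mul, abs_mul, abs_mul]
      have h2 : |w e| * |w f| ≤ 1 := mul_le_one₀ (hwb e) (abs_nonneg _) (hwb f)
      have h3 : |(psi (d * d') (Nat.lcm e f) : ℝ)| ≤ 1 := by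
        exact_mod_cast abs_psi_le (d * d') (Nat.lcm e f)
      have h4 := sum_psi_le hd hd' hne (a / Nat.lcm e f) (b / Nat.lcm e f)
      have h5 : 4 * (|(d : ℝ)| * |(d' : ℝ)|) ≤ 4 * D ^ 2 := by
        have := mul_le_mul hdD hdD' (abs_nonneg _) hD0
        nlinarith
      have h6 : |(psi (d * d') (Nat.lcm e f) : ℝ)| *
          |∑ m ∈ Finset.Ioc (a / Nat.lcm e f) (b / Nat.lcm e f), (psi (d * d') m : ℝ)| ≤
          1 * (4 * D ^ 2) := mul_le_mul h3 (h4.trans h5) (abs_nonneg _) zero_le_one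
      calc |w e| * |w f| * (|(psi (d * d') (Nat.lcm e f) : ℝ)| *
          |∑ m ∈ Finset.Ioc (a / Nat.lcm e f) (b / Nat.lcm e f), (psi (d * d') m : ℝ)|)
          ≤ 1 * (1 * (4 * D ^ 2)) := mul_le_mul h2 h6 (by positivity) zero_le_one
        _ = 4 * D ^ 2 := by ring
    refine (Finset.sum_le_sum h1).trans ?_
    rw [Finset.sum_const, Finset.card_range, nsmul_eq_mul]
    push_cast
    exact le_rfl
  refine (Finset.sum_le_sum h).trans ?_
  rw [Finset.sum_const, Finset.card_range, nsmul_eq_mul]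
  push_cast
  exact le_of_eq (by ring)

/-- the sum of the squares of the divisor sums -/
private theorem sv_diag (w : ℕ → ℝ) (R a b : ℕ) (hab : a ≤ b) (hw0 : w 0 = 0)
    (hwb : ∀ k, |w k| ≤ 1)
    (hsum : ∑ d ∈ Finset.range (R + 1), ∑ e ∈ Finset.range (R + 1),
      w d * w e / (Nat.lcm d e : ℝ) ≤ 1 / Real.log R) :
    ∑ k ∈ Finset.Ioc a b, (∑ e ∈ Finset.range (R + 1), if e ∣ k then w e else 0) ^ 2 ≤
      ((b : ℝ) - a) / Real.log R + (R + 1) ^ 2 := by
  have h0 := sv_expand w R a b (fun _ => 1)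
  simp only [mul_one, Finset.sum_const, nsmul_eq_mul] at h0
  rw [h0]
  have h4 : ∀ d ∈ Finset.range (R + 1), ∀ e ∈ Finset.range (R + 1),
      w d * w e * (((Finset.Ioc a b).filter (fun k => Nat.lcm d e ∣ k)).card : ℝ) ≤
        ((b : ℝ) - a) * (w d * w e / (Nat.lcm d e : ℝ)) + 1 := by
    intro d _ e _
    rcases Nat.eq_zero_or_pos d with hd | hd
    · rw [hd, hw0]
      norm_num
    rcases Nat.eq_zero_or_pos e with he | he
    · rw [he, hw0]
      norm_num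
    have hl : 0 < Nat.lcm d e := Nat.lcm_pos hd he
    have hcd := Zd.Z6b_card_dvd a b (Nat.lcm d e) hab hl
    have hww : |w d * w e| ≤ 1 := by
      rw [abs_mul]
      exact mul_le_one₀ (hwb d) (abs_nonneg _) (hwb e)
    have h5 : w d * w e * ((((Finset.Ioc a b).filter (fun k => Nat.lcm d e ∣ k)).card : ℝ) -
        ((b : ℝ) - a) / (Nat.lcm d e : ℝ)) ≤ 1 := by
      refine (le_abs_self _).trans ?_
      rw [abs_mul]
      exact mul_le_one₀ hww (abs_nonneg _) hcd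
    have e1 : w d * w e * (((Finset.Ioc a b).filter (fun k => Nat.lcm d e ∣ k)).card : ℝ) =
        w d * w e * ((((Finset.Ioc a b).filter (fun k => Nat.lcm d e ∣ k)).card : ℝ) -
        ((b : ℝ) - a) / (Nat.lcm d e : ℝ)) +
        ((b : ℝ) - a) * (w d * w e / (Nat.lcm d e : ℝ)) := by ring
    rw [e1]
    linarith
  have hba : (0 : ℝ) ≤ (b : ℝ) - a := sub_nonneg.2 (by exact_mod_cast hab)
  calc ∑ d ∈ Finset.range (R + 1), ∑ e ∈ Finset.range (R + 1),
      w d * w e * (((Finset.Ioc a b).filter (fun k => Nat.lcm d e ∣ k)).card : ℝ)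
      ≤ ∑ d ∈ Finset.range (R + 1), ∑ e ∈ Finset.range (R + 1),
        (((b : ℝ) - a) * (w d * w e / (Nat.lcm d e : ℝ)) + 1) :=
        Finset.sum_le_sum fun d hd => Finset.sum_le_sum fun e he => h4 d hd e he
    _ = ((b : ℝ) - a) * (∑ d ∈ Finset.range (R + 1), ∑ e ∈ Finset.range (R + 1),
          w d * w e / (Nat.lcm d e : ℝ)) + (R + 1) ^ 2 := by
        simp only [Finset.sum_add_distrib, Finset.mul_sum, Finset.sum_const,
          Finset.card_range, nsmul_eq_mul, Nat.cast_add, Nat.cast_one, mul_one]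
        ring
    _ ≤ ((b : ℝ) - a) * (1 / Real.log R) + (R + 1) ^ 2 := by
        have := mul_le_mul_of_nonneg_left hsum hba
        linarith
    _ = _ := by ring

/-- the number of integers in a box -/
private theorem sv_card (Ds : Finset ℤ) {D : ℝ} (hD : 1 ≤ D) (h : ∀ d ∈ Ds, |(d : ℝ)| ≤ D) :
    (Ds.card : ℝ) ≤ 3 * D := by
  have h1 : Ds ⊆ Finset.Icc (-⌊D⌋) ⌊D⌋ := by
    intro d hd
    have h2 := h d hd
    rw [abs_le] at h2
    rw [Finset.mem_Icc]
    constructor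
    · have h3 : -d ≤ ⌊D⌋ := Int.le_floor.2 (by push_cast; linarith [h2.1])
      linarith
    · exact Int.le_floor.2 h2.2
  have h2 := Finset.card_le_card h1
  rw [Int.card_Icc] at h2
  have h3 : (1 : ℤ) ≤ ⌊D⌋ := Int.le_floor.2 (by exact_mod_cast hD)
  have h4 : ((⌊D⌋ + 1 - -⌊D⌋).toNat : ℤ) = 2 * ⌊D⌋ + 1 := by
    rw [Int.toNat_of_nonneg (by linarith)]
    ring
  have h5 : (Ds.card : ℤ) ≤ 2 * ⌊D⌋ + 1 := by
    rw [← h4]
    exact_mod_cast h2
  have h6 : (Ds.card : ℝ) ≤ 2 * (⌊D⌋ : ℝ) + 1 := by exact_mod_cast h5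
  have h7 := Int.floor_le D
  linarith

/-- the quadratic form -/
private theorem sv_form (s : ℕ → ℝ) (I : Finset ℕ) (Ds : Finset ℤ) (b : ℤ → ℂ) {X Y : ℝ}
    (hY : 0 ≤ Y) (hX : ∑ k ∈ I, s k ^ 2 ≤ X)
    (hoff : ∀ d ∈ Ds, ∀ d' ∈ Ds, d ≠ d' →
      |∑ k ∈ I, s k ^ 2 * (psi (d * d') k : ℝ)| ≤ Y) :
    ∑ k ∈ I, s k ^ 2 * ‖∑ d ∈ Ds, b d * (psi d k : ℂ)‖ ^ 2 ≤
      (X + Ds.card * Y) * ∑ d ∈ Ds, ‖b d‖ ^ 2 := by
  classical
  have e1 : ((∑ k ∈ I, s k ^ 2 * ‖∑ d ∈ Ds, b d * (psi d k : ℂ)‖ ^ 2 : ℝ) : ℂ) =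
      ∑ d ∈ Ds, ∑ d' ∈ Ds, b d * (starRingEnd ℂ) (b d') *
        ((∑ k ∈ I, s k ^ 2 * (psi (d * d') k : ℝ) : ℝ) : ℂ) := by
    push_cast
    have h1 : ∀ k ∈ I, (s k : ℂ) ^ 2 * (‖∑ d ∈ Ds, b d * (psi d k : ℂ)‖ : ℂ) ^ 2 =
        ∑ d ∈ Ds, ∑ d' ∈ Ds, b d * (starRingEnd ℂ) (b d') *
          ((s k : ℂ) ^ 2 * (psi (d * d') k : ℂ)) := by
      intro k _
      rw [← Complex.mul_conj', map_sum, Finset.sum_mul_sum, Finset.mul_sum]
      refine Finset.sum_congr rfl fun d _ => ?_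
      rw [Finset.mul_sum]
      refine Finset.sum_congr rfl fun d' _ => ?_
      rw [map_mul, map_intCast, psi_mul_left]
      push_cast
      ring
    rw [Finset.sum_congr rfl h1, Finset.sum_comm]
    refine Finset.sum_congr rfl fun d _ => ?_
    rw [Finset.sum_comm]
    refine Finset.sum_congr rfl fun d' _ => ?_
    rw [Finset.mul_sum]
  have h0 : 0 ≤ ∑ k ∈ I, s k ^ 2 * ‖∑ d ∈ Ds, b d * (psi d k : ℂ)‖ ^ 2 :=
    Finset.sum_nonneg fun k _ => by positivity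
  have h1 : ∑ k ∈ I, s k ^ 2 * ‖∑ d ∈ Ds, b d * (psi d k : ℂ)‖ ^ 2 ≤
      ∑ d ∈ Ds, ∑ d' ∈ Ds, ‖b d‖ * ‖b d'‖ *
        |∑ k ∈ I, s k ^ 2 * (psi (d * d') k : ℝ)| := by
    rw [← abs_of_nonneg h0, ← Real.norm_eq_abs, ← Complex.norm_real, e1]
    refine (norm_sum_le _ _).trans (Finset.sum_le_sum fun d _ => ?_)
    refine (norm_sum_le _ _).trans (Finset.sum_le_sum fun d' _ => ?_)
    rw [norm_mul, norm_mul, RCLike.norm_conj, Complex.norm_real, Real.norm_eq_abs]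
  refine h1.trans ?_
  have hX0 : 0 ≤ X := (Finset.sum_nonneg fun k _ => sq_nonneg (s k)).trans hX
  have h2 : ∀ d ∈ Ds, ∀ d' ∈ Ds, ‖b d‖ * ‖b d'‖ *
      |∑ k ∈ I, s k ^ 2 * (psi (d * d') k : ℝ)| ≤
      (if d = d' then X * ‖b d‖ ^ 2 else 0) + Y * (‖b d‖ * ‖b d'‖) := by
    intro d hd d' hd'
    by_cases h : d = d'
    · subst h
      rw [if_pos rfl]
      have h3 : |∑ k ∈ I, s k ^ 2 * (psi (d * d) k : ℝ)| ≤ X := by
        refine (Finset.abs_sum_le_sum_abs _ _).trans ((Finset.sum_le_sum fun k _ => ?_).trans hX)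
        rw [abs_mul, abs_of_nonneg (sq_nonneg (s k))]
        have h4 : |(psi (d * d) k : ℝ)| ≤ 1 := by exact_mod_cast abs_psi_le (d * d) k
        exact mul_le_of_le_one_right (sq_nonneg _) h4
      have h5 : 0 ≤ ‖b d‖ * ‖b d‖ := by positivity
      calc ‖b d‖ * ‖b d‖ * |∑ k ∈ I, s k ^ 2 * (psi (d * d) k : ℝ)|
          ≤ ‖b d‖ * ‖b d‖ * X := mul_le_mul_of_nonneg_left h3 h5
        _ = X * ‖b d‖ ^ 2 := by ring
        _ ≤ X * ‖b d‖ ^ 2 + Y * (‖b d‖ * ‖b d‖) := le_add_of_nonneg_right (by positivity)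
    · rw [if_neg h, zero_add, mul_comm]
      exact mul_le_mul_of_nonneg_right (hoff d hd d' hd' h) (by positivity)
  refine (Finset.sum_le_sum fun d hd => Finset.sum_le_sum fun d' hd' => h2 d hd d' hd').trans ?_
  have h3 : ∑ d ∈ Ds, ∑ d' ∈ Ds, ((if d = d' then X * ‖b d‖ ^ 2 else 0) +
      Y * (‖b d‖ * ‖b d'‖)) = X * ∑ d ∈ Ds, ‖b d‖ ^ 2 + Y * (∑ d ∈ Ds, ‖b d‖) ^ 2 := by
    simp only [Finset.sum_add_distrib]
    congr 1
    · rw [Finset.mul_sum]
      refine Finset.sum_congr rfl fun d hd => ?_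
      rw [Finset.sum_ite_eq, if_pos hd]
    · rw [sq, Finset.sum_mul_sum, Finset.mul_sum]
      refine Finset.sum_congr rfl fun d _ => ?_
      rw [Finset.mul_sum]
  rw [h3]
  have h4 : (∑ d ∈ Ds, ‖b d‖) ^ 2 ≤ Ds.card * ∑ d ∈ Ds, ‖b d‖ ^ 2 := sq_sum_le_card_mul_sum_sq
  have h5 := mul_le_mul_of_nonneg_left h4 hY
  calc X * ∑ d ∈ Ds, ‖b d‖ ^ 2 + Y * (∑ d ∈ Ds, ‖b d‖) ^ 2
      ≤ X * ∑ d ∈ Ds, ‖b d‖ ^ 2 + Y * (Ds.card * ∑ d ∈ Ds, ‖b d‖ ^ 2) := by linarith
    _ = _ := by ring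

/-- the final estimate -/
private theorem sv_final {T u D R ba : ℝ} (hT : 1 ≤ T) (hD : 1 ≤ D)
    (hu : 64 * (1 + Real.log T + Real.log D) ≤ u) (hR1 : R ≤ Real.exp (u / 8))
    (hR0 : 0 ≤ R) (hR2 : Real.exp (u / 8) < R + 1)
    (hba : ba ≤ Real.exp u * Real.exp (2 / T) - Real.exp u + 1) :
    (u + 2) / Real.exp u * (ba / Real.log R + (R + 1) ^ 2 + 3 * D * ((R + 1) ^ 2 * (4 * D ^ 2))) ≤
      4000 / T := by
  have hT0 : 0 < T := by linarith
  have hlT : 0 ≤ Real.log T := Real.log_nonneg hT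
  have hlD : 0 ≤ Real.log D := Real.log_nonneg hD
  have hu64 : 64 ≤ u := by nlinarith
  have hx : 0 < Real.exp u := Real.exp_pos u
  obtain ⟨y, hy⟩ : ∃ y : ℝ, y = Real.exp (u / 64) := ⟨_, rfl⟩
  have hy0 : 0 < y := by rw [hy]; exact Real.exp_pos _
  have hpow : ∀ k : ℕ, Real.exp (k * (u / 64)) = y ^ k := by
    intro k
    rw [hy, ← Real.exp_nat_mul]
  have ex : Real.exp u = y ^ 64 := by
    rw [← hpow 64]
    congr 1
    push_cast
    ring
  have e8 : Real.exp (u / 8) = y ^ 8 := by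
    rw [← hpow 8]
    congr 1
    push_cast
    ring
  have hyT : T ≤ y := by
    rw [hy, ← Real.log_le_iff_le_exp hT0]
    linarith
  have hyD : D ≤ y := by
    rw [hy, ← Real.log_le_iff_le_exp (by linarith)]
    linarith
  have hy2 : 2 ≤ y := by
    have h1 := Real.add_one_le_exp (u / 64)
    rw [← hy] at h1
    linarith
  have hyu : u + 2 ≤ 64 * y := by
    have h1 := Real.add_one_le_exp (u / 64)
    rw [← hy] at h1
    linarith
  -- the length of the interval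
  have hexp : Real.exp (2 / T) ≤ 1 + 15 / T := by
    have h1 : 2 / T ≤ 2 := by
      rw [div_le_iff₀ hT0]
      linarith
    have h2 : Real.exp (2 / T) * (1 - 2 / T) ≤ 1 := by
      have h3 := Real.add_one_le_exp (-(2 / T))
      have h4 : Real.exp (2 / T) * Real.exp (-(2 / T)) = 1 := by
        rw [← Real.exp_add, add_neg_cancel, Real.exp_zero]
      have h5 := mul_le_mul_of_nonneg_left h3 (Real.exp_pos (2 / T)).le
      rw [h4] at h5
      linarith
    have h3 : Real.exp (2 / T) ≤ 7.4 := by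
      have h4 : Real.exp (2 / T) ≤ Real.exp 2 := Real.exp_le_exp.2 h1
      have h5 : Real.exp 2 = Real.exp 1 * Real.exp 1 := by
        rw [← Real.exp_add]
        norm_num
      have h6 := Real.exp_one_lt_d9
      have h7 := Real.exp_pos 1
      have h8 : Real.exp 1 * Real.exp 1 ≤ 2.7182818286 * 2.7182818286 :=
        mul_le_mul h6.le h6.le h7.le (by norm_num)
      rw [← h5] at h8
      have h9 : (2.7182818286 * 2.7182818286 : ℝ) ≤ 7.4 := by norm_num
      linarith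
    have h4 : Real.exp (2 / T) * (2 / T) ≤ 7.4 * (2 / T) :=
      mul_le_mul_of_nonneg_right h3 (by positivity)
    have h5 : (7.4 : ℝ) * (2 / T) ≤ 15 / T := by
      rw [show (7.4 : ℝ) * (2 / T) = 14.8 / T by ring]
      exact div_le_div_of_nonneg_right (by norm_num) hT0.le
    nlinarith
  have hba2 : ba ≤ 16 * y ^ 64 / T := by
    have h1 : Real.exp u * Real.exp (2 / T) ≤ Real.exp u * (1 + 15 / T) :=
      mul_le_mul_of_nonneg_left hexp hx.le
    have h2 : (1 : ℝ) ≤ y ^ 64 / T := by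
      rw [le_div_iff₀ hT0, one_mul]
      exact hyT.trans (le_self_pow₀ (by linarith) (by norm_num))
    rw [ex] at h1 hba
    have h3 : y ^ 64 * (1 + 15 / T) = y ^ 64 + 15 * (y ^ 64 / T) := by ring
    have h4 : 16 * y ^ 64 / T = 16 * (y ^ 64 / T) := by ring
    rw [h4]
    linarith
  -- the logarithm
  have hRy : y ^ 4 ≤ R := by
    have h1 : y ^ 8 - 1 ≤ R := by linarith [e8]
    have h2 : (16 : ℝ) ≤ y ^ 4 := by
      calc (16 : ℝ) = 2 ^ 4 := by norm_num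
        _ ≤ y ^ 4 := pow_le_pow_left₀ (by norm_num) hy2 4
    have h3 : y ^ 8 = y ^ 4 * y ^ 4 := by ring
    nlinarith
  have hlog : u / 16 ≤ Real.log R := by
    have h1 : Real.exp (u / 16) ≤ R := by
      have h2 : Real.exp (u / 16) = y ^ 4 := by
        rw [← hpow 4]
        congr 1
        push_cast
        ring
      rw [h2]
      exact hRy
    have h2 := Real.log_le_log (Real.exp_pos _) h1
    rwa [Real.log_exp] at h2
  have hlog0 : 0 < Real.log R := by linarith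
  have t1 : (u + 2) / y ^ 64 * (ba / Real.log R) ≤ 264 / T := by
    have h1 : ba / Real.log R ≤ (16 * y ^ 64 / T) / (u / 16) := by
      have h2 : 0 ≤ 16 * y ^ 64 / T := by positivity
      calc ba / Real.log R ≤ (16 * y ^ 64 / T) / Real.log R :=
            div_le_div_of_nonneg_right hba2 hlog0.le
        _ ≤ (16 * y ^ 64 / T) / (u / 16) :=
            div_le_div_of_nonneg_left h2 (by linarith) hlog
    have h3 : (u + 2) / y ^ 64 * ((16 * y ^ 64 / T) / (u / 16)) = 256 * (u + 2) / u / T := by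
      field_simp
      ring
    have h4 : 256 * (u + 2) / u ≤ 264 := by
      rw [div_le_iff₀ (by linarith)]
      linarith
    calc (u + 2) / y ^ 64 * (ba / Real.log R)
        ≤ (u + 2) / y ^ 64 * ((16 * y ^ 64 / T) / (u / 16)) :=
          mul_le_mul_of_nonneg_left h1 (by positivity)
      _ = 256 * (u + 2) / u / T := h3
      _ ≤ 264 / T := div_le_div_of_nonneg_right h4 hT0.le
  have hR1y : (R + 1) ^ 2 ≤ 4 * y ^ 16 := by
    have h1 : R + 1 ≤ 2 * y ^ 8 := by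
      have h2 : (1 : ℝ) ≤ y ^ 8 := one_le_pow₀ (by linarith)
      rw [e8] at hR1
      linarith
    calc (R + 1) ^ 2 ≤ (2 * y ^ 8) ^ 2 := pow_le_pow_left₀ (by linarith) h1 2
      _ = 4 * y ^ 16 := by ring
  have hD3 : 1 + 12 * D ^ 3 ≤ 13 * y ^ 3 := by
    have h1 : D ^ 3 ≤ y ^ 3 := pow_le_pow_left₀ (by linarith) hyD 3
    have h2 : (1 : ℝ) ≤ y ^ 3 := one_le_pow₀ (by linarith)
    linarith
  have t2 : (u + 2) / y ^ 64 * ((R + 1) ^ 2 * (1 + 12 * D ^ 3)) ≤ 3328 / T := by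
    have h1 : (R + 1) ^ 2 * (1 + 12 * D ^ 3) ≤ (4 * y ^ 16) * (13 * y ^ 3) :=
      mul_le_mul hR1y hD3 (by positivity) (by positivity)
    have h2 : (u + 2) / y ^ 64 * ((R + 1) ^ 2 * (1 + 12 * D ^ 3)) ≤
        (64 * y) / y ^ 64 * ((4 * y ^ 16) * (13 * y ^ 3)) := by
      apply mul_le_mul _ h1 (by positivity) (by positivity)
      exact div_le_div_of_nonneg_right hyu (by positivity)
    have h3 : (64 * y) / y ^ 64 * ((4 * y ^ 16) * (13 * y ^ 3)) = 3328 / y ^ 44 := by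
      field_simp
      ring
    rw [h3] at h2
    refine h2.trans (div_le_div_of_nonneg_left (by norm_num) hT0 ?_)
    exact hyT.trans (le_self_pow₀ (by linarith) (by norm_num))
  rw [ex]
  have e2 : (u + 2) / y ^ 64 * (ba / Real.log R + (R + 1) ^ 2 +
      3 * D * ((R + 1) ^ 2 * (4 * D ^ 2))) =
      (u + 2) / y ^ 64 * (ba / Real.log R) +
        (u + 2) / y ^ 64 * ((R + 1) ^ 2 * (1 + 12 * D ^ 3)) := by ring
  rw [e2]
  have h5 : 264 / T + 3328 / T ≤ 4000 / T := by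
    rw [← add_div]
    exact div_le_div_of_nonneg_right (by norm_num) hT0.le
  linarith

/-- TW sieve window. -/
theorem family_window : ∃ C U₀ : ℝ, 0 < C ∧ 0 < U₀ ∧ ∀ (T u D : ℝ), 1 ≤ T → 1 ≤ D →
    U₀ * (1 + Real.log T + Real.log D) ≤ u →
    ∀ P : Finset Nat.Primes, (∀ p ∈ P, u < Real.log p ∧ Real.log p ≤ u + 2 / T) →
    ∀ Ds : Finset ℤ, (∀ d ∈ Ds, Squarefree d ∧ |(d : ℝ)| ≤ D) → ∀ b : ℤ → ℂ,
    ∑ p ∈ P, Real.log p / p * ‖∑ d ∈ Ds, b d * (psi d p : ℂ)‖ ^ 2 ≤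
      C / T * ∑ d ∈ Ds, ‖b d‖ ^ 2 := by
  classical
  refine ⟨4000, 64, by norm_num, by norm_num, ?_⟩
  intro T u D hT hD hu P hP Ds hDs b
  have hT0 : 0 < T := by linarith
  have hlT : 0 ≤ Real.log T := Real.log_nonneg hT
  have hlD : 0 ≤ Real.log D := Real.log_nonneg hD
  have hu64 : 64 ≤ u := by nlinarith
  set x : ℝ := Real.exp u with hx
  have hx0 : 0 < x := Real.exp_pos u
  set R : ℕ := ⌊Real.exp (u / 8)⌋₊ with hR
  set a : ℕ := ⌊x⌋₊ with ha
  set bb : ℕ := ⌊x * Real.exp (2 / T)⌋₊ with hbb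
  have hR1 : (R : ℝ) ≤ Real.exp (u / 8) := Nat.floor_le (Real.exp_pos _).le
  have hR2 : Real.exp (u / 8) < (R : ℝ) + 1 := Nat.lt_floor_add_one _
  have hRge : 2 ≤ R := by
    rw [hR]
    refine Nat.le_floor ?_
    have := Real.add_one_le_exp (u / 8)
    push_cast
    linarith
  have hexp1 : 1 ≤ Real.exp (2 / T) := Real.one_le_exp (by positivity)
  have hab : a ≤ bb := Nat.floor_mono (le_mul_of_one_le_right hx0.le hexp1)
  obtain ⟨w, hw0, hw1, hwb, hwR, hsum⟩ := Zd.selberg_weights R hRge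
  set s : ℕ → ℝ := fun k => ∑ e ∈ Finset.range (R + 1), if e ∣ k then w e else 0 with hs
  have hsp : ∀ q : ℕ, q.Prime → R < q → s q = 1 := by
    intro q hq hRq
    show (∑ d ∈ Finset.range (R + 1), if d ∣ q then w d else 0) = 1
    rw [Finset.sum_eq_single 1]
    · rw [if_pos (one_dvd _), hw1]
    · intro d hd hd1
      rw [if_neg]
      intro hdq
      rcases (Nat.dvd_prime hq).1 hdq with h | h
      · exact hd1 h
      · rw [Finset.mem_range] at hd
        omega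
    · intro h
      exact absurd (Finset.mem_range.2 (by omega)) h
  have hpx : ∀ p ∈ P, x < (p : ℕ) ∧ ((p : ℕ) : ℝ) ≤ x * Real.exp (2 / T) := by
    intro p hp
    have hp0 : (0 : ℝ) < (p : ℕ) := by exact_mod_cast p.2.pos
    obtain ⟨h1, h2⟩ := hP p hp
    constructor
    · rw [hx, ← Real.lt_log_iff_exp_lt hp0]
      exact h1
    · rw [hx, ← Real.exp_add, ← Real.log_le_iff_le_exp hp0]
      exact h2
  -- the weights
  have h1 : ∑ p ∈ P, Real.log p / p * ‖∑ d ∈ Ds, b d * (psi d p : ℂ)‖ ^ 2 ≤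
      (u + 2) / x * ∑ p ∈ P, ‖∑ d ∈ Ds, b d * (psi d p : ℂ)‖ ^ 2 := by
    rw [Finset.mul_sum]
    refine Finset.sum_le_sum fun p hp => ?_
    refine mul_le_mul_of_nonneg_right ?_ (by positivity)
    have h2 : Real.log p ≤ u + 2 := by
      have h3 : 2 / T ≤ 2 := by
        rw [div_le_iff₀ hT0]
        linarith
      linarith [(hP p hp).2]
    have h4 : x ≤ (p : ℕ) := (hpx p hp).1.le
    exact div_le_div₀ (by linarith) h2 hx0 h4
  have h2 : ∑ p ∈ P, ‖∑ d ∈ Ds, b d * (psi d p : ℂ)‖ ^ 2 ≤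
      ∑ k ∈ Finset.Ioc a bb, s k ^ 2 * ‖∑ d ∈ Ds, b d * (psi d k : ℂ)‖ ^ 2 := by
    have h3 : ∑ p ∈ P, ‖∑ d ∈ Ds, b d * (psi d p : ℂ)‖ ^ 2 =
        ∑ p ∈ P, s p ^ 2 * ‖∑ d ∈ Ds, b d * (psi d p : ℂ)‖ ^ 2 := by
      refine Finset.sum_congr rfl fun p hp => ?_
      have h4 : R < (p : ℕ) := by
        have h5 : (R : ℝ) < (p : ℕ) := by
          have h6 : Real.exp (u / 8) ≤ x := Real.exp_le_exp.2 (by linarith)
          linarith [(hpx p hp).1]
        exact_mod_cast h5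
      rw [hsp p p.2 h4, one_pow, one_mul]
    rw [h3]
    have h4 : ∑ p ∈ P, s p ^ 2 * ‖∑ d ∈ Ds, b d * (psi d p : ℂ)‖ ^ 2 =
        ∑ k ∈ P.image (fun p : Nat.Primes => (p : ℕ)),
          s k ^ 2 * ‖∑ d ∈ Ds, b d * (psi d k : ℂ)‖ ^ 2 := by
      rw [Finset.sum_image]
      intro p _ q _ h
      exact Subtype.ext h
    rw [h4]
    refine Finset.sum_le_sum_of_subset_of_nonneg ?_ fun k _ _ => by positivity
    intro k hk
    rw [Finset.mem_image] at hk
    obtain ⟨p, hp, rfl⟩ := hk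
    obtain ⟨h5, h6⟩ := hpx p hp
    rw [Finset.mem_Ioc]
    constructor
    · rw [ha]
      exact (Nat.floor_lt hx0.le).2 h5
    · rw [hbb]
      exact Nat.le_floor h6
  have h3 := sv_form s (Finset.Ioc a bb) Ds b
    (X := ((bb : ℝ) - a) / Real.log R + (R + 1) ^ 2) (Y := (R + 1) ^ 2 * (4 * D ^ 2))
    (by positivity) (sv_diag w R a bb hab hw0 hwb hsum)
    (fun d hd d' hd' hne => sv_off (hDs d hd).1 (hDs d' hd').1 hne (hDs d hd).2 (hDs d' hd').2
      w hw0 hwb R a bb)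
  have hB : 0 ≤ ∑ d ∈ Ds, ‖b d‖ ^ 2 := Finset.sum_nonneg fun d _ => by positivity
  have hcard := sv_card Ds hD fun d hd => (hDs d hd).2
  have h4 : (((bb : ℝ) - a) / Real.log R + (R + 1) ^ 2 + Ds.card * ((R + 1) ^ 2 * (4 * D ^ 2))) *
      ∑ d ∈ Ds, ‖b d‖ ^ 2 ≤ (((bb : ℝ) - a) / Real.log R + (R + 1) ^ 2 +
        3 * D * ((R + 1) ^ 2 * (4 * D ^ 2))) * ∑ d ∈ Ds, ‖b d‖ ^ 2 := by
    refine mul_le_mul_of_nonneg_right ?_ hB
    have := mul_le_mul_of_nonneg_right hcard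
      (show (0 : ℝ) ≤ ((R : ℝ) + 1) ^ 2 * (4 * D ^ 2) by positivity)
    linarith
  have hba : (bb : ℝ) - a ≤ x * Real.exp (2 / T) - x + 1 := by
    have h5 : (bb : ℝ) ≤ x * Real.exp (2 / T) := by
      rw [hbb]
      exact Nat.floor_le (by positivity)
    have h6 : x < (a : ℝ) + 1 := by
      rw [ha]
      exact Nat.lt_floor_add_one x
    linarith
  have h5 := sv_final hT hD hu hR1 (Nat.cast_nonneg R) hR2 hba
  calc ∑ p ∈ P, Real.log p / p * ‖∑ d ∈ Ds, b d * (psi d p : ℂ)‖ ^ 2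
      ≤ (u + 2) / x * ((((bb : ℝ) - a) / Real.log R + (R + 1) ^ 2 +
        3 * D * ((R + 1) ^ 2 * (4 * D ^ 2))) * ∑ d ∈ Ds, ‖b d‖ ^ 2) := by
        refine h1.trans ?_
        refine mul_le_mul_of_nonneg_left ?_ (by positivity)
        exact (h2.trans h3).trans h4
    _ = (u + 2) / x * (((bb : ℝ) - a) / Real.log R + (R + 1) ^ 2 +
        3 * D * ((R + 1) ^ 2 * (4 * D ^ 2))) * ∑ d ∈ Ds, ‖b d‖ ^ 2 := by ring
    _ ≤ 4000 / T * ∑ d ∈ Ds, ‖b d‖ ^ 2 := mul_le_mul_of_nonneg_right h5 hB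

end Pool.Agent.MPfb225e.Tw
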