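import Mathlib
import Pool.Agent.Lib.MP_fb225e_nt.Tw.Sieve
import Pool.Agent.Lib.MP_fb225e_nt.Tw.MeanValue
import Pool.Agent.Lib.MP_fb225e_nt.Tw.Gauss
import Pool.Agent.Lib.MP_fb225e_nt.Zd.MeanSum

/-!
MP_fb225e_nt, project TW, module Mean: mean values of the prime sums over the family of twists.
-/

namespace Pool.Agent.MPfb225e.Tw

open Filter Topology Complex MeasureTheory
open scoped Nat

/-- TW: the mean square of the truncated prime sums over the family. -/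
theorem mean_family (n : ℕ) : ∃ C₉ U₀ : ℝ, 0 < C₉ ∧ 0 < U₀ ∧ ∀ y : ℕ → ℝ,
    (∀ p, |y p| ≤ 2 * n) → ∀ η : ℝ, 0 < η → η ≤ 1 → ∀ T U D : ℝ, 1 ≤ T → 1 ≤ D →
    U₀ * (1 + Real.log T + Real.log D) ≤ U →
    ∀ P : Finset Nat.Primes, (∀ p ∈ P, U < Real.log p) →
    ∀ Ds : Finset ℤ, (∀ d ∈ Ds, Squarefree d ∧ |(d : ℝ)| ≤ D) → ∀ q : ℕ,
    ∑ d ∈ Ds, ∫ t : ℝ in (-T)..T, ‖∑ p ∈ P, (Zd.bq y η q p : ℂ) * ((psi d p : ℝ) : ℂ) *
        cexp (-(t * Real.log p : ℝ) * I)‖ ^ 2 ≤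
      C₉ * 4 ^ q * (η⁻¹) ^ (2 * q + 1) := by
  obtain ⟨C, U₀, hC, hU₀, hwin⟩ := family_window
  obtain ⟨C₁, hC₁, hgauss⟩ := gauss_weighted
  obtain ⟨C₈, hC₈, hlp⟩ := Zd.sum_lp
  refine ⟨32 * n ^ 2 * (C₁ * C) * C₈ + 1, U₀ + 1, by positivity, by positivity, ?_⟩
  intro y hy η hη hη1 T U D hT hD hU P hP Ds hDs q
  have hT0 : 0 < T := by linarith
  have hlT : 0 ≤ Real.log T := Real.log_nonneg hT
  have hlD : 0 ≤ Real.log D := Real.log_nonneg hD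
  set w : Nat.Primes → ℝ := fun p => 2 * n * (Real.log p / p) with hw
  set j : Nat.Primes → ℝ := fun p => (p : ℝ) ^ (-η) * (Real.log p ^ q / q !) with hj
  have hw0 : ∀ p, 0 ≤ w p := fun p => by
    have : 0 ≤ Real.log p := Real.log_natCast_nonneg _
    rw [hw]; positivity
  have hj0 : ∀ p, 0 ≤ j p := fun p => by
    have : 0 ≤ Real.log p := Real.log_natCast_nonneg _
    rw [hj]; positivity
  have hlp' : ∀ p : Nat.Primes, Szf.lp η p = Real.log p / p * (p : ℝ) ^ (-η) := by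
    intro p
    have hp : (0 : ℝ) < (p : ℕ) := by exact_mod_cast p.2.pos
    unfold Szf.lp
    rw [neg_add, Real.rpow_add hp, Real.rpow_neg_one]
    ring
  have hB : ∀ (x : ℝ) (b : ℤ → ℂ), ∑ p ∈ P, w p *
      Real.exp (-((x - Real.log p) * T) ^ 2 / 2) *
      ‖∑ d ∈ Ds, b d * (((psi d p : ℤ) : ℝ) : ℂ)‖ ^ 2 ≤
      2 * n * (C₁ * (C / T)) * ∑ d ∈ Ds, ‖b d‖ ^ 2 := by
    intro x b
    have hS0 : 0 ≤ ∑ d ∈ Ds, ‖b d‖ ^ 2 := Finset.sum_nonneg fun d _ => sq_nonneg _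
    have h1 := hgauss T U (C / T * ∑ d ∈ Ds, ‖b d‖ ^ 2) x
      (fun p => ‖∑ d ∈ Ds, b d * (psi d p : ℂ)‖ ^ 2) hT (by positivity) (fun p => sq_nonneg _)
      (fun u hu P' hP' => hwin T u D hT hD (by nlinarith) P' hP' Ds hDs b) P hP
    have h2 : ∑ p ∈ P, w p * Real.exp (-((x - Real.log p) * T) ^ 2 / 2) *
        ‖∑ d ∈ Ds, b d * (((psi d p : ℤ) : ℝ) : ℂ)‖ ^ 2 =
        2 * n * ∑ p ∈ P, Real.log p / p * Real.exp (-((x - Real.log p) * T) ^ 2 / 2) *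
          ‖∑ d ∈ Ds, b d * (psi d p : ℂ)‖ ^ 2 := by
      rw [Finset.mul_sum]
      refine Finset.sum_congr rfl fun p _ => ?_
      simp only [hw, Complex.ofReal_intCast]
      ring
    rw [h2]
    calc 2 * n * ∑ p ∈ P, Real.log p / p * Real.exp (-((x - Real.log p) * T) ^ 2 / 2) *
          ‖∑ d ∈ Ds, b d * (psi d p : ℂ)‖ ^ 2
        ≤ 2 * n * (C₁ * (C / T * ∑ d ∈ Ds, ‖b d‖ ^ 2)) :=
          mul_le_mul_of_nonneg_left h1 (by positivity)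
      _ = _ := by ring
  have h1 := family_mean_value P Ds (fun p : Nat.Primes => Real.log p) w j
    (fun p => (Zd.bq y η q p : ℂ)) (fun d p => ((psi d p : ℤ) : ℝ)) T (2 * n * (C₁ * (C / T)))
    hT0 (by positivity) hw0 hj0 (fun p _ => by
      rw [Complex.norm_real, Real.norm_eq_abs]
      refine (Zd.abs_bq_le hy q p).trans (le_of_eq ?_)
      rw [hlp', hw, hj]
      ring) hB
  refine h1.trans ?_
  have h4 : ∑ p ∈ P, w p * j p ^ 2 ≤ 2 * n * (4 ^ q * (η⁻¹) ^ (2 * q)) * (C₈ / η) := by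
    have h5 : ∀ p ∈ P, w p * j p ^ 2 ≤ 2 * n * (4 ^ q * (η⁻¹) ^ (2 * q)) * Szf.lp η p := by
      intro p _
      have hp : (0 : ℝ) < (p : ℕ) := by exact_mod_cast p.2.pos
      have h6 := Zd.log_pow_sq_le hη q p
      have h7 : w p * j p ^ 2 =
          2 * n * (Real.log p / p) * ((p : ℝ) ^ (-η)) ^ 2 * (Real.log p ^ q / q !) ^ 2 := by
        rw [hw, hj]
        ring
      have hl : 0 ≤ Real.log p := Real.log_natCast_nonneg _
      rw [h7]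
      calc 2 * n * (Real.log p / p) * ((p : ℝ) ^ (-η)) ^ 2 * (Real.log p ^ q / q !) ^ 2
          ≤ 2 * n * (Real.log p / p) * ((p : ℝ) ^ (-η)) ^ 2 *
              (4 ^ q * (η⁻¹) ^ (2 * q) * (p : ℝ) ^ η) := mul_le_mul_of_nonneg_left h6 (by positivity)
        _ = 2 * n * (4 ^ q * (η⁻¹) ^ (2 * q)) * (Real.log p / p * (p : ℝ) ^ (-η)) *
              ((p : ℝ) ^ (-η) * (p : ℝ) ^ η) := by ring
        _ = _ := by
            rw [← Real.rpow_add hp, neg_add_cancel, Real.rpow_zero, mul_one, hlp']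
    refine (Finset.sum_le_sum h5).trans ?_
    rw [← Finset.mul_sum]
    refine mul_le_mul_of_nonneg_left ?_ (by positivity)
    exact ((Szf.summable_lp hη).sum_le_tsum P fun p _ => Szf.lp_nonneg η p).trans (hlp η hη hη1)
  calc 8 * T * (2 * n * (C₁ * (C / T))) * ∑ p ∈ P, w p * j p ^ 2
      ≤ 8 * T * (2 * n * (C₁ * (C / T))) * (2 * n * (4 ^ q * (η⁻¹) ^ (2 * q)) * (C₈ / η)) :=
        mul_le_mul_of_nonneg_left h4 (by positivity)
    _ = 32 * n ^ 2 * (C₁ * (T * (C / T))) * C₈ * 4 ^ q * ((η⁻¹) ^ (2 * q) * η⁻¹) := by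
        rw [div_eq_mul_inv C₈ η]
        ring
    _ = 32 * n ^ 2 * (C₁ * C) * C₈ * 4 ^ q * (η⁻¹) ^ (2 * q + 1) := by
        have e : T * (C / T) = C := by field_simp
        rw [e, pow_succ η⁻¹]
    _ ≤ (32 * n ^ 2 * (C₁ * C) * C₈ + 1) * 4 ^ q * (η⁻¹) ^ (2 * q + 1) := by
        gcongr
        linarith

end Pool.Agent.MPfb225e.Tw
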