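import Mathlib
import Pool.Agent.Lib.MP_fb225e_nt.Tw.Main
import Pool.Agent.Lib.MP_fb225e_nt.Zfr.Split

/-!
MP_fb225e_nt, project TW: almost all quadratic twists have no zeros in a fixed box.
-/

namespace Pool.Agent.MPfb225e.Tw

open NumberField IsDedekindDomain WeierstrassCurve

universe u

/-- A zero of the entire continuation has order at least one. -/
theorem one_le_order {K : Type u} [Field K] [NumberField K] (W : WeierstrassCurve K) {F : ℂ → ℂ}
    (hF : Differentiable ℂ F) (hFL : ∀ s : ℂ, 3 / 2 < s.re → F s = W.LSeries s) {ρ : ℂ}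
    (hρ : F ρ = 0) : 1 ≤ analyticOrderNatAt F ρ := by
  have h0 : ∃ z, F z ≠ 0 := by
    refine ⟨2, ?_⟩
    rw [hFL 2 (by norm_num)]
    exact Zfr.LSeries_ne W (by norm_num)
  have h1 := Zfr.split_order_ne_top hF h0 ρ
  have h2 : analyticOrderAt F ρ ≠ 0 := by
    rw [Ne, (hF.analyticAt ρ).analyticOrderAt_eq_zero]
    exact fun h => h hρ
  rw [Nat.one_le_iff_ne_zero]
  intro h3
  have h4 : (analyticOrderNatAt F ρ : ℕ∞) = analyticOrderAt F ρ := by
    unfold analyticOrderNatAt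
    exact ENat.coe_toNat h1
  rw [h3] at h4
  exact h2 h4.symm

/-- **Almost all quadratic twists have no zeros in a fixed box.** -/
theorem almost_all (n : ℕ) {B δ ε : ℝ} (hB : 0 ≤ B) (hδ : 0 < δ) (hδ1 : δ ≤ 1 / 2)
    (hε : 0 < ε) : ∃ lam C : ℝ, 0 < lam ∧ 0 < C ∧ ∀ (K : Type u) [Field K] [NumberField K]
    (W : WeierstrassCurve K), Module.finrank ℚ K = n → ∀ V : ℤ → WeierstrassCurve K,
    ∀ F : ℤ → ℂ → ℂ, ∀ X : ℝ, 2 ≤ X → ∀ Ds : Finset ℤ,
    (∀ d ∈ Ds, Squarefree d ∧ |(d : ℝ)| ≤ X) →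
    (∀ d ∈ Ds, ∃ C : VariableChange K, C • V d = twist W (d : K)) →
    (∀ d ∈ Ds, Differentiable ℂ (F d)) →
    (∀ d ∈ Ds, ∀ s : ℂ, 3 / 2 < s.re → F d s = (V d).LSeries s) →
    (∀ d ∈ Ds, ∀ s : ℂ, 3 / 2 - δ ≤ s.re → ‖F d s‖ ≤ (|(d : ℝ)| * (|s.im| + 2)) ^ B) →
    (∀ d ∈ Ds, ∃ ρ : ℂ, 3 / 2 - lam ≤ ρ.re ∧ |ρ.im| ≤ X ∧ F d ρ = 0) →
    (Ds.card : ℝ) ≤ C * X ^ ε := by
  classical
  obtain ⟨C, hC, h⟩ := density.{u} n
  have hB2 : 0 < 4 * B + 3 := by linarith
  set lam : ℝ := min (δ / C) (ε * δ / (C * (4 * B + 3))) with hlam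
  have hlam0 : 0 < lam := by
    rw [hlam]
    exact lt_min (by positivity) (by positivity)
  have hlam1 : C * lam ≤ δ := by
    have h1 : lam ≤ δ / C := min_le_left _ _
    rw [le_div_iff₀ hC] at h1
    linarith
  have hlam2 : C * lam / δ * (4 * B + 3) ≤ ε := by
    have h1 : lam ≤ ε * δ / (C * (4 * B + 3)) := min_le_right _ _
    rw [le_div_iff₀ (by positivity)] at h1
    rw [div_mul_eq_mul_div, div_le_iff₀ hδ]
    linarith
  refine ⟨lam, Real.exp (C + Real.log (4 / δ)), hlam0, Real.exp_pos _, ?_⟩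
  intro K _ _ W hn V F X hX Ds hDs hV hF hFL hgrow hzero
  have hX0 : 0 < X := by linarith
  have hX1 : 1 ≤ X := by linarith
  choose! ρ hρ1 hρ2 hρ3 using hzero
  set M : ℝ := 2 * X ^ (4 * B) with hM
  have hX4 : 1 ≤ X ^ (4 * B) := Real.one_le_rpow hX1 (by linarith)
  have hM2 : 2 ≤ M := by rw [hM]; linarith
  have hbound : ∀ d ∈ Ds, ∀ s : ℂ, 3 / 2 - δ ≤ s.re → |s.im| ≤ X + 1 → ‖F d s‖ ≤ M := by
    intro d hd s hs1 hs2
    refine (hgrow d hd s hs1).trans ?_
    have h1 : |(d : ℝ)| * (|s.im| + 2) ≤ X ^ (4 : ℝ) := by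
      have h2 : |(d : ℝ)| * (|s.im| + 2) ≤ X * (X + 3) :=
        mul_le_mul (hDs d hd).2 (by linarith) (by positivity) hX0.le
      have h3 : X * (X + 3) ≤ X ^ 4 := by
        have h4 : 4 ≤ X ^ 2 := by nlinarith
        have h5 : X + 3 ≤ X ^ 3 := by nlinarith
        nlinarith
      have h4 : X ^ (4 : ℝ) = X ^ 4 := by exact_mod_cast Real.rpow_natCast X 4
      rw [h4]
      linarith
    have h6 : (|(d : ℝ)| * (|s.im| + 2)) ^ B ≤ (X ^ (4 : ℝ)) ^ B :=
      Real.rpow_le_rpow (by positivity) h1 hB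
    rw [← Real.rpow_mul hX0.le] at h6
    rw [hM]
    linarith
  have hmain := h K W hn Ds X hX1 hDs V hV F hF hFL δ X M hδ hδ1 hX0.le hM2 hbound lam hlam0.le
    hlam1 (fun d => {ρ d}) (fun d hd x hx => by
      rw [Finset.mem_singleton] at hx
      rw [hx]
      exact ⟨hρ1 d hd, hρ2 d hd⟩)
  have hcard : (Ds.card : ℝ) ≤
      ∑ d ∈ Ds, ∑ x ∈ ({ρ d} : Finset ℂ), (analyticOrderNatAt (F d) x : ℝ) := by
    rw [Finset.card_eq_sum_ones, Nat.cast_sum]
    refine Finset.sum_le_sum fun d hd => ?_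
    rw [Finset.sum_singleton]
    exact_mod_cast one_le_order (V d) (hF d hd) (hFL d hd) (hρ3 d hd)
  refine (hcard.trans hmain).trans ?_
  -- the exponent
  have hL : Zfr.Lg (X * M) X δ ≤ Real.log (4 / δ) + (4 * B + 3) * Real.log X := by
    unfold Zfr.Lg
    have h1 : X * M * (X + 2) / δ ≤ (4 / δ) * X ^ (4 * B + 3) := by
      rw [div_mul_eq_mul_div, div_le_div_iff_of_pos_right hδ]
      have h2 : X ^ (4 * B + 3) = X ^ (4 * B) * X ^ 3 := by
        rw [Real.rpow_add hX0]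
        congr 1
        exact_mod_cast Real.rpow_natCast X 3
      rw [h2, hM]
      have h3 : X * (X + 2) ≤ 2 * X ^ 3 := by
        have : X + 2 ≤ 2 * X ^ 2 := by nlinarith
        nlinarith
      calc X * (2 * X ^ (4 * B)) * (X + 2) = 2 * X ^ (4 * B) * (X * (X + 2)) := by ring
        _ ≤ 2 * X ^ (4 * B) * (2 * X ^ 3) := mul_le_mul_of_nonneg_left h3 (by positivity)
        _ = _ := by ring
    refine (Real.log_le_log (by positivity) h1).trans (le_of_eq ?_)
    rw [Real.log_mul (by positivity) (by positivity), Real.log_rpow hX0]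
  have hlog4 : 0 ≤ Real.log (4 / δ) := Real.log_nonneg (by
    rw [le_div_iff₀ hδ]
    linarith)
  have hlogX : 0 ≤ Real.log X := Real.log_nonneg hX1
  have hkey : C * (1 + lam * (Zfr.Lg (X * M) X δ / δ)) ≤
      (C + Real.log (4 / δ)) + ε * Real.log X := by
    have h1 : C * (1 + lam * (Zfr.Lg (X * M) X δ / δ)) =
        C + C * lam / δ * Zfr.Lg (X * M) X δ := by ring
    have h2 : 0 ≤ C * lam / δ := by positivity
    have h3 : C * lam / δ ≤ 1 := by rwa [div_le_one hδ]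
    rw [h1]
    have h4 := mul_le_mul_of_nonneg_left hL h2
    have h5 : C * lam / δ * (Real.log (4 / δ) + (4 * B + 3) * Real.log X) ≤
        Real.log (4 / δ) + ε * Real.log X := by
      have h6 := mul_le_mul_of_nonneg_right hlam2 hlogX
      have h7 := mul_le_mul_of_nonneg_right h3 hlog4
      linarith
    linarith
  refine (Real.exp_le_exp.2 hkey).trans (le_of_eq ?_)
  rw [Real.exp_add, Real.rpow_def_of_pos hX0, mul_comm ε]

end Pool.Agent.MPfb225e.Tw
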