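import Mathlib
import Pool.Agent.Lib.MP_fb225e_nt.Tw.Char
import Pool.Agent.Lib.MP_fb225e_nt.Tw.Landau
import Pool.Agent.Lib.MP_fb225e_nt.Tw.Unif

/-!
MP_fb225e_nt, project TW, module PageUnif: at most one zero near the edge for all quadratic twists
together, uniformly in the curve.
-/

namespace Pool.Agent.MPfb225e.Tw

open Filter Topology Complex
open NumberField IsDedekindDomain WeierstrassCurve

universe u

/-- The weight of the places of norm not a prime `> 3` prime to `Q`. -/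
theorem bad_places (n : ℕ) : ∃ D : ℝ, 0 < D ∧ ∀ (K : Type u) [Field K] [NumberField K],
    Module.finrank ℚ K = n → ∀ Q : ℤ, Q ≠ 0 → ∀ ε : ℝ, 0 < ε →
    ∑' v : HeightOneSpectrum (𝓞 K),
      {v | ¬ ((Fam.N v).Prime ∧ 3 < Fam.N v ∧ ¬ ((Fam.N v : ℤ) ∣ Q))}.indicator
        (fun v => Real.log (nrm v) * nrm v ^ (-(1 + ε))) v ≤
      D + 4 * (n * Real.log |(Q : ℝ)|) := by
  classical
  obtain ⟨D, hD, h⟩ := mass_dvd.{u} n
  refine ⟨D, hD, ?_⟩
  intro K _ _ hn Q hQ ε hε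
  have h1 := h K hn Q hQ
    (fun v => if (Fam.N v).Prime ∧ 3 < Fam.N v ∧ ¬ ((Fam.N v : ℤ) ∣ Q) then 0 else 1)
    (fun _ => 0) (fun v h1 h2 h3 => by rw [if_pos ⟨h1, h2, h3⟩]) {1} ε hε
  have e1 : ∀ v : HeightOneSpectrum (𝓞 K),
      {v : HeightOneSpectrum (𝓞 K) | (if (Fam.N v).Prime ∧ 3 < Fam.N v ∧
        ¬ ((Fam.N v : ℤ) ∣ Q) then (0 : ℝ) else 1) ∈ ({1} : Set ℝ)}.indicator
        (fun v => Real.log (nrm v) * nrm v ^ (-(1 + ε))) v =
      {v : HeightOneSpectrum (𝓞 K) |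
        ¬ ((Fam.N v).Prime ∧ 3 < Fam.N v ∧ ¬ ((Fam.N v : ℤ) ∣ Q))}.indicator
        (fun v => Real.log (nrm v) * nrm v ^ (-(1 + ε))) v := by
    intro v
    by_cases hv : (Fam.N v).Prime ∧ 3 < Fam.N v ∧ ¬ ((Fam.N v : ℤ) ∣ Q)
    · rw [Set.indicator_of_notMem, Set.indicator_of_notMem]
      · exact fun h => h hv
      · intro h
        rw [Set.mem_ofPred_eq, if_pos hv, Set.mem_singleton_iff] at h
        norm_num at h
    · rw [Set.indicator_of_mem, Set.indicator_of_mem]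
      · exact hv
      · rw [Set.mem_ofPred_eq, if_neg hv, Set.mem_singleton_iff]
  have e2 : ∀ p : Nat.Primes, {p : Nat.Primes | (0 : ℝ) ∈ ({1} : Set ℝ)}.indicator
      (fun p => Szf.lp ε p) p = 0 := by
    intro p
    refine Set.indicator_of_notMem ?_ _
    intro h
    rw [Set.mem_ofPred_eq, Set.mem_singleton_iff] at h
    norm_num at h
  rw [tsum_congr e1, tsum_congr e2, tsum_zero, mul_zero, zero_add] at h1
  exact h1

/-- The two-sided mass of the primes with `|x p| > 2 - η`. -/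
noncomputable def bs2 (x : ℕ → ℝ) (η ε : ℝ) : ℝ :=
  ε * ∑' p : Nat.Primes, {p : Nat.Primes | 2 - η < |x p|}.indicator (fun p => Szf.lp ε p) p

theorem bs_le_bs2 (x : ℕ → ℝ) (d : ℤ) {η ε : ℝ} (hε : 0 < ε) :
    bs (fun p => (psi d p : ℝ) * x p) η ε ≤ bs2 x η ε := by
  unfold bs bs2
  refine mul_le_mul_of_nonneg_left ?_ hε.le
  have hs := Szf.summable_lp hε
  refine (hs.indicator _).tsum_le_tsum (fun p => ?_) (hs.indicator _)
  refine Set.indicator_le_indicator_of_subset ?_ (fun p => Szf.lp_nonneg ε p) p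
  intro q hq
  have hq' : (psi d q : ℝ) * x q < -2 + η := hq
  show 2 - η < |x q|
  have h1 : |(psi d q : ℝ) * x q| ≤ |x q| := by
    rw [abs_mul]
    have : |(psi d q : ℝ)| ≤ 1 := by exact_mod_cast abs_psi_le d q
    exact mul_le_of_le_one_left (abs_nonneg _) this
  have h2 := neg_abs_le ((psi d q : ℝ) * x q)
  linarith

/-- TW: a zero-free region uniform in the curve and in the twist, with at most one exception for
all twists. -/
theorem at_most_one_u (n : ℕ) (η : ℝ) (hη : 0 < η) (hη1 : η ≤ 1) :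
    ∃ c : ℝ, 0 < c ∧ ∃ N : ℕ, ∀ (K : Type u) [Field K] [NumberField K], Module.finrank ℚ K = n →
    ∀ (x : ℕ → ℝ) (Δ : ℤ), (∀ p, |x p| ≤ 2) → Δ ≠ 0 →
    ∀ (Ds : Finset ℤ) (V : ℤ → WeierstrassCurve K), (∀ d ∈ Ds, d ≠ 0) →
    (∀ d ∈ Ds, Agree K (V d) (d * Δ) fun p => (psi d p : ℝ) * x p) →
    ∀ (F : ℤ → ℂ → ℂ), (∀ d ∈ Ds, Differentiable ℂ (F d)) →
    (∀ d ∈ Ds, ∀ s : ℂ, 3 / 2 < s.re → F d s = (V d).LSeries s) →
    ∀ (κ δ T M : ℝ), 0 < δ → δ ≤ 1 / 2 → 0 ≤ T → 2 ≤ M → (∀ d ∈ Ds, |(d : ℝ)| ≤ M) →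
    |(Δ : ℝ)| ≤ M →
    (∀ d ∈ Ds, ∀ s : ℂ, 3 / 2 - δ ≤ s.re → |s.im| ≤ N * (T + 1) → ‖F d s‖ ≤ M) →
    (∀ x : ℝ, 1 ≤ x →
      |(Nat.card {J : Ideal (𝓞 K) // J ≠ ⊥ ∧ (Ideal.absNorm J : ℝ) ≤ x} : ℝ) - κ * x| ≤
        M * x ^ (1 - δ)) →
    (∀ d ∈ Ds, ∀ d' ∈ Ds, d ≠ d' → ∀ x : ℝ, 1 ≤ x →
      |∑ k ∈ Finset.Icc 1 ⌊x⌋₊, (psi (d * d') k : ℝ) *
        (Nat.card {J : Ideal (𝓞 K) // Ideal.absNorm J = k} : ℝ)| ≤ M * x ^ (1 - δ)) →
    (∀ ε : ℝ, c * δ / Zfr.Lg M T δ ≤ ε → ε ≤ δ / Zfr.Lg M T δ → bs2 x η ε ≤ η / (16 * n)) →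
    ∃ (d₀ : ℤ) (β : ℝ), ∀ d ∈ Ds, ∀ ρ : ℂ, 3 / 2 - c * δ / Zfr.Lg M T δ < ρ.re → |ρ.im| ≤ T →
      F d ρ = 0 → d = d₀ ∧ ρ = β ∧ analyticOrderNatAt (F d) ρ = 1 := by
  classical
  obtain ⟨c₁, hc₁, θ₁, hθ₁, hθ₁1, N, hone⟩ := single_u.{u} n η hη hη1
  obtain ⟨D, hD0, hbad⟩ := bad_places.{u} n
  obtain ⟨D₂, hD₂0, hmass⟩ := mass_dvd.{u} n
  obtain ⟨κL, hκL, hlandau⟩ := landau_abstract.{u} η hη hη1
  set κ₃ : ℝ := min (κL / 3) 1 with hκ₃
  have hκ₃0 : 0 < κ₃ := by positivity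
  have hκ₃1 : κ₃ ≤ 1 := min_le_right _ _
  have hκ₃L : 3 * κ₃ ≤ κL := by
    have := min_le_left (κL / 3) 1
    linarith
  obtain ⟨θ₂, hθ₂, hcurve⟩ := Zfr.one_sided_curve'.{u} n 0 1 κ₃ hκ₃0 hκ₃1
  obtain ⟨θ₃, hθ₃, hzeta⟩ := Zfr.one_sided_zeta'.{u} n 0 κ₃ hκ₃0
  obtain ⟨θ₄, hθ₄, hchar⟩ := one_sided_char.{u} n κ₃ hκ₃0
  set C' : ℝ := D + D₂ + 8 * n with hC'
  have hC'0 : 0 < C' := by positivity
  set θ : ℝ := min (min (min θ₁ θ₂) (min θ₃ θ₄)) (min (1 / 32 / C') (κ₃ / 4 / C')) with hθ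
  have hθ0 : 0 < θ := by positivity
  have hθa : θ ≤ θ₁ := (min_le_left _ _).trans ((min_le_left _ _).trans (min_le_left _ _))
  have hθb : θ ≤ θ₂ := (min_le_left _ _).trans ((min_le_left _ _).trans (min_le_right _ _))
  have hθc : θ ≤ θ₃ := (min_le_left _ _).trans ((min_le_right _ _).trans (min_le_left _ _))
  have hθd : θ ≤ θ₄ := (min_le_left _ _).trans ((min_le_right _ _).trans (min_le_right _ _))
  have hθf : θ * C' ≤ 1 / 32 := by
    have : θ ≤ 1 / 32 / C' := (min_le_right _ _).trans (min_le_left _ _)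
    rwa [le_div_iff₀ hC'0] at this
  have hθg : θ * C' ≤ κ₃ / 4 := by
    have : θ ≤ κ₃ / 4 / C' := (min_le_right _ _).trans (min_le_right _ _)
    rwa [le_div_iff₀ hC'0] at this
  have hθ1 : θ ≤ 1 := hθa.trans hθ₁1
  set c : ℝ := min c₁ (κ₃ * θ) with hc
  have hc0 : 0 < c := by positivity
  have hcc₁ : c ≤ c₁ := min_le_left _ _
  have hccθ : c ≤ κ₃ * θ := min_le_right _ _
  have hcθ : c ≤ θ := hccθ.trans (mul_le_of_le_one_left hθ0.le hκ₃1)
  refine ⟨c, hc0, N + 1, ?_⟩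
  intro K _ _ hn x Δ hx hΔ Ds V hDs hV F hF hFL κ δ T M hδ hδ1 hT hM hDM hΔM hFM hcount hcs hbias
  have hL2 := Zfr.two_le_Lg hδ hδ1 hT hM
  have hLM := Zfr.log_M_le hδ hδ1 hT hM
  set Lg := Zfr.Lg M T δ with hLg
  have hLpos : 0 < Lg := by linarith
  set ε : ℝ := θ * δ / Lg with hε
  have hε0 : 0 < ε := by positivity
  have hεθ : ε ≤ θ := by
    rw [hε, div_le_iff₀ hLpos]
    nlinarith
  have hεL : ε * Lg ≤ θ := by
    rw [hε, div_mul_cancel₀ _ hLpos.ne']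
    nlinarith
  have hεlow : c * δ / Lg ≤ ε :=
    div_le_div_of_nonneg_right (mul_le_mul_of_nonneg_right hcθ hδ.le) hLpos.le
  have hεupp : ε ≤ δ / Lg :=
    div_le_div_of_nonneg_right (mul_le_of_le_one_left hδ.le hθ1) hLpos.le
  have hnr : (0 : ℝ) ≤ n := Nat.cast_nonneg n
  have hlog : ∀ Q : ℤ, Q ≠ 0 → |(Q : ℝ)| ≤ M ^ 2 →
      ε * (4 * (n * Real.log |(Q : ℝ)|)) ≤ θ * (8 * n) := by
    intro Q hQ hQM
    have hQ0 : (0 : ℝ) < |(Q : ℝ)| := abs_pos.2 (by exact_mod_cast hQ)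
    have h1 := Real.log_le_log hQ0 hQM
    rw [Real.log_pow] at h1
    push_cast at h1
    have h2 : ε * Real.log |(Q : ℝ)| ≤ 2 * θ := by
      have := mul_le_mul_of_nonneg_left (h1.trans (by linarith : 2 * Real.log M ≤ 2 * Lg)) hε0.le
      linarith
    have h7 : (n : ℝ) * (ε * Real.log |(Q : ℝ)|) ≤ n * (2 * θ) :=
      mul_le_mul_of_nonneg_left h2 hnr
    linarith
  have hQ0 : ∀ d ∈ Ds, d * Δ ≠ 0 := fun d hd => mul_ne_zero (hDs d hd) hΔ
  have hQM : ∀ d ∈ Ds, |((d * Δ : ℤ) : ℝ)| ≤ M ^ 2 := by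
    intro d hd
    push_cast
    rw [abs_mul, sq]
    exact mul_le_mul (hDM d hd) hΔM (abs_nonneg _) (by linarith)
  have hΔM2 : |(Δ : ℝ)| ≤ M ^ 2 := by nlinarith
  -- the function on the places
  set X : HeightOneSpectrum (𝓞 K) → ℝ := fun v => x (Fam.N v) with hX
  have hX2 : ∀ v, |X v| ≤ 2 := fun v => hx _
  -- the mass of the places with large `x`
  have hplaces : ∑' v : HeightOneSpectrum (𝓞 K),
      {v | 2 - η < |X v|}.indicator (fun v => wte ε v) v ≤ 1 / 16 + 1 / 32 := by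
    have h1 : ∑' v : HeightOneSpectrum (𝓞 K), {v | 2 - η < |X v|}.indicator
        (fun v => Real.log (nrm v) * nrm v ^ (-(1 + ε))) v ≤ _ :=
      hmass K hn Δ hΔ X x (fun v _ _ _ => rfl) {z : ℝ | 2 - η < |z|} ε hε0
    have hb := hbias ε hεlow hεupp
    unfold bs2 at hb
    rw [tsum_ind_wte]
    have h2 := mul_le_mul_of_nonneg_left h1 hε0.le
    refine h2.trans ?_
    set P := ∑' p : Nat.Primes, {p : Nat.Primes | 2 - η < |x p|}.indicator
      (fun p => Szf.lp ε p) p with hP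
    have hPn : ε * (n * P) ≤ 1 / 16 := by
      rcases Nat.eq_zero_or_pos n with h0 | h0
      · rw [h0]; simp
      · have hn0 : (0 : ℝ) < n := by exact_mod_cast h0
        have h6 : n * (ε * P) ≤ n * (η / (16 * n)) := mul_le_mul_of_nonneg_left hb hn0.le
        have h7 : n * (η / (16 * n)) = η / 16 := by field_simp
        rw [h7] at h6
        linarith
    have h3 : ε * D₂ ≤ θ * D₂ := mul_le_mul_of_nonneg_right hεθ hD₂0.le
    have h4 := hlog Δ hΔ hΔM2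
    have h5 : θ * C' = θ * D + θ * D₂ + θ * (8 * n) := by rw [hC']; ring
    have h6 : 0 ≤ θ * D := by positivity
    have e : ε * (n * P + (D₂ + 4 * (n * Real.log |(Δ : ℝ)|))) =
        ε * (n * P) + ε * D₂ + ε * (4 * (n * Real.log |(Δ : ℝ)|)) := by ring
    have h8 : ε * (n * ∑' p : Nat.Primes, {p : Nat.Primes | x p ∈ {z : ℝ | 2 - η < |z|}}.indicator
        (fun p => Szf.lp ε p) p + (D₂ + 4 * (n * Real.log |(Δ : ℝ)|))) =
        ε * (n * P + (D₂ + 4 * (n * Real.log |(Δ : ℝ)|))) := rfl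
    rw [h8, e]
    linarith
  -- a single curve
  have hsingle : ∀ d ∈ Ds, ∃ β : ℝ, ∀ ρ : ℂ, 3 / 2 - c * δ / Lg < ρ.re → |ρ.im| ≤ T →
      F d ρ = 0 → ρ = β ∧ analyticOrderNatAt (F d) ρ = 1 := by
    intro d hd
    have hb1 : bs (fun p => (psi d p : ℝ) * x p) η (θ₁ * δ / Zfr.Lg M T δ) ≤ η / (16 * n) := by
      refine (bs_le_bs2 x d (by positivity)).trans (hbias _ ?_ ?_)
      · exact div_le_div_of_nonneg_right (mul_le_mul_of_nonneg_right (hcθ.trans hθa) hδ.le)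
          hLpos.le
      · exact div_le_div_of_nonneg_right (mul_le_of_le_one_left hδ.le hθ₁1) hLpos.le
    obtain ⟨β, hβ⟩ := hone K hn (V d) (d * Δ) (fun p => (psi d p : ℝ) * x p) (hQ0 d hd) (hV d hd)
      (F d) (hF d hd) (hFL d hd) κ δ T M hδ hδ1 hT hM (hQM d hd) (fun s hs hs' =>
        hFM d hd s hs (by push_cast; nlinarith)) hcount hb1
    refine ⟨β, fun ρ hρ => hβ ρ ?_⟩
    have h1 : c * δ / Lg ≤ c₁ * δ / Lg :=
      div_le_div_of_nonneg_right (mul_le_mul_of_nonneg_right hcc₁ hδ.le) hLpos.le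
    linarith
  -- two different twists
  have htwo : ∀ d ∈ Ds, ∀ d' ∈ Ds, d ≠ d' → ∀ β β' : ℝ, 3 / 2 - c * δ / Lg < β →
      3 / 2 - c * δ / Lg < β' → F d β = 0 → F d' β' = 0 → False := by
    intro d hd d' hd' hne β β' hβ hβ' h0 h0'
    have hs : Summable fun v : HeightOneSpectrum (𝓞 K) => wte ε v := summable_wte hε0
    -- the sums for one twist
    have hone : ∀ e ∈ Ds, ∀ b : ℝ, 3 / 2 - c * δ / Lg < b → F e b = 0 →
        ∑' v : HeightOneSpectrum (𝓞 K), wte ε v * ((psi e (Fam.N v) : ℝ) * X v) ≤ -1 + κL := by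
      intro e he b hb hb0
      obtain ⟨F₁, hF₁, hfac₁⟩ := Zfr.split_one (hF e he) hb0
      have h1 := hcurve K (V e) hn (F e) (hF e he) (hFL e he) κ δ T M θ hδ hδ1 hT hM hθ0 hθb
        (fun s hs hs' => hFM e he s hs (by
          push_cast at hs' ⊢
          have : (0 : ℝ) ≤ N := Nat.cast_nonneg N
          nlinarith)) hcount (fun _ => (b : ℂ)) F₁ hF₁
        (fun z => by rw [hfac₁, Fin.prod_univ_one]) ε hε (fun j => by
          rw [Complex.ofReal_re]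
          refine le_of_lt (lt_of_le_of_lt ?_ hb)
          have h3 : c * δ / Lg ≤ κ₃ * ε := by
            have h4 : κ₃ * ε = κ₃ * θ * δ / Lg := by rw [hε]; ring
            rw [h4]
            exact div_le_div_of_nonneg_right (mul_le_mul_of_nonneg_right hccθ hδ.le) hLpos.le
          linarith) 0 (by simp)
      have h2 : ∑' v : HeightOneSpectrum (𝓞 K), wte ε v * Zfr.xK (V e) v ≤ -1 + 2 * κ₃ := by
        refine le_trans (le_of_eq ?_) (h1.trans (le_of_eq ?_))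
        · refine tsum_congr fun v => ?_
          rw [zero_mul, Real.cos_zero, mul_one]
          rfl
        · rw [Fin.sum_univ_one, Complex.ofReal_im, sub_zero, Zfr.gk_zero]
          ring
      set A₂ : Set (HeightOneSpectrum (𝓞 K)) :=
        {v | ¬ ((Fam.N v).Prime ∧ 3 < Fam.N v ∧ ¬ ((Fam.N v : ℤ) ∣ e * Δ))} with hA₂
      have hs2 := hs.indicator A₂
      have hsx : Summable fun v : HeightOneSpectrum (𝓞 K) => wte ε v * Zfr.xK (V e) v := by
        refine Summable.of_norm_bounded (hs.mul_right 2) fun v => ?_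
        rw [Real.norm_eq_abs, abs_mul, abs_of_nonneg (wte_nonneg hε0 v)]
        exact mul_le_mul_of_nonneg_left (Zfr.abs_xK_le _ v) (wte_nonneg hε0 v)
      have hpx : ∀ v, |(psi e (Fam.N v) : ℝ) * X v| ≤ 2 := by
        intro v
        rw [abs_mul]
        have h3 : |(psi e (Fam.N v) : ℝ)| ≤ 1 := by exact_mod_cast abs_psi_le e (Fam.N v)
        exact (mul_le_of_le_one_left (abs_nonneg _) h3).trans (hX2 v)
      have hspx : Summable fun v : HeightOneSpectrum (𝓞 K) => wte ε v *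
          ((psi e (Fam.N v) : ℝ) * X v) := by
        refine Summable.of_norm_bounded (hs.mul_right 2) fun v => ?_
        rw [Real.norm_eq_abs, abs_mul, abs_of_nonneg (wte_nonneg hε0 v)]
        exact mul_le_mul_of_nonneg_left (hpx v) (wte_nonneg hε0 v)
      have h3 : ∑' v : HeightOneSpectrum (𝓞 K), wte ε v * ((psi e (Fam.N v) : ℝ) * X v) ≤
          ∑' v : HeightOneSpectrum (𝓞 K), wte ε v * Zfr.xK (V e) v +
            4 * ∑' v, A₂.indicator (fun v => wte ε v) v := by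
        rw [← tsum_mul_left, ← hsx.tsum_add (hs2.mul_left 4)]
        refine hspx.tsum_le_tsum (fun v => ?_) (hsx.add (hs2.mul_left 4))
        have hw := wte_nonneg hε0 v
        by_cases hv : v ∈ A₂
        · rw [Set.indicator_of_mem hv]
          have h4 := (abs_le.1 (hpx v)).2
          have h5 := (abs_le.1 (Zfr.abs_xK_le (V e) v)).1
          nlinarith
        · rw [Set.indicator_of_notMem hv, mul_zero, add_zero]
          rw [hA₂, Set.mem_ofPred_eq, not_not] at hv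
          rw [hV e he v hv.1 hv.2.1 hv.2.2]
      have h4 : ∑' v : HeightOneSpectrum (𝓞 K), A₂.indicator (fun v => wte ε v) v ≤ κ₃ / 4 := by
        rw [tsum_ind_wte]
        refine (mul_le_mul_of_nonneg_left (hbad K hn (e * Δ) (hQ0 e he) ε hε0) hε0.le).trans ?_
        have h5 := hlog (e * Δ) (hQ0 e he) (hQM e he)
        have h6 : ε * D ≤ θ * D := mul_le_mul_of_nonneg_right hεθ hD0.le
        have h7 : θ * C' = θ * D + θ * D₂ + θ * (8 * n) := by rw [hC']; ring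
        have h8 : 0 ≤ θ * D₂ := by positivity
        linarith
      linarith
    have hW1 : ∑' v : HeightOneSpectrum (𝓞 K), wte ε v ≤ 1 + κL := by
      have h1 := hzeta K hn κ δ T M θ hδ hδ1 hT hM hθ0 hθc hcount ε hε 0 (by simp)
      have h2 : ∑' v : HeightOneSpectrum (𝓞 K), wte ε v ≤ κ₃ + 1 := by
        refine le_trans (le_of_eq ?_) (h1.trans (le_of_eq ?_))
        · refine tsum_congr fun v => ?_
          rw [zero_mul, Real.cos_zero, mul_one]
          rfl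
        · rw [Zfr.gk_zero]
      linarith
    have hab : ∑' v : HeightOneSpectrum (𝓞 K), wte ε v *
        ((psi d (Fam.N v) : ℝ) * (psi d' (Fam.N v) : ℝ)) ≤ κL := by
      have h1 := hchar K hn (d * d') κ δ T M θ hδ hδ1 hT hM hθ0 hθd hcount
        (hcs d hd d' hd' hne) ε hε
      refine le_trans (le_of_eq ?_) (h1.trans (by linarith))
      refine tsum_congr fun v => ?_
      rw [psi_mul_left]
      push_cast
      rfl
    have h1 := hlandau (fun v : HeightOneSpectrum (𝓞 K) => wte ε v)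
      X (fun v => (psi d (Fam.N v) : ℝ)) (fun v => (psi d' (Fam.N v) : ℝ))
      (wte_nonneg hε0) hs hX2 (fun v => psi_three _ _) (fun v => psi_three _ _) hW1 hab
      (hone d hd β hβ h0) (hone d' hd' β' hβ' h0')
    linarith
  -- conclusion
  by_cases hex : ∃ d ∈ Ds, ∃ ρ : ℂ, 3 / 2 - c * δ / Lg < ρ.re ∧ |ρ.im| ≤ T ∧ F d ρ = 0
  · obtain ⟨d₀, hd₀, ρ₀, h1, h2, h3⟩ := hex
    obtain ⟨β, hβ⟩ := hsingle d₀ hd₀
    refine ⟨d₀, β, ?_⟩
    intro d hd ρ hρ hρT h0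
    have hdd : d = d₀ := by
      by_contra hne
      obtain ⟨β', hβ'⟩ := hsingle d hd
      obtain ⟨h4, -⟩ := hβ ρ₀ h1 h2 h3
      obtain ⟨h5, -⟩ := hβ' ρ hρ hρT h0
      rw [h4, Complex.ofReal_re] at h1
      rw [h5, Complex.ofReal_re] at hρ
      rw [h4] at h3
      rw [h5] at h0
      exact htwo d hd d₀ hd₀ hne β' β hρ h1 h0 h3
    subst hdd
    obtain ⟨h4, h5⟩ := hβ ρ hρ hρT h0
    exact ⟨rfl, h4, h5⟩
  · push Not at hex
    exact ⟨0, 0, fun d hd ρ hρ hρT h0 => absurd h0 (hex d hd ρ hρ hρT)⟩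

end Pool.Agent.MPfb225e.Tw
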