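import Mathlib
import Pool.Agent.Lib.MP_fb225e_nt.Tw.Unif
import Pool.Agent.Lib.MP_fb225e_nt.Tw.RatCount
import Pool.Agent.Lib.MP_fb225e_nt.Szf.Main

/-!
MP_fb225e_nt, project TW, part T4: no Siegel zeros, uniformly in the elliptic curve over the
rationals. The curves over number fields enter through the numbers `x_v` at the places of degree
one, which are given by a function on the rational primes.
-/

namespace Pool.Agent.MPfb225e.Tw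

open Filter Topology Complex
open NumberField IsDedekindDomain WeierstrassCurve

universe u

/-- The error term of the comparison of places and primes, at the scale. -/
theorem scale_log_u {θ δ M ε D : ℝ} {Q : ℤ} (n : ℕ) (hθ : 0 < θ) (hδ : 0 < δ) (hδ1 : δ ≤ 1 / 2)
    (hM : 2 ≤ M) (hD : 0 < D) (hQ : Q ≠ 0) (hQM : |(Q : ℝ)| ≤ M ^ 2)
    (hε : ε = θ * δ / Zfr.Lg M 0 δ) :
    ε * (D + 4 * (n * Real.log |(Q : ℝ)|)) ≤ θ * (D + 8 * n) := by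
  obtain ⟨hε0, hεθ⟩ := Szf.scale hθ hδ hδ1 hM hε
  have hL2 := Zfr.two_le_Lg hδ hδ1 (le_refl (0 : ℝ)) hM
  have hLM := Zfr.log_M_le hδ hδ1 (le_refl (0 : ℝ)) hM
  have h3 : Real.log |(Q : ℝ)| ≤ 2 * Zfr.Lg M 0 δ := by
    have hQ0 : (0 : ℝ) < |(Q : ℝ)| := abs_pos.2 (by exact_mod_cast hQ)
    have h1 := Real.log_le_log hQ0 hQM
    rw [Real.log_pow] at h1
    push_cast at h1
    linarith
  have h4 : ε * Zfr.Lg M 0 δ ≤ θ := by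
    rw [hε, div_mul_cancel₀ _ (by linarith : Zfr.Lg M 0 δ ≠ 0)]
    nlinarith
  have h5 : ε * Real.log |(Q : ℝ)| ≤ 2 * θ := by
    have := mul_le_mul_of_nonneg_left h3 hε0.le
    linarith
  have h6 : (n : ℝ) * (ε * Real.log |(Q : ℝ)|) ≤ n * (2 * θ) :=
    mul_le_mul_of_nonneg_left h5 (Nat.cast_nonneg n)
  have h7 : ε * D ≤ θ * D := mul_le_mul_of_nonneg_right hεθ hD.le
  nlinarith

/-- A zero near `3/2` of the L-function, in terms of the rational primes. -/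
theorem zero_primes_u (n : ℕ) (κ' : ℝ) (hκ' : 0 < κ') (hκ1 : κ' ≤ 1) : ∃ θ₀ : ℝ, 0 < θ₀ ∧
    ∀ θ : ℝ, 0 < θ → θ ≤ θ₀ → ∀ (K : Type u) [Field K] [NumberField K],
    Module.finrank ℚ K = n → ∀ (V : WeierstrassCurve K) (Q : ℤ) (y : ℕ → ℝ), Q ≠ 0 →
    (∀ p, |y p| ≤ 2) → Agree K V Q y → ∀ (F : ℂ → ℂ), Differentiable ℂ F →
    (∀ s : ℂ, 3 / 2 < s.re → F s = V.LSeries s) → ∀ (δ M : ℝ), 0 < δ → δ ≤ 1 / 2 → 2 ≤ M →
    |(Q : ℝ)| ≤ M ^ 2 → (∀ s : ℂ, 3 / 2 - δ ≤ s.re → |s.im| ≤ 1 → ‖F s‖ ≤ M) → Szf.Cnt K δ M →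
    ∀ ε : ℝ, ε = θ * δ / Zfr.Lg M 0 δ → ∀ ρ : ℂ, F ρ = 0 → 3 / 2 - κ' * ε ≤ ρ.re →
    |ρ.im| ≤ κ' * ε →
    ε * ∑' p : Nat.Primes, Szf.lp ε p * (Fam.homCount K p * y p) ≤ -1 + 4 * κ' := by
  obtain ⟨θ₁, hθ₁, h⟩ := zero_places_c.{u} n κ' hκ' hκ1
  obtain ⟨D, hD, hpp⟩ := compare_dvd.{u} n
  refine ⟨min θ₁ (κ' / (D + 8 * n)), by positivity, ?_⟩
  intro θ hθ hθ0 K _ _ hn V Q y hQ hy hag F hF hFL δ M hδ hδ1 hM hQM hFM hcnt ε hε ρ hρ0 hρ hρi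
  have h1 : θ ≤ θ₁ := hθ0.trans (min_le_left _ _)
  have h2 : θ ≤ κ' / (D + 8 * n) := hθ0.trans (min_le_right _ _)
  rw [le_div_iff₀ (by positivity)] at h2
  obtain ⟨hε0, -⟩ := Szf.scale hθ hδ hδ1 hM hε
  have h5 := h θ hθ h1 K V hn F hF hFL δ M hδ hδ1 hM hFM hcnt ε hε ρ hρ0 hρ hρi
  have h6 := hpp K hn Q hQ (Zfr.xK V) y (Zfr.abs_xK_le V) hy hag ε hε0
  have h7 := scale_log_u n hθ hδ hδ1 hM hD hQ hQM hε
  rw [tsum_mul_eps] at h5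
  have h8 := mul_le_mul_of_nonneg_left (abs_le.1 h6).1 hε0.le
  nlinarith

/-- No zero near `3/2`: the mean value is small, in terms of the rational primes. -/
theorem small_primes_u (n : ℕ) (c₁ κ' : ℝ) (hc₁ : 0 < c₁) (hκ' : 0 < κ') : ∃ θ₀ : ℝ, 0 < θ₀ ∧
    ∀ θ : ℝ, 0 < θ → θ ≤ θ₀ → ∀ (K : Type u) [Field K] [NumberField K],
    Module.finrank ℚ K = n → ∀ (V : WeierstrassCurve K) (Q : ℤ) (y : ℕ → ℝ), Q ≠ 0 →
    (∀ p, |y p| ≤ 2) → Agree K V Q y → ∀ (F : ℂ → ℂ), Differentiable ℂ F →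
    (∀ s : ℂ, 3 / 2 < s.re → F s = V.LSeries s) → ∀ (δ M : ℝ), 0 < δ → δ ≤ 1 / 2 → 2 ≤ M →
    |(Q : ℝ)| ≤ M ^ 2 → (∀ s : ℂ, 3 / 2 - δ ≤ s.re → |s.im| ≤ 1 → ‖F s‖ ≤ M) → Szf.Cnt K δ M →
    (∀ z : ℂ, ‖z - 3 / 2‖ < c₁ * δ / Zfr.Lg M 0 δ → F z ≠ 0) →
    ∀ ε : ℝ, ε = θ * δ / Zfr.Lg M 0 δ →
    |ε * ∑' p : Nat.Primes, Szf.lp ε p * (Fam.homCount K p * y p)| ≤ κ' := by
  obtain ⟨θ₁, hθ₁, h⟩ := Szf.curve_two_sided.{u} n 0 c₁ (κ' / 2) hc₁ (by positivity)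
  obtain ⟨D, hD, hpp⟩ := compare_dvd.{u} n
  refine ⟨min θ₁ (κ' / 2 / (D + 8 * n)), by positivity, ?_⟩
  intro θ hθ hθ0 K _ _ hn V Q y hQ hy hag F hF hFL δ M hδ hδ1 hM hQM hFM hcnt hnz ε hε
  obtain ⟨κ, hcount⟩ := hcnt
  have h1 : θ ≤ θ₁ := hθ0.trans (min_le_left _ _)
  have h2 : θ ≤ κ' / 2 / (D + 8 * n) := hθ0.trans (min_le_right _ _)
  rw [le_div_iff₀ (by positivity)] at h2
  obtain ⟨hε0, -⟩ := Szf.scale hθ hδ hδ1 hM hε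
  have h5 := h θ hθ h1 K V hn F hF hFL κ δ M hδ hδ1 hM hFM hcount Fin.elim0 F hF
    (fun z => by simp) (fun j => j.elim0) hnz ε hε
  have h6 := hpp K hn Q hQ (Zfr.xK V) y (Zfr.abs_xK_le V) hy hag ε hε0
  have h7 := scale_log_u n hθ hδ hδ1 hM hD hQ hQM hε
  rw [tsum_mul_eps] at h5
  simp only [Finset.univ_eq_empty, Finset.sum_empty, add_zero] at h5
  obtain ⟨h8, h9⟩ := abs_le.1 h6
  have h10 := mul_le_mul_of_nonneg_left h8 hε0.le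
  have h11 := mul_le_mul_of_nonneg_left h9 hε0.le
  rw [abs_le] at h5 ⊢
  constructor <;> nlinarith [h5.1, h5.2]

/-- If the numbers `m y_p` are not concentrated near the integers then the L-function over `ℚ` has
no zero near the edge. -/
theorem no_zero_u (m : ℕ) (η : ℝ) (hη : 0 < η) :
    ∃ c₀ : ℝ, 0 < c₀ ∧ ∃ θ : ℝ, 0 < θ ∧ θ ≤ 1 ∧ ∀ (V : WeierstrassCurve ℚ) (Q : ℤ) (y : ℕ → ℝ),
      Q ≠ 0 → (∀ p, |y p| ≤ 2) → Agree ℚ V Q y → ∀ F₀ : ℂ → ℂ, Differentiable ℂ F₀ →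
      (∀ s : ℂ, 3 / 2 < s.re → F₀ s = V.LSeries s) → ∀ δ M : ℝ, 0 < δ → δ ≤ 1 / 2 → 2 ≤ M →
      |(Q : ℝ)| ≤ M ^ 2 → (∀ s : ℂ, 3 / 2 - δ ≤ s.re → |s.im| ≤ 1 → ‖F₀ s‖ ≤ M) →
      (∀ ε : ℝ, ε = θ * δ / Zfr.Lg M 0 δ → ε * ∑' p : Nat.Primes, Szf.lp ε p *
        ((m * y p) ^ 2 - Szf.dz (m * y p)) ≤ (m : ℝ) ^ 2 - η) →
      ∀ z : ℂ, ‖z - 3 / 2‖ < c₀ * δ / Zfr.Lg M 0 δ → F₀ z ≠ 0 := by
  classical
  set κ : ℝ := min (η / (2 * (9 * (m : ℝ) ^ 2 + 1))) 1 with hκ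
  have hκ0 : 0 < κ := by positivity
  have hκ1 : κ ≤ 1 := min_le_right _ _
  have hκ2 : 9 * (m : ℝ) ^ 2 * κ < η := by
    have h1 : κ ≤ η / (2 * (9 * (m : ℝ) ^ 2 + 1)) := min_le_left _ _
    rw [le_div_iff₀ (by positivity)] at h1
    nlinarith
  obtain ⟨θ₁, hθ₁, hz⟩ := zero_primes_u.{0} 1 κ hκ0 hκ1
  have hev2 := Szf.rat_one κ hκ0
  rw [eventually_nhdsWithin_iff, Metric.eventually_nhds_iff] at hev2
  obtain ⟨r, hr, hev2⟩ := hev2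
  set θ : ℝ := min (min θ₁ (r / 2)) 1 with hθ
  have hθ0 : 0 < θ := by positivity
  refine ⟨κ * θ, by positivity, θ, hθ0, min_le_right _ _, ?_⟩
  intro V Q y hQ hy hag F₀ hF₀ hFL₀ δ M hδ hδ1 hM hQM hFM hsp z hz0 h0
  set ε : ℝ := θ * δ / Zfr.Lg M 0 δ with hε
  have he2 := hsp ε rfl
  obtain ⟨hε0, hεθ⟩ := Szf.scale hθ0 hδ hδ1 hM hε
  have hεr : dist ε 0 < r := by
    rw [Real.dist_eq, sub_zero, abs_of_pos hε0]
    have : θ ≤ r / 2 := (min_le_left _ _).trans (min_le_right _ _)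
    linarith
  have he1 := hev2 hεr hε0
  have hcε : κ * θ * δ / Zfr.Lg M 0 δ = κ * ε := by rw [hε]; ring
  rw [hcε] at hz0
  have hre : |z.re - 3 / 2| ≤ κ * ε := by
    have h1 := Complex.abs_re_le_norm (z - 3 / 2)
    have h2 : (z - 3 / 2).re = z.re - 3 / 2 := by simp
    rw [h2] at h1
    linarith
  have him : |z.im| ≤ κ * ε := by
    have h1 := Complex.abs_im_le_norm (z - 3 / 2)
    have h2 : (z - 3 / 2).im = z.im := by simp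
    rw [h2] at h1
    linarith
  have h1 := hz θ hθ0 ((min_le_left _ _).trans (min_le_left _ _)) ℚ (Module.finrank_self ℚ) V Q y
    hQ hy hag F₀ hF₀ hFL₀ δ M hδ hδ1 hM hQM hFM (cnt_rat hδ1 hM) ε hε z h0
    (by linarith [(abs_le.1 hre).1]) him
  have e : (∑' p : Nat.Primes, Szf.lp ε p * (Fam.homCount ℚ p * y p)) =
      ∑' p : Nat.Primes, Szf.lp ε p * y p := by
    refine tsum_congr fun p => ?_
    rw [Fam.homCount_rat, Nat.cast_one, one_mul]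
  rw [e] at h1
  -- the contradiction
  have hs1 : Summable fun p : Nat.Primes => Szf.lp ε p * y p :=
    Szf.summable_lp_mul hε0 (C := 2) fun p => hy p
  have hs2 : Summable fun p : Nat.Primes => Szf.lp ε p * ((m * y p) ^ 2 - Szf.dz (m * y p)) :=
    Szf.summable_lp_mul hε0 (C := ((m : ℝ) * 2) ^ 2) fun p => by
      have e1 := Szf.dz_le (m * y p) 0
      rw [Int.cast_zero, zero_add] at e1
      have e2 := Szf.dz_nonneg (m * y p)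
      have e3 : (m * y p) ^ 2 ≤ ((m : ℝ) * 2) ^ 2 := by
        rw [← sq_abs, abs_mul, abs_of_nonneg (Nat.cast_nonneg m)]
        exact pow_le_pow_left₀ (by positivity)
          (mul_le_mul_of_nonneg_left (hy p) (Nat.cast_nonneg m)) 2
      rw [abs_of_nonneg (by linarith)]
      linarith
  have hpos : 0 ≤ ∑' p : Nat.Primes, Szf.lp ε p * ((m * y p + m) ^ 2 - Szf.dz (m * y p)) := by
    refine tsum_nonneg fun p => mul_nonneg (Szf.lp_nonneg ε p) ?_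
    have e1 := Szf.dz_le (m * y p) m
    have e2 : ((m : ℤ) : ℝ) + m * y p = m * y p + m := by push_cast; ring
    rw [e2] at e1
    linarith
  have hsum : (∑' p : Nat.Primes, Szf.lp ε p * ((m * y p + m) ^ 2 - Szf.dz (m * y p))) =
      (∑' p : Nat.Primes, Szf.lp ε p * ((m * y p) ^ 2 - Szf.dz (m * y p))) +
      (2 * (m : ℝ) ^ 2 * (∑' p : Nat.Primes, Szf.lp ε p * y p) +
        (m : ℝ) ^ 2 * ∑' p, Szf.lp ε p) := by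
    rw [← tsum_mul_left, ← tsum_mul_left,
      ← (hs1.mul_left _).tsum_add ((Szf.summable_lp hε0).mul_left _),
      ← hs2.tsum_add ((hs1.mul_left _).add ((Szf.summable_lp hε0).mul_left _))]
    exact tsum_congr fun p => by ring
  rw [hsum] at hpos
  have h6 := mul_nonneg hε0.le hpos
  rw [mul_add, mul_add] at h6
  have h7 : (m : ℝ) ^ 2 * (ε * ∑' p : Nat.Primes, Szf.lp ε p * y p) ≤
      (m : ℝ) ^ 2 * (-1 + 4 * κ) := mul_le_mul_of_nonneg_left h1 (by positivity)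
  have h8 : (m : ℝ) ^ 2 * (ε * ∑' p, Szf.lp ε p) ≤ (m : ℝ) ^ 2 * (1 + κ) :=
    mul_le_mul_of_nonneg_left he1 (by positivity)
  nlinarith

/-- The main theorem, in the form of a contradiction, for given `u`, `dd`. -/
theorem main_core_u (n m G : ℕ) (u Q' ρ c₀ r₀ : ℝ) (dd : ℝ → ℝ) (hu : 0 ≤ u) (hρ : 0 < ρ)
    (hc₀ : 0 < c₀) (hr₀ : 0 < r₀) (hd0 : ∀ x, 0 ≤ dd x) (hd : ∀ x (k : ℤ), dd x ≤ (k + u * x) ^ 2)
    (hfin : (G : ℝ) - 2 * u * m + Q' ≤ -ρ) :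
    ∃ θ : ℝ, 0 < θ ∧ θ ≤ r₀ ∧ ∃ c : ℝ, 0 < c ∧ ∀ (Q : ℤ) (y : ℕ → ℝ), Q ≠ 0 →
      (∀ p, |y p| ≤ 2) → ∀ V₀ : WeierstrassCurve ℚ, Agree ℚ V₀ Q y → ∀ F₀ : ℂ → ℂ,
      Differentiable ℂ F₀ → (∀ s : ℂ, 3 / 2 < s.re → F₀ s = V₀.LSeries s) →
      ∀ (K : Fin m → Type u) [∀ i, Field (K i)] [∀ i, NumberField (K i)],
      (∀ i, Module.finrank ℚ (K i) ≤ n) → ∑ i, ∑ j, Fam.gam (K i) (K j) ≤ m ^ 2 + G →
      ∀ V : (i : Fin m) → WeierstrassCurve (K i), (∀ i, Agree (K i) (V i) Q y) →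
      ∀ F : Fin m → ℂ → ℂ, (∀ i, Differentiable ℂ (F i)) →
      (∀ i, ∀ s : ℂ, 3 / 2 < s.re → F i s = (V i).LSeries s) →
      ∀ δ M : ℝ, 0 < δ → δ ≤ 1 / 2 → 2 ≤ M → |(Q : ℝ)| ≤ M ^ 2 →
      (∀ i, (|NumberField.discr (K i)| : ℝ) ≤ M) →
      (∀ s : ℂ, 3 / 2 - δ ≤ s.re → |s.im| ≤ 1 → ‖F₀ s‖ ≤ M) →
      (∀ i, ∀ s : ℂ, 3 / 2 - δ ≤ s.re → |s.im| ≤ 1 → ‖F i s‖ ≤ M) →
      (∀ i, Szf.Cnt (K i) δ M) → (∀ i j I, Szf.Cnt (Fam.Fac (K i) (K j) I) δ M) →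
      (∀ z : ℂ, ‖z - 3 / 2‖ < c₀ * δ / Zfr.Lg M 0 δ → F₀ z ≠ 0) →
      (∀ ε : ℝ, ε = θ * δ / Zfr.Lg M 0 δ → ε * ∑' p : Nat.Primes, Szf.lp ε p *
        ((u * y p) ^ 2 - dd (y p)) ≤ Q') →
      ∃ i, ∀ β : ℝ, 3 / 2 - c * δ / Zfr.Lg M 0 δ < β → F i β ≠ 0 := by
  classical
  set κ : ℝ := min (ρ / (2 * (1 + 3 * (m : ℝ) ^ 2 + 4 * u * m))) 1 with hκ
  have hden : 0 < 1 + 3 * (m : ℝ) ^ 2 + 4 * u * m := by positivity
  have hκ0 : 0 < κ := by positivity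
  have hκ1 : κ ≤ 1 := min_le_right _ _
  have hκ2 : κ * (1 + 3 * (m : ℝ) ^ 2 + 4 * u * m) ≤ ρ / 2 := by
    have h : κ ≤ ρ / (2 * (1 + 3 * (m : ℝ) ^ 2 + 4 * u * m)) := min_le_left _ _
    rw [le_div_iff₀ (by positivity)] at h
    linarith
  -- the larger scale
  obtain ⟨θA, hθA, hA⟩ := Szf.exists_uniform (fun d => Szf.many_places.{u} d) n
  obtain ⟨θB, hθB, hB⟩ := Szf.exists_uniform (fun d => Szf.lower_primes.{u} d κ hκ0) n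
  set θ₂ : ℝ := min θA θB with hθ₂
  have hθ₂0 : 0 < θ₂ := by positivity
  have hA2 := hA θ₂ hθ₂0 (min_le_left _ _)
  have hB2 := hB θ₂ hθ₂0 (min_le_right _ _)
  -- the smaller scale
  obtain ⟨θC, hθC, hC⟩ := Szf.exists_uniform (P := fun d θ => d ≤ n →
    ∀ (K : Type u) [Field K] [NumberField K], Module.finrank ℚ K = d →
    ∀ δ M : ℝ, 0 < δ → δ ≤ 1 / 2 → 2 ≤ M → Szf.Cnt K δ M →
    ∀ ε₁ : ℝ, ε₁ = θ₂ * δ / Zfr.Lg M 0 δ →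
    2 / 5 ≤ ∑' v : HeightOneSpectrum (𝓞 K), ε₁ * (Real.log (nrm v) * nrm v ^ (-(1 + ε₁))) →
    ∀ ε : ℝ, ε = θ * δ / Zfr.Lg M 0 δ → 1 - κ ≤ ε * ∑' p, Szf.lp ε p * Fam.homCount K p)
    (fun d => by
      by_cases hdn : d ≤ n
      · obtain ⟨θ₀, h1, h2⟩ := hB2 d hdn
        exact ⟨θ₀, h1, fun θ h3 h4 _ => h2 θ h3 h4⟩
      · exact ⟨1, one_pos, fun θ _ _ h => absurd h hdn⟩) n
  obtain ⟨θD, hθD, hDm⟩ := Szf.mul_upper.{u} n (κ / ((m : ℝ) ^ 2 + 1)) (by positivity)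
  obtain ⟨θE, hθE, hE⟩ := Szf.exists_uniform (fun d => zero_primes_u.{u} d (κ / 4)
    (by positivity) (by linarith)) n
  obtain ⟨θF, hθF, hF0⟩ := small_primes_u.{0} 1 c₀ κ hc₀ hκ0
  -- everything over the rationals
  have hev := Szf.rat_one κ hκ0
  rw [eventually_nhdsWithin_iff, Metric.eventually_nhds_iff] at hev
  obtain ⟨r, hr, hev⟩ := hev
  set θ : ℝ := min (min (min (min θC θD) (min θE θ₂)) (min θF (r / 2))) r₀ with hθdef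
  have hθ0 : 0 < θ := by positivity
  have hθ' : θ ≤ min (min (min θC θD) (min θE θ₂)) (min θF (r / 2)) := min_le_left _ _
  have hθC' : θ ≤ θC := hθ'.trans (((min_le_left _ _).trans (min_le_left _ _)).trans
    (min_le_left _ _))
  have hθD' : θ ≤ θD := hθ'.trans (((min_le_left _ _).trans (min_le_left _ _)).trans
    (min_le_right _ _))
  have hθE' : θ ≤ θE := hθ'.trans (((min_le_left _ _).trans (min_le_right _ _)).trans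
    (min_le_left _ _))
  have hθ₂' : θ ≤ θ₂ := hθ'.trans (((min_le_left _ _).trans (min_le_right _ _)).trans
    (min_le_right _ _))
  have hθF' : θ ≤ θF := hθ'.trans ((min_le_right _ _).trans (min_le_left _ _))
  have hθr : θ ≤ r / 2 := hθ'.trans ((min_le_right _ _).trans (min_le_right _ _))
  refine ⟨θ, hθ0, min_le_right _ _, min (κ / 4) (1 / 20) * θ, by positivity, ?_⟩
  intro Q y hQ hy V₀ hag₀ F₀ hF₀ hFL₀ K _ _ hdeg hgam V hag F hF hFL δ M hδ hδ1 hM hQM hdisc hFM₀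
    hFM hcnt hcnt2 hnz hsp
  by_contra hcon
  push Not at hcon
  choose β hβ hβ0 using hcon
  have hL2 := Zfr.two_le_Lg hδ hδ1 (le_refl (0 : ℝ)) hM
  set Λ := Zfr.Lg M 0 δ with hΛ
  have hΛ0 : 0 < Λ := by linarith
  set ε : ℝ := θ * δ / Λ with hε
  set ε₁ : ℝ := θ₂ * δ / Λ with hε₁
  obtain ⟨hε0, hεθ⟩ := Szf.scale hθ0 hδ hδ1 hM hε
  obtain ⟨hε₁0, -⟩ := Szf.scale hθ₂0 hδ hδ1 hM hε₁
  have hεε : ε ≤ ε₁ := by
    rw [hε, hε₁]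
    exact div_le_div_of_nonneg_right (mul_le_mul_of_nonneg_right hθ₂' hδ.le) hΛ0.le
  have hcε : min (κ / 4) (1 / 20) * θ * δ / Λ = min (κ / 4) (1 / 20) * ε := by
    rw [hε]; ring
  have hβ1 : ∀ i, 3 / 2 - κ / 4 * ε ≤ β i := by
    intro i
    have h1 := hβ i
    rw [hcε] at h1
    have h2 : min (κ / 4) (1 / 20) * ε ≤ κ / 4 * ε :=
      mul_le_mul_of_nonneg_right (min_le_left _ _) hε0.le
    linarith
  have hβ2 : ∀ i, 3 / 2 - 1 / 20 * ε₁ ≤ β i := by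
    intro i
    have h1 := hβ i
    rw [hcε] at h1
    have h2 : min (κ / 4) (1 / 20) * ε ≤ 1 / 20 * ε₁ :=
      mul_le_mul (min_le_right _ _) hεε hε0.le (by norm_num)
    linarith
  have hεr : dist ε 0 < r := by
    rw [Real.dist_eq, sub_zero, abs_of_pos hε0]
    linarith
  have he1 := hev hεr hε0
  have he3 := hsp ε rfl
  have e0 : ∀ f : Nat.Primes → ℝ, (∑' p : Nat.Primes, Szf.lp ε p * (Fam.homCount ℚ p * f p)) =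
      ∑' p : Nat.Primes, Szf.lp ε p * f p := by
    intro f
    refine tsum_congr fun p => ?_
    rw [Fam.homCount_rat, Nat.cast_one, one_mul]
  have he2 : -κ ≤ ε * ∑' p : Nat.Primes, Szf.lp ε p * y p := by
    have h1 := hF0 θ hθ0 hθF' ℚ (Module.finrank_self ℚ) V₀ Q y hQ hy hag₀ F₀ hF₀ hFL₀ δ M hδ hδ1
      hM hQM hFM₀ (cnt_rat hδ1 hM) hnz ε hε
    rw [e0 (fun p => y p)] at h1
    exact (abs_le.1 h1).1
  have e1 : ∀ i, 1 - κ ≤ ε * ∑' p, Szf.lp ε p * Fam.homCount (K i) p := by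
    intro i
    refine hC θ hθ0 hθC' _ (hdeg i) (hdeg i) (K i) rfl δ M hδ hδ1 hM (hcnt i) ε₁ hε₁ ?_ ε hε
    exact hA2 _ (hdeg i) (K i) (V i) rfl (F i) (hF i) (hFL i) δ M hδ hδ1 hM
      (hFM i) (hcnt i) ε₁ hε₁ (β i) (hβ0 i) (hβ2 i)
  have e2 : ∀ i, ε * ∑' p : Nat.Primes, Szf.lp ε p * (Fam.homCount (K i) p * y p) ≤
      -1 + κ := by
    intro i
    have h := hE θ hθ0 hθE' _ (hdeg i) (K i) rfl (V i) Q y hQ hy (hag i) (F i) (hF i) (hFL i) δ M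
      hδ hδ1 hM hQM (hFM i) (hcnt i) ε hε (β i) (hβ0 i) (by rw [Complex.ofReal_re]; exact hβ1 i)
      (by rw [Complex.ofReal_im, abs_zero]; positivity)
    linarith
  have e3 : ∀ i j, ε * ∑' p : Nat.Primes, Szf.lp ε p *
      ((Fam.homCount (K i) p : ℝ) * Fam.homCount (K j) p) ≤
      Fam.gam (K i) (K j) + κ / ((m : ℝ) ^ 2 + 1) := fun i j =>
    hDm θ hθ0 hθD' (K i) (K j) (hdeg i) (hdeg j) δ M hδ hδ1 hM (hdisc j) (hcnt2 i j) ε hε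
  -- rewriting with the weight `ε lp`
  have hw : ∀ f : Nat.Primes → ℝ, (∑' p, ε * Szf.lp ε p * f p) = ε * ∑' p, Szf.lp ε p * f p := by
    intro f
    rw [← tsum_mul_left]
    exact tsum_congr fun p => by ring
  have key := Szf.core (m := m) (fun p => ε * Szf.lp ε p)
    (fun p : Nat.Primes => y p)
    (fun p : Nat.Primes => dd (y p))
    (fun i (p : Nat.Primes) => Fam.homCount (K i) p) n 2 κ G
    u Q' (fun p => mul_nonneg hε0.le (Szf.lp_nonneg ε p)) ((Szf.summable_lp hε0).mul_left ε)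
    (fun p => hy p) (fun i p => (Szf.homCount_le' (K i) p).trans (by exact_mod_cast hdeg i)) hu
    (fun p => hd0 _) (fun p k => hd _ k) (by rw [tsum_mul_left]; exact he1)
    (fun i => by rw [hw]; exact e1 i) (by
      have h1 : (∑ i, ∑ j, ∑' p : Nat.Primes, ε * Szf.lp ε p *
          ((Fam.homCount (K i) p : ℝ) * Fam.homCount (K j) p)) ≤
          ∑ i : Fin m, ∑ j : Fin m, ((Fam.gam (K i) (K j) : ℝ) + κ / ((m : ℝ) ^ 2 + 1)) :=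
        Finset.sum_le_sum fun i _ => Finset.sum_le_sum fun j _ => by rw [hw]; exact e3 i j
      refine h1.trans ?_
      have h2 : (∑ i : Fin m, ∑ j : Fin m, ((Fam.gam (K i) (K j) : ℝ) + κ / ((m : ℝ) ^ 2 + 1))) =
          ((∑ i, ∑ j, Fam.gam (K i) (K j) : ℕ) : ℝ) + (m : ℝ) ^ 2 * (κ / ((m : ℝ) ^ 2 + 1)) := by
        simp only [Finset.sum_add_distrib, Finset.sum_const, Finset.card_univ, Fintype.card_fin,
          nsmul_eq_mul]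
        push_cast
        ring
      rw [h2]
      have h3 : ((∑ i, ∑ j, Fam.gam (K i) (K j) : ℕ) : ℝ) ≤ (m : ℝ) ^ 2 + G := by
        exact_mod_cast hgam
      have h4 : (m : ℝ) ^ 2 * (κ / ((m : ℝ) ^ 2 + 1)) ≤ κ := by
        rw [mul_div_assoc', div_le_iff₀ (by positivity)]
        nlinarith
      linarith)
    (fun i => by rw [hw]; exact e2 i) (by rw [hw]; exact he2) (by rw [hw]; exact he3)
  linarith

/-- **Main theorem.** -/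
theorem siegel_u (n m G : ℕ) (η c₀ : ℝ) (hη : 0 < η) (hc₀ : 0 < c₀) :
    ∃ c : ℝ, 0 < c ∧ c ≤ 1 ∧ ∀ (Q : ℤ) (y : ℕ → ℝ), Q ≠ 0 → (∀ p, |y p| ≤ 2) →
      ∀ V₀ : WeierstrassCurve ℚ, Agree ℚ V₀ Q y → ∀ F₀ : ℂ → ℂ,
      Differentiable ℂ F₀ → (∀ s : ℂ, 3 / 2 < s.re → F₀ s = V₀.LSeries s) →
      ∀ (K : Fin m → Type u) [∀ i, Field (K i)] [∀ i, NumberField (K i)],
      (∀ i, Module.finrank ℚ (K i) ≤ n) → ∑ i, ∑ j, Fam.gam (K i) (K j) ≤ m ^ 2 + G →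
      ∀ V : (i : Fin m) → WeierstrassCurve (K i), (∀ i, Agree (K i) (V i) Q y) →
      ∀ F : Fin m → ℂ → ℂ, (∀ i, Differentiable ℂ (F i)) →
      (∀ i, ∀ s : ℂ, 3 / 2 < s.re → F i s = (V i).LSeries s) →
      ∀ δ M : ℝ, 0 < δ → δ ≤ 1 / 2 → 2 ≤ M → |(Q : ℝ)| ≤ M ^ 2 →
      (∀ i, (|NumberField.discr (K i)| : ℝ) ≤ M) →
      (∀ s : ℂ, 3 / 2 - δ ≤ s.re → |s.im| ≤ 1 → ‖F₀ s‖ ≤ M) →
      (∀ i, ∀ s : ℂ, 3 / 2 - δ ≤ s.re → |s.im| ≤ 1 → ‖F i s‖ ≤ M) →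
      (∀ i, Szf.Cnt (K i) δ M) → (∀ i j I, Szf.Cnt (Fam.Fac (K i) (K j) I) δ M) →
      ((∀ z : ℂ, ‖z - 3 / 2‖ < c₀ * δ / Zfr.Lg M 0 δ → F₀ z ≠ 0) ∧ 4 * G < m ^ 2) ∨
      (G ≤ m ^ 2 ∧ ∀ ε : ℝ, c * δ / Zfr.Lg M 0 δ ≤ ε → ε ≤ δ / Zfr.Lg M 0 δ →
        ε * ∑' p : Nat.Primes, Szf.lp ε p * ((m * y p) ^ 2 - Szf.dz (m * y p)) ≤
          (m : ℝ) ^ 2 - η) →
      ∃ i, ∀ β : ℝ, 3 / 2 - c * δ / Zfr.Lg M 0 δ < β → F i β ≠ 0 := by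
  -- the first case
  obtain ⟨c₁, hc₁, h1⟩ : ∃ c : ℝ, 0 < c ∧ (4 * G < m ^ 2 → ∀ (Q : ℤ) (y : ℕ → ℝ), Q ≠ 0 →
      (∀ p, |y p| ≤ 2) →
      ∀ V₀ : WeierstrassCurve ℚ, Agree ℚ V₀ Q y → ∀ F₀ : ℂ → ℂ,
      Differentiable ℂ F₀ → (∀ s : ℂ, 3 / 2 < s.re → F₀ s = V₀.LSeries s) →
      ∀ (K : Fin m → Type u) [∀ i, Field (K i)] [∀ i, NumberField (K i)],
      (∀ i, Module.finrank ℚ (K i) ≤ n) → ∑ i, ∑ j, Fam.gam (K i) (K j) ≤ m ^ 2 + G →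
      ∀ V : (i : Fin m) → WeierstrassCurve (K i), (∀ i, Agree (K i) (V i) Q y) →
      ∀ F : Fin m → ℂ → ℂ, (∀ i, Differentiable ℂ (F i)) →
      (∀ i, ∀ s : ℂ, 3 / 2 < s.re → F i s = (V i).LSeries s) →
      ∀ δ M : ℝ, 0 < δ → δ ≤ 1 / 2 → 2 ≤ M → |(Q : ℝ)| ≤ M ^ 2 →
      (∀ i, (|NumberField.discr (K i)| : ℝ) ≤ M) →
      (∀ s : ℂ, 3 / 2 - δ ≤ s.re → |s.im| ≤ 1 → ‖F₀ s‖ ≤ M) →
      (∀ i, ∀ s : ℂ, 3 / 2 - δ ≤ s.re → |s.im| ≤ 1 → ‖F i s‖ ≤ M) →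
      (∀ i, Szf.Cnt (K i) δ M) → (∀ i j I, Szf.Cnt (Fam.Fac (K i) (K j) I) δ M) →
      (∀ z : ℂ, ‖z - 3 / 2‖ < c₀ * δ / Zfr.Lg M 0 δ → F₀ z ≠ 0) →
      ∃ i, ∀ β : ℝ, 3 / 2 - c * δ / Zfr.Lg M 0 δ < β → F i β ≠ 0) := by
    by_cases hG : 4 * G < m ^ 2
    · have hG' : (4 : ℝ) * G + 1 ≤ (m : ℝ) ^ 2 := by exact_mod_cast hG
      have hev := Szf.rat_one (1 / (2 * ((m : ℝ) ^ 2 + 1))) (by positivity)
      rw [eventually_nhdsWithin_iff, Metric.eventually_nhds_iff] at hev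
      obtain ⟨r, hr, hev⟩ := hev
      obtain ⟨θ, hθ0, hθr, c, hc, h⟩ := main_core_u.{u} n m G (m / 4) ((m : ℝ) ^ 2 / 4 + 1 / 8)
        (1 / 8) c₀ (r / 2) (fun _ => 0) (by positivity) (by norm_num) hc₀ (by positivity)
        (fun _ => le_rfl) (fun _ _ => sq_nonneg _) (by
          have : (G : ℝ) - 2 * (m / 4) * m + ((m : ℝ) ^ 2 / 4 + 1 / 8) =
              G - (m : ℝ) ^ 2 / 4 + 1 / 8 := by ring
          rw [this]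
          linarith)
      refine ⟨c, hc, fun _ => ?_⟩
      intro Q y hQ hy V₀ hag₀ F₀ hF₀ hFL₀ K _ _ hdeg hgam V hag F hF hFL δ M hδ hδ1 hM hQM hdisc
        hFM₀ hFM hcnt hcnt2 hnz
      refine h Q y hQ hy V₀ hag₀ F₀ hF₀ hFL₀ K hdeg hgam V hag F hF hFL δ M hδ hδ1 hM hQM hdisc
        hFM₀ hFM hcnt hcnt2 hnz ?_
      intro ε hε
      obtain ⟨hε0, hεθ⟩ := Szf.scale hθ0 hδ hδ1 hM hε
      have he := hev (y := ε) (by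
        rw [Real.dist_eq, sub_zero, abs_of_pos hε0]
        linarith) hε0
      have h2 : (∑' p : Nat.Primes, Szf.lp ε p * (((m : ℝ) / 4 * y p) ^ 2 - 0)) ≤
          (m : ℝ) ^ 2 / 4 * ∑' p, Szf.lp ε p := by
        rw [← tsum_mul_left]
        have h3 : ∀ p : Nat.Primes, Szf.lp ε p * (((m : ℝ) / 4 * y p) ^ 2 - 0) ≤
            (m : ℝ) ^ 2 / 4 * Szf.lp ε p := by
          intro p
          have h4 : y p ^ 2 ≤ 4 := by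
            rw [← sq_abs]
            nlinarith [hy p, abs_nonneg (y p)]
          have h5 : ((m : ℝ) / 4 * y p) ^ 2 - 0 ≤ (m : ℝ) ^ 2 / 4 := by
            have e : ((m : ℝ) / 4 * y p) ^ 2 - 0 = (m : ℝ) ^ 2 / 16 * y p ^ 2 := by ring
            rw [e]
            have := mul_le_mul_of_nonneg_left h4 (by positivity : 0 ≤ (m : ℝ) ^ 2 / 16)
            linarith
          rw [mul_comm]
          exact mul_le_mul_of_nonneg_right h5 (Szf.lp_nonneg ε p)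
        refine Summable.tsum_le_tsum h3 ?_ ((Szf.summable_lp hε0).mul_left _)
        refine Summable.of_nonneg_of_le (fun p => ?_) h3 ((Szf.summable_lp hε0).mul_left _)
        exact mul_nonneg (Szf.lp_nonneg ε p) (by rw [sub_zero]; positivity)
      calc ε * (∑' p : Nat.Primes, Szf.lp ε p * (((m : ℝ) / 4 * y p) ^ 2 - 0))
          ≤ ε * ((m : ℝ) ^ 2 / 4 * ∑' p, Szf.lp ε p) := mul_le_mul_of_nonneg_left h2 hε0.le
        _ = (m : ℝ) ^ 2 / 4 * (ε * ∑' p, Szf.lp ε p) := by ring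
        _ ≤ (m : ℝ) ^ 2 / 4 * (1 + 1 / (2 * ((m : ℝ) ^ 2 + 1))) :=
            mul_le_mul_of_nonneg_left he (by positivity)
        _ = (m : ℝ) ^ 2 / 4 + 1 / 8 * ((m : ℝ) ^ 2 / ((m : ℝ) ^ 2 + 1)) := by field_simp; ring
        _ ≤ (m : ℝ) ^ 2 / 4 + 1 / 8 := by
            have : (m : ℝ) ^ 2 / ((m : ℝ) ^ 2 + 1) ≤ 1 := by
              rw [div_le_one (by positivity)]; linarith
            linarith
    · exact ⟨1, one_pos, fun h => absurd h hG⟩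
  -- the second case
  obtain ⟨θ₂, hθ₂0, hθ₂1, θ₃, hθ₃0, hθ₃1, c₂, hc₂, h2⟩ : ∃ θ₂ : ℝ, 0 < θ₂ ∧ θ₂ ≤ 1 ∧
      ∃ θ₃ : ℝ, 0 < θ₃ ∧ θ₃ ≤ 1 ∧ ∃ c : ℝ, 0 < c ∧
      (G ≤ m ^ 2 → ∀ (Q : ℤ) (y : ℕ → ℝ), Q ≠ 0 → (∀ p, |y p| ≤ 2) →
      ∀ V₀ : WeierstrassCurve ℚ, Agree ℚ V₀ Q y → ∀ F₀ : ℂ → ℂ,
      Differentiable ℂ F₀ → (∀ s : ℂ, 3 / 2 < s.re → F₀ s = V₀.LSeries s) →
      ∀ (K : Fin m → Type u) [∀ i, Field (K i)] [∀ i, NumberField (K i)],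
      (∀ i, Module.finrank ℚ (K i) ≤ n) → ∑ i, ∑ j, Fam.gam (K i) (K j) ≤ m ^ 2 + G →
      ∀ V : (i : Fin m) → WeierstrassCurve (K i), (∀ i, Agree (K i) (V i) Q y) →
      ∀ F : Fin m → ℂ → ℂ, (∀ i, Differentiable ℂ (F i)) →
      (∀ i, ∀ s : ℂ, 3 / 2 < s.re → F i s = (V i).LSeries s) →
      ∀ δ M : ℝ, 0 < δ → δ ≤ 1 / 2 → 2 ≤ M → |(Q : ℝ)| ≤ M ^ 2 →
      (∀ i, (|NumberField.discr (K i)| : ℝ) ≤ M) →
      (∀ s : ℂ, 3 / 2 - δ ≤ s.re → |s.im| ≤ 1 → ‖F₀ s‖ ≤ M) →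
      (∀ i, ∀ s : ℂ, 3 / 2 - δ ≤ s.re → |s.im| ≤ 1 → ‖F i s‖ ≤ M) →
      (∀ i, Szf.Cnt (K i) δ M) → (∀ i j I, Szf.Cnt (Fam.Fac (K i) (K j) I) δ M) →
      (∀ ε : ℝ, ε = θ₂ * δ / Zfr.Lg M 0 δ → ε * ∑' p : Nat.Primes, Szf.lp ε p *
        ((m * y p) ^ 2 - Szf.dz (m * y p)) ≤ (m : ℝ) ^ 2 - η) →
      (∀ ε : ℝ, ε = θ₃ * δ / Zfr.Lg M 0 δ → ε * ∑' p : Nat.Primes, Szf.lp ε p *
        ((m * y p) ^ 2 - Szf.dz (m * y p)) ≤ (m : ℝ) ^ 2 - η) →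
      ∃ i, ∀ β : ℝ, 3 / 2 - c * δ / Zfr.Lg M 0 δ < β → F i β ≠ 0) := by
    by_cases hG : G ≤ m ^ 2
    · have hG' : (G : ℝ) ≤ (m : ℝ) ^ 2 := by exact_mod_cast hG
      obtain ⟨c', hc', θ', hθ'0, hθ'1, hnz⟩ := no_zero_u m η hη
      obtain ⟨θ, hθ0, hθ1, c, hc, h⟩ := main_core_u.{u} n m G m ((m : ℝ) ^ 2 - η)
        η c' 1 (fun x => Szf.dz (m * x)) (by positivity) hη hc' one_pos
        (fun _ => Szf.dz_nonneg _) (fun x k => Szf.dz_le _ k) (by nlinarith)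
      refine ⟨θ', hθ'0, hθ'1, θ, hθ0, hθ1, c, hc, fun _ => ?_⟩
      intro Q y hQ hy V₀ hag₀ F₀ hF₀ hFL₀ K _ _ hdeg hgam V hag F hF hFL δ M hδ hδ1 hM hQM hdisc
        hFM₀ hFM hcnt hcnt2 hsp hsp'
      exact h Q y hQ hy V₀ hag₀ F₀ hF₀ hFL₀ K hdeg hgam V hag F hF hFL δ M hδ hδ1 hM hQM hdisc
        hFM₀ hFM hcnt hcnt2 (hnz V₀ Q y hQ hy hag₀ F₀ hF₀ hFL₀ δ M hδ hδ1 hM hQM hFM₀ hsp) hsp'
    · exact ⟨1, one_pos, le_rfl, 1, one_pos, le_rfl, 1, one_pos, fun h => absurd h hG⟩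
  -- the constant
  refine ⟨min (min c₁ c₂) (min (min θ₂ θ₃) 1), by positivity, (min_le_right _ _).trans
    (min_le_right _ _), ?_⟩
  intro Q y hQ hy V₀ hag₀ F₀ hF₀ hFL₀ K _ _ hdeg hgam V hag F hF hFL δ M hδ hδ1 hM hQM hdisc hFM₀
    hFM hcnt hcnt2 hyp
  set c := min (min c₁ c₂) (min (min θ₂ θ₃) 1) with hc
  have hL2 := Zfr.two_le_Lg hδ hδ1 (le_refl (0 : ℝ)) hM
  have hmono : ∀ c' c'' : ℝ, c' ≤ c'' → c' * δ / Zfr.Lg M 0 δ ≤ c'' * δ / Zfr.Lg M 0 δ :=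
    fun c' c'' hc' => div_le_div_of_nonneg_right (mul_le_mul_of_nonneg_right hc' hδ.le)
      (by linarith)
  have hone : ∀ θ : ℝ, θ ≤ 1 → θ * δ / Zfr.Lg M 0 δ ≤ δ / Zfr.Lg M 0 δ := by
    intro θ hθ
    have := hmono θ 1 hθ
    rwa [one_mul] at this
  rcases hyp with ⟨hnz, hG⟩ | ⟨hG, hsp⟩
  · obtain ⟨i, hi⟩ := h1 hG Q y hQ hy V₀ hag₀ F₀ hF₀ hFL₀ K hdeg hgam V hag F hF hFL δ M hδ hδ1 hM
      hQM hdisc hFM₀ hFM hcnt hcnt2 hnz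
    exact ⟨i, fun β hβ => hi β (by
      have := hmono c c₁ ((min_le_left _ _).trans (min_le_left _ _)); linarith)⟩
  · obtain ⟨i, hi⟩ := h2 hG Q y hQ hy V₀ hag₀ F₀ hF₀ hFL₀ K hdeg hgam V hag F hF hFL δ M hδ hδ1 hM
      hQM hdisc hFM₀ hFM hcnt hcnt2
      (fun ε hε => hsp ε (by
        rw [hε]
        exact hmono _ _ ((min_le_right _ _).trans ((min_le_left _ _).trans (min_le_left _ _))))
        (by rw [hε]; exact hone _ hθ₂1))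
      (fun ε hε => hsp ε (by
        rw [hε]
        exact hmono _ _ ((min_le_right _ _).trans ((min_le_left _ _).trans (min_le_right _ _))))
        (by rw [hε]; exact hone _ hθ₃1))
    exact ⟨i, fun β hβ => hi β (by
      have := hmono c c₂ ((min_le_left _ _).trans (min_le_right _ _)); linarith)⟩

end Pool.Agent.MPfb225e.Tw
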